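import Pool.Agent.RR.Defs

/-!
# Project RR: the symbol ring modulo 2 (row RR-1)
-/

set_option autoImplicit false

namespace Pool.Agent.RR

open MvPolynomial

section
variable {F L : Type} [Field F] [Field L]

private theorem sy_of_ne {a : F} (h : a ≠ 0) :
    sy a = Ideal.Quotient.mk (Ideal.span (symSet F)) (X (Units.mk0 a h)) := by
  unfold sy
  rw [dif_neg h]

private theorem sy_unit (u : Fˣ) :
    sy (u : F) = Ideal.Quotient.mk (Ideal.span (symSet F)) (X u) := by
  rw [sy_of_ne u.ne_zero]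
  simp

theorem sy_zero : sy (0 : F) = 0 := by
  unfold sy
  rw [dif_pos rfl]

theorem sy_mul {a b : F} (ha : a ≠ 0) (hb : b ≠ 0) : sy (a * b) = sy a + sy b := by
  rw [sy_of_ne ha, sy_of_ne hb, sy_of_ne (mul_ne_zero ha hb)]
  have h : (X (Units.mk0 a ha * Units.mk0 b hb) - X (Units.mk0 a ha) - X (Units.mk0 b hb) :
      MvPolynomial Fˣ (ZMod 2)) ∈ Ideal.span (symSet F) :=
    Ideal.subset_span (Or.inl ⟨_, _, rfl⟩)
  have h1 := Ideal.Quotient.eq_zero_iff_mem.2 h
  rw [map_sub, map_sub, sub_sub, sub_eq_zero] at h1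
  rw [← h1]
  congr 2
  ext
  simp

theorem sy_one : sy (1 : F) = 0 := by
  have h := sy_mul (F := F) one_ne_zero one_ne_zero
  rw [mul_one] at h
  exact left_eq_add.1 h

theorem sy_add_self (x : Sym F) : x + x = 0 := by
  have h : (1 : Sym F) + 1 = 0 := by
    have h1 : algebraMap (ZMod 2) (Sym F) (1 + 1) = 0 := by
      rw [show (1 : ZMod 2) + 1 = 0 from rfl, map_zero]
    rwa [map_add, map_one] at h1
  calc x + x = (1 + 1) * x := by ring
    _ = 0 := by rw [h, zero_mul]

private theorem sy_neg_one : sy (-1 : F) = 0 := by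
  have h : (X (-1) : MvPolynomial Fˣ (ZMod 2)) ∈ Ideal.span (symSet F) :=
    Ideal.subset_span (Or.inr (Or.inr rfl))
  have h1 := Ideal.Quotient.eq_zero_iff_mem.2 h
  rw [← sy_unit] at h1
  simpa using h1

theorem sy_neg (a : F) : sy (-a) = sy a := by
  by_cases ha : a = 0
  · rw [ha, neg_zero]
  · rw [← neg_one_mul, sy_mul (neg_ne_zero.2 one_ne_zero) ha, sy_neg_one, zero_add]

private theorem eq_of_add_eq_zero' {x y : Sym F} (h : x + y = 0) : x = y := by
  calc x = x + (y + y) := by rw [sy_add_self, add_zero]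
    _ = (x + y) + y := by ring
    _ = y := by rw [h, zero_add]

theorem sy_inv (a : F) : sy a⁻¹ = sy a := by
  by_cases ha : a = 0
  · rw [ha, inv_zero]
  · refine (eq_of_add_eq_zero' ?_).symm
    rw [← sy_mul ha (inv_ne_zero ha), mul_inv_cancel₀ ha, sy_one]

theorem sy_div {a b : F} (ha : a ≠ 0) (hb : b ≠ 0) : sy (a / b) = sy a + sy b := by
  rw [div_eq_mul_inv, sy_mul ha (inv_ne_zero hb), sy_inv]

theorem sy_sq (a : F) : sy (a ^ 2) = 0 := by
  by_cases ha : a = 0
  · rw [ha, zero_pow two_ne_zero, sy_zero]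
  · rw [pow_two, sy_mul ha ha, sy_add_self]

theorem sy_isSquare {a : F} (h : IsSquare a) : sy a = 0 := by
  obtain ⟨r, rfl⟩ := h
  rw [← pow_two, sy_sq]

theorem sy_st {a b : F} (h : a + b = 1) : sy a * sy b = 0 := by
  by_cases ha : a = 0
  · rw [ha, sy_zero, zero_mul]
  by_cases hb : b = 0
  · rw [hb, sy_zero, mul_zero]
  rw [sy_of_ne ha, sy_of_ne hb, ← map_mul]
  exact Ideal.Quotient.eq_zero_iff_mem.2
    (Ideal.subset_span (Or.inr (Or.inl ⟨Units.mk0 a ha, Units.mk0 b hb, h, rfl⟩)))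

theorem sy_mul_self (a : F) : sy a * sy a = 0 := by
  by_cases ha : a = 0
  · rw [ha, sy_zero, zero_mul]
  by_cases ha1 : a = 1
  · rw [ha1, sy_one, zero_mul]
  have h1 : (1 : F) - a ≠ 0 := sub_ne_zero.2 (Ne.symm ha1)
  have h2 : (1 : F) - a⁻¹ ≠ 0 := by
    intro h
    apply ha1
    have h3 : a⁻¹ = 1 := (sub_eq_zero.1 h).symm
    rw [← inv_inv a, h3, inv_one]
  have h3 : -a = (1 - a) / (1 - a⁻¹) := by
    rw [eq_div_iff h2, mul_sub, mul_one, neg_mul, mul_inv_cancel₀ ha]
    ring
  have h4 : sy a = sy (1 - a) + sy (1 - a⁻¹) := by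
    rw [← sy_neg a, h3, sy_div h1 h2]
  have h5 : sy a * sy (1 - a) = 0 := sy_st (by ring)
  have h6 : sy a * sy (1 - a⁻¹) = 0 := by
    rw [← sy_inv a]
    exact sy_st (by ring)
  calc sy a * sy a = sy a * (sy (1 - a) + sy (1 - a⁻¹)) := by rw [← h4]
    _ = 0 := by rw [mul_add, h5, h6, add_zero]

theorem sy_st3 {a b c : F} (h : a + b = c) : (sy a + sy c) * (sy b + sy c) = 0 := by
  by_cases hc : c = 0
  · have hab : a = -b := by
      rw [hc] at h
      exact eq_neg_of_add_eq_zero_left h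
    rw [hc, sy_zero, add_zero, add_zero, hab, sy_neg, sy_mul_self]
  by_cases ha : a = 0
  · have hbc : b = c := by rw [← h, ha, zero_add]
    rw [hbc, sy_add_self, mul_zero]
  by_cases hb : b = 0
  · have hac : a = c := by rw [← h, hb, add_zero]
    rw [hac, sy_add_self, zero_mul]
  rw [← sy_div ha hc, ← sy_div hb hc]
  exact sy_st (by rw [← add_div, h, div_self hc])

theorem sy_induction {p : Sym F → Prop} (h0 : p 0) (h1 : p 1) (hs : ∀ a : F, a ≠ 0 → p (sy a))
    (ha : ∀ x y, p x → p y → p (x + y)) (hm : ∀ x y, p x → p y → p (x * y)) : ∀ x, p x := by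
  intro x
  obtain ⟨f, rfl⟩ := Ideal.Quotient.mk_surjective x
  induction f using MvPolynomial.induction_on with
  | C a =>
    have h2 : ∀ a : ZMod 2, a = 0 ∨ a = 1 := by decide
    rcases h2 a with rfl | rfl
    · rw [map_zero, map_zero]; exact h0
    · rw [map_one, map_one]; exact h1
  | add f g hf hg => rw [map_add]; exact ha _ _ hf hg
  | mul_X f u hf =>
    rw [map_mul]
    refine hm _ _ hf ?_
    rw [← sy_unit]
    exact hs _ u.ne_zero

theorem sy_hom_ext {R : Type} [CommRing R] (f g : Sym F →+* R)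
    (h : ∀ a : F, a ≠ 0 → f (sy a) = g (sy a)) : f = g := by
  refine Ideal.Quotient.ringHom_ext (MvPolynomial.ringHom_ext ?_ ?_)
  · intro r
    have h1 : (f.comp (Ideal.Quotient.mk (Ideal.span (symSet F)))).comp C =
        (g.comp (Ideal.Quotient.mk (Ideal.span (symSet F)))).comp C := Subsingleton.elim _ _
    exact congrArg (fun q : ZMod 2 →+* R => q r) h1
  · intro u
    have h1 := h (u : F) u.ne_zero
    rw [sy_unit] at h1
    exact h1

theorem sym_one_ne_zero : (1 : Sym F) ≠ 0 := by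
  intro h
  have h1 : Sym.lift (F := F) (R := ZMod 2) (fun _ => 0) (fun _ _ => by simp)
      (fun _ _ _ => by simp) rfl 1 = 0 := by
    rw [h, map_zero]
  rw [map_one] at h1
  exact one_ne_zero h1

theorem sym_closed (h : ∀ a : F, IsSquare a) (x : Sym F) : x = 0 ∨ x = 1 := by
  refine sy_induction (p := fun x => x = 0 ∨ x = 1) (Or.inl rfl) (Or.inr rfl)
    (fun a _ => Or.inl (sy_isSquare (h a))) ?_ ?_ x
  · rintro x y (rfl | rfl) (rfl | rfl)
    · left; rw [add_zero]
    · right; rw [zero_add]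
    · right; rw [add_zero]
    · left; exact sy_add_self 1
  · rintro x y (rfl | rfl) (rfl | rfl)
    · left; rw [mul_zero]
    · left; rw [zero_mul]
    · left; rw [mul_zero]
    · right; rw [mul_one]

/-- functoriality -/
theorem exists_symMap (f : F →+* L) : ∃ φ : Sym F →+* Sym L, ∀ a, φ (sy a) = sy (f a) := by
  refine ⟨Sym.lift (fun a : Fˣ => sy (f a)) (fun a b => ?_) (fun a b hab => ?_) ?_, fun a => ?_⟩
  · rw [Units.val_mul, map_mul, sy_mul ((map_ne_zero f).2 a.ne_zero)
      ((map_ne_zero f).2 b.ne_zero)]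
  · exact sy_st (by rw [← map_add, hab, map_one])
  · rw [Units.val_neg, Units.val_one, map_neg, map_one, sy_neg, sy_one]
  · by_cases ha : a = 0
    · rw [ha, map_zero, sy_zero, map_zero, sy_zero]
    · rw [Sym.lift_sy _ _ _ _ a ha, Units.val_mk0]

/-- functoriality -/
noncomputable def symMap (f : F →+* L) : Sym F →+* Sym L := (exists_symMap f).choose

theorem symMap_sy (f : F →+* L) (a : F) : symMap f (sy a) = sy (f a) :=
  (exists_symMap f).choose_spec a

end

end Pool.Agent.RR
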