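import Pool.Agent.RR.Defs

/-!
# Project RR (MP_0a3790_ag), RR-21: the ideal of the hypersurface is prime
-/

set_option autoImplicit false

namespace Pool.Agent.RR

open MvPolynomial

namespace PrimeA

/-- the square of the first coordinate can be split off -/
private theorem pf_split {R : Type} [CommRing R] (l : List R) (v : BI l.length → R) :
    pf l v = v (j0 l.length) ^ 2 + pf l (fun j => if j = j0 l.length then 0 else v j) := by
  induction l with
  | nil =>
    show v () ^ 2 = v () ^ 2 + (if (() : Unit) = () then (0 : R) else v ()) ^ 2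
    rw [if_pos rfl]
    ring
  | cons c l ih =>
    show pf l (fun i => v (Sum.inl i)) + c * pf l (fun i => v (Sum.inr i)) =
      v (Sum.inl (j0 l.length)) ^ 2 +
        (pf l (fun i => if (Sum.inl i : BI l.length ⊕ BI l.length) = Sum.inl (j0 l.length)
          then 0 else v (Sum.inl i)) +
        c * pf l (fun i => if (Sum.inr i : BI l.length ⊕ BI l.length) = Sum.inl (j0 l.length)
          then 0 else v (Sum.inr i)))
    have h1 : (fun i => if (Sum.inl i : BI l.length ⊕ BI l.length) = Sum.inl (j0 l.length)
        then (0 : R) else v (Sum.inl i)) = fun i => if i = j0 l.length then 0 else v (Sum.inl i) := by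
      funext i
      by_cases h : i = j0 l.length
      · rw [if_pos h, if_pos (by rw [h])]
      · rw [if_neg h, if_neg (fun h' => h (Sum.inl.inj h'))]
    have h2 : (fun i => if (Sum.inr i : BI l.length ⊕ BI l.length) = Sum.inl (j0 l.length)
        then (0 : R) else v (Sum.inr i)) = fun i => v (Sum.inr i) := by
      funext i
      rw [if_neg (fun h' => by cases h')]
    rw [h1, h2, ih]
    ring

private theorem GG_split {R : Type} [CommRing R] (x : Fin 6 → R) (v : BI 5 → R) :
    GG x v = v (j0 5) ^ 2 + GG x (fun j => if j = j0 5 then 0 else v j) := by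
  unfold GG
  have h := pf_split (sl x) v
  have h' : pf (sl x) v = v (j0 5) ^ 2 +
      pf (sl x) (fun j : BI 5 => if j = j0 5 then (0 : R) else v j) := h
  rw [h']
  ring

private theorem GG_hom {R S : Type} [CommRing R] [CommRing S] (f : R →+* S) (x : Fin 6 → R)
    (v : BI 5 → R) : GG (fun i => f (x i)) (fun j => f (v j)) = f (GG x v) := by
  simp only [GG, hh, sl, pf, gg, dd, SS, DD, cc, map_add, map_sub, map_mul, map_pow, map_one,
    map_ofNat]

/-- the splitting of the first coordinate of the Pfister form -/
private def co : Co ≃ Option Co' where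
  toFun := Sum.elim (fun i => some (Sum.inl i))
    (fun j => if h : j = j0 5 then none else some (Sum.inr ⟨j, h⟩))
  invFun o := o.elim (Sum.inr (j0 5)) (Sum.elim Sum.inl (fun j => Sum.inr j.1))
  left_inv := by
    rintro (i | j)
    · rfl
    · by_cases h : j = j0 5
      · simp only [Sum.elim_inr, dif_pos h, Option.elim]
        rw [h]
      · simp only [Sum.elim_inr, dif_neg h, Option.elim]
  right_inv := by
    rintro (_ | (i | j))
    · simp only [Option.elim, Sum.elim_inr, dif_pos]
    · rfl
    · simp only [Option.elim, Sum.elim_inr, dif_neg j.2]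

variable (k : Type) [Field k]

private noncomputable def eqv : MvPolynomial Co k ≃ₐ[k] Polynomial (MvPolynomial Co' k) :=
  (renameEquiv k co).trans (optionEquivLeft k Co')

private noncomputable def vv : BI 5 → MvPolynomial Co' k :=
  fun j => if h : j = j0 5 then 0 else X (Sum.inr ⟨j, h⟩)

private noncomputable def NN : MvPolynomial Co' k := -(GG (fun i => X (Sum.inl i)) (vv k))

private theorem eqv_GP : eqv k (GP k) = Polynomial.X ^ 2 - Polynomial.C (NN k) := by
  unfold GP
  have h1 := GG_hom (eqv k : MvPolynomial Co k →+* Polynomial (MvPolynomial Co' k))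
    (fun i => X (Sum.inl i)) (fun j => X (Sum.inr j))
  have h2 : ∀ i, (eqv k : MvPolynomial Co k →+* Polynomial (MvPolynomial Co' k))
      (X (Sum.inl i)) = Polynomial.C (X (Sum.inl i)) := by
    intro i
    show optionEquivLeft k Co' (renameEquiv k co (X (Sum.inl i))) = _
    rw [renameEquiv_apply, rename_X]
    exact optionEquivLeft_X_some k Co' (Sum.inl i)
  have h3 : (eqv k : MvPolynomial Co k →+* Polynomial (MvPolynomial Co' k))
      (X (Sum.inr (j0 5))) = Polynomial.X := by
    show optionEquivLeft k Co' (renameEquiv k co (X (Sum.inr (j0 5)))) = _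
    rw [renameEquiv_apply, rename_X]
    have : co (Sum.inr (j0 5)) = none := by
      show (if h : j0 5 = j0 5 then none else some (Sum.inr ⟨j0 5, h⟩)) = none
      rw [dif_pos rfl]
    rw [this]
    exact optionEquivLeft_X_none k Co'
  have h4 : (fun j => if j = j0 5 then 0 else
      (eqv k : MvPolynomial Co k →+* Polynomial (MvPolynomial Co' k)) (X (Sum.inr j))) =
      fun j => (Polynomial.C : MvPolynomial Co' k →+* _) (vv k j) := by
    funext j
    by_cases h : j = j0 5
    · rw [if_pos h, vv, dif_pos h, map_zero]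
    · rw [if_neg h, vv, dif_neg h]
      show optionEquivLeft k Co' (renameEquiv k co (X (Sum.inr j))) = _
      rw [renameEquiv_apply, rename_X]
      have : co (Sum.inr j) = some (Sum.inr ⟨j, h⟩) := by
        show (if h : j = j0 5 then none else
          some (Sum.inr (⟨j, h⟩ : {j : BI 5 // j ≠ j0 5}) : Co')) = some (Sum.inr ⟨j, h⟩)
        rw [dif_neg h]
      rw [this]
      exact optionEquivLeft_X_some k Co' (Sum.inr ⟨j, h⟩)
  have h5 : eqv k (GG (fun i => X (Sum.inl i)) (fun j => X (Sum.inr j))) =
      (eqv k : MvPolynomial Co k →+* Polynomial (MvPolynomial Co' k))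
        (GG (fun i => X (Sum.inl i)) (fun j => X (Sum.inr j))) := rfl
  rw [h5, ← h1, GG_split, h3, h4]
  simp only [h2]
  rw [GG_hom (Polynomial.C : MvPolynomial Co' k →+* Polynomial (MvPolynomial Co' k))]
  unfold NN
  rw [map_neg, sub_neg_eq_add]

/-- the indicator function of the coordinate with the coefficient `x_0` -/
private def ww (R : Type) [CommRing R] : BI 5 → R :=
  Sum.elim (Sum.elim (fun _ => 0) (Sum.elim (Sum.elim (Sum.elim (fun _ => 1) (fun _ => 0))
    (fun _ => 0)) (fun _ => 0))) (fun _ => 0)

private theorem pf_zero {R : Type} [CommRing R] (l : List R) : pf l (fun _ => (0 : R)) = 0 := by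
  induction l with
  | nil =>
    show (0 : R) ^ 2 = 0
    ring
  | cons c l ih =>
    show pf l (fun _ => (0 : R)) + c * pf l (fun _ => (0 : R)) = 0
    rw [ih]
    ring

private theorem GG_ww {R : Type} [CommRing R] (t : R) :
    GG (fun i : Fin 6 => if i = 0 then t else 0) (ww R) = t := by
  have e : ∀ c0 c1 c2 c3 c4 : R, pf [c0, c1, c2, c3, c4] (ww R) = c1 := by
    intro c0 c1 c2 c3 c4
    have h : pf [c0, c1, c2, c3, c4] (ww R) = (pf [c2, c3, c4] (fun _ => (0 : R)) +
        c1 * ((((1 : R) ^ 2 + c4 * (0 : R) ^ 2) + c3 * pf [c4] (fun _ => (0 : R))) +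
          c2 * pf [c3, c4] (fun _ => (0 : R)))) + c0 * pf [c1, c2, c3, c4] (fun _ => (0 : R)) := rfl
    rw [h]
    simp only [pf_zero]
    ring
  unfold GG sl
  rw [e]
  simp [hh, dd, DD, SS, cc]

private theorem NN_not_sq (a : MvPolynomial Co' k) : a ^ 2 ≠ NN k := by
  intro h
  -- the test point
  obtain ⟨f, hf⟩ : ∃ f : Co' → Polynomial k, f = Sum.elim
      (fun i => if i = 0 then Polynomial.X else 0)
      (fun j => ww (Polynomial k) j.1) := ⟨_, rfl⟩
  have h1 := congrArg (aeval f : MvPolynomial Co' k →ₐ[k] Polynomial k) h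
  have h2 : (aeval f : MvPolynomial Co' k →ₐ[k] Polynomial k) (NN k) = -Polynomial.X := by
    unfold NN
    rw [map_neg]
    congr 1
    have h3 := GG_hom ((aeval f : MvPolynomial Co' k →ₐ[k] Polynomial k) :
      MvPolynomial Co' k →+* Polynomial k) (fun i => X (Sum.inl i)) (vv k)
    refine Eq.trans h3.symm ?_
    have h4 : ∀ i, ((aeval f : MvPolynomial Co' k →ₐ[k] Polynomial k) :
        MvPolynomial Co' k →+* Polynomial k) (X (Sum.inl i)) = if i = 0 then Polynomial.X else 0 := by
      intro i
      show aeval f (X (Sum.inl i)) = _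
      rw [aeval_X, hf]
      rfl
    have h5 : ∀ j, ((aeval f : MvPolynomial Co' k →ₐ[k] Polynomial k) :
        MvPolynomial Co' k →+* Polynomial k) (vv k j) =
        ww (Polynomial k) j := by
      intro j
      show aeval f (vv k j) = _
      by_cases hj : j = j0 5
      · rw [vv, dif_pos hj, map_zero, hj]
        rfl
      · rw [vv, dif_neg hj, aeval_X, hf]
        rfl
    simp only [h4, h5]
    exact GG_ww Polynomial.X
  rw [h2, map_pow] at h1
  have h6 := congrArg Polynomial.natDegree h1
  rw [Polynomial.natDegree_pow, Polynomial.natDegree_neg, Polynomial.natDegree_X] at h6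
  omega

end PrimeA

set_option linter.unusedVariables false in
theorem GP_prime (k : Type) [Field k] (h2 : (2 : k) ≠ 0) (h3 : (3 : k) ≠ 0) :
    (Ideal.span {GP k}).IsPrime := by
  have hirr : Irreducible (Polynomial.X ^ 2 - Polynomial.C (PrimeA.NN k)) := by
    have hm : (Polynomial.X ^ 2 - Polynomial.C (PrimeA.NN k)).Monic :=
      Polynomial.monic_X_pow_sub_C _ two_ne_zero
    have hd : (Polynomial.X ^ 2 - Polynomial.C (PrimeA.NN k)).natDegree = 2 :=
      Polynomial.natDegree_X_pow_sub_C
    rw [hm.irreducible_iff_roots_eq_zero_of_degree_le_three (by rw [hd]) (by rw [hd]; norm_num)]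
    refine Multiset.eq_zero_of_forall_notMem fun a ha => ?_
    rw [Polynomial.mem_roots hm.ne_zero, Polynomial.IsRoot.def] at ha
    simp only [Polynomial.eval_sub, Polynomial.eval_pow, Polynomial.eval_X,
      Polynomial.eval_C] at ha
    exact PrimeA.NN_not_sq k a (sub_eq_zero.1 ha)
  have hp := UniqueFactorizationMonoid.irreducible_iff_prime.1 hirr
  rw [← PrimeA.eqv_GP] at hp
  have hp' : Prime (GP k) := (MulEquiv.prime_iff (PrimeA.eqv k).toMulEquiv).1 hp
  exact (Ideal.span_singleton_prime hp'.ne_zero).2 hp'

end Pool.Agent.RR
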