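import Pool.Agent.RR.Shape
import Pool.Agent.RR.Prime

/-! RR-22a: coordinates of the function field, homomorphisms out of it. -/

set_option autoImplicit false

namespace Pool.Agent.RR

open MvPolynomial

theorem isDomain_RX (k : Type) [Field k] (h2 : (2 : k) ≠ 0) (h3 : (3 : k) ≠ 0) :
    IsDomain (RX k) :=
  (Ideal.Quotient.isDomain_iff_prime _).2 (GP_prime k h2 h3)

/-- coordinates of the function field -/
noncomputable def cT (k : Type) [Field k] : Co' → TX k := Sum.elim (xT k) (fun j => vT k j.1)

namespace BasisA

private theorem pf_split0 {R : Type} [CommRing R] (l : List R) (v : BI l.length → R) :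
    pf l v = v (j0 l.length) ^ 2 + pf l (fun j => if j = j0 l.length then 0 else v j) := by
  rw [pf_eq_sum, pf_eq_sum,
    ← Finset.add_sum_erase Finset.univ (fun j => coef l j * v j ^ 2) (Finset.mem_univ (j0 l.length)),
    ← Finset.add_sum_erase Finset.univ
      (fun j => coef l j * (if j = j0 l.length then (0 : R) else v j) ^ 2)
      (Finset.mem_univ (j0 l.length))]
  simp only [coef_j0, if_true, one_mul]
  have h : ∑ j ∈ Finset.univ.erase (j0 l.length), coef l j * v j ^ 2 =
      ∑ j ∈ Finset.univ.erase (j0 l.length),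
        coef l j * (if j = j0 l.length then (0 : R) else v j) ^ 2 := by
    refine Finset.sum_congr rfl fun j hj => ?_
    rw [if_neg (Finset.ne_of_mem_erase hj)]
  rw [h]
  ring

private theorem GG_split0 {R : Type} [CommRing R] (x : Fin 6 → R) (v : BI 5 → R) :
    GG x v = v (j0 5) ^ 2 + GG x (fun j => if j = j0 5 then 0 else v j) := by
  unfold GG
  have h := pf_split0 (sl x) v
  have h' : pf (sl x) v = v (j0 5) ^ 2 +
      pf (sl x) (fun j : BI 5 => if j = j0 5 then (0 : R) else v j) := h
  rw [h']
  ring

/-- the coordinates: the special one and the others -/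
private def co : Co ≃ Option Co' where
  toFun := Sum.elim (fun i => some (Sum.inl i))
    (fun j => if h : j = j0 5 then none else some (Sum.inr ⟨j, h⟩))
  invFun o := o.elim (Sum.inr (j0 5)) (Sum.elim Sum.inl (fun j => Sum.inr j.1))
  left_inv := by
    rintro (i | j)
    · rfl
    · by_cases h : j = j0 5
      · simp only [Sum.elim_inr, dif_pos h, Option.elim]
        rw [h]
      · simp only [Sum.elim_inr, dif_neg h, Option.elim]
  right_inv := by
    rintro (_ | (i | j))
    · simp only [Option.elim, Sum.elim_inr, dif_pos]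
    · rfl
    · simp only [Option.elim, Sum.elim_inr, dif_neg j.2]

private theorem co_j0 : co (Sum.inr (j0 5)) = none := by
  show (if h : j0 5 = j0 5 then none else some (Sum.inr ⟨j0 5, h⟩)) = none
  rw [dif_pos rfl]

private theorem co_ne (j : BI 5) (h : j ≠ j0 5) : co (Sum.inr j) = some (Sum.inr ⟨j, h⟩) := by
  show (if h : j = j0 5 then none else
    some (Sum.inr (⟨j, h⟩ : {j : BI 5 // j ≠ j0 5}) : Co')) = some (Sum.inr ⟨j, h⟩)
  rw [dif_neg h]

/-- the inclusion of the other coordinates -/
private def ic : Co' → Co := Sum.elim Sum.inl (fun j => Sum.inr j.1)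

private theorem co_ic (c : Co') : co (ic c) = some c := by
  rcases c with i | j
  · rfl
  · exact co_ne j.1 j.2

section

variable (k : Type) [Field k]

private noncomputable def eqv : MvPolynomial Co k ≃ₐ[k] Polynomial (MvPolynomial Co' k) :=
  (renameEquiv k co).trans (optionEquivLeft k Co')

private theorem eqv_X_j0 : eqv k (X (Sum.inr (j0 5))) = Polynomial.X := by
  show optionEquivLeft k Co' (renameEquiv k co (X (Sum.inr (j0 5)))) = _
  rw [renameEquiv_apply, rename_X, co_j0]
  exact optionEquivLeft_X_none k Co'

private theorem eqv_rename (P : MvPolynomial Co' k) : eqv k (rename ic P) = Polynomial.C P := by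
  have h : ((eqv k : MvPolynomial Co k →+* Polynomial (MvPolynomial Co' k)).comp
      (rename ic : MvPolynomial Co' k →ₐ[k] MvPolynomial Co k).toRingHom) =
      (Polynomial.C : MvPolynomial Co' k →+* _) := by
    refine MvPolynomial.ringHom_ext (fun a => ?_) (fun c => ?_)
    · show optionEquivLeft k Co' (renameEquiv k co (rename ic (C a))) = _
      rw [rename_C, renameEquiv_apply, rename_C]
      exact optionEquivLeft_C k Co' a
    · show optionEquivLeft k Co' (renameEquiv k co (rename ic (X c))) = _
      rw [rename_X, renameEquiv_apply, rename_X, co_ic]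
      exact optionEquivLeft_X_some k Co' c
  exact RingHom.congr_fun h P

private noncomputable def vv : BI 5 → MvPolynomial Co' k :=
  fun j => if h : j = j0 5 then 0 else X (Sum.inr ⟨j, h⟩)

private noncomputable def NN : MvPolynomial Co' k := GG (fun i => X (Sum.inl i)) (vv k)

private theorem rename_NN : rename ic (NN k) = GG (fun i => X (Sum.inl i))
    (fun j => if j = j0 5 then 0 else (X (Sum.inr j) : MvPolynomial Co k)) := by
  have h := GG_map (rename ic : MvPolynomial Co' k →ₐ[k] MvPolynomial Co k).toRingHom
    (fun i => X (Sum.inl i)) (vv k)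
  have h1 : (fun i => (rename ic : MvPolynomial Co' k →ₐ[k] MvPolynomial Co k).toRingHom
      (X (Sum.inl i))) = fun i => X (Sum.inl i) := by
    funext i
    exact rename_X _ _
  have h2 : (fun j => (rename ic : MvPolynomial Co' k →ₐ[k] MvPolynomial Co k).toRingHom
      (vv k j)) = fun j => if j = j0 5 then 0 else (X (Sum.inr j) : MvPolynomial Co k) := by
    funext j
    by_cases h : j = j0 5
    · rw [if_pos h, vv, dif_pos h, map_zero]
    · rw [if_neg h, vv, dif_neg h]
      exact rename_X _ _
  rw [h1, h2] at h
  exact h.symm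

private theorem GP_eq : GP k = X (Sum.inr (j0 5)) ^ 2 + rename ic (NN k) := by
  rw [rename_NN]
  exact GG_split0 _ _

private theorem eqv_GP : eqv k (GP k) = Polynomial.X ^ 2 + Polynomial.C (NN k) := by
  rw [GP_eq, map_add, map_pow, eqv_X_j0, eqv_rename]

/-- there is no relation between the other coordinates -/
private theorem no_rel (P : MvPolynomial Co' k) (h : rename ic P ∈ Ideal.span {GP k}) : P = 0 := by
  rw [Ideal.mem_span_singleton] at h
  have h1 : eqv k (GP k) ∣ eqv k (rename ic P) := map_dvd (eqv k) h
  rw [eqv_GP, eqv_rename] at h1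
  by_contra hP
  have hm : (Polynomial.X ^ 2 + Polynomial.C (NN k)).Monic :=
    Polynomial.monic_X_pow_add_C _ two_ne_zero
  refine hm.not_dvd_of_natDegree_lt (Polynomial.C_ne_zero.2 hP) ?_ h1
  rw [Polynomial.natDegree_C, Polynomial.natDegree_X_pow_add_C]
  norm_num

/-- the polynomials in the other coordinates, in the coordinate ring -/
private noncomputable def io : MvPolynomial Co' k →ₐ[k] RX k :=
  (Ideal.Quotient.mkₐ k (Ideal.span {GP k})).comp (rename ic)

private theorem io_inj : Function.Injective (io k) := by
  rw [injective_iff_map_eq_zero]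
  intro P hP
  exact no_rel k P (Ideal.Quotient.eq_zero_iff_mem.1 hP)

private theorem sq_j0 : (Ideal.Quotient.mk (Ideal.span {GP k})) (X (Sum.inr (j0 5))) ^ 2 +
    io k (NN k) = 0 := by
  have h : (Ideal.Quotient.mk (Ideal.span {GP k})) (GP k) = 0 :=
    Ideal.Quotient.eq_zero_iff_mem.2 (Ideal.subset_span (Set.mem_singleton _))
  rw [GP_eq k, map_add, map_pow] at h
  rw [← GP_eq k] at h
  exact h

private theorem integral (a : RX k) : (io k).toRingHom.IsIntegralElem a := by
  obtain ⟨P, rfl⟩ := Ideal.Quotient.mk_surjective a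
  have hX : ∀ c : Co, (io k).toRingHom.IsIntegralElem
      (Ideal.Quotient.mk (Ideal.span {GP k}) (X c)) := by
    intro c
    have hc : ∀ c' : Co', (io k).toRingHom.IsIntegralElem
        (Ideal.Quotient.mk (Ideal.span {GP k}) (X (ic c'))) := by
      intro c'
      have : (Ideal.Quotient.mk (Ideal.span {GP k}) (X (ic c'))) = (io k).toRingHom (X c') := by
        show _ = (Ideal.Quotient.mk (Ideal.span {GP k})) (rename ic (X c'))
        rw [rename_X]
      rw [this]
      exact (io k).toRingHom.isIntegralElem_map
    rcases c with i | j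
    · exact hc (Sum.inl i)
    · by_cases h : j = j0 5
      · rw [h]
        refine ⟨Polynomial.X ^ 2 + Polynomial.C (NN k),
          Polynomial.monic_X_pow_add_C _ two_ne_zero, ?_⟩
        rw [Polynomial.eval₂_add, Polynomial.eval₂_pow, Polynomial.eval₂_X, Polynomial.eval₂_C]
        exact sq_j0 k
      · exact hc (Sum.inr ⟨j, h⟩)
  induction P using MvPolynomial.induction_on with
  | C a =>
    have : (Ideal.Quotient.mk (Ideal.span {GP k}) (C a)) = (io k).toRingHom (C a) := by
      show _ = (Ideal.Quotient.mk (Ideal.span {GP k})) (rename ic (C a))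
      rw [rename_C]
    rw [this]
    exact (io k).toRingHom.isIntegralElem_map
  | add p q hp hq => rw [map_add]; exact RingHom.IsIntegralElem.add _ hp hq
  | mul_X p c hp => rw [map_mul]; exact RingHom.IsIntegralElem.mul _ hp (hX c)

end

end BasisA

open BasisA

theorem cT_algInd (k : Type) [Field k] (h2 : (2 : k) ≠ 0) (h3 : (3 : k) ≠ 0) :
    AlgebraicIndependent k (cT k) := by
  have h1 : (aeval (cT k) : MvPolynomial Co' k →ₐ[k] TX k) =
      (IsScalarTower.toAlgHom k (RX k) (TX k)).comp (io k) := by
    refine MvPolynomial.algHom_ext fun c => ?_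
    rw [aeval_X]
    rcases c with i | j
    · show xT k i = algebraMap (RX k) (TX k) (Ideal.Quotient.mk _ (rename ic (X (Sum.inl i))))
      rw [rename_X]
      rfl
    · show vT k j.1 = algebraMap (RX k) (TX k) (Ideal.Quotient.mk _ (rename ic (X (Sum.inr j))))
      rw [rename_X]
      rfl
  show Function.Injective (aeval (cT k))
  rw [h1]
  exact (IsFractionRing.injective (RX k) (TX k)).comp (io_inj k)

/-- (uses cT_algInd) homomorphisms out of the function field -/
theorem exists_hom (k E : Type) [Field k] [Field E] [Algebra k E] (h2 : (2 : k) ≠ 0)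
    (h3 : (3 : k) ≠ 0) (x : Fin 6 → E) (v : BI 5 → E) (h : GG x v = 0)
    (hind : AlgebraicIndependent k (Sum.elim x (fun j : {j : BI 5 // j ≠ j0 5} => v j.1))) :
    ∃ f : TX k →ₐ[k] E, (∀ i, f (xT k i) = x i) ∧ (∀ j, f (vT k j) = v j) := by
  haveI := isDomain_RX k h2 h3
  let φ : RX k →ₐ[k] E := Ideal.Quotient.liftₐ (Ideal.span {GP k}) (aeval (Sum.elim x v)) (by
    intro a ha
    obtain ⟨b, rfl⟩ := Ideal.mem_span_singleton.1 ha
    rw [map_mul, aeval_GP, h, zero_mul])
  have hφ : ∀ P, φ (Ideal.Quotient.mk _ P) = aeval (Sum.elim x v) P := fun P => rfl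
  have hio : ∀ P, φ (io k P) =
      aeval (Sum.elim x (fun j : {j : BI 5 // j ≠ j0 5} => v j.1)) P := by
    intro P
    have : (φ.comp (io k)) =
        (aeval (Sum.elim x (fun j : {j : BI 5 // j ≠ j0 5} => v j.1)) :
          MvPolynomial Co' k →ₐ[k] E) := by
      refine MvPolynomial.algHom_ext fun c => ?_
      show aeval (Sum.elim x v) (rename ic (X c)) = _
      rw [rename_X, aeval_X, aeval_X]
      rcases c with i | j
      · rfl
      · rfl
    exact AlgHom.congr_fun this P
  have hinj : Function.Injective φ := by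
    rw [injective_iff_map_eq_zero]
    intro a ha
    by_contra hne
    letI := (io k).toRingHom.toAlgebra
    have hint : IsIntegral (MvPolynomial Co' k) a := integral k a
    have hb := Ideal.comap_ne_bot_of_integral_mem (R := MvPolynomial Co' k)
      (I := RingHom.ker φ.toRingHom) hne ha hint
    obtain ⟨P, hP, hP0⟩ := Submodule.exists_mem_ne_zero_of_ne_bot hb
    refine hP0 (hind ?_)
    rw [map_zero, ← hio]
    exact hP
  refine ⟨IsFractionRing.liftAlgHom hinj, fun i => ?_, fun j => ?_⟩
  · show IsFractionRing.lift hinj (algebraMap (RX k) (TX k) _) = _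
    rw [IsFractionRing.lift_algebraMap]
    show aeval (Sum.elim x v) (X (Sum.inl i)) = _
    rw [aeval_X]
    rfl
  · show IsFractionRing.lift hinj (algebraMap (RX k) (TX k) _) = _
    rw [IsFractionRing.lift_algebraMap]
    show aeval (Sum.elim x v) (X (Sum.inr j)) = _
    rw [aeval_X]
    rfl

end Pool.Agent.RR
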