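import Pool.Agent.RR.Shape

/-! RR-22b: the transcendence degree of the function field (given algebraic independence of the
coordinates, which is in `Basis.lean`). -/

set_option autoImplicit false

namespace Pool.Agent.RR

open MvPolynomial

section

variable (k : Type) [Field k]

/-- The equation of the hypersurface holds in the function field. -/
private theorem GG_TX : GG (xT k) (vT k) = 0 := by
  have h1 : GG (xT k) (vT k) = algebraMap (RX k) (TX k) (Ideal.Quotient.mk _ (GP k)) := by
    have h := GG_map ((algebraMap (RX k) (TX k)).comp (Ideal.Quotient.mk (Ideal.span {GP k})))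
      (fun i => X (Sum.inl i)) (fun j => X (Sum.inr j))
    exact h
  have h2 : (Ideal.Quotient.mk (Ideal.span {GP k})) (GP k) = 0 :=
    Ideal.Quotient.eq_zero_iff_mem.2 (Ideal.subset_span (Set.mem_singleton _))
  rw [h1, h2, map_zero]

private theorem cc_mem {R : Type} [CommRing R] [Algebra k R] (A : Subalgebra k R) (a b : R)
    (ha : a ∈ A) (hb : b ∈ A) : cc a b ∈ A :=
  mul_mem (mul_mem ha (sub_mem ha (one_mem A))) (mul_mem hb (sub_mem hb (one_mem A)))

private theorem DD_mem {R : Type} [CommRing R] [Algebra k R] (A : Subalgebra k R) (a b c : R)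
    (ha : a ∈ A) (hb : b ∈ A) (hc : c ∈ A) : DD a b c ∈ A :=
  sub_mem (pow_mem hc 2) (cc_mem k A a b ha hb)

private theorem SS_mem {R : Type} [CommRing R] [Algebra k R] (A : Subalgebra k R) (a b c : R)
    (ha : a ∈ A) (hb : b ∈ A) (hc : c ∈ A) : SS a b c ∈ A :=
  mul_mem (ofNat_mem A 3) (sub_mem (mul_mem (pow_mem hc 2) ha) (mul_mem (cc_mem k A a b ha hb) hb))

private theorem gg_mem {R : Type} [CommRing R] [Algebra k R] (A : Subalgebra k R) (a b c : R)
    (ha : a ∈ A) (hb : b ∈ A) (hc : c ∈ A) : gg a b c ∈ A :=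
  mul_mem (sub_mem (SS_mem k A a b c ha hb hc) (DD_mem k A a b c ha hb hc))
    (sub_mem (SS_mem k A a b c ha hb hc) (mul_mem (ofNat_mem A 3) (DD_mem k A a b c ha hb hc)))

private theorem dd_mem {R : Type} [CommRing R] [Algebra k R] (A : Subalgebra k R) (x : Fin 6 → R)
    (hx : ∀ i, x i ∈ A) : dd (x 0) (x 1) (x 2) (x 3) (x 4) ∈ A := by
  have hD := DD_mem k A (x 2) (x 3) (x 4) (hx 2) (hx 3) (hx 4)
  have hS := SS_mem k A (x 2) (x 3) (x 4) (hx 2) (hx 3) (hx 4)
  exact mul_mem (mul_mem (mul_mem (hx 0) (sub_mem (hx 0) (one_mem A)))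
    (mul_mem (hx 1) (sub_mem (hx 1) (one_mem A))))
    (mul_mem (sub_mem (mul_mem hD (hx 0)) hS) (sub_mem (mul_mem hD (hx 1)) hS))

private theorem hh_mem {R : Type} [CommRing R] [Algebra k R] (A : Subalgebra k R) (x : Fin 6 → R)
    (hx : ∀ i, x i ∈ A) : hh x ∈ A :=
  mul_mem (sub_mem (pow_mem (hx 5) 2) (dd_mem k A x hx))
    (sub_mem (pow_mem (hx 5) 2) (mul_mem (ofNat_mem A 4) (dd_mem k A x hx)))

private theorem coef_mem {R : Type} [CommRing R] [Algebra k R] (A : Subalgebra k R) (l : List R)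
    (hl : ∀ c ∈ l, c ∈ A) (j : BI l.length) : coef l j ∈ A := by
  induction l with
  | nil => exact one_mem A
  | cons c l ih =>
    have ih' := fun i => ih (fun d hd => hl d (List.mem_cons_of_mem c hd)) i
    rcases j with i | i
    · exact ih' i
    · exact mul_mem (hl c List.mem_cons_self) (ih' i)

private theorem sl_mem {R : Type} [CommRing R] [Algebra k R] (A : Subalgebra k R) (x : Fin 6 → R)
    (hx : ∀ i, x i ∈ A) : ∀ c ∈ sl x, c ∈ A := by
  intro c hc
  simp only [sl, List.mem_cons, List.not_mem_nil, or_false] at hc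
  rcases hc with rfl | rfl | rfl | rfl | rfl
  · exact gg_mem k A _ _ _ (hx 2) (hx 3) (hx 4)
  · exact hx 0
  · exact hx 1
  · exact hx 2
  · exact hx 3

/-- The square of the remaining coordinate is a polynomial in the others. -/
private theorem vT_sq_mem (A : Subalgebra k (TX k)) (hx : ∀ i, xT k i ∈ A)
    (hv : ∀ j : BI 5, j ≠ j0 5 → vT k j ∈ A) : vT k (j0 5) ^ 2 ∈ A := by
  have h1 := GG_TX k
  have h2 : pf (sl (xT k)) (vT k) = ∑ j : BI 5, coef (sl (xT k)) j * vT k j ^ 2 :=
    pf_eq_sum (sl (xT k)) (vT k)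
  have h3 : coef (sl (xT k)) (j0 5) = 1 := coef_j0 (sl (xT k))
  have h4 : vT k (j0 5) ^ 2 = hh (xT k) -
      ∑ j ∈ Finset.univ.erase (j0 5), coef (sl (xT k)) j * vT k j ^ 2 := by
    have h5 := Finset.add_sum_erase Finset.univ (fun j : BI 5 => coef (sl (xT k)) j * vT k j ^ 2)
      (Finset.mem_univ (j0 5))
    have h6 : pf (sl (xT k)) (vT k) = hh (xT k) := sub_eq_zero.1 h1
    simp only [h3, one_mul] at h5
    rw [← h6, h2, ← h5]
    ring
  rw [h4]
  refine sub_mem (hh_mem k A _ hx) (sum_mem fun j hj => ?_)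
  exact mul_mem (coef_mem k A _ (sl_mem k A _ hx) j) (pow_mem (hv j (Finset.ne_of_mem_erase hj)) 2)

end

/-- The transcendence degree, given that the coordinates are algebraically independent. -/
theorem trdeg_TX_of (k : Type) [Field k] [IsDomain (RX k)]
    (hind : AlgebraicIndependent k
      (Sum.elim (xT k) (fun j => vT k j.1) : Co' → TX k)) :
    Algebra.trdeg k (TX k) = Fintype.card Co' := by
  set A : Subalgebra k (TX k) := Algebra.adjoin k
    (Set.range (Sum.elim (xT k) (fun j => vT k j.1) : Co' → TX k)) with hA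
  have hx : ∀ i, xT k i ∈ A := fun i => Algebra.subset_adjoin ⟨Sum.inl i, rfl⟩
  have hv : ∀ j : BI 5, j ≠ j0 5 → vT k j ∈ A := fun j hj =>
    Algebra.subset_adjoin ⟨Sum.inr ⟨j, hj⟩, rfl⟩
  have hs := vT_sq_mem k A hx hv
  have hmem : ∀ t ∈ A, IsIntegral A t := fun t ht =>
    (isIntegral_algebraMap (R := A) (x := (⟨t, ht⟩ : A)) : _)
  have hint : ∀ r : RX k, IsIntegral A (algebraMap (RX k) (TX k) r) := by
    intro r
    obtain ⟨p, rfl⟩ := Ideal.Quotient.mk_surjective r
    induction p using MvPolynomial.induction_on with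
    | C a =>
      have : algebraMap (RX k) (TX k) (Ideal.Quotient.mk _ (C a)) = algebraMap k (TX k) a := rfl
      rw [this]
      exact hmem _ (A.algebraMap_mem a)
    | add p q hp hq => rw [map_add, map_add]; exact hp.add hq
    | mul_X p i hp =>
      rw [map_mul, map_mul]
      refine hp.mul ?_
      rcases i with i | j
      · exact hmem _ (hx i)
      · by_cases hj : j = j0 5
        · rw [hj]
          exact IsIntegral.of_pow (n := 2) (by norm_num) (hmem _ hs)
        · exact hmem _ (hv j hj)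
  have halg : Algebra.IsAlgebraic A (TX k) := by
    refine ⟨fun t => ?_⟩
    obtain ⟨a, b, hb, rfl⟩ := IsFractionRing.div_surjective (A := RX k) t
    rw [div_eq_mul_inv]
    exact (hint a).isAlgebraic.mul (hint b).isAlgebraic.inv
  have hb : IsTranscendenceBasis k (Sum.elim (xT k) (fun j => vT k j.1) : Co' → TX k) :=
    hind.isTranscendenceBasis_iff_isAlgebraic.2 halg
  rw [← hb.cardinalMk_eq_trdeg, Cardinal.mk_fintype]

end Pool.Agent.RR
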