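import Pool.Agent.RR.Basis
import Pool.Agent.RR.BasisT0

/-! RR-22b: the transcendence degree of the function field. -/

set_option autoImplicit false

namespace Pool.Agent.RR

/-- The transcendence degree of the function field of the hypersurface. -/
theorem trdeg_TX (k : Type) [Field k] (h2 : (2 : k) ≠ 0) (h3 : (3 : k) ≠ 0) :
    Algebra.trdeg k (TX k) = Fintype.card Co' := by
  have : IsDomain (RX k) := isDomain_RX k h2 h3
  exact trdeg_TX_of k (cT_algInd k h2 h3)

end Pool.Agent.RR
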