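import Pool.Agent.RR.Defs

set_option autoImplicit false

namespace Pool.Agent.RR

open MvPolynomial

theorem cert_prod {R : Type} [CommRing R] (n : ℕ) (T : Fin n → R) (hT : ∀ i, T i * T i = 0)
    (a : Fin n → Fin n → R) (h1 : ∀ j, a j j = 1) (h0 : ∀ i j, j < i → a i j = 0) :
    ∏ j, (∑ i, a i j * T i) = ∏ j, T j := by
  classical
  have key : ∀ m : ℕ, m ≤ n →
      ∏ j ∈ Finset.univ.filter (fun j : Fin n => j.val < m), (∑ i, a i j * T i) =
      ∏ j ∈ Finset.univ.filter (fun j : Fin n => j.val < m), T j := by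
    intro m
    induction m with
    | zero => intro _; simp
    | succ m ih =>
      intro hm
      have hmn : m < n := hm
      have hins : (Finset.univ.filter (fun j : Fin n => j.val < m + 1)) =
          insert (⟨m, hmn⟩ : Fin n) (Finset.univ.filter (fun j : Fin n => j.val < m)) := by
        ext j
        simp only [Finset.mem_filter, Finset.mem_univ, true_and, Finset.mem_insert, Fin.ext_iff]
        omega
      have hnot : (⟨m, hmn⟩ : Fin n) ∉ (Finset.univ.filter (fun j : Fin n => j.val < m)) := by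
        simp
      rw [hins, Finset.prod_insert hnot, Finset.prod_insert hnot, ih (Nat.le_of_lt hmn),
        Finset.sum_mul]
      rw [Finset.sum_eq_single (⟨m, hmn⟩ : Fin n)]
      · rw [h1, one_mul]
      · intro i _ hi
        rcases lt_trichotomy i.val m with hlt | heq | hgt
        · have hmem : i ∈ Finset.univ.filter (fun j : Fin n => j.val < m) := by
            simpa using hlt
          rw [← Finset.mul_prod_erase _ _ hmem, ← mul_assoc, mul_assoc (a i ⟨m, hmn⟩), hT i]
          simp
        · exact absurd (Fin.ext heq) hi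
        · rw [h0 i ⟨m, hmn⟩ hgt]
          simp
      · intro h
        exact absurd (Finset.mem_univ _) h
  have := key n le_rfl
  simpa using this

theorem cert_monomial (n : ℕ) :
    (∏ j : Fin n, (Ideal.Quotient.mk (Ideal.span (Set.range fun i : Fin n =>
      (X i ^ 2 : MvPolynomial (Fin n) (ZMod 2)))) (X j))) ≠ 0 := by
  classical
  rw [← map_prod, Ne, Ideal.Quotient.eq_zero_iff_mem]
  intro hmem
  have e : (Set.range fun i : Fin n => (X i ^ 2 : MvPolynomial (Fin n) (ZMod 2))) =
      (fun s => monomial s (1 : ZMod 2)) '' (Set.range fun i : Fin n => Finsupp.single i 2) := by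
    ext p
    constructor
    · rintro ⟨i, rfl⟩
      exact ⟨Finsupp.single i 2, ⟨i, rfl⟩, by simp [MvPolynomial.X_pow_eq_monomial]⟩
    · rintro ⟨s, ⟨i, rfl⟩, rfl⟩
      exact ⟨i, by simp [MvPolynomial.X_pow_eq_monomial]⟩
  rw [e, MvPolynomial.mem_ideal_span_monomial_image] at hmem
  have hp : (∏ j : Fin n, (X j : MvPolynomial (Fin n) (ZMod 2))) =
      monomial (∑ j : Fin n, Finsupp.single j 1) 1 := by
    have hX : ∀ s : Finset (Fin n), (∏ j ∈ s, (X j : MvPolynomial (Fin n) (ZMod 2))) =
        monomial (∑ j ∈ s, Finsupp.single j 1) 1 := by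
      intro s
      induction s using Finset.induction_on with
      | empty => simp
      | insert a s ha ih =>
        rw [Finset.prod_insert ha, Finset.sum_insert ha, ih]
        have hXa : (X a : MvPolynomial (Fin n) (ZMod 2)) = monomial (Finsupp.single a 1) 1 := rfl
        rw [hXa, MvPolynomial.monomial_mul, one_mul]
    exact hX Finset.univ
  have hs : (∑ j : Fin n, Finsupp.single j 1 : Fin n →₀ ℕ) ∈
      (∏ j : Fin n, (X j : MvPolynomial (Fin n) (ZMod 2))).support := by
    rw [hp, MvPolynomial.support_monomial]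
    simp
  obtain ⟨s, ⟨i, rfl⟩, hle⟩ := hmem _ hs
  have := hle i
  simp [Finsupp.finsetSum_apply] at this

theorem cert {E Γ : Type} [Field E] [AddCommGroup Γ] [LinearOrder Γ] [IsOrderedAddMonoid Γ]
    (W : Va E Γ) (n : ℕ) (ψ : Fin n → (Γ →+ ZMod 2)) (c : Fin n → E) (hc : ∀ j, c j ≠ 0)
    (h1 : ∀ j, ψ j (W.ord (c j)) = 1) (h0 : ∀ i j, j < i → ψ i (W.ord (c j)) = 0) :
    (∏ j, sy (c j)) ≠ 0 := by
  classical
  have o1 : W.ord 1 = 0 := by
    have h := W.mul 1 1 one_ne_zero one_ne_zero
    rw [one_mul] at h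
    exact left_eq_add.mp h
  have om : W.ord (-1) = 0 := by
    have hm1 : (-1 : E) ≠ 0 := neg_ne_zero.mpr one_ne_zero
    have h := W.mul (-1) (-1) hm1 hm1
    rw [neg_mul_neg, one_mul, o1] at h
    rcases lt_trichotomy (W.ord (-1)) 0 with hl | he | hg
    · exact absurd h.symm (ne_of_lt (add_neg hl hl))
    · exact he
    · exact absurd h (ne_of_lt (add_pos hg hg))
  have oneg : ∀ x : E, x ≠ 0 → W.ord (-x) = W.ord x := by
    intro x hx
    have h := W.mul (-1) x (neg_ne_zero.mpr one_ne_zero) hx
    rw [neg_one_mul, om, zero_add] at h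
    exact h
  have olt : ∀ x y : E, x ≠ 0 → y ≠ 0 → x + y = 1 → W.ord x < W.ord y → W.ord x = 0 := by
    intro x y hx hy hxy hlt
    have hA := W.add x y hx hy (by rw [hxy]; exact one_ne_zero)
    rw [hxy, o1, min_eq_left hlt.le] at hA
    have hsum : (1 : E) + (-y) = x := by rw [← hxy]; ring
    have hB := W.add 1 (-y) one_ne_zero (neg_ne_zero.mpr hy) (by rw [hsum]; exact hx)
    rw [hsum, o1, oneg y hy] at hB
    rcases le_total 0 (W.ord y) with h | h
    · rw [min_eq_left h] at hB
      exact le_antisymm hA hB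
    · rw [min_eq_right h] at hB
      exact absurd hlt (not_lt.mpr hB)
  let I : Ideal (MvPolynomial (Fin n) (ZMod 2)) := Ideal.span (Set.range fun i : Fin n =>
      (X i ^ 2 : MvPolynomial (Fin n) (ZMod 2)))
  let T : Fin n → (MvPolynomial (Fin n) (ZMod 2) ⧸ I) := fun j => Ideal.Quotient.mk I (X j)
  have hT : ∀ i, T i * T i = 0 := by
    intro i
    have : T i * T i = Ideal.Quotient.mk I (X i ^ 2) := by
      simp only [T]
      rw [← map_mul, sq]
    rw [this, Ideal.Quotient.eq_zero_iff_mem]
    exact Ideal.subset_span ⟨i, rfl⟩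
  let am : ZMod 2 →+* (MvPolynomial (Fin n) (ZMod 2) ⧸ I) :=
    algebraMap (ZMod 2) (MvPolynomial (Fin n) (ZMod 2) ⧸ I)
  have h2R : ∀ x : (MvPolynomial (Fin n) (ZMod 2) ⧸ I), x + x = 0 := by
    intro x
    have : am (1 + 1) = 1 + 1 := by rw [map_add, map_one]
    have h11 : (1 + 1 : ZMod 2) = 0 := by decide
    rw [h11, map_zero] at this
    calc x + x = (1 + 1) * x := by ring
      _ = 0 := by rw [← this, zero_mul]
  let g : Γ → (MvPolynomial (Fin n) (ZMod 2) ⧸ I) := fun γ => ∑ i, am (ψ i γ) * T i
  have g0 : g 0 = 0 := by simp [g]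
  have gadd : ∀ x y, g (x + y) = g x + g y := by
    intro x y
    simp only [g, map_add, add_mul, Finset.sum_add_distrib]
  have gsq : ∀ x, g x * g x = 0 := by
    intro x
    have : ∀ s : Finset (Fin n), (∑ i ∈ s, am (ψ i x) * T i) * (∑ i ∈ s, am (ψ i x) * T i) = 0 := by
      intro s
      induction s using Finset.induction_on with
      | empty => simp
      | insert a s ha ih =>
        rw [Finset.sum_insert ha]
        have h3 : (am (ψ a x) * T a) * (am (ψ a x) * T a) = 0 := by
          calc (am (ψ a x) * T a) * (am (ψ a x) * T a) = am (ψ a x) * am (ψ a x) * (T a * T a) := by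
                ring
            _ = 0 := by rw [hT, mul_zero]
        calc (am (ψ a x) * T a + ∑ i ∈ s, am (ψ i x) * T i) *
              (am (ψ a x) * T a + ∑ i ∈ s, am (ψ i x) * T i)
            = (am (ψ a x) * T a) * (am (ψ a x) * T a) +
              ((am (ψ a x) * T a) * (∑ i ∈ s, am (ψ i x) * T i) +
              (am (ψ a x) * T a) * (∑ i ∈ s, am (ψ i x) * T i)) +
              (∑ i ∈ s, am (ψ i x) * T i) * (∑ i ∈ s, am (ψ i x) * T i) := by ring
          _ = 0 := by rw [h3, ih, h2R]; simp
    exact this Finset.univ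
  let Φ : Sym E →+* (MvPolynomial (Fin n) (ZMod 2) ⧸ I) := Sym.lift (fun u : Eˣ => g (W.ord (u : E)))
    (by
      intro a b
      change g (W.ord ((a * b : Eˣ) : E)) = _
      rw [Units.val_mul, W.mul _ _ a.ne_zero b.ne_zero, gadd])
    (by
      intro a b hab
      change g (W.ord (a : E)) * g (W.ord (b : E)) = 0
      rcases lt_trichotomy (W.ord (a : E)) (W.ord (b : E)) with h | h | h
      · rw [olt _ _ a.ne_zero b.ne_zero hab h, g0, zero_mul]
      · rw [h, gsq]
      · rw [olt _ _ b.ne_zero a.ne_zero (by rw [add_comm]; exact hab) h, g0, mul_zero])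
    (by
      change g (W.ord ((-1 : Eˣ) : E)) = 0
      rw [Units.val_neg, Units.val_one, om, g0])
  intro hzero
  have hΦ : Φ (∏ j, sy (c j)) = ∏ j, (∑ i, am (ψ i (W.ord (c j))) * T i) := by
    rw [map_prod]
    refine Finset.prod_congr rfl (fun j _ => ?_)
    have := Sym.lift_sy (fun u : Eˣ => g (W.ord (u : E)))
      (by
        intro a b
        change g (W.ord ((a * b : Eˣ) : E)) = _
        rw [Units.val_mul, W.mul _ _ a.ne_zero b.ne_zero, gadd])
      (by
        intro a b hab
        change g (W.ord (a : E)) * g (W.ord (b : E)) = 0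
        rcases lt_trichotomy (W.ord (a : E)) (W.ord (b : E)) with h | h | h
        · rw [olt _ _ a.ne_zero b.ne_zero hab h, g0, zero_mul]
        · rw [h, gsq]
        · rw [olt _ _ b.ne_zero a.ne_zero (by rw [add_comm]; exact hab) h, g0, mul_zero])
      (by
        change g (W.ord ((-1 : Eˣ) : E)) = 0
        rw [Units.val_neg, Units.val_one, om, g0]) (c j) (hc j)
    exact this
  rw [hzero, map_zero, cert_prod n T hT (fun i j => am (ψ i (W.ord (c j))))
    (fun j => by rw [h1, map_one]) (fun i j hij => by rw [h0 i j hij, map_zero])] at hΦ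
  exact cert_monomial n hΦ.symm

end Pool.Agent.RR
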