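import Mathlib

/-!
# Project RR (MP_0a3790_ag): rationality modulo primes. Definitions.

* `Sym F`: symbols modulo 2 of a field `F` (Milnor K-theory mod 2 as a commutative ring).
* `AC F κ`: a discrete valuation of `F` with residue field `κ`, given by order and angular component.
* `pf l v`: value of the Pfister form with slots `l` at the vector `v`.
* `GG`: the equation of the hypersurface.
-/

set_option autoImplicit false

namespace Pool.Agent.RR

open MvPolynomial

section Sym

variable (F : Type) [Field F]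

/-- The relations of the symbol ring. -/
def symSet : Set (MvPolynomial Fˣ (ZMod 2)) :=
  {p | (∃ a b : Fˣ, p = X (a * b) - X a - X b) ∨ (∃ a b : Fˣ, (a : F) + b = 1 ∧ p = X a * X b) ∨
    p = X (-1)}

/-- The symbol ring modulo 2. -/
abbrev Sym : Type := MvPolynomial Fˣ (ZMod 2) ⧸ Ideal.span (symSet F)

variable {F}

/-- The symbol of an element (`0` for `0`). -/
noncomputable def sy (a : F) : Sym F :=
  open Classical in
  if h : a = 0 then 0 else Ideal.Quotient.mk _ (X (Units.mk0 a h))

/-- Ring homomorphisms out of the symbol ring. -/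
noncomputable def Sym.lift {R : Type} [CommRing R] [Algebra (ZMod 2) R] (g : Fˣ → R)
    (h1 : ∀ a b, g (a * b) = g a + g b) (h2 : ∀ a b : Fˣ, (a : F) + b = 1 → g a * g b = 0)
    (h3 : g (-1) = 0) : Sym F →+* R :=
  Ideal.Quotient.lift _ (MvPolynomial.aeval (R := ZMod 2) g).toRingHom (by
    intro p hp
    change p ∈ RingHom.ker (MvPolynomial.aeval (R := ZMod 2) g).toRingHom
    refine (Ideal.span_le.2 ?_) hp
    rintro q (⟨a, b, rfl⟩ | ⟨a, b, hab, rfl⟩ | rfl)
    · simp [RingHom.mem_ker, h1]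
    · simp [RingHom.mem_ker, h2 a b hab]
    · simp [RingHom.mem_ker, h3])

theorem Sym.lift_sy {R : Type} [CommRing R] [Algebra (ZMod 2) R] (g : Fˣ → R)
    (h1 : ∀ a b, g (a * b) = g a + g b) (h2 : ∀ a b : Fˣ, (a : F) + b = 1 → g a * g b = 0)
    (h3 : g (-1) = 0) (a : F) (ha : a ≠ 0) : Sym.lift g h1 h2 h3 (sy a) = g (Units.mk0 a ha) := by
  unfold sy Sym.lift
  rw [dif_neg ha, Ideal.Quotient.lift_mk]
  simp

end Sym

/-- A discrete valuation of `F` with residue field `κ`: order and angular component. -/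
structure AC (F κ : Type) [Field F] [Field κ] where
  ord : F → ℤ
  ac : F → κ
  ac_zero : ac 0 = 0
  ac_ne : ∀ x, x ≠ 0 → ac x ≠ 0
  ac_mul : ∀ x y, ac (x * y) = ac x * ac y
  ord_mul : ∀ x y, x ≠ 0 → y ≠ 0 → ord (x * y) = ord x + ord y
  add_lt : ∀ x y, x ≠ 0 → y ≠ 0 → ord x < ord y → ord (x + y) = ord x ∧ ac (x + y) = ac x
  add_eq : ∀ x y, x ≠ 0 → y ≠ 0 → ord x = ord y → ac x + ac y ≠ 0 →
    ord (x + y) = ord x ∧ ac (x + y) = ac x + ac y
  add_gt : ∀ x y, x ≠ 0 → y ≠ 0 → ord x = ord y → ac x + ac y = 0 → x + y ≠ 0 →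
    ord x < ord (x + y)

/-- The valuation is trivial on the constants `k`. -/
def AC.Triv {F κ : Type} [Field F] [Field κ] (A : AC F κ) (k : Type) [Field k] [Algebra k F] :
    Prop :=
  ∀ c : k, c ≠ 0 → A.ord (algebraMap k F c) = 0

/-- `θ` is the residue-and-specialisation map of the valuation `A`. -/
def AC.IsTheta {F κ : Type} [Field F] [Field κ] (A : AC F κ)
    (θ : Sym F →+* DualNumber (Sym κ)) : Prop :=
  ∀ a : F, a ≠ 0 → θ (sy a) =
    TrivSqZeroExt.inl (sy (A.ac a)) + TrivSqZeroExt.inr ((A.ord a : ℤ) : Sym κ)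

/-- The symbol `ξ` is unramified at `A`. -/
def AC.Unram {F κ : Type} [Field F] [Field κ] (A : AC F κ) (ξ : Sym F) : Prop :=
  ∀ θ : Sym F →+* DualNumber (Sym κ), A.IsTheta θ → (θ ξ).snd = 0

/-- A valuation of `F` with values in the ordered group `Γ` (the value at `0` is irrelevant). -/
structure Va (F Γ : Type) [Field F] [AddCommGroup Γ] [LinearOrder Γ] where
  ord : F → Γ
  mul : ∀ x y, x ≠ 0 → y ≠ 0 → ord (x * y) = ord x + ord y
  add : ∀ x y, x ≠ 0 → y ≠ 0 → x + y ≠ 0 → min (ord x) (ord y) ≤ ord (x + y)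

/-- Index set of the coordinates of an `n`-fold Pfister form. -/
def BI : ℕ → Type
  | 0 => Unit
  | n + 1 => BI n ⊕ BI n

instance instFintypeBI : (n : ℕ) → Fintype (BI n)
  | 0 => (inferInstance : Fintype Unit)
  | n + 1 => @instFintypeSum _ _ (instFintypeBI n) (instFintypeBI n)

instance instDecidableEqBI : (n : ℕ) → DecidableEq (BI n)
  | 0 => (inferInstance : DecidableEq Unit)
  | n + 1 => @instDecidableEqSum _ _ (instDecidableEqBI n) (instDecidableEqBI n)

/-- The first coordinate. -/
def j0 : (n : ℕ) → BI n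
  | 0 => ()
  | n + 1 => Sum.inl (j0 n)

/-- Value of the Pfister form with slots `l`. -/
def pf {R : Type} [CommRing R] : (l : List R) → (BI l.length → R) → R
  | [], v => v () ^ 2
  | c :: l, v => pf l (fun i => v (Sum.inl i)) + c * pf l (fun i => v (Sum.inr i))

/-- The coefficients of the Pfister form. -/
def coef {R : Type} [CommRing R] : (l : List R) → BI l.length → R
  | [], _ => 1
  | _ :: l, Sum.inl i => coef l i
  | c :: l, Sum.inr i => c * coef l i

/-- The Legendre cubic. -/
def leg {R : Type} [CommRing R] (s x : R) : R := x * (x - 1) * (x - s)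

section Eq

variable {R : Type} [CommRing R]

/-- `x₃ (x₃ - 1) x₄ (x₄ - 1)` -/
def cc (x3 x4 : R) : R := x3 * (x3 - 1) * (x4 * (x4 - 1))

/-- The denominator of `s`. -/
def DD (x3 x4 m : R) : R := m ^ 2 - cc x3 x4

/-- The numerator of `s`. -/
def SS (x3 x4 m : R) : R := 3 * (m ^ 2 * x3 - cc x3 x4 * x4)

/-- `(s - 1) (s - 3)` up to a square. -/
def gg (x3 x4 m : R) : R :=
  (SS x3 x4 m - DD x3 x4 m) * (SS x3 x4 m - 3 * DD x3 x4 m)

/-- `f_s(x₁) f_s(x₂)` up to a square. -/
def dd (x1 x2 x3 x4 m : R) : R :=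
  x1 * (x1 - 1) * (x2 * (x2 - 1)) *
    ((DD x3 x4 m * x1 - SS x3 x4 m) * (DD x3 x4 m * x2 - SS x3 x4 m))

/-- The slots of the Pfister form. -/
def sl (x : Fin 6 → R) : List R := [gg (x 2) (x 3) (x 4), x 0, x 1, x 2, x 3]

/-- The value that is represented. -/
def hh (x : Fin 6 → R) : R :=
  (x 5 ^ 2 - dd (x 0) (x 1) (x 2) (x 3) (x 4)) * (x 5 ^ 2 - 4 * dd (x 0) (x 1) (x 2) (x 3) (x 4))

/-- The equation of the hypersurface. -/
def GG (x : Fin 6 → R) (v : BI 5 → R) : R := pf (sl x) v - hh x

end Eq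

/-- The coordinates of affine space of dimension 38. -/
abbrev Co : Type := Fin 6 ⊕ BI 5

/-- The polynomial which defines the hypersurface, over any ring. -/
noncomputable def GP (R : Type) [CommRing R] : MvPolynomial Co R :=
  GG (fun i => X (Sum.inl i)) (fun j => X (Sum.inr j))

/-- All coordinates but `v_{j0}`. -/
abbrev Co' : Type := Fin 6 ⊕ {j : BI 5 // j ≠ j0 5}

/-- The coordinate ring of the hypersurface. -/
abbrev RX (k : Type) [Field k] : Type := MvPolynomial Co k ⧸ Ideal.span {GP k}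

/-- The function field of the hypersurface. -/
abbrev TX (k : Type) [Field k] : Type := FractionRing (RX k)

/-- The coordinates `x_i` in the function field. -/
noncomputable def xT (k : Type) [Field k] (i : Fin 6) : TX k :=
  algebraMap (RX k) (TX k) (Ideal.Quotient.mk _ (X (Sum.inl i)))

/-- The coordinates `v_j` in the function field. -/
noncomputable def vT (k : Type) [Field k] (j : BI 5) : TX k :=
  algebraMap (RX k) (TX k) (Ideal.Quotient.mk _ (X (Sum.inr j)))

/-- A `k`-algebra whose fraction field is purely transcendental over `k` (of finite degree). -/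
def IsRat (k A : Type) [Field k] [CommRing A] [Algebra k A] : Prop :=
  ∃ n : ℕ, Nonempty (FractionRing A ≃ₐ[k] FractionRing (MvPolynomial (Fin n) k))

end Pool.Agent.RR
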