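import Pool.Agent.RR.Defs

/-!
# Project RR (MP_0a3790_ag), row RR-5: the Gauss extension of an order and an angular component
-/

set_option autoImplicit false

namespace Pool.Agent.RR

open Polynomial

namespace Gs

/-- An order and an angular component from a relation: z has level m and initial form w. -/
theorem exists_AC {K κ : Type} [Field K] [Field κ] (R : K → ℤ → κ → Prop)
    (hZ : ∀ m w, R 0 m w → w = 0)
    (hU : ∀ z m w w', R z m w → R z m w' → w = w')
    (hL : ∀ z m w m', R z m w → m' < m → R z m' 0)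
    (hE : ∀ z, z ≠ 0 → ∃ m w, w ≠ 0 ∧ R z m w)
    (hA : ∀ z z' m w w', R z m w → R z' m w' → R (z + z') m (w + w'))
    (hM : ∀ z z' m m' w w', R z m w → R z' m' w' → R (z * z') (m + m') (w * w')) :
    ∃ B : AC K κ, ∀ z m w, w ≠ 0 → R z m w → B.ord z = m ∧ B.ac z = w := by
  have h1 : ∀ z : K, ∃ p : ℤ × κ, (z = 0 → p = (0, 0)) ∧ (z ≠ 0 → p.2 ≠ 0 ∧ R z p.1 p.2) := by
    intro z
    by_cases hz : z = 0
    · exact ⟨(0, 0), fun _ => rfl, fun h => absurd hz h⟩
    · obtain ⟨m, w, hw, h⟩ := hE z hz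
      exact ⟨(m, w), fun h => absurd h hz, fun _ => ⟨hw, h⟩⟩
  choose p hp0 hp using h1
  have hgt : ∀ z, z ≠ 0 → ∀ m, R z m 0 → m < (p z).1 := by
    intro z hz m h
    obtain ⟨h2, h3⟩ := hp z hz
    rcases lt_trichotomy m (p z).1 with h4 | h4 | h4
    · exact h4
    · subst h4
      exact absurd (hU _ _ _ _ h3 h) h2
    · exact absurd (hU _ _ _ _ h3 (hL _ _ _ _ h h4)) h2
  have key : ∀ z m w, w ≠ 0 → R z m w → (p z).1 = m ∧ (p z).2 = w := by
    intro z m w hw h
    have hz : z ≠ 0 := by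
      rintro rfl
      exact hw (hZ m w h)
    obtain ⟨h2, h3⟩ := hp z hz
    rcases lt_trichotomy (p z).1 m with h4 | h4 | h4
    · exact absurd (hU _ _ _ _ h3 (hL _ _ _ _ h h4)) h2
    · subst h4
      exact ⟨rfl, hU _ _ _ _ h3 h⟩
    · exact absurd (hU _ _ _ _ h (hL _ _ _ _ h3 h4)) hw
  refine ⟨⟨fun z => (p z).1, fun z => (p z).2, ?_, ?_, ?_, ?_, ?_, ?_, ?_⟩, key⟩
  · show (p 0).2 = 0
    rw [hp0 0 rfl]
  · intro x hx
    exact (hp x hx).1
  · intro x y
    show (p (x * y)).2 = (p x).2 * (p y).2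
    by_cases hx : x = 0
    · rw [hx, zero_mul, hp0 0 rfl, zero_mul]
    by_cases hy : y = 0
    · rw [hy, mul_zero, hp0 0 rfl, mul_zero]
    exact (key _ _ _ (mul_ne_zero (hp x hx).1 (hp y hy).1)
      (hM _ _ _ _ _ _ (hp x hx).2 (hp y hy).2)).2
  · intro x y hx hy
    exact (key _ _ _ (mul_ne_zero (hp x hx).1 (hp y hy).1)
      (hM _ _ _ _ _ _ (hp x hx).2 (hp y hy).2)).1
  · intro x y hx hy hxy
    have h2 := hA _ _ _ _ _ (hp x hx).2 (hL _ _ _ _ (hp y hy).2 hxy)
    rw [add_zero] at h2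
    exact key _ _ _ (hp x hx).1 h2
  · intro x y hx hy hxy hs
    have h2 := (hp y hy).2
    change (p x).1 = (p y).1 at hxy
    rw [← hxy] at h2
    exact key _ _ _ hs (hA _ _ _ _ _ (hp x hx).2 h2)
  · intro x y hx hy hxy hs h0
    have h2 := (hp y hy).2
    change (p x).1 = (p y).1 at hxy
    rw [← hxy] at h2
    have h3 := hA _ _ _ _ _ (hp x hx).2 h2
    change (p x).2 + (p y).2 = 0 at hs
    rw [hs] at h3
    exact hgt _ h0 _ h3

section Level

variable {F κ : Type} [Field F] [Field κ]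

/-- `a` has order at least `m`. -/
def Lv (A : AC F κ) (m : ℤ) (a : F) : Prop := a ≠ 0 → m ≤ A.ord a

open Classical in
/-- The initial form of `a` at level `m`. -/
noncomputable def ini (A : AC F κ) (m : ℤ) (a : F) : κ :=
  if a ≠ 0 ∧ A.ord a = m then A.ac a else 0

theorem ini_zero (A : AC F κ) (m : ℤ) : ini A m 0 = 0 := by
  unfold ini
  rw [if_neg (fun h => h.1 rfl)]

theorem ini_gt (A : AC F κ) {m : ℤ} {a : F} (h : a ≠ 0 → m < A.ord a) : ini A m a = 0 := by
  unfold ini
  rw [if_neg]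
  rintro ⟨h1, h2⟩
  exact absurd h2 (h h1).ne'

theorem ini_eq (A : AC F κ) {m : ℤ} {a : F} (h : a ≠ 0) (h' : A.ord a = m) :
    ini A m a = A.ac a := by
  unfold ini
  rw [if_pos ⟨h, h'⟩]

theorem lv_zero (A : AC F κ) (m : ℤ) : Lv A m 0 := fun h => absurd rfl h

theorem lv_add_aux (A : AC F κ) {m : ℤ} {a b : F} (ha : Lv A m a) (ha0 : a ≠ 0)
    (hb0 : b ≠ 0) (h : A.ord a < A.ord b) :
    Lv A m (a + b) ∧ ini A m (a + b) = ini A m a + ini A m b := by
  obtain ⟨h1, h2⟩ := A.add_lt a b ha0 hb0 h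
  have h3 : a + b ≠ 0 := by
    intro h3
    rw [h3, A.ac_zero] at h2
    exact A.ac_ne a ha0 h2.symm
  have h4 := ha ha0
  refine ⟨fun _ => by rw [h1]; exact h4, ?_⟩
  rw [ini_gt A (a := b) (fun _ => by omega), add_zero]
  by_cases h5 : A.ord a = m
  · rw [ini_eq A h3 (h1.trans h5), ini_eq A ha0 h5, h2]
  · rw [ini_gt A (a := a) (fun _ => by omega), ini_gt A (a := a + b) (fun _ => by omega)]

theorem lv_add (A : AC F κ) {m : ℤ} {a b : F} (ha : Lv A m a) (hb : Lv A m b) :
    Lv A m (a + b) ∧ ini A m (a + b) = ini A m a + ini A m b := by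
  by_cases ha0 : a = 0
  · subst ha0
    rw [zero_add, ini_zero, zero_add]
    exact ⟨hb, rfl⟩
  by_cases hb0 : b = 0
  · subst hb0
    rw [add_zero, ini_zero, add_zero]
    exact ⟨ha, rfl⟩
  rcases lt_trichotomy (A.ord a) (A.ord b) with h | h | h
  · exact lv_add_aux A ha ha0 hb0 h
  · have h4 := ha ha0
    by_cases hs : A.ac a + A.ac b = 0
    · have h5 : ini A m a + ini A m b = 0 := by
        by_cases h6 : A.ord a = m
        · rw [ini_eq A ha0 h6, ini_eq A hb0 (h.symm.trans h6), hs]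
        · rw [ini_gt A (a := a) (fun _ => by omega), ini_gt A (a := b) (fun _ => by omega),
            add_zero]
      by_cases h0 : a + b = 0
      · rw [h0, ini_zero, h5]
        exact ⟨lv_zero A m, rfl⟩
      · have h7 := A.add_gt a b ha0 hb0 h hs h0
        refine ⟨fun _ => by omega, ?_⟩
        rw [h5, ini_gt A (fun _ => by omega)]
    · obtain ⟨h1, h2⟩ := A.add_eq a b ha0 hb0 h hs
      have h3 : a + b ≠ 0 := by
        intro h3
        rw [h3, A.ac_zero] at h2
        exact hs h2.symm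
      refine ⟨fun _ => by rw [h1]; exact h4, ?_⟩
      by_cases h6 : A.ord a = m
      · rw [ini_eq A ha0 h6, ini_eq A hb0 (h.symm.trans h6), ini_eq A h3 (h1.trans h6), h2]
      · rw [ini_gt A (a := a) (fun _ => by omega), ini_gt A (a := b) (fun _ => by omega),
          ini_gt A (a := a + b) (fun _ => by omega), add_zero]
  · rw [add_comm a b, add_comm (ini A m a)]
    exact lv_add_aux A hb hb0 ha0 h

theorem lv_mul (A : AC F κ) {m n : ℤ} {a b : F} (ha : Lv A m a) (hb : Lv A n b) :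
    Lv A (m + n) (a * b) ∧ ini A (m + n) (a * b) = ini A m a * ini A n b := by
  by_cases ha0 : a = 0
  · subst ha0
    rw [zero_mul, ini_zero, ini_zero, zero_mul]
    exact ⟨lv_zero A _, rfl⟩
  by_cases hb0 : b = 0
  · subst hb0
    rw [mul_zero, ini_zero, ini_zero, mul_zero]
    exact ⟨lv_zero A _, rfl⟩
  have h1 := A.ord_mul a b ha0 hb0
  have h2 := ha ha0
  have h3 := hb hb0
  refine ⟨fun _ => by omega, ?_⟩
  by_cases h4 : A.ord a = m
  · by_cases h5 : A.ord b = n
    · rw [ini_eq A ha0 h4, ini_eq A hb0 h5, ini_eq A (mul_ne_zero ha0 hb0) (by omega), A.ac_mul]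
    · rw [ini_gt A (a := b) (fun _ => by omega), mul_zero, ini_gt A (fun _ => by omega)]
  · rw [ini_gt A (a := a) (fun _ => by omega), zero_mul, ini_gt A (fun _ => by omega)]

theorem lv_sum (A : AC F κ) {m : ℤ} {ι : Type} (s : Finset ι) (a : ι → F)
    (h : ∀ i ∈ s, Lv A m (a i)) :
    Lv A m (∑ i ∈ s, a i) ∧ ini A m (∑ i ∈ s, a i) = ∑ i ∈ s, ini A m (a i) := by
  classical
  induction s using Finset.induction_on with
  | empty =>
    rw [Finset.sum_empty, Finset.sum_empty]
    exact ⟨lv_zero A m, ini_zero A m⟩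
  | insert i s hi ih =>
    rw [Finset.sum_insert hi, Finset.sum_insert hi]
    have h1 := ih fun j hj => h j (Finset.mem_insert_of_mem hj)
    have h2 := lv_add A (h i (Finset.mem_insert_self i s)) h1.1
    rw [h1.2] at h2
    exact h2

/-- All coefficients have order at least `m`. -/
def LvP (A : AC F κ) (m : ℤ) (f : F[X]) : Prop := ∀ i, Lv A m (f.coeff i)

/-- The initial form of a polynomial at level `m`. -/
noncomputable def red (A : AC F κ) (m : ℤ) (f : F[X]) : κ[X] :=
  ∑ i ∈ f.support, monomial i (ini A m (f.coeff i))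

theorem red_coeff (A : AC F κ) (m : ℤ) (f : F[X]) (i : ℕ) :
    (red A m f).coeff i = ini A m (f.coeff i) := by
  unfold red
  rw [finsetSum_coeff]
  simp only [coeff_monomial]
  rw [Finset.sum_ite_eq' f.support i]
  by_cases h : i ∈ f.support
  · rw [if_pos h]
  · rw [if_neg h, notMem_support_iff.1 h, ini_zero]

theorem red_zero (A : AC F κ) (m : ℤ) : red A m 0 = 0 := by
  ext i
  rw [red_coeff, coeff_zero, ini_zero, coeff_zero]

theorem red_add (A : AC F κ) {m : ℤ} {f g : F[X]} (hf : LvP A m f) (hg : LvP A m g) :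
    LvP A m (f + g) ∧ red A m (f + g) = red A m f + red A m g := by
  refine ⟨fun i => ?_, ?_⟩
  · rw [coeff_add]
    exact (lv_add A (hf i) (hg i)).1
  · ext i
    rw [coeff_add, red_coeff, red_coeff, red_coeff, coeff_add, (lv_add A (hf i) (hg i)).2]

theorem red_mul (A : AC F κ) {m n : ℤ} {f g : F[X]} (hf : LvP A m f) (hg : LvP A n g) :
    LvP A (m + n) (f * g) ∧ red A (m + n) (f * g) = red A m f * red A n g := by
  have h := fun i => lv_sum A (m := m + n) (Finset.HasAntidiagonal.antidiagonal i)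
    (fun x => f.coeff x.1 * g.coeff x.2) (fun x _ => (lv_mul A (hf x.1) (hg x.2)).1)
  refine ⟨fun i => ?_, ?_⟩
  · rw [coeff_mul]
    exact (h i).1
  · ext i
    rw [red_coeff, coeff_mul, coeff_mul, (h i).2]
    refine Finset.sum_congr rfl fun x _ => ?_
    rw [red_coeff, red_coeff]
    exact (lv_mul A (hf x.1) (hg x.2)).2

theorem red_lower (A : AC F κ) {m m' : ℤ} {f : F[X]} (hf : LvP A m f) (h : m' < m) :
    LvP A m' f ∧ red A m' f = 0 := by
  refine ⟨fun i h0 => ?_, ?_⟩
  · have := hf i h0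
    omega
  · ext i
    rw [red_coeff, coeff_zero, ini_gt A (fun h0 => ?_)]
    have := hf i h0
    omega

theorem exists_level (A : AC F κ) {f : F[X]} (hf : f ≠ 0) :
    ∃ m, LvP A m f ∧ red A m f ≠ 0 := by
  have hs : f.support.Nonempty := nonempty_support_iff.2 hf
  obtain ⟨i, hi, h⟩ := Finset.exists_min_image f.support (fun i => A.ord (f.coeff i)) hs
  refine ⟨A.ord (f.coeff i), fun j hj => h j (mem_support_iff.2 hj), fun h0 => ?_⟩
  have h1 : (red A (A.ord (f.coeff i)) f).coeff i = 0 := by rw [h0, coeff_zero]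
  rw [red_coeff, ini_eq A (mem_support_iff.1 hi) rfl] at h1
  exact A.ac_ne _ (mem_support_iff.1 hi) h1

theorem red_C (A : AC F κ) {a : F} (ha : a ≠ 0) :
    LvP A (A.ord a) (C a) ∧ red A (A.ord a) (C a) = C (A.ac a) := by
  refine ⟨fun i h0 => ?_, ?_⟩
  · rw [coeff_C] at h0 ⊢
    split_ifs at h0 ⊢ with h
    · exact le_refl _
    · exact absurd rfl h0
  · ext i
    rw [red_coeff, coeff_C, coeff_C]
    split_ifs with h
    · exact ini_eq A ha rfl
    · exact ini_zero A _

/-- `z` has level `m` and initial form `w`. -/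
def Rel (A : AC F κ) (z : RatFunc F) (m : ℤ) (w : RatFunc κ) : Prop :=
  ∃ (f g : F[X]) (n : ℤ), LvP A (m + n) f ∧ LvP A n g ∧ red A n g ≠ 0 ∧
    z = algebraMap F[X] (RatFunc F) f / algebraMap F[X] (RatFunc F) g ∧
    w = algebraMap κ[X] (RatFunc κ) (red A (m + n) f) / algebraMap κ[X] (RatFunc κ) (red A n g)

theorem am_ne {K : Type} [Field K] {f : K[X]} (h : f ≠ 0) : algebraMap K[X] (RatFunc K) f ≠ 0 := by
  intro h0
  exact h (RatFunc.algebraMap_injective K (by rw [h0, map_zero]))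

theorem ne_of_red (A : AC F κ) {n : ℤ} {g : F[X]} (h : red A n g ≠ 0) : g ≠ 0 := by
  rintro rfl
  exact h (red_zero A n)

end Level

end Gs

open Gs in
theorem exists_gauss {F κ : Type} [Field F] [Field κ] (A : AC F κ) :
    ∃ B : AC (RatFunc F) (RatFunc κ), ∀ a : F, a ≠ 0 →
      B.ord (algebraMap F (RatFunc F) a) = A.ord a ∧
      B.ac (algebraMap F (RatFunc F) a) = algebraMap κ (RatFunc κ) (A.ac a) := by
  have hex : ∃ B : AC (RatFunc F) (RatFunc κ), ∀ z m w, w ≠ 0 → Rel A z m w →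
      B.ord z = m ∧ B.ac z = w := by
    refine exists_AC (Rel A) ?_ ?_ ?_ ?_ ?_ ?_
    · rintro m w ⟨f, g, n, h1, h2, h3, h4, h5⟩
      have h6 : f = 0 := by
        by_contra h6
        exact div_ne_zero (am_ne h6) (am_ne (ne_of_red A h3)) h4.symm
      rw [h5, h6, red_zero, map_zero, zero_div]
    · rintro z m w w' ⟨f, g, n, h1, h2, h3, h4, h5⟩ ⟨f', g', n', h1', h2', h3', h4', h5'⟩
      rw [h4, div_eq_div_iff (am_ne (ne_of_red A h3)) (am_ne (ne_of_red A h3')), ← map_mul,
        ← map_mul] at h4'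
      have h6 : f * g' = f' * g := RatFunc.algebraMap_injective F h4'
      rw [h5, h5', div_eq_div_iff (am_ne h3) (am_ne h3'), ← map_mul, ← map_mul,
        ← (red_mul A h1 h2').2, ← (red_mul A h1' h2).2, h6]
      congr 2
      ring
    · rintro z m w m' ⟨f, g, n, h1, h2, h3, h4, h5⟩ hlt
      have h6 := red_lower A h1 (m' := m' + n) (by omega)
      exact ⟨f, g, n, h6.1, h2, h3, h4, by rw [h6.2, map_zero, zero_div]⟩
    · intro z hz
      obtain ⟨m, h1, h1'⟩ := exists_level A (RatFunc.num_ne_zero hz)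
      obtain ⟨n, h2, h2'⟩ := exists_level A (RatFunc.denom_ne_zero z)
      have h3 : m = (m - n) + n := by ring
      refine ⟨m - n, _, ?_, z.num, z.denom, n, h3 ▸ h1, h2, h2', (RatFunc.num_div_denom z).symm, rfl⟩
      rw [← h3]
      exact div_ne_zero (am_ne h1') (am_ne h2')
    · rintro z z' m w w' ⟨f, g, n, h1, h2, h3, h4, h5⟩ ⟨f', g', n', h1', h2', h3', h4', h5'⟩
      have h6 := red_mul A h1 h2'
      have h6' := red_mul A h1' h2
      have h7 := red_mul A h2 h2'
      have e1 : m + n + n' = m + (n + n') := by ring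
      have e2 : m + n' + n = m + (n + n') := by ring
      rw [e1] at h6
      rw [e2] at h6'
      have h8 := red_add A h6.1 h6'.1
      refine ⟨f * g' + f' * g, g * g', n + n', h8.1, h7.1, ?_, ?_, ?_⟩
      · rw [h7.2]
        exact mul_ne_zero h3 h3'
      · rw [h4, h4', div_add_div _ _ (am_ne (ne_of_red A h3)) (am_ne (ne_of_red A h3')), map_add,
          map_mul, map_mul, map_mul]
        ring
      · rw [h5, h5', h8.2, h6.2, h6'.2, h7.2, div_add_div _ _ (am_ne h3) (am_ne h3'), map_add,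
          map_mul, map_mul, map_mul]
        ring
    · rintro z z' m m' w w' ⟨f, g, n, h1, h2, h3, h4, h5⟩ ⟨f', g', n', h1', h2', h3', h4', h5'⟩
      have h6 := red_mul A h1 h1'
      have h7 := red_mul A h2 h2'
      have e1 : m + n + (m' + n') = m + m' + (n + n') := by ring
      rw [e1] at h6
      refine ⟨f * f', g * g', n + n', h6.1, h7.1, ?_, ?_, ?_⟩
      · rw [h7.2]
        exact mul_ne_zero h3 h3'
      · rw [h4, h4', div_mul_div_comm, map_mul, map_mul]
      · rw [h5, h5', h6.2, h7.2, div_mul_div_comm, map_mul, map_mul]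
  obtain ⟨B, hB⟩ := hex
  refine ⟨B, fun a ha => ?_⟩
  refine hB _ _ _ ?_ ⟨C a, C 1, A.ord 1, ?_, (red_C A one_ne_zero).1, ?_, ?_, ?_⟩
  · rw [Ne, map_eq_zero]
    exact A.ac_ne a ha
  all_goals
    have h1 : A.ord 1 = 0 := by
      have h := A.ord_mul 1 1 one_ne_zero one_ne_zero
      rw [mul_one] at h
      omega
    have h2 : A.ac 1 = 1 := by
      have h := A.ac_mul 1 1
      rw [mul_one] at h
      exact (mul_eq_left₀ (A.ac_ne 1 one_ne_zero)).1 h.symm
  · rw [h1, add_zero]
    exact (red_C A ha).1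
  · rw [(red_C A one_ne_zero).2, h2, C_1]
    exact one_ne_zero
  · rw [C_1, map_one, div_one]
    rfl
  · rw [(red_C A one_ne_zero).2, h2, C_1, map_one, div_one, h1, add_zero, (red_C A ha).2]
    rfl

end Pool.Agent.RR
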