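import Pool.Agent.RR.Defs

/-!
# Project RR (MP_0a3790_ag), row RR-3: order and angular component at an irreducible polynomial
-/

set_option autoImplicit false

namespace Pool.Agent.RR

open Polynomial

variable {F : Type} [Field F]

private noncomputable abbrev pa (F : Type) [Field F] : Polynomial F →+* RatFunc F :=
  algebraMap (Polynomial F) (RatFunc F)

private theorem pa_inj : Function.Injective (pa F) := RatFunc.algebraMap_injective F

private theorem pa_ne {f : Polynomial F} (h : f ≠ 0) : pa F f ≠ 0 := by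
  intro h0
  exact h (pa_inj (by rw [h0, map_zero]))

private theorem ndvd_ne {P f : Polynomial F} (h : ¬ P ∣ f) : f ≠ 0 := by
  rintro rfl
  exact h (dvd_zero _)

/-- `x = P ^ n f / g` with `f`, `g` not divisible by `P` -/
private def PR (P : Polynomial F) (x : RatFunc F) (n : ℤ) (f g : Polynomial F) : Prop :=
  ¬ P ∣ f ∧ ¬ P ∣ g ∧ x = (pa F P) ^ n * (pa F f / pa F g)

private theorem PR.ne {P : Polynomial F} (hP : P ≠ 0) {x : RatFunc F} {n : ℤ} {f g : Polynomial F}
    (h : PR P x n f g) : x ≠ 0 := by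
  obtain ⟨h1, h2, rfl⟩ := h
  exact mul_ne_zero (zpow_ne_zero _ (pa_ne hP)) (div_ne_zero (pa_ne (ndvd_ne h1)) (pa_ne (ndvd_ne h2)))

private theorem exists_poly {P : Polynomial F} (hP : Irreducible P) {f : Polynomial F}
    (hf : f ≠ 0) : ∃ (n : ℕ) (c : Polynomial F), f = P ^ n * c ∧ ¬ P ∣ c := by
  have h1 : FiniteMultiplicity P f := FiniteMultiplicity.of_prime_left hP.prime hf
  obtain ⟨c, hc, hc'⟩ := h1.exists_eq_pow_mul_and_not_dvd
  exact ⟨_, c, hc, hc'⟩

private theorem exists_PR {P : Polynomial F} (hP : Irreducible P) {x : RatFunc F} (hx : x ≠ 0) :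
    ∃ (n : ℤ) (f g : Polynomial F), PR P x n f g := by
  have h0 : pa F P ≠ 0 := pa_ne hP.ne_zero
  obtain ⟨i, c, hc, hc'⟩ := exists_poly hP (RatFunc.num_ne_zero hx)
  obtain ⟨j, d, hd, hd'⟩ := exists_poly hP (RatFunc.denom_ne_zero x)
  refine ⟨(i : ℤ) - j, c, d, hc', hd', ?_⟩
  have h1 : x = pa F x.num / pa F x.denom := (RatFunc.num_div_denom x).symm
  have h2 : pa F d ≠ 0 := pa_ne (ndvd_ne hd')
  rw [zpow_sub₀ h0, zpow_natCast, zpow_natCast]
  conv_lhs => rw [h1, hc, hd]
  rw [map_mul, map_mul, map_pow, map_pow]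
  field_simp

private theorem mk_ne {P : Polynomial F} {f : Polynomial F} (h : ¬ P ∣ f) :
    AdjoinRoot.mk P f ≠ 0 := fun h0 => h (AdjoinRoot.mk_eq_zero.1 h0)

private theorem uniq_aux {P : Polynomial F} [hP : Fact (Irreducible P)] {x : RatFunc F} {n n' : ℤ}
    {f g f' g' : Polynomial F} (h : PR P x n f g) (h' : PR P x n' f' g') (hn : n ≤ n') :
    n = n' ∧ AdjoinRoot.mk P f / AdjoinRoot.mk P g = AdjoinRoot.mk P f' / AdjoinRoot.mk P g' := by
  have hP1 := hP.1
  have h0 : pa F P ≠ 0 := pa_ne hP1.ne_zero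
  obtain ⟨hf, hg, hx⟩ := h
  obtain ⟨hf', hg', hx'⟩ := h'
  obtain ⟨k, rfl⟩ : ∃ k : ℕ, n' = n + k := ⟨(n' - n).toNat, by omega⟩
  have h1 : pa F g ≠ 0 := pa_ne (ndvd_ne hg)
  have h2 : pa F g' ≠ 0 := pa_ne (ndvd_ne hg')
  have h3 : pa F f * pa F g' = pa F P ^ k * (pa F f' * pa F g) := by
    rw [hx, zpow_add₀ h0, zpow_natCast, mul_assoc] at hx'
    have h4 := mul_left_cancel₀ (zpow_ne_zero n h0) hx'
    field_simp at h4
    linear_combination h4
  have h4 : f * g' = P ^ k * (f' * g) := by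
    apply pa_inj
    rw [map_mul, map_mul, map_mul, map_pow]
    exact h3
  have hk : k = 0 := by
    by_contra hk
    have h5 : P ∣ f * g' := by
      rw [h4]
      exact dvd_mul_of_dvd_left (dvd_pow_self P hk) _
    rcases hP1.prime.dvd_or_dvd h5 with h6 | h6
    · exact hf h6
    · exact hg' h6
  subst hk
  refine ⟨by simp, ?_⟩
  rw [div_eq_div_iff (mk_ne hg) (mk_ne hg'), ← map_mul, ← map_mul, h4]
  simp

private theorem uniq {P : Polynomial F} [hP : Fact (Irreducible P)] {x : RatFunc F} {n n' : ℤ}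
    {f g f' g' : Polynomial F} (h : PR P x n f g) (h' : PR P x n' f' g') :
    n = n' ∧ AdjoinRoot.mk P f / AdjoinRoot.mk P g = AdjoinRoot.mk P f' / AdjoinRoot.mk P g' := by
  rcases le_total n n' with hn | hn
  · exact uniq_aux h h' hn
  · exact ⟨(uniq_aux h' h hn).1.symm, (uniq_aux h' h hn).2.symm⟩

open Classical in
private noncomputable def pOrd (P : Polynomial F) [hP : Fact (Irreducible P)] (x : RatFunc F) : ℤ :=
  if h : x = 0 then 0 else (exists_PR hP.1 h).choose

open Classical in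
private noncomputable def pAc (P : Polynomial F) [hP : Fact (Irreducible P)] (x : RatFunc F) :
    AdjoinRoot P :=
  if h : x = 0 then 0 else
    AdjoinRoot.mk P (exists_PR hP.1 h).choose_spec.choose /
      AdjoinRoot.mk P (exists_PR hP.1 h).choose_spec.choose_spec.choose

private theorem val_eq {P : Polynomial F} [hP : Fact (Irreducible P)] {x : RatFunc F} {n : ℤ}
    {f g : Polynomial F} (h : PR P x n f g) :
    pOrd P x = n ∧ pAc P x = AdjoinRoot.mk P f / AdjoinRoot.mk P g := by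
  have hx : x ≠ 0 := h.ne hP.1.ne_zero
  have h1 : PR P x (exists_PR hP.1 hx).choose (exists_PR hP.1 hx).choose_spec.choose
      (exists_PR hP.1 hx).choose_spec.choose_spec.choose :=
    (exists_PR hP.1 hx).choose_spec.choose_spec.choose_spec
  have h2 := uniq h1 h
  unfold pOrd pAc
  rw [dif_neg hx, dif_neg hx]
  exact h2

private theorem PR.mul {P : Polynomial F} (hP : Irreducible P) {x y : RatFunc F} {n n' : ℤ}
    {f g f' g' : Polynomial F} (h : PR P x n f g) (h' : PR P y n' f' g') :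
    PR P (x * y) (n + n') (f * f') (g * g') := by
  have h0 : pa F P ≠ 0 := pa_ne hP.ne_zero
  obtain ⟨hf, hg, rfl⟩ := h
  obtain ⟨hf', hg', rfl⟩ := h'
  refine ⟨fun h => (hP.prime.dvd_or_dvd h).elim hf hf',
    fun h => (hP.prime.dvd_or_dvd h).elim hg hg', ?_⟩
  rw [zpow_add₀ h0, map_mul, map_mul]
  ring

private theorem PR.add_nat {P : Polynomial F} (hP : Irreducible P) {x y : RatFunc F} {n : ℤ}
    {k : ℕ} {f g f' g' : Polynomial F} (h : PR P x n f g) (h' : PR P y (n + k) f' g') :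
    x + y = (pa F P) ^ n * (pa F (f * g' + P ^ k * (f' * g)) / pa F (g * g')) ∧
      ¬ P ∣ g * g' := by
  have h0 : pa F P ≠ 0 := pa_ne hP.ne_zero
  obtain ⟨hf, hg, rfl⟩ := h
  obtain ⟨hf', hg', rfl⟩ := h'
  have h1 : pa F g ≠ 0 := pa_ne (ndvd_ne hg)
  have h2 : pa F g' ≠ 0 := pa_ne (ndvd_ne hg')
  refine ⟨?_, fun h => (hP.prime.dvd_or_dvd h).elim hg hg'⟩
  rw [zpow_add₀ h0, zpow_natCast, map_add, map_mul, map_mul, map_mul, map_mul, map_pow]
  field_simp

/-- the order and the angular component at `P` -/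
private noncomputable def padic (P : Polynomial F) [hP : Fact (Irreducible P)] :
    AC (RatFunc F) (AdjoinRoot P) where
  ord := pOrd P
  ac := pAc P
  ac_zero := by
    unfold pAc
    rw [dif_pos rfl]
  ac_ne := by
    intro x hx
    obtain ⟨n, f, g, h⟩ := exists_PR hP.1 hx
    rw [(val_eq h).2]
    exact div_ne_zero (mk_ne h.1) (mk_ne h.2.1)
  ac_mul := by
    intro x y
    by_cases hx : x = 0
    · subst hx
      unfold pAc
      rw [dif_pos (zero_mul y), dif_pos rfl, zero_mul]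
    by_cases hy : y = 0
    · subst hy
      unfold pAc
      rw [dif_pos (mul_zero x), dif_pos (rfl : (0 : RatFunc F) = 0), mul_zero]
    obtain ⟨n, f, g, h⟩ := exists_PR hP.1 hx
    obtain ⟨n', f', g', h'⟩ := exists_PR hP.1 hy
    rw [(val_eq h).2, (val_eq h').2, (val_eq (h.mul hP.1 h')).2, map_mul, map_mul,
      div_mul_div_comm]
  ord_mul := by
    intro x y hx hy
    obtain ⟨n, f, g, h⟩ := exists_PR hP.1 hx
    obtain ⟨n', f', g', h'⟩ := exists_PR hP.1 hy
    rw [(val_eq h).1, (val_eq h').1, (val_eq (h.mul hP.1 h')).1]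
  add_lt := by
    intro x y hx hy hlt
    obtain ⟨n, f, g, h⟩ := exists_PR hP.1 hx
    obtain ⟨n', f', g', h'⟩ := exists_PR hP.1 hy
    rw [(val_eq h).1, (val_eq h').1] at hlt
    obtain ⟨k, rfl⟩ : ∃ k : ℕ, n' = n + ((k + 1 : ℕ) : ℤ) := ⟨(n' - n - 1).toNat, by omega⟩
    have h1 := PR.add_nat hP.1 h h'
    have h2 : AdjoinRoot.mk P (f * g' + P ^ (k + 1) * (f' * g)) =
        AdjoinRoot.mk P f * AdjoinRoot.mk P g' := by
      rw [map_add, map_mul, map_mul, map_pow, AdjoinRoot.mk_self]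
      simp
    have h3 : ¬ P ∣ f * g' + P ^ (k + 1) * (f' * g) := by
      intro h3
      rw [← AdjoinRoot.mk_eq_zero, h2] at h3
      exact mul_ne_zero (mk_ne h.1) (mk_ne h'.2.1) h3
    have h4 : PR P (x + y) n (f * g' + P ^ (k + 1) * (f' * g)) (g * g') := ⟨h3, h1.2, h1.1⟩
    rw [(val_eq h4).1, (val_eq h4).2, (val_eq h).1, (val_eq h).2, h2, map_mul]
    refine ⟨rfl, ?_⟩
    rw [mul_div_mul_right _ _ (mk_ne h'.2.1)]
  add_eq := by
    intro x y hx hy he hs
    obtain ⟨n, f, g, h⟩ := exists_PR hP.1 hx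
    obtain ⟨n', f', g', h'⟩ := exists_PR hP.1 hy
    rw [(val_eq h).1, (val_eq h').1] at he
    subst he
    have h'' : PR P y (n + ((0 : ℕ) : ℤ)) f' g' := by simpa using h'
    have h1 := PR.add_nat hP.1 h h''
    have h2 : AdjoinRoot.mk P (f * g' + P ^ 0 * (f' * g)) / AdjoinRoot.mk P (g * g') =
        pAc P x + pAc P y := by
      rw [(val_eq h).2, (val_eq h').2, div_add_div _ _ (mk_ne h.2.1) (mk_ne h'.2.1)]
      simp only [map_add, map_mul, pow_zero, one_mul]
      ring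
    have h3 : ¬ P ∣ f * g' + P ^ 0 * (f' * g) := by
      intro h3
      rw [← AdjoinRoot.mk_eq_zero] at h3
      rw [h3, zero_div] at h2
      exact hs h2.symm
    have h4 : PR P (x + y) n (f * g' + P ^ 0 * (f' * g)) (g * g') := ⟨h3, h1.2, h1.1⟩
    rw [(val_eq h4).1, (val_eq h4).2, (val_eq h).1, h2]
    exact ⟨rfl, rfl⟩
  add_gt := by
    intro x y hx hy he hs hxy
    obtain ⟨n, f, g, h⟩ := exists_PR hP.1 hx
    obtain ⟨n', f', g', h'⟩ := exists_PR hP.1 hy
    rw [(val_eq h).1, (val_eq h').1] at he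
    subst he
    have h'' : PR P y (n + ((0 : ℕ) : ℤ)) f' g' := by simpa using h'
    have h1 := PR.add_nat hP.1 h h''
    have h2 : AdjoinRoot.mk P (f * g' + P ^ 0 * (f' * g)) / AdjoinRoot.mk P (g * g') =
        pAc P x + pAc P y := by
      rw [(val_eq h).2, (val_eq h').2, div_add_div _ _ (mk_ne h.2.1) (mk_ne h'.2.1)]
      simp only [map_add, map_mul, pow_zero, one_mul]
      ring
    have h3 : P ∣ f * g' + P ^ 0 * (f' * g) := by
      rw [hs, div_eq_zero_iff] at h2
      rcases h2 with h2 | h2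
      · exact AdjoinRoot.mk_eq_zero.1 h2
      · exact absurd h2 (mk_ne h1.2)
    have h4 : f * g' + P ^ 0 * (f' * g) ≠ 0 := by
      intro h4
      apply hxy
      rw [h1.1, h4]
      simp
    obtain ⟨i, c, hc, hc'⟩ := exists_poly hP.1 h4
    have hi : i ≠ 0 := by
      rintro rfl
      simp only [pow_zero, one_mul] at hc h3
      exact hc' (hc ▸ h3)
    have h5 : PR P (x + y) (n + i) c (g * g') := by
      refine ⟨hc', h1.2, ?_⟩
      rw [h1.1, hc, zpow_add₀ (pa_ne hP.1.ne_zero), zpow_natCast, map_mul, map_pow]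
      ring
    rw [(val_eq h).1, (val_eq h5).1]
    omega

theorem exists_padic (F : Type) [Field F] (P : Polynomial F) [hP : Fact (Irreducible P)] :
    ∃ A : AC (RatFunc F) (AdjoinRoot P), A.Triv F ∧
      (∀ f : Polynomial F, ¬ P ∣ f → A.ord (algebraMap _ (RatFunc F) f) = 0 ∧
        A.ac (algebraMap _ (RatFunc F) f) = AdjoinRoot.mk P f) ∧
      A.ord (algebraMap _ (RatFunc F) P) = 1 ∧ A.ac (algebraMap _ (RatFunc F) P) = 1 := by
  have h1 : ¬ P ∣ 1 := fun h => hP.1.not_isUnit (isUnit_of_dvd_one h)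
  have h2 : ∀ f : Polynomial F, ¬ P ∣ f → PR P (pa F f) 0 f 1 := by
    intro f hf
    refine ⟨hf, h1, ?_⟩
    simp
  have h3 : PR P (pa F P) 1 1 1 := by
    refine ⟨h1, h1, ?_⟩
    simp
  refine ⟨padic P, ?_, ?_, ?_, ?_⟩
  · intro c hc
    have h4 : ¬ P ∣ C c := by
      intro h
      exact hP.1.not_isUnit (isUnit_of_dvd_unit h (isUnit_C.2 (isUnit_iff_ne_zero.2 hc)))
    have h5 : algebraMap F (RatFunc F) c = pa F (C c) := rfl
    rw [h5]
    exact (val_eq (h2 _ h4)).1
  · intro f hf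
    refine ⟨(val_eq (h2 f hf)).1, ?_⟩
    have h6 := (val_eq (h2 f hf)).2
    rw [map_one, div_one] at h6
    exact h6
  · exact (val_eq h3).1
  · have h6 := (val_eq h3).2
    rw [map_one, div_one] at h6
    exact h6

end Pool.Agent.RR
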