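import Pool.Agent.RR.Defs

/-!
# RR-2: residue and specialisation as a ring homomorphism to the dual numbers
-/

set_option autoImplicit false

namespace Pool.Agent.RR

open MvPolynomial

namespace ThetaAux

variable {F : Type} [Field F]

private theorem mk_zero_of {p : MvPolynomial Fˣ (ZMod 2)} (h : p ∈ symSet F) :
    (Ideal.Quotient.mk (Ideal.span (symSet F)) p : Sym F) = 0 :=
  Ideal.Quotient.eq_zero_iff_mem.2 (Ideal.subset_span h)

private theorem sy_unit (a : Fˣ) :
    sy (a : F) = Ideal.Quotient.mk (Ideal.span (symSet F)) (X a) := by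
  unfold sy
  rw [dif_neg a.ne_zero]
  simp

private theorem sy_mul' {a b : F} (ha : a ≠ 0) (hb : b ≠ 0) : sy (a * b) = sy a + sy b := by
  have h := mk_zero_of (F := F) (p := X (Units.mk0 a ha * Units.mk0 b hb) - X (Units.mk0 a ha)
    - X (Units.mk0 b hb)) (Or.inl ⟨_, _, rfl⟩)
  rw [map_sub, map_sub, ← sy_unit, ← sy_unit, ← sy_unit, sub_sub, sub_eq_zero] at h
  simpa using h

private theorem sy_one' : sy (1 : F) = 0 := by
  have h := sy_mul' (F := F) one_ne_zero one_ne_zero
  rw [mul_one] at h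
  exact left_eq_add.1 h

private theorem sy_neg_one' : sy (-1 : F) = 0 := by
  have h := mk_zero_of (F := F) (p := X (-1)) (Or.inr (Or.inr rfl))
  rw [← sy_unit] at h
  simpa using h

private theorem sy_st' {a b : F} (h : a + b = 1) : sy a * sy b = 0 := by
  by_cases ha : a = 0
  · subst ha
    rw [zero_add] at h
    rw [h, sy_one', mul_zero]
  · by_cases hb : b = 0
    · subst hb
      rw [add_zero] at h
      rw [h, sy_one', zero_mul]
    · have h' := mk_zero_of (F := F) (p := X (Units.mk0 a ha) * X (Units.mk0 b hb))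
        (Or.inr (Or.inl ⟨_, _, h, rfl⟩))
      rw [map_mul, ← sy_unit, ← sy_unit] at h'
      simpa using h'

private theorem sy_add_self' (x : Sym F) : x + x = 0 := by
  have h : (2 : ZMod 2) = 0 := by decide
  have h2 : algebraMap (ZMod 2) (Sym F) 2 = 0 := by rw [h, map_zero]
  rw [map_ofNat] at h2
  rw [← two_mul, h2, zero_mul]

private theorem sy_neg' (a : F) : sy (-a) = sy a := by
  by_cases ha : a = 0
  · subst ha; rw [neg_zero]
  · rw [← neg_one_mul, sy_mul' (neg_ne_zero.2 one_ne_zero) ha, sy_neg_one', zero_add]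

private theorem sy_mul_self' (a : F) : sy a * sy a = 0 := by
  by_cases ha : a = 0
  · subst ha
    simp [sy]
  · by_cases h1 : a = 1
    · subst h1
      rw [sy_one', mul_zero]
    · -- `-a = (1 - a) / (1 - a⁻¹)`
      have hi : a⁻¹ ≠ 0 := inv_ne_zero ha
      have hA : (1 - a) ≠ 0 := fun h => h1 (sub_eq_zero.1 h).symm
      have hB : (1 - a⁻¹) ≠ 0 := by
        intro h
        apply h1
        have := sub_eq_zero.1 h
        rw [eq_comm, inv_eq_one] at this
        exact this
      have e1 : sy a * sy (1 - a) = 0 := sy_st' (by ring)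
      have e2 : sy (a⁻¹) * sy (1 - a⁻¹) = 0 := sy_st' (by ring)
      have e3 : sy (a⁻¹) = sy a := by
        have h := sy_mul' (F := F) ha hi
        rw [mul_inv_cancel₀ ha, sy_one'] at h
        have h2 := sy_add_self' (sy a)
        exact add_left_cancel (h.symm.trans h2.symm)
      have e4 : sy (1 - a) = sy a + sy (1 - a⁻¹) := by
        have h : (1 - a) = (-a) * (1 - a⁻¹) := by
          field_simp
          ring
        rw [h, sy_mul' (neg_ne_zero.2 ha) hB, sy_neg']
      rw [e3] at e2
      rw [e4, mul_add, e2, add_zero] at e1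
      exact e1

end ThetaAux

open ThetaAux in
theorem exists_theta {F κ : Type} [Field F] [Field κ] (A : AC F κ) :
    ∃ θ : Sym F →+* DualNumber (Sym κ), A.IsTheta θ := by
  have o1 : A.ord 1 = 0 := by
    have h := A.ord_mul 1 1 one_ne_zero one_ne_zero
    rw [mul_one] at h
    omega
  have c1 : A.ac 1 = 1 := by
    have h := A.ac_mul 1 1
    rw [mul_one] at h
    exact (mul_eq_left₀ (A.ac_ne 1 one_ne_zero)).1 h.symm
  have n1 : (-1 : F) ≠ 0 := neg_ne_zero.2 one_ne_zero
  have om1 : A.ord (-1) = 0 := by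
    have h := A.ord_mul (-1) (-1) n1 n1
    rw [neg_mul_neg, mul_one, o1] at h
    omega
  have cm1 : A.ac (-1) = -1 := by
    by_contra hne
    have h : A.ac 1 + A.ac (-1) ≠ 0 := by
      rw [c1]
      intro h
      exact hne (eq_neg_of_add_eq_zero_right h)
    have h' := (A.add_eq 1 (-1) one_ne_zero n1 (o1.trans om1.symm) h).2
    rw [add_neg_cancel, A.ac_zero] at h'
    exact h h'.symm
  have on : ∀ a : F, a ≠ 0 → A.ord (-a) = A.ord a := by
    intro a ha
    rw [← neg_one_mul, A.ord_mul _ _ n1 ha, om1, zero_add]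
  have cn : ∀ a : F, A.ac (-a) = - A.ac a := by
    intro a
    rw [← neg_one_mul, A.ac_mul, cm1, neg_one_mul]
  let G : F → DualNumber (Sym κ) := fun a =>
    TrivSqZeroExt.inl (sy (A.ac a)) + TrivSqZeroExt.inr ((A.ord a : ℤ) : Sym κ)
  have Gone : ∀ a : F, A.ord a = 0 → A.ac a = 1 → G a = 0 := by
    intro a h1 h2
    simp only [G, h1, h2, sy_one', Int.cast_zero, TrivSqZeroExt.inl_zero, TrivSqZeroExt.inr_zero,
      add_zero]
  have Gsq : ∀ a : F, G a * G a = 0 := by
    intro a
    refine TrivSqZeroExt.ext ?_ ?_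
    · simp only [G, TrivSqZeroExt.fst_mul, TrivSqZeroExt.fst_add, TrivSqZeroExt.fst_inl,
        TrivSqZeroExt.fst_inr, add_zero, TrivSqZeroExt.fst_zero]
      exact sy_mul_self' _
    · simp only [G, TrivSqZeroExt.snd_mul, TrivSqZeroExt.fst_add, TrivSqZeroExt.fst_inl,
        TrivSqZeroExt.fst_inr, add_zero, TrivSqZeroExt.snd_add, TrivSqZeroExt.snd_inl,
        TrivSqZeroExt.snd_inr, zero_add, TrivSqZeroExt.snd_zero, smul_eq_mul,
        MulOpposite.smul_eq_mul_unop, MulOpposite.unop_op]
      rw [mul_comm ((A.ord a : ℤ) : Sym κ)]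
      exact sy_add_self' _
  have key : ∀ a b : F, a ≠ 0 → b ≠ 0 → a + b = 1 → 0 < A.ord a → G b = 0 := by
    intro a b ha hb hab h
    have e : b = 1 + (-a) := by rw [← hab]; ring
    have h' := A.add_lt 1 (-a) one_ne_zero (neg_ne_zero.2 ha) (by rw [o1, on a ha]; exact h)
    rw [← e, o1, c1] at h'
    exact Gone b h'.1 h'.2
  have key2 : ∀ a b : F, a ≠ 0 → b ≠ 0 → a + b = 1 → A.ord a < 0 → G b = G a := by
    intro a b ha hb hab h
    have e : b = (-a) + 1 := by rw [← hab]; ring
    have h' := A.add_lt (-a) 1 (neg_ne_zero.2 ha) one_ne_zero (by rw [o1, on a ha]; exact h)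
    rw [← e, on a ha, cn a] at h'
    simp only [G, h'.1, h'.2, sy_neg']
  have hst : ∀ a b : F, a ≠ 0 → b ≠ 0 → a + b = 1 → G a * G b = 0 := by
    intro a b ha hb hab
    have hba : b + a = 1 := by rw [add_comm]; exact hab
    rcases lt_trichotomy (A.ord a) 0 with h | h | h
    · rw [key2 a b ha hb hab h]
      exact Gsq a
    · rcases lt_trichotomy (A.ord b) 0 with h' | h' | h'
      · rw [key2 b a hb ha hba h']
        exact Gsq b
      · by_cases hs : A.ac a + A.ac b = 0
        · exfalso
          have h2 := A.add_gt a b ha hb (h.trans h'.symm) hs (by rw [hab]; exact one_ne_zero)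
          rw [hab, o1, h] at h2
          exact lt_irrefl _ h2
        · have h2 := (A.add_eq a b ha hb (h.trans h'.symm) hs).2
          rw [hab, c1] at h2
          simp only [G, h, h', Int.cast_zero, TrivSqZeroExt.inr_zero, add_zero,
            TrivSqZeroExt.inl_mul_inl]
          rw [sy_st' h2.symm, TrivSqZeroExt.inl_zero]
      · rw [key b a hb ha hba h', zero_mul]
    · rw [key a b ha hb hab h, mul_zero]
  have hmul : ∀ a b : Fˣ, G ((a * b : Fˣ) : F) = G a + G b := by
    intro a b
    have ha : (a : F) ≠ 0 := a.ne_zero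
    have hb : (b : F) ≠ 0 := b.ne_zero
    simp only [G, Units.val_mul]
    rw [A.ac_mul, A.ord_mul _ _ ha hb, sy_mul' (A.ac_ne _ ha) (A.ac_ne _ hb), Int.cast_add,
      TrivSqZeroExt.inl_add, TrivSqZeroExt.inr_add]
    abel
  have hneg : G (((-1 : Fˣ)) : F) = 0 := by
    simp only [G, Units.val_neg, Units.val_one]
    rw [om1, cm1, sy_neg_one', Int.cast_zero, TrivSqZeroExt.inl_zero, TrivSqZeroExt.inr_zero,
      add_zero]
  refine ⟨Sym.lift (fun a : Fˣ => G a) hmul
    (fun a b hab => hst a b a.ne_zero b.ne_zero hab) hneg, ?_⟩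
  intro a ha
  rw [Sym.lift_sy _ _ _ _ a ha]
  rfl

end Pool.Agent.RR
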