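import Pool.Agent.RR.Basic
import Pool.Agent.RR.Theta
import Pool.Agent.RR.Padic

/-!
# RR-6: the symbol ring of `F` embeds in the symbol ring of `F(X)`
-/

set_option autoImplicit false

namespace Pool.Agent.RR

open MvPolynomial

/-- `Sym F → Sym (RatFunc F)` is injective: a retraction is given by the place `X = 0`. -/
theorem symMap_inj (F : Type) [Field F] :
    Function.Injective (symMap (algebraMap F (RatFunc F))) := by
  have : Fact (Irreducible (Polynomial.X : Polynomial F)) := ⟨Polynomial.irreducible_X⟩
  obtain ⟨A, -, hA, -, -⟩ := exists_padic F (Polynomial.X : Polynomial F)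
  obtain ⟨θ, hθ⟩ := exists_theta A
  let e : AdjoinRoot (Polynomial.X : Polynomial F) →+* F :=
    AdjoinRoot.lift (RingHom.id F) 0 (by simp)
  let ρ : Sym (RatFunc F) →+* Sym F :=
    (symMap e).comp ((TrivSqZeroExt.fstHom (Sym (AdjoinRoot (Polynomial.X : Polynomial F)))
      (Sym (AdjoinRoot (Polynomial.X : Polynomial F)))
      (Sym (AdjoinRoot (Polynomial.X : Polynomial F)))).toRingHom.comp θ)
  have key : ρ.comp (symMap (algebraMap F (RatFunc F))) = RingHom.id (Sym F) := by
    refine sy_hom_ext _ _ fun a ha => ?_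
    have hC : ¬ (Polynomial.X : Polynomial F) ∣ Polynomial.C a := by
      rw [Polynomial.X_dvd_iff]
      simpa using ha
    have hac := (hA _ hC).2
    have hne : algebraMap F (RatFunc F) a ≠ 0 := by
      rw [Ne, FaithfulSMul.algebraMap_eq_zero_iff]
      exact ha
    have hmap : algebraMap (Polynomial F) (RatFunc F) (Polynomial.C a) =
        algebraMap F (RatFunc F) a := by
      rw [RatFunc.algebraMap_C, RatFunc.algebraMap_eq_C]
    rw [hmap] at hac
    simp only [RingHom.comp_apply, RingHom.id_apply, symMap_sy, ρ, hθ _ hne]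
    have : ((TrivSqZeroExt.fstHom (Sym (AdjoinRoot (Polynomial.X : Polynomial F)))
      (Sym (AdjoinRoot (Polynomial.X : Polynomial F)))
      (Sym (AdjoinRoot (Polynomial.X : Polynomial F)))).toRingHom
        (TrivSqZeroExt.inl (sy (A.ac (algebraMap F (RatFunc F) a))) +
          TrivSqZeroExt.inr ((A.ord (algebraMap F (RatFunc F) a) : ℤ) :
            Sym (AdjoinRoot (Polynomial.X : Polynomial F))))) =
        sy (A.ac (algebraMap F (RatFunc F) a)) := by
      change (TrivSqZeroExt.fst _) = _
      simp
    rw [this, symMap_sy, hac]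
    simp [e]
  intro x y hxy
  have h := congrArg ρ hxy
  have h1 : ∀ z, ρ (symMap (algebraMap F (RatFunc F)) z) = z := fun z =>
    RingHom.congr_fun key z
  rwa [h1, h1] at h

end Pool.Agent.RR
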