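import Pool.Agent.RR.Defs

/-!
# Project RR (MP_0a3790_ag), RR-9: local analysis where `s` is near a constant.
-/

set_option autoImplicit false

namespace Pool.Agent.RR

open MvPolynomial

namespace LocA

section basic

variable {F : Type} [Field F]

private theorem sy_zero : sy (0 : F) = 0 := by
  unfold sy
  rw [dif_pos rfl]

private theorem sy_mul {a b : F} (ha : a ≠ 0) (hb : b ≠ 0) : sy (a * b) = sy a + sy b := by
  unfold sy
  rw [dif_neg (mul_ne_zero ha hb), dif_neg ha, dif_neg hb, ← map_add, Ideal.Quotient.eq]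
  refine Ideal.subset_span (Or.inl ⟨Units.mk0 a ha, Units.mk0 b hb, ?_⟩)
  have e : Units.mk0 (a * b) (mul_ne_zero ha hb) = Units.mk0 a ha * Units.mk0 b hb := by
    ext
    rfl
  rw [e]
  ring

private theorem sy_one : sy (1 : F) = 0 := by
  have h := sy_mul (F := F) one_ne_zero one_ne_zero
  rw [mul_one] at h
  linear_combination -h

private theorem sy_neg_one : sy (-1 : F) = 0 := by
  unfold sy
  rw [dif_neg (neg_ne_zero.2 one_ne_zero), Ideal.Quotient.eq_zero_iff_mem]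
  refine Ideal.subset_span (Or.inr (Or.inr ?_))
  congr 1
  ext
  simp

private theorem sy_add_self (x : Sym F) : x + x = 0 := by
  obtain ⟨p, rfl⟩ := Ideal.Quotient.mk_surjective x
  rw [← map_add, CharTwo.add_self_eq_zero, map_zero]

private theorem sy_isSquare {a : F} (h : IsSquare a) : sy a = 0 := by
  obtain ⟨r, rfl⟩ := h
  rcases eq_or_ne r 0 with h0 | h0
  · rw [h0, mul_zero, sy_zero]
  · rw [sy_mul h0 h0, sy_add_self]

private theorem sy_st {a b : F} (h : a + b = 1) : sy a * sy b = 0 := by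
  rcases eq_or_ne a 0 with ha | ha
  · rw [ha, sy_zero, zero_mul]
  rcases eq_or_ne b 0 with hb | hb
  · rw [hb, sy_zero, mul_zero]
  unfold sy
  rw [dif_neg ha, dif_neg hb, ← map_mul, Ideal.Quotient.eq_zero_iff_mem]
  exact Ideal.subset_span (Or.inr (Or.inl ⟨Units.mk0 a ha, Units.mk0 b hb, h, rfl⟩))

private theorem sy_inv {a : F} (ha : a ≠ 0) : sy a⁻¹ = sy a := by
  have h := sy_mul (inv_ne_zero ha) ha
  rw [inv_mul_cancel₀ ha, sy_one] at h
  linear_combination -h - sy_add_self (sy a)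

private theorem sy_mul_self (a : F) : sy a * sy a = 0 := by
  rcases eq_or_ne a 0 with ha | ha
  · rw [ha, sy_zero, zero_mul]
  rcases eq_or_ne a 1 with h1 | h1
  · rw [h1, sy_one, zero_mul]
  have hb : (1 - a⁻¹) ≠ 0 := by
    intro h
    exact h1 (inv_eq_one.1 (sub_eq_zero.1 h).symm)
  have e1 : sy a * sy (1 - a) = 0 := sy_st (by ring)
  have e2 : sy a * sy (1 - a⁻¹) = 0 := by
    rw [← sy_inv ha]
    exact sy_st (by ring)
  have e3 : 1 - a = -1 * a * (1 - a⁻¹) := by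
    field_simp
    ring
  rw [e3, sy_mul (mul_ne_zero (neg_ne_zero.2 one_ne_zero) ha) hb,
    sy_mul (neg_ne_zero.2 one_ne_zero) ha, sy_neg_one] at e1
  linear_combination e1 - e2

private theorem sy_st3 {a b c : F} (h : a + b = c) : (sy a + sy c) * (sy b + sy c) = 0 := by
  rcases eq_or_ne a 0 with ha | ha
  · have hb : b = c := by rw [ha, zero_add] at h; exact h
    rw [hb, sy_add_self, mul_zero]
  rcases eq_or_ne b 0 with hb | hb
  · have hc : a = c := by rw [hb, add_zero] at h; exact h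
    rw [hc, sy_add_self, zero_mul]
  rcases eq_or_ne c 0 with hc | hc
  · have hba : b = -1 * a := by rw [hc] at h; linear_combination h
    rw [hc, hba, sy_zero, add_zero, add_zero, sy_mul (neg_ne_zero.2 one_ne_zero) ha, sy_neg_one,
      zero_add, sy_mul_self]
  have e := sy_st (F := F) (a := a * c⁻¹) (b := b * c⁻¹) (by
    rw [← add_mul, h, mul_inv_cancel₀ hc])
  rwa [sy_mul ha (inv_ne_zero hc), sy_mul hb (inv_ne_zero hc), sy_inv hc] at e

end basic

section general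

variable {T κ : Type} [Field T] [Field κ] (A : AC T κ)

private theorem ac_one : A.ac 1 = 1 := by
  have h := A.ac_mul 1 1
  rw [mul_one] at h
  have h0 := A.ac_ne 1 one_ne_zero
  exact mul_left_cancel₀ h0 (by rw [mul_one]; exact h.symm)

private theorem ord_one : A.ord 1 = 0 := by
  have h := A.ord_mul 1 1 one_ne_zero one_ne_zero
  rw [mul_one] at h
  omega

private theorem ord_neg_one : A.ord (-1) = 0 := by
  have h := A.ord_mul (-1) (-1) (neg_ne_zero.2 one_ne_zero) (neg_ne_zero.2 one_ne_zero)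
  rw [neg_mul_neg, mul_one, ord_one] at h
  omega

private theorem ord_neg (x : T) (hx : x ≠ 0) : A.ord (-x) = A.ord x := by
  have h := A.ord_mul (-1) x (neg_ne_zero.2 one_ne_zero) hx
  rw [ord_neg_one, zero_add, neg_one_mul] at h
  exact h

/-- `a` and `b` agree to first order. -/
private def Sim (a b : T) : Prop := a ≠ 0 ∧ b ≠ 0 ∧ A.ord a = A.ord b ∧ A.ac a = A.ac b

variable {A}

private theorem Sim.refl {a : T} (ha : a ≠ 0) : Sim A a a := ⟨ha, ha, rfl, rfl⟩

private theorem Sim.mul {a b c d : T} (h : Sim A a b) (h' : Sim A c d) :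
    Sim A (a * c) (b * d) := by
  obtain ⟨ha, hb, ho, hc⟩ := h
  obtain ⟨ha', hb', ho', hc'⟩ := h'
  refine ⟨mul_ne_zero ha ha', mul_ne_zero hb hb', ?_, ?_⟩
  · rw [A.ord_mul _ _ ha ha', A.ord_mul _ _ hb hb', ho, ho']
  · rw [A.ac_mul, A.ac_mul, hc, hc']

private theorem Sim.add {a b : T} (ha : a ≠ 0) (hb : b ≠ 0) (h : A.ord a < A.ord b) :
    Sim A (a + b) a := by
  obtain ⟨h1, h2⟩ := A.add_lt a b ha hb h
  refine ⟨?_, ha, h1, h2⟩
  intro h0
  rw [h0, A.ac_zero] at h2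
  exact A.ac_ne a ha h2.symm

private theorem Sim.theta {a b : T} (h : Sim A a b) {θ : Sym T →+* DualNumber (Sym κ)}
    (hθ : A.IsTheta θ) : θ (sy a) = θ (sy b) := by
  obtain ⟨ha, hb, ho, hc⟩ := h
  rw [hθ a ha, hθ b hb, ho, hc]

/-- dichotomy at `s` near `1` -/
private theorem near {θ : Sym T →+* DualNumber (Sym κ)} (hθ : A.IsTheta θ) {s x : T}
    (h0 : x ≠ 0) (h1 : x ≠ 1) (hs : s ≠ 1) (h : 0 < A.ord (s - 1)) :
    θ (sy x) = 0 ∨ θ (sy (leg s x)) = θ (sy x) := by
  have h1' : x - 1 ≠ 0 := sub_ne_zero.2 h1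
  have hs' : s - 1 ≠ 0 := sub_ne_zero.2 hs
  rcases lt_or_ge (A.ord (x - 1)) (A.ord (s - 1)) with h2 | h2
  · right
    have e1 : Sim A (x - s) (x - 1) := by
      have e := Sim.add (A := A) h1' (neg_ne_zero.2 hs') (by rw [ord_neg A _ hs']; exact h2)
      have e' : x - 1 + -(s - 1) = x - s := by ring
      rwa [e'] at e
    have e2 : Sim A (leg s x) (x * (x - 1) * (x - 1)) :=
      Sim.mul (Sim.refl (mul_ne_zero h0 h1')) e1
    rw [e2.theta hθ, mul_assoc, sy_mul h0 (mul_ne_zero h1' h1'), sy_isSquare ⟨x - 1, rfl⟩, add_zero]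
  · left
    have e : Sim A (1 + (x - 1)) 1 := Sim.add one_ne_zero h1' (by rw [ord_one]; omega)
    rw [add_sub_cancel] at e
    rw [e.theta hθ, sy_one, map_zero]

end general

section const

variable {k T κ : Type} [Field k] [IsAlgClosed k] [Field T] [Algebra k T] [Field κ]

private theorem sy_const (c : k) : sy (algebraMap k T c) = 0 := by
  obtain ⟨r, hr⟩ := IsAlgClosed.exists_pow_nat_eq c (n := 2) (by norm_num)
  refine sy_isSquare ⟨algebraMap k T r, ?_⟩
  rw [← hr, ← map_mul, sq]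

end const

end LocA

open LocA

section
variable {k T κ : Type} [Field k] [IsAlgClosed k] [Field T] [Algebra k T] [Field κ]

theorem loc_const (h3 : (3 : k) ≠ 0) (A : AC T κ) (hA : A.Triv k)
    (θ : Sym T →+* DualNumber (Sym κ)) (hθ : A.IsTheta θ) (s : T) (hs : s ≠ 0)
    (hg : (s - 1) * (s - 3) ≠ 0)
    (h : A.ord s < 0 ∨ ∃ c : k, c ≠ 1 ∧ c ≠ 3 ∧
      (s = algebraMap k T c ∨ 0 < A.ord (s - algebraMap k T c))) :
    θ (sy ((s - 1) * (s - 3))) = 0 := by
  have h3' : (3 : T) = algebraMap k T 3 := by rw [map_ofNat]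
  have h1' : (1 : T) = algebraMap k T 1 := by rw [map_one]
  rcases h with h | ⟨c, hc1, hc3, h⟩
  · have key : ∀ c : k, c ≠ 0 → Sim A (s - algebraMap k T c) s := by
      intro c hc
      have hc' : algebraMap k T c ≠ 0 := (map_ne_zero _).2 hc
      rw [sub_eq_add_neg]
      refine Sim.add hs (neg_ne_zero.2 hc') ?_
      rw [ord_neg A _ hc', hA c hc]
      exact h
    have e := (key 1 one_ne_zero).mul (key 3 h3)
    rw [h3', h1', e.theta hθ, sy_isSquare ⟨s, rfl⟩, map_zero]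
  · have key : ∀ d : k, c ≠ d → Sim A (s - algebraMap k T d) (algebraMap k T (c - d)) := by
      intro d hd
      have hcd : algebraMap k T (c - d) ≠ 0 := (map_ne_zero _).2 (sub_ne_zero.2 hd)
      rcases eq_or_ne s (algebraMap k T c) with hsc | hsc
      · rw [hsc, ← map_sub]
        exact Sim.refl hcd
      · have h' : 0 < A.ord (s - algebraMap k T c) := h.resolve_left hsc
        have e := Sim.add (A := A) hcd (sub_ne_zero.2 hsc) (by rw [hA _ (sub_ne_zero.2 hd)]; exact h')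
        have e' : algebraMap k T (c - d) + (s - algebraMap k T c) = s - algebraMap k T d := by
          rw [map_sub]; ring
        rwa [e'] at e
    have e := (key 1 hc1).mul (key 3 hc3)
    rw [h3', h1', e.theta hθ, ← map_mul, sy_const, map_zero]

theorem loc_one (A : AC T κ) (hA : A.Triv k)
    (θ : Sym T →+* DualNumber (Sym κ)) (hθ : A.IsTheta θ) (s x1 x2 z : T)
    (h1 : x1 ≠ 0) (h2 : x2 ≠ 0) (h1' : x1 ≠ 1) (h2' : x2 ≠ 1) (h1s : x1 ≠ s) (h2s : x2 ≠ s)
    (hs : s ≠ 1) (hz : z ≠ 0) (ha : z ^ 2 - leg s x1 * leg s x2 ≠ 0) (h : 0 < A.ord (s - 1)) :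
    θ (sy x1) * θ (sy x2) * θ (sy (z ^ 2 - leg s x1 * leg s x2)) = 0 := by
  rcases near hθ h1 h1' hs h with e1 | e1
  · rw [e1, zero_mul, zero_mul]
  rcases near hθ h2 h2' hs h with e2 | e2
  · rw [e2, mul_zero, zero_mul]
  have hl1 : leg s x1 ≠ 0 := mul_ne_zero (mul_ne_zero h1 (sub_ne_zero.2 h1')) (sub_ne_zero.2 h1s)
  have hl2 : leg s x2 ≠ 0 := mul_ne_zero (mul_ne_zero h2 (sub_ne_zero.2 h2')) (sub_ne_zero.2 h2s)
  have hst := sy_st3 (sub_add_cancel (z ^ 2) (leg s x1 * leg s x2))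
  rw [sy_isSquare ⟨z, sq z⟩, add_zero, add_zero, sy_mul hl1 hl2] at hst
  have hst' := congrArg θ hst
  rw [map_mul, map_add, e1, e2, map_zero] at hst'
  have hsq : θ (sy x1) * θ (sy x1) = 0 := by rw [← map_mul, sy_mul_self, map_zero]
  linear_combination θ (sy x1) * hst' - θ (sy (z ^ 2 - leg s x1 * leg s x2)) * hsq

theorem loc_three (h3 : (3 : k) ≠ 0) (A : AC T κ) (hA : A.Triv k)
    (θ : Sym T →+* DualNumber (Sym κ)) (hθ : A.IsTheta θ) (s x3 x4 y : T)
    (hx3 : x3 ≠ 0) (hx4 : x4 ≠ 0) (hx3' : x3 ≠ 1) (hx4' : x4 ≠ 1) (hx3s : x3 ≠ s / 3)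
    (hx4s : x4 ≠ s / 3) (hs : s ≠ 3) (hy : y ^ 2 = leg (s / 3) x3 * leg (s / 3) x4)
    (h : 0 < A.ord (s - 3)) :
    θ (sy x3) * θ (sy x4) = 0 := by
  have h3' : (3 : T) = algebraMap k T 3 := by rw [map_ofNat]
  have h3T : (3 : T) ≠ 0 := by rw [h3']; exact (map_ne_zero _).2 h3
  have hs1 : s / 3 ≠ 1 := by
    intro e
    rw [div_eq_one_iff_eq h3T] at e
    exact hs e
  have hord : 0 < A.ord (s / 3 - 1) := by
    have e : (3 : T) * (s / 3 - 1) = s - 3 := by field_simp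
    have e1 := A.ord_mul 3 (s / 3 - 1) h3T (sub_ne_zero.2 hs1)
    have e2 : A.ord (3 : T) = 0 := by rw [h3']; exact hA 3 h3
    rw [e, e2, zero_add] at e1
    rw [← e1]
    exact h
  rcases near hθ hx3 hx3' hs1 hord with e1 | e1
  · rw [e1, zero_mul]
  rcases near hθ hx4 hx4' hs1 hord with e2 | e2
  · rw [e2, mul_zero]
  have hl1 : leg (s / 3) x3 ≠ 0 :=
    mul_ne_zero (mul_ne_zero hx3 (sub_ne_zero.2 hx3')) (sub_ne_zero.2 hx3s)
  have hl2 : leg (s / 3) x4 ≠ 0 :=
    mul_ne_zero (mul_ne_zero hx4 (sub_ne_zero.2 hx4')) (sub_ne_zero.2 hx4s)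
  have hyy : sy (y ^ 2) = 0 := sy_isSquare ⟨y, sq y⟩
  rw [hy, sy_mul hl1 hl2] at hyy
  have hyy' := congrArg θ hyy
  rw [map_add, e1, e2, map_zero] at hyy'
  have hsq : θ (sy x3) * θ (sy x3) = 0 := by rw [← map_mul, sy_mul_self, map_zero]
  linear_combination θ (sy x3) * hyy' - hsq

end

end Pool.Agent.RR
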