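import Pool.Agent.RR.Basic

/-! # RR-10: local analysis at a place where `s` is generic -/

set_option autoImplicit false

namespace Pool.Agent.RR

section
variable {k T κ : Type} [Field k] [IsAlgClosed k] [Field T] [Algebra k T] [Field κ]

/-- The classes killed by `s`. -/
def InJ (A : AC T κ) (s : T) (ω : DualNumber (Sym κ)) : Prop :=
  ω * TrivSqZeroExt.inl (sy (A.ac s)) = 0

/-- `s` and `s/3` are generic at the valuation. -/
def Gen (k : Type) {T κ : Type} [Field k] [Field T] [Algebra k T] [Field κ] (A : AC T κ) (s : T) :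
    Prop :=
  s ≠ 0 ∧ A.ord s = 0 ∧ ∀ c : k, s ≠ algebraMap k T c ∧ A.ord (s - algebraMap k T c) = 0

private theorem ord_one (A : AC T κ) : A.ord 1 = 0 := by
  have h := A.ord_mul 1 1 one_ne_zero one_ne_zero
  rw [one_mul] at h
  omega

private theorem ac_const (A : AC T κ) (c : k) : sy (A.ac (algebraMap k T c)) = 0 := by
  obtain ⟨d, hd⟩ := IsAlgClosed.exists_pow_nat_eq c (n := 2) (by norm_num)
  rw [← hd, map_pow, pow_two, A.ac_mul, ← pow_two, sy_sq]

/-- same order and angular component up to a constant of `k`, at order `0` of the constant -/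
private theorem theta_congr (A : AC T κ) (θ : Sym T →+* DualNumber (Sym κ)) (hθ : A.IsTheta θ)
    (a b : T) (ha : a ≠ 0) (hb : b ≠ 0) (h1 : A.ord a = A.ord b) (h2 : A.ac a = A.ac b) :
    θ (sy a) = θ (sy b) := by
  rw [hθ a ha, hθ b hb, h1, h2]

private theorem theta_const (A : AC T κ) (hA : A.Triv k) (θ : Sym T →+* DualNumber (Sym κ))
    (hθ : A.IsTheta θ) (c : k) (hc : c ≠ 0) : θ (sy (algebraMap k T c)) = 0 := by
  have hc' : algebraMap k T c ≠ 0 := (map_ne_zero _).2 hc
  rw [hθ _ hc', ac_const, hA c hc, Int.cast_zero, TrivSqZeroExt.inr_zero, TrivSqZeroExt.inl_zero,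
    add_zero]

/-- mod `[s]`, the class of the cubic is the class of `x` if the order of `x` is not zero;
otherwise there is no contribution of odd order but at `1` and `s`. -/
theorem gen_leg (A : AC T κ) (hA : A.Triv k) (θ : Sym T →+* DualNumber (Sym κ))
    (hθ : A.IsTheta θ) (s t x : T) (hs : Gen k A s) (c : k) (hc : c ≠ 0)
    (ht : t = algebraMap k T c * s) (h0 : x ≠ 0) (h1 : x ≠ 1) (h2 : x ≠ t)
    (ω : DualNumber (Sym κ)) (hω : ω * TrivSqZeroExt.inl (sy (A.ac s)) = 0) :
    (A.ord x ≠ 0 → ω * θ (sy (leg t x)) = ω * θ (sy x)) ∧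
    (A.ord x = 0 → ω * θ (sy x) = 0 ∨ A.ord (leg t x) = 0 ∧ ω * θ (sy x) * θ (sy (leg t x)) = 0) := by
  have hx1 : x - 1 ≠ 0 := sub_ne_zero.2 h1
  have hxt : x - t ≠ 0 := sub_ne_zero.2 h2
  have hc' : algebraMap k T c ≠ 0 := (map_ne_zero _).2 hc
  have ht0 : t ≠ 0 := by rw [ht]; exact mul_ne_zero hc' hs.1
  have hot : A.ord t = 0 := by
    rw [ht, A.ord_mul _ _ hc' hs.1, hA c hc, hs.2.1]; rfl
  have hone := ord_one A
  have hm1 : (-1 : T) ≠ 0 := neg_ne_zero.2 one_ne_zero
  have hom1 : A.ord (-1) = 0 := by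
    have h := A.ord_mul (-1) (-1) hm1 hm1
    rw [neg_mul_neg, one_mul, hone] at h
    omega
  have honeg : ∀ y : T, y ≠ 0 → A.ord (-y) = A.ord y := by
    intro y hy
    rw [neg_eq_neg_one_mul, A.ord_mul _ _ hm1 hy, hom1, zero_add]
  -- the class of `t` is killed
  have hst : sy t = sy (algebraMap k T c) + sy s := by rw [ht, sy_mul hc' hs.1]
  have hts : θ (sy t) = TrivSqZeroExt.inl (sy (A.ac s)) := by
    rw [hst, map_add, theta_const A hA θ hθ c hc, hθ s hs.1, hs.2.1, Int.cast_zero,
      TrivSqZeroExt.inr_zero, add_zero, zero_add]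
  have hωt : ω * θ (sy t) = 0 := by rw [hts, hω]
  -- the class of the cubic
  have hleg : sy (leg t x) = sy x + sy (x - 1) + sy (x - t) := by
    unfold leg
    rw [sy_mul (mul_ne_zero h0 hx1) hxt, sy_mul h0 hx1]
  have hol : A.ord (leg t x) = A.ord x + A.ord (x - 1) + A.ord (x - t) := by
    unfold leg
    rw [A.ord_mul _ _ (mul_ne_zero h0 hx1) hxt, A.ord_mul _ _ h0 hx1]
  have hdbl : ∀ z : Sym T, θ z + θ z = 0 := fun z => by rw [← map_add, sy_add_self, map_zero]
  constructor
  · intro hne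
    rcases lt_or_gt_of_ne hne with hlt | hgt
    · -- negative order
      have e1 := A.add_lt x (-1) h0 hm1 (by rw [hom1]; exact hlt)
      have e2 := A.add_lt x (-t) h0 (neg_ne_zero.2 ht0) (by rw [honeg t ht0, hot]; exact hlt)
      rw [← sub_eq_add_neg] at e1 e2
      have f1 := theta_congr A θ hθ (x - 1) x hx1 h0 e1.1 e1.2
      have f2 := theta_congr A θ hθ (x - t) x hxt h0 e2.1 e2.2
      rw [hleg, map_add, map_add, f1, f2, hdbl, zero_add]
    · -- positive order
      have e1 := A.add_lt (-1) x hm1 h0 (by rw [hom1]; exact hgt)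
      have e2 := A.add_lt (-t) x (neg_ne_zero.2 ht0) h0 (by rw [honeg t ht0, hot]; exact hgt)
      rw [neg_add_eq_sub] at e1 e2
      have f1 := theta_congr A θ hθ (x - 1) (-1) hx1 hm1 e1.1 e1.2
      have f2 := theta_congr A θ hθ (x - t) (-t) hxt (neg_ne_zero.2 ht0) e2.1 e2.2
      rw [hleg, map_add, map_add, f1, f2, sy_neg, sy_neg, sy_one, map_zero, add_zero, mul_add, hωt,
        add_zero]
  · intro hx0
    have hω1 : ∀ y : T, y ≠ 0 → A.ord y = 0 → A.ord (x - y) ≥ 0 ∨ x - y = 0 := by
      intro y hy hoy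
      by_cases hxy : x - y = 0
      · exact Or.inr hxy
      left
      have hy' : -y ≠ 0 := neg_ne_zero.2 hy
      have ho : A.ord x = A.ord (-y) := by rw [honeg y hy, hoy, hx0]
      by_cases hac : A.ac x + A.ac (-y) = 0
      · have := A.add_gt x (-y) h0 hy' ho hac (by rwa [← sub_eq_add_neg])
        rw [← sub_eq_add_neg] at this
        omega
      · have := (A.add_eq x (-y) h0 hy' ho hac).1
        rw [← sub_eq_add_neg] at this
        omega
    have hclose : ∀ y : T, y ≠ 0 → A.ord y = 0 → x - y ≠ 0 → 0 < A.ord (x - y) →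
        θ (sy x) = θ (sy y) := by
      intro y hy hoy hxy hpos
      have e := A.add_lt y (x - y) hy hxy (by rw [hoy]; exact hpos)
      rw [add_sub_cancel] at e
      exact theta_congr A θ hθ x y h0 hy e.1 e.2
    rcases (hω1 1 one_ne_zero hone).resolve_right hx1 |>.lt_or_eq' with hp | hz1
    · left
      rw [hclose 1 one_ne_zero hone hx1 hp, sy_one, map_zero, mul_zero]
    rcases (hω1 t ht0 hot).resolve_right hxt |>.lt_or_eq' with hp | hz2
    · left
      rw [hclose t ht0 hot hxt hp, hωt]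
    right
    refine ⟨by rw [hol]; omega, ?_⟩
    have hA1 : sy x * sy (x - 1) = 0 := by
      rw [← sy_neg (x - 1)]
      exact sy_st (by ring)
    have hA2 := sy_st3 (a := x - t) (b := t) (c := x) (by ring)
    have hA3 := sy_mul_self x
    have hA4 : sy x * sy (leg t x) = sy t * (sy x + sy (x - t)) := by
      rw [hleg]
      have hd2 := sy_add_self (sy t * (sy x + sy (x - t)))
      linear_combination hA1 + hA2 - hd2
    calc ω * θ (sy x) * θ (sy (leg t x)) = ω * θ (sy x * sy (leg t x)) := by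
          rw [map_mul, mul_assoc]
      _ = ω * θ (sy t) * θ (sy x + sy (x - t)) := by rw [hA4, map_mul, mul_assoc]
      _ = 0 := by rw [hωt, zero_mul]
end

end Pool.Agent.RR
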