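import Pool.Agent.RR.Basic
import Pool.Agent.RR.LocB

/-!
# Project RR (MP_0a3790_ag), RR-11: local analysis, the two products for generic `s`
-/

set_option autoImplicit false

namespace Pool.Agent.RR

open MvPolynomial

section
variable {k T κ : Type} [Field k] [IsAlgClosed k] [Field T] [Algebra k T] [Field κ]

theorem sy_s_g (h3 : (3 : k) ≠ 0) (s : T) :
    sy s * sy ((s - 1) * (s - 3)) = 0 := by
  obtain ⟨q, hq⟩ := IsAlgClosed.exists_pow_nat_eq (3 : k) (n := 2) (by norm_num)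
  set Q : T := algebraMap k T q with hQ
  have hQ2 : Q ^ 2 = 3 := by
    rw [hQ, ← map_pow, hq]
    exact map_ofNat _ 3
  have hid : (s - 1) * (s - 3) + s * (1 + Q) ^ 2 = (s + Q) ^ 2 := by
    linear_combination (s - 1) * hQ2
  have h := sy_st3 hid
  rw [sy_sq, add_zero, add_zero] at h
  by_cases hs : s = 0
  · rw [hs, sy_zero, zero_mul]
  · by_cases hq1 : 1 + Q = 0
    · rw [hq1, zero_pow (by norm_num), mul_zero, add_zero] at hid
      rw [hid, sy_sq, mul_zero]
    · rw [sy_mul hs (pow_ne_zero 2 hq1), sy_sq, add_zero] at h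
      rw [mul_comm]
      exact h

private theorem locC_one (A : AC T κ) : A.ord 1 = 0 ∧ A.ac 1 = 1 := by
  have h1 := A.ord_mul 1 1 one_ne_zero one_ne_zero
  have h2 := A.ac_mul 1 1
  rw [mul_one] at h1 h2
  refine ⟨by omega, ?_⟩
  have h3 := A.ac_ne 1 one_ne_zero
  exact (mul_left_cancel₀ h3 (by rw [mul_one]; exact h2)).symm

private theorem locC_neg_one (A : AC T κ) : A.ord (-1) = 0 ∧ A.ac (-1) = -1 := by
  have h0 : (-1 : T) ≠ 0 := neg_ne_zero.2 one_ne_zero
  have h1 := A.ord_mul (-1) (-1) h0 h0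
  have h2 := locC_one A
  have h3 : A.ord (-1) = 0 := by
    rw [neg_mul_neg, one_mul, h2.1] at h1
    omega
  refine ⟨h3, ?_⟩
  by_contra hne
  have h4 : A.ac 1 + A.ac (-1) ≠ 0 := by
    rw [h2.2]
    intro h
    exact hne (eq_neg_of_add_eq_zero_right h)
  have h5 := (A.add_eq 1 (-1) one_ne_zero h0 (by rw [h2.1, h3]) h4).2
  rw [add_neg_cancel, A.ac_zero] at h5
  exact h4 h5.symm

private theorem locC_neg (A : AC T κ) (x : T) (hx : x ≠ 0) :
    A.ord (-x) = A.ord x ∧ A.ac (-x) = -A.ac x := by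
  have h0 : (-1 : T) ≠ 0 := neg_ne_zero.2 one_ne_zero
  have h1 := locC_neg_one A
  rw [← neg_one_mul x]
  refine ⟨?_, ?_⟩
  · rw [A.ord_mul _ _ h0 hx, h1.1, zero_add]
  · rw [A.ac_mul, h1.2, neg_one_mul]

private theorem locC_sq (A : AC T κ) (x : T) (hx : x ≠ 0) : A.ord (x ^ 2) = 2 * A.ord x := by
  rw [pow_two, A.ord_mul _ _ hx hx]
  ring

private theorem locC_leg_ne {t x : T} (h0 : x ≠ 0) (h1 : x ≠ 1) (h2 : x ≠ t) : leg t x ≠ 0 := by
  unfold leg
  exact mul_ne_zero (mul_ne_zero h0 (sub_ne_zero.2 h1)) (sub_ne_zero.2 h2)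

theorem gen_y (A : AC T κ) (hA : A.Triv k) (θ : Sym T →+* DualNumber (Sym κ))
    (hθ : A.IsTheta θ) (s t x3 x4 y : T) (hs : Gen k A s) (c : k) (hc : c ≠ 0)
    (ht : t = algebraMap k T c * s) (h30 : x3 ≠ 0) (h31 : x3 ≠ 1) (h32 : x3 ≠ t)
    (h40 : x4 ≠ 0) (h41 : x4 ≠ 1) (h42 : x4 ≠ t) (hy : y ^ 2 = leg t x3 * leg t x4)
    (ω : DualNumber (Sym κ)) (hω : ω * TrivSqZeroExt.inl (sy (A.ac s)) = 0)
    (hodd : Odd (A.ord x3) ∨ Odd (A.ord x4)) :
    ω * θ (sy x3) * θ (sy x4) = 0 := by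
  have hl3 : leg t x3 ≠ 0 := locC_leg_ne h30 h31 h32
  have hl4 : leg t x4 ≠ 0 := locC_leg_ne h40 h41 h42
  have hsy : sy (leg t x3) = sy (leg t x4) := by
    have h1 : sy (leg t x3) + sy (leg t x4) = 0 := by
      rw [← sy_mul hl3 hl4, ← hy, sy_sq]
    have h2 := sy_add_self (sy (leg t x4))
    exact add_right_cancel (h1.trans h2.symm)
  have g3 := gen_leg A hA θ hθ s t x3 hs c hc ht h30 h31 h32 ω hω
  have g4 := gen_leg A hA θ hθ s t x4 hs c hc ht h40 h41 h42 ω hω
  rw [hsy] at g3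
  have hsq3 : θ (sy x3) * θ (sy x3) = 0 := by
    rw [← RingHom.map_mul θ, sy_mul_self, RingHom.map_zero θ]
  have hsq4 : θ (sy x4) * θ (sy x4) = 0 := by
    rw [← RingHom.map_mul θ, sy_mul_self, RingHom.map_zero θ]
  by_cases e3 : A.ord x3 = 0
  · have e4 : A.ord x4 ≠ 0 := by
      intro e4
      rw [e3, e4] at hodd
      rcases hodd with h | h <;> exact absurd h (by decide)
    have k4 := g4.1 e4
    rcases g3.2 e3 with k3 | ⟨_, k3⟩
    · rw [k3, zero_mul]
    · calc ω * θ (sy x3) * θ (sy x4) = (ω * θ (sy x4)) * θ (sy x3) := by ring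
        _ = ω * θ (sy x3) * θ (sy (leg t x4)) := by rw [← k4]; ring
        _ = 0 := k3
  · have k3 := g3.1 e3
    by_cases e4 : A.ord x4 = 0
    · rcases g4.2 e4 with k4 | ⟨_, k4⟩
      · calc ω * θ (sy x3) * θ (sy x4) = (ω * θ (sy x4)) * θ (sy x3) := by ring
          _ = 0 := by rw [k4, zero_mul]
      · calc ω * θ (sy x3) * θ (sy x4) = ω * θ (sy (leg t x4)) * θ (sy x4) := by rw [k3]
          _ = ω * θ (sy x4) * θ (sy (leg t x4)) := by ring
          _ = 0 := k4
    · have k4 := g4.1 e4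
      calc ω * θ (sy x3) * θ (sy x4) = ω * θ (sy x4) * θ (sy x4) := by rw [← k3, k4]
        _ = ω * (θ (sy x4) * θ (sy x4)) := by ring
        _ = 0 := by rw [hsq4, mul_zero]

private theorem locC_sy_const (c : k) : sy (algebraMap k T c) = 0 := by
  obtain ⟨q, hq⟩ := IsAlgClosed.exists_pow_nat_eq c (n := 2) (by norm_num)
  rw [← hq, map_pow, sy_sq]

theorem gen_x (A : AC T κ) (hA : A.Triv k) (θ : Sym T →+* DualNumber (Sym κ))
    (hθ : A.IsTheta θ) (s x1 x2 z : T) (hs : Gen k A s) (h10 : x1 ≠ 0) (h11 : x1 ≠ 1)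
    (h12 : x1 ≠ s) (h20 : x2 ≠ 0) (h21 : x2 ≠ 1) (h22 : x2 ≠ s) (hz : z ≠ 0)
    (c : k) (hc : c ≠ 0)
    (ha : z ^ 2 - algebraMap k T c * (leg s x1 * leg s x2) ≠ 0)
    (ω : DualNumber (Sym κ)) (hω : ω * TrivSqZeroExt.inl (sy (A.ac s)) = 0)
    (hodd : Odd (A.ord x1) ∨ Odd (A.ord x2)) :
    ω * θ (sy x1) * θ (sy x2) *
      θ (sy (z ^ 2 - algebraMap k T c * (leg s x1 * leg s x2))) = 0 := by
  have hl1 : leg s x1 ≠ 0 := locC_leg_ne h10 h11 h12
  have hl2 : leg s x2 ≠ 0 := locC_leg_ne h20 h21 h22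
  have hcT : algebraMap k T c ≠ 0 := (map_ne_zero _).2 hc
  set a : T := z ^ 2 - algebraMap k T c * (leg s x1 * leg s x2) with hadef
  have hst : sy a * (sy (leg s x1) + sy (leg s x2)) = 0 := by
    have h1 : a + algebraMap k T c * (leg s x1 * leg s x2) = z ^ 2 := by rw [hadef]; ring
    have h2 := sy_st3 h1
    rw [sy_sq, add_zero, add_zero, sy_mul hcT (mul_ne_zero hl1 hl2), locC_sy_const, zero_add,
      sy_mul hl1 hl2] at h2
    exact h2
  have hθst : θ (sy a) * (θ (sy (leg s x1)) + θ (sy (leg s x2))) = 0 := by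
    rw [← RingHom.map_add θ, ← RingHom.map_mul θ, hst, RingHom.map_zero θ]
  have ht : s = algebraMap k T 1 * s := by rw [map_one, one_mul]
  have g1 := gen_leg A hA θ hθ s s x1 hs 1 one_ne_zero ht h10 h11 h12 ω hω
  have g2 := gen_leg A hA θ hθ s s x2 hs 1 one_ne_zero ht h20 h21 h22 ω hω
  have hsq1 : θ (sy x1) * θ (sy x1) = 0 := by
    rw [← RingHom.map_mul θ, sy_mul_self, RingHom.map_zero θ]
  have hsq2 : θ (sy x2) * θ (sy x2) = 0 := by
    rw [← RingHom.map_mul θ, sy_mul_self, RingHom.map_zero θ]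
  by_cases e1 : A.ord x1 = 0
  · have e2 : A.ord x2 ≠ 0 := by
      intro e2
      rw [e1, e2] at hodd
      rcases hodd with h | h <;> exact absurd h (by decide)
    have k2 := g2.1 e2
    rcases g1.2 e1 with k1 | ⟨_, k1⟩
    · rw [k1, zero_mul, zero_mul]
    · calc ω * θ (sy x1) * θ (sy x2) * θ (sy a)
          = (ω * θ (sy x2)) * θ (sy x1) * θ (sy a) := by ring
        _ = (ω * θ (sy (leg s x2))) * θ (sy x1) * θ (sy a) := by rw [k2]
        _ = ω * θ (sy x1) * (θ (sy a) * (θ (sy (leg s x1)) + θ (sy (leg s x2)))) -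
            (ω * θ (sy x1) * θ (sy (leg s x1))) * θ (sy a) := by ring
        _ = 0 := by rw [hθst, k1, mul_zero, zero_mul, sub_zero]
  · have k1 := g1.1 e1
    by_cases e2 : A.ord x2 = 0
    · rcases g2.2 e2 with k2 | ⟨_, k2⟩
      · calc ω * θ (sy x1) * θ (sy x2) * θ (sy a)
            = (ω * θ (sy x2)) * θ (sy x1) * θ (sy a) := by ring
          _ = 0 := by rw [k2, zero_mul, zero_mul]
      · calc ω * θ (sy x1) * θ (sy x2) * θ (sy a)
            = (ω * θ (sy (leg s x1))) * θ (sy x2) * θ (sy a) := by rw [k1]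
          _ = ω * θ (sy x2) * (θ (sy a) * (θ (sy (leg s x1)) + θ (sy (leg s x2)))) -
              (ω * θ (sy x2) * θ (sy (leg s x2))) * θ (sy a) := by ring
          _ = 0 := by rw [hθst, k2, mul_zero, zero_mul, sub_zero]
    · have k2 := g2.1 e2
      calc ω * θ (sy x1) * θ (sy x2) * θ (sy a)
          = θ (sy x2) * θ (sy a) * (ω * θ (sy x1) + ω * θ (sy x2)) -
            ω * θ (sy a) * (θ (sy x2) * θ (sy x2)) := by ring
        _ = θ (sy x2) * θ (sy a) * (ω * θ (sy (leg s x1)) + ω * θ (sy (leg s x2))) := by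
            rw [hsq2, mul_zero, sub_zero, k1, k2]
        _ = ω * θ (sy x2) * (θ (sy a) * (θ (sy (leg s x1)) + θ (sy (leg s x2)))) := by ring
        _ = 0 := by rw [hθst, mul_zero]

/-- the order of the cubic, when the order of `x` is not zero, has the parity of the order of
`x` -/
private theorem locC_leg_even (A : AC T κ) (s x : T) (hs : s ≠ 0) (hs0 : A.ord s = 0)
    (h0 : x ≠ 0) (h1 : x ≠ 1) (h2 : x ≠ s) (hx : A.ord x ≠ 0) (he : Even (A.ord x)) :
    Even (A.ord (leg s x)) := by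
  have hx1 : x - 1 ≠ 0 := sub_ne_zero.2 h1
  have hxs : x - s ≠ 0 := sub_ne_zero.2 h2
  have hn1 := locC_neg_one A
  have hns := locC_neg A s hs
  have hn1' : (-1 : T) ≠ 0 := neg_ne_zero.2 one_ne_zero
  have hns' : -s ≠ 0 := neg_ne_zero.2 hs
  unfold leg
  rw [A.ord_mul _ _ (mul_ne_zero h0 hx1) hxs, A.ord_mul _ _ h0 hx1]
  rcases lt_or_gt_of_ne hx with h | h
  · have k1 : A.ord (x - 1) = A.ord x := by
      rw [sub_eq_add_neg]
      exact (A.add_lt x (-1) h0 hn1' (by rw [hn1.1]; exact h)).1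
    have k2 : A.ord (x - s) = A.ord x := by
      rw [sub_eq_add_neg]
      exact (A.add_lt x (-s) h0 hns' (by rw [hns.1, hs0]; exact h)).1
    rw [k1, k2]
    exact (he.add he).add he
  · have k1 : A.ord (x - 1) = 0 := by
      rw [sub_eq_add_neg, add_comm]
      rw [(A.add_lt (-1) x hn1' h0 (by rw [hn1.1]; exact h)).1]
      exact hn1.1
    have k2 : A.ord (x - s) = 0 := by
      rw [sub_eq_add_neg, add_comm]
      rw [(A.add_lt (-s) x hns' h0 (by rw [hns.1, hs0]; exact h)).1, hns.1]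
      exact hs0
    rw [k1, k2, add_zero, add_zero]
    exact he

theorem gen_even (h3 : (3 : k) ≠ 0) (A : AC T κ) (hA : A.Triv k)
    (θ : Sym T →+* DualNumber (Sym κ))
    (hθ : A.IsTheta θ) (s x1 x2 z : T) (hs : Gen k A s) (h10 : x1 ≠ 0) (h11 : x1 ≠ 1)
    (h12 : x1 ≠ s) (h20 : x2 ≠ 0) (h21 : x2 ≠ 1) (h22 : x2 ≠ s) (hz : z ≠ 0)
    (ha : z ^ 2 - leg s x1 * leg s x2 ≠ 0) (ha' : z ^ 2 - 4 * (leg s x1 * leg s x2) ≠ 0)
    (ω : DualNumber (Sym κ)) (hω : ω * TrivSqZeroExt.inl (sy (A.ac s)) = 0)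
    (he1 : Even (A.ord x1)) (he2 : Even (A.ord x2)) :
    ω * θ (sy x1) * θ (sy x2) = 0 ∨ Even (A.ord (z ^ 2 - leg s x1 * leg s x2)) ∨
      Even (A.ord (z ^ 2 - 4 * (leg s x1 * leg s x2))) := by
  have hl1 : leg s x1 ≠ 0 := locC_leg_ne h10 h11 h12
  have hl2 : leg s x2 ≠ 0 := locC_leg_ne h20 h21 h22
  have ht : s = algebraMap k T 1 * s := by rw [map_one, one_mul]
  have g1 := gen_leg A hA θ hθ s s x1 hs 1 one_ne_zero ht h10 h11 h12 ω hω
  have g2 := gen_leg A hA θ hθ s s x2 hs 1 one_ne_zero ht h20 h21 h22 ω hω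
  have key : ∀ x : T, x ≠ 0 → x ≠ 1 → x ≠ s → Even (A.ord x) →
      ((A.ord x ≠ 0 → ω * θ (sy (leg s x)) = ω * θ (sy x)) ∧
      (A.ord x = 0 → ω * θ (sy x) = 0 ∨ A.ord (leg s x) = 0 ∧
        ω * θ (sy x) * θ (sy (leg s x)) = 0)) → ω * θ (sy x) = 0 ∨ Even (A.ord (leg s x)) := by
    intro x k0 k1 k2 ke kg
    by_cases e : A.ord x = 0
    · rcases kg.2 e with h | ⟨h, _⟩
      · exact Or.inl h
      · right
        rw [h]
        exact Even.zero
    · exact Or.inr (locC_leg_even A s x hs.1 hs.2.1 k0 k1 k2 e ke)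
  rcases key x1 h10 h11 h12 he1 g1 with h | e1
  · left
    rw [h, zero_mul]
  rcases key x2 h20 h21 h22 he2 g2 with h | e2
  · left
    calc ω * θ (sy x1) * θ (sy x2) = (ω * θ (sy x2)) * θ (sy x1) := by ring
      _ = 0 := by rw [h, zero_mul]
  right
  set d : T := leg s x1 * leg s x2 with hd
  have hd0 : d ≠ 0 := mul_ne_zero hl1 hl2
  have hde : Even (A.ord d) := by
    rw [hd, A.ord_mul _ _ hl1 hl2]
    exact e1.add e2
  have hz2 : z ^ 2 ≠ 0 := pow_ne_zero 2 hz
  have hz2e : Even (A.ord (z ^ 2)) := by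
    rw [locC_sq A z hz]
    exact even_two_mul _
  have hnd : -d ≠ 0 := neg_ne_zero.2 hd0
  have hndo := locC_neg A d hd0
  rcases lt_trichotomy (A.ord (z ^ 2)) (A.ord d) with h | h | h
  · left
    rw [sub_eq_add_neg, (A.add_lt (z ^ 2) (-d) hz2 hnd (by rw [hndo.1]; exact h)).1]
    exact hz2e
  · by_cases hac : A.ac (z ^ 2) + A.ac (-d) = 0
    · right
      by_cases h4 : (4 : T) = 0
      · rw [h4, zero_mul, sub_zero]
        exact hz2e
      · have hk4 : (4 : k) ≠ 0 := by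
          intro h
          apply h4
          have := congrArg (algebraMap k T) h
          rwa [map_ofNat, map_zero] at this
        have ho4 : A.ord (4 : T) = 0 := by
          have := hA 4 hk4
          rwa [map_ofNat] at this
        have ho3 : A.ord (3 : T) = 0 := by
          have := hA 3 h3
          rwa [map_ofNat] at this
        have h3T : (3 : T) ≠ 0 := by
          intro h
          apply h3
          apply (algebraMap k T).injective
          rw [map_ofNat, map_zero, h]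
        have h4d : -(4 * d) ≠ 0 := neg_ne_zero.2 (mul_ne_zero h4 hd0)
        have h4do := locC_neg A (4 * d) (mul_ne_zero h4 hd0)
        have ho4d : A.ord (4 * d) = A.ord d := by
          rw [A.ord_mul _ _ h4 hd0, ho4, zero_add]
        by_cases hac' : A.ac (z ^ 2) + A.ac (-(4 * d)) = 0
        · exfalso
          rw [hndo.2] at hac
          rw [h4do.2, A.ac_mul] at hac'
          have hd' : A.ac d ≠ 0 := A.ac_ne d hd0
          have h5 : A.ac 4 = 1 := by
            apply mul_right_cancel₀ hd'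
            linear_combination hac - hac'
          have h6 := locC_neg_one A
          have h7 := A.add_gt 4 (-1) h4 (neg_ne_zero.2 one_ne_zero) (by rw [ho4, h6.1])
            (by rw [h5, h6.2]; ring) (by
              have : (4 : T) + -1 = 3 := by norm_num
              rw [this]
              exact h3T)
          have h8 : (4 : T) + -1 = 3 := by norm_num
          rw [h8, ho4, ho3] at h7
          exact lt_irrefl _ h7
        · rw [sub_eq_add_neg, (A.add_eq (z ^ 2) (-(4 * d)) hz2 h4d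
            (by rw [h4do.1, ho4d]; exact h) hac').1]
          exact hz2e
    · left
      rw [sub_eq_add_neg, (A.add_eq (z ^ 2) (-d) hz2 hnd (by rw [hndo.1]; exact h) hac).1]
      exact hz2e
  · left
    rw [sub_eq_add_neg, add_comm, (A.add_lt (-d) (z ^ 2) hnd hz2 (by rw [hndo.1]; exact h)).1,
      hndo.1]
    exact hde
end

end Pool.Agent.RR
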