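import Pool.Agent.RR.LocA
import Pool.Agent.RR.LocC

/-!
Project RR (MP_0a3790_ag), row RR-12: the symbol is unramified everywhere.
-/

set_option autoImplicit false

namespace Pool.Agent.RR

namespace Loc12

variable {T κ : Type} [Field T] [Field κ]

/-- an element of even order has no ramified part -/
private theorem theta_even (A : AC T κ) (θ : Sym T →+* DualNumber (Sym κ)) (hθ : A.IsTheta θ)
    {a : T} (ha : a ≠ 0) (he : Even (A.ord a)) :
    θ (sy a) = TrivSqZeroExt.inl (sy (A.ac a)) := by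
  obtain ⟨r, hr⟩ := he
  rw [hθ a ha, hr, Int.cast_add, sy_add_self, TrivSqZeroExt.inr_zero, add_zero]

private theorem snd_zero (a b c d e f : Sym κ) :
    (TrivSqZeroExt.inl a * TrivSqZeroExt.inl b * TrivSqZeroExt.inl c * TrivSqZeroExt.inl d *
      TrivSqZeroExt.inl e * TrivSqZeroExt.inl f : DualNumber (Sym κ)).snd = 0 := by
  simp only [← TrivSqZeroExt.inl_mul, TrivSqZeroExt.snd_inl]

end Loc12

open Loc12 in
theorem local_unram {k T κ : Type} [Field k] [IsAlgClosed k] [Field T] [Algebra k T] [Field κ]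
    (h3 : (3 : k) ≠ 0) (A : AC T κ) (hA : A.Triv k) (s x1 x2 x3 x4 y z : T)
    (hs : ∀ c : k, s ≠ algebraMap k T c)
    (h10 : x1 ≠ 0) (h11 : x1 ≠ 1) (h1s : x1 ≠ s) (h20 : x2 ≠ 0) (h21 : x2 ≠ 1) (h2s : x2 ≠ s)
    (h30 : x3 ≠ 0) (h31 : x3 ≠ 1) (h3s : x3 ≠ s / 3) (h40 : x4 ≠ 0) (h41 : x4 ≠ 1)
    (h4s : x4 ≠ s / 3) (hz : z ≠ 0) (hy : y ^ 2 = leg (s / 3) x3 * leg (s / 3) x4)
    (ha : z ^ 2 - leg s x1 * leg s x2 ≠ 0) (ha' : z ^ 2 - 4 * (leg s x1 * leg s x2) ≠ 0)
    (heq : sy x1 * sy x2 * sy x3 * sy x4 * sy ((s - 1) * (s - 3)) *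
        sy (z ^ 2 - leg s x1 * leg s x2) =
      sy x1 * sy x2 * sy x3 * sy x4 * sy ((s - 1) * (s - 3)) *
        sy (z ^ 2 - 4 * (leg s x1 * leg s x2))) :
    A.Unram (sy x1 * sy x2 * sy x3 * sy x4 * sy ((s - 1) * (s - 3)) *
        sy (z ^ 2 - leg s x1 * leg s x2)) := by
  intro θ hθ
  have e1 : algebraMap k T 1 = 1 := map_one _
  have e3 : algebraMap k T 3 = 3 := map_ofNat _ 3
  have hs0 : s ≠ 0 := by
    have := hs 0
    rwa [map_zero] at this
  have hs1 : s ≠ 1 := by
    have := hs 1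
    rwa [e1] at this
  have hs3 : s ≠ 3 := by
    have := hs 3
    rwa [e3] at this
  have hg : (s - 1) * (s - 3) ≠ 0 := mul_ne_zero (sub_ne_zero.2 hs1) (sub_ne_zero.2 hs3)
  -- when the class of `g` vanishes
  have fin1 : θ (sy ((s - 1) * (s - 3))) = 0 → (θ (sy x1 * sy x2 * sy x3 * sy x4 *
      sy ((s - 1) * (s - 3)) * sy (z ^ 2 - leg s x1 * leg s x2))).snd = 0 := by
    intro h
    rw [map_mul, map_mul, h, mul_zero, zero_mul, TrivSqZeroExt.snd_zero]
  by_cases hneg : A.ord s < 0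
  · exact fin1 (loc_const h3 A hA θ hθ s hs0 hg (Or.inl hneg))
  by_cases hpos : ∃ c : k, 0 < A.ord (s - algebraMap k T c)
  · obtain ⟨c, hc⟩ := hpos
    by_cases hc1 : c = 1
    · subst hc1
      rw [e1] at hc
      have h := loc_one A hA θ hθ s x1 x2 z h10 h20 h11 h21 h1s h2s hs1 hz ha hc
      have e : θ (sy x1 * sy x2 * sy x3 * sy x4 *
          sy ((s - 1) * (s - 3)) * sy (z ^ 2 - leg s x1 * leg s x2)) =
          θ (sy x1) * θ (sy x2) * θ (sy (z ^ 2 - leg s x1 * leg s x2)) *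
            (θ (sy x3) * θ (sy x4) * θ (sy ((s - 1) * (s - 3)))) := by
        simp only [map_mul]
        ring
      rw [e, h, zero_mul, TrivSqZeroExt.snd_zero]
    by_cases hc3 : c = 3
    · subst hc3
      rw [e3] at hc
      have h := loc_three h3 A hA θ hθ s x3 x4 y h30 h40 h31 h41 h3s h4s hs3 hy hc
      have e : θ (sy x1 * sy x2 * sy x3 * sy x4 *
          sy ((s - 1) * (s - 3)) * sy (z ^ 2 - leg s x1 * leg s x2)) =
          θ (sy x3) * θ (sy x4) * (θ (sy x1) * θ (sy x2) *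
            (θ (sy ((s - 1) * (s - 3))) * θ (sy (z ^ 2 - leg s x1 * leg s x2)))) := by
        simp only [map_mul]
        ring
      rw [e, h, zero_mul, TrivSqZeroExt.snd_zero]
    exact fin1 (loc_const h3 A hA θ hθ s hs0 hg (Or.inr ⟨c, hc1, hc3, Or.inr hc⟩))
  · push Not at hneg hpos
    -- `s` is generic
    have hord : A.ord s = 0 := by
      have := hpos 0
      rw [map_zero, sub_zero] at this
      omega
    have hgen : Gen k A s := by
      refine ⟨hs0, hord, fun c => ⟨hs c, le_antisymm (hpos c) ?_⟩⟩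
      by_cases hc : c = 0
      · subst hc
        rw [map_zero, sub_zero, hord]
      · have hc' : algebraMap k T (-c) ≠ 0 := by
          rw [Ne, map_eq_zero]
          exact neg_ne_zero.2 hc
        have h0 : A.ord (algebraMap k T (-c)) = 0 := hA _ (neg_ne_zero.2 hc)
        have e : s - algebraMap k T c = s + algebraMap k T (-c) := by
          rw [map_neg, sub_eq_add_neg]
        have hne : s + algebraMap k T (-c) ≠ 0 := by
          rw [← e]
          exact sub_ne_zero.2 (hs c)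
        rw [e]
        by_cases hac : A.ac s + A.ac (algebraMap k T (-c)) = 0
        · have := A.add_gt s _ hs0 hc' (by rw [hord, h0]) hac hne
          omega
        · have := (A.add_eq s _ hs0 hc' (by rw [hord, h0]) hac).1
          omega
    have hω : θ (sy ((s - 1) * (s - 3))) * TrivSqZeroExt.inl (sy (A.ac s)) = 0 := by
      rw [← theta_even A θ hθ hs0 (by rw [hord]; exact Even.zero), ← map_mul,
        mul_comm, sy_s_g h3 s, map_zero]
    by_cases hodd3 : Odd (A.ord x3) ∨ Odd (A.ord x4)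
    · have ht : s / 3 = algebraMap k T (3⁻¹) * s := by
        rw [map_inv₀, e3, div_eq_mul_inv, mul_comm]
      have h := gen_y A hA θ hθ s (s / 3) x3 x4 y hgen 3⁻¹ (inv_ne_zero h3) ht h30 h31 h3s
        h40 h41 h4s hy _ hω hodd3
      have e : θ (sy x1 * sy x2 * sy x3 * sy x4 *
          sy ((s - 1) * (s - 3)) * sy (z ^ 2 - leg s x1 * leg s x2)) =
          θ (sy ((s - 1) * (s - 3))) * θ (sy x3) * θ (sy x4) * (θ (sy x1) * θ (sy x2) *
            θ (sy (z ^ 2 - leg s x1 * leg s x2))) := by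
        simp only [map_mul]
        ring
      rw [e, h, zero_mul, TrivSqZeroExt.snd_zero]
    by_cases hodd1 : Odd (A.ord x1) ∨ Odd (A.ord x2)
    · have h := gen_x A hA θ hθ s x1 x2 z hgen h10 h11 h1s h20 h21 h2s hz 1 one_ne_zero
        (by rwa [e1, one_mul]) _ hω hodd1
      rw [e1, one_mul] at h
      have e : θ (sy x1 * sy x2 * sy x3 * sy x4 *
          sy ((s - 1) * (s - 3)) * sy (z ^ 2 - leg s x1 * leg s x2)) =
          θ (sy ((s - 1) * (s - 3))) * θ (sy x1) * θ (sy x2) *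
            θ (sy (z ^ 2 - leg s x1 * leg s x2)) * (θ (sy x3) * θ (sy x4)) := by
        simp only [map_mul]
        ring
      rw [e, h, zero_mul, TrivSqZeroExt.snd_zero]
    rw [not_or, Int.not_odd_iff_even, Int.not_odd_iff_even] at hodd3 hodd1
    have hgo : Even (A.ord ((s - 1) * (s - 3))) := by
      have h1 := (hgen.2.2 1).2
      have h2 := (hgen.2.2 3).2
      rw [e1] at h1
      rw [e3] at h2
      rw [A.ord_mul _ _ (sub_ne_zero.2 hs1) (sub_ne_zero.2 hs3), h1, h2]
      exact Even.zero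
    rcases gen_even h3 A hA θ hθ s x1 x2 z hgen h10 h11 h1s h20 h21 h2s hz ha ha' _ hω
      hodd1.1 hodd1.2 with h | h | h
    · have e : θ (sy x1 * sy x2 * sy x3 * sy x4 *
          sy ((s - 1) * (s - 3)) * sy (z ^ 2 - leg s x1 * leg s x2)) =
          θ (sy ((s - 1) * (s - 3))) * θ (sy x1) * θ (sy x2) *
            (θ (sy (z ^ 2 - leg s x1 * leg s x2)) * (θ (sy x3) * θ (sy x4))) := by
        simp only [map_mul]
        ring
      rw [e, h, zero_mul, TrivSqZeroExt.snd_zero]
    · simp only [map_mul]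
      rw [theta_even A θ hθ h10 hodd1.1, theta_even A θ hθ h20 hodd1.2,
        theta_even A θ hθ h30 hodd3.1, theta_even A θ hθ h40 hodd3.2,
        theta_even A θ hθ hg hgo, theta_even A θ hθ ha h]
      exact snd_zero _ _ _ _ _ _
    · rw [heq]
      simp only [map_mul]
      rw [theta_even A θ hθ h10 hodd1.1, theta_even A θ hθ h20 hodd1.2,
        theta_even A θ hθ h30 hodd3.1, theta_even A θ hθ h40 hodd3.2,
        theta_even A θ hθ hg hgo, theta_even A θ hθ ha' h]
      exact snd_zero _ _ _ _ _ _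

end Pool.Agent.RR
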