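import Pool.Agent.RR.Defs

/-!
# Project RR: algebraic independence of generators (for RR-31 .. 35, helper24)
-/

set_option autoImplicit false

namespace Pool.Agent.RR

/-- If finitely many elements generate a field which contains as many algebraically independent
elements, then they are algebraically independent. -/
theorem algInd_of_gen {k E ι : Type} [Field k] [Field E] [Algebra k E] [Finite ι] (y G : ι → E)
    (hG : AlgebraicIndependent k G)
    (h : ∀ i, G i ∈ IntermediateField.adjoin k (Set.range y)) : AlgebraicIndependent k y := by
  set L := IntermediateField.adjoin k (Set.range y) with hL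
  let G' : ι → L := fun i => ⟨G i, h i⟩
  let y' : ι → L := fun i => ⟨y i, IntermediateField.subset_adjoin k _ ⟨i, rfl⟩⟩
  have hG' : AlgebraicIndependent k G' := by
    have : AlgebraicIndependent k ((L.val : L → E) ∘ G') := hG
    exact (AlgHom.algebraicIndependent_iff L.val L.val.injective).1 this
  have hle : Cardinal.mk ι ≤ Algebra.trdeg k L := hG'.cardinalMk_le_trdeg
  have hgen : IntermediateField.adjoin k (Set.range y') = ⊤ := by
    apply IntermediateField.map_injective L.val
    rw [IntermediateField.adjoin_map, ← AlgHom.fieldRange_eq_map]
    have h1 : (L.val : L → E) '' Set.range y' = Set.range y := by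
      rw [← Set.range_comp]
      rfl
    rw [h1, ← hL]
    exact (IntermediateField.fieldRange_val L).symm
  have halg : Algebra.IsAlgebraic (Algebra.adjoin k (Set.range y')) L := by
    have h1 : Algebra.IsAlgebraic (IntermediateField.adjoin k (Set.range y')) L := by
      rw [hgen]
      constructor
      intro z
      exact isAlgebraic_algebraMap (⟨z, trivial⟩ : (⊤ : IntermediateField k L))
    exact IntermediateField.isAlgebraic_adjoin_iff_top.1 h1
  have hy' : AlgebraicIndependent k y' :=
    (Algebra.IsAlgebraic.isTranscendenceBasis_of_le_trdeg_of_finite k y' hle).1
  exact hy'.map' (f := L.val) L.val.injective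

end Pool.Agent.RR
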