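import Pool.Agent.RR.Defs

/-! RR-20: the shape of the equation. -/

set_option autoImplicit false

namespace Pool.Agent.RR

open MvPolynomial

theorem pf_eq_sum {R : Type} [CommRing R] (l : List R) (v : BI l.length → R) :
    pf l v = ∑ j, coef l j * v j ^ 2 := by
  induction l with
  | nil =>
    change v () ^ 2 = ∑ j : Unit, (1 : R) * v j ^ 2
    simp
  | cons c l ih =>
    change pf l (fun i => v (Sum.inl i)) + c * pf l (fun i => v (Sum.inr i)) =
      ∑ j : BI l.length ⊕ BI l.length, coef (c :: l) j * v j ^ 2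
    rw [ih, ih, Fintype.sum_sum_type, Finset.mul_sum]
    congr 1
    refine Finset.sum_congr rfl fun i _ => ?_
    change _ = c * coef l i * _
    ring

theorem coef_j0 {R : Type} [CommRing R] (l : List R) : coef l (j0 l.length) = 1 := by
  induction l with
  | nil => rfl
  | cons c l ih => exact ih

theorem coef_ne {R : Type} [CommRing R] [IsDomain R] (l : List R) (hl : ∀ c ∈ l, c ≠ 0)
    (j : BI l.length) : coef l j ≠ 0 := by
  induction l with
  | nil => exact one_ne_zero
  | cons c l ih =>
    have ih' := fun i => ih (fun d hd => hl d (List.mem_cons_of_mem c hd)) i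
    rcases j with i | i
    · exact ih' i
    · exact mul_ne_zero (hl c List.mem_cons_self) (ih' i)

private theorem pf5_map {R S : Type} [CommRing R] [CommRing S] (f : R →+* S) (a b c d e : R)
    (v : BI 5 → R) : pf [f a, f b, f c, f d, f e] (fun j => f (v j)) = f (pf [a, b, c, d, e] v) := by
  simp only [pf, map_add, map_mul, map_pow]

theorem GG_map {R S : Type} [CommRing R] [CommRing S] (f : R →+* S) (x : Fin 6 → R)
    (v : BI 5 → R) : GG (fun i => f (x i)) (fun j => f (v j)) = f (GG x v) := by
  have h1 : gg (f (x 2)) (f (x 3)) (f (x 4)) = f (gg (x 2) (x 3) (x 4)) := by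
    simp only [gg, SS, DD, cc, map_sub, map_mul, map_pow, map_one, map_ofNat]
  have h2 : hh (fun i => f (x i)) = f (hh x) := by
    simp only [hh, dd, SS, DD, cc, map_sub, map_mul, map_pow, map_one, map_ofNat]
  have h3 := pf5_map f (gg (x 2) (x 3) (x 4)) (x 0) (x 1) (x 2) (x 3) v
  change pf [gg (f (x 2)) (f (x 3)) (f (x 4)), f (x 0), f (x 1), f (x 2), f (x 3)]
    (fun j => f (v j)) - hh (fun i => f (x i)) = f (pf (sl x) v - hh x)
  rw [h1, h2, map_sub]
  exact congrArg (· - f (hh x)) h3

theorem GP_map (R S : Type) [CommRing R] [CommRing S] (f : R →+* S) :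
    MvPolynomial.map f (GP R) = GP S := by
  have h := GG_map (MvPolynomial.map (σ := Co) f) (fun i => X (Sum.inl i)) (fun j => X (Sum.inr j))
  simp only [MvPolynomial.map_X] at h
  exact h.symm

theorem aeval_GP {k E : Type} [CommRing k] [CommRing E] [Algebra k E] (x : Fin 6 → E)
    (v : BI 5 → E) : aeval (Sum.elim x v) (GP k) = GG x v := by
  have h := GG_map (aeval (R := k) (Sum.elim x v) : MvPolynomial Co k →ₐ[k] E).toRingHom
    (fun i => X (Sum.inl i)) (fun j => X (Sum.inr j))
  simp only [AlgHom.toRingHom_eq_coe, RingHom.coe_coe, aeval_X, Sum.elim_inl, Sum.elim_inr] at h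
  exact h.symm

end Pool.Agent.RR
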