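import Pool.Agent.RR.NeEq
import Pool.Agent.RR.Shape

/-!
# Project RR: the point of the hypersurface, the equation (for RR-31 .. 35, helper24)
-/

set_option autoImplicit false

namespace Pool.Agent.RR

section

variable {F : Type} [Field F]

/-- the coordinates `x_i` of the point -/
def xx (s x1 x2 u3 u4 t ρ1 : F) : Fin 6 → F :=
  ![x1, x2, u3⁻¹, u4⁻¹, mm s u3 u4 ρ1, D0 s u3 u4 * (x1 * x2 * (1 + t))]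

/-- the coordinates `v_j` of the point -/
def vv (s x1 x2 u3 u4 t ρ2 : F) (w : JJ → F) : BI 5 → F := fun j =>
  if h : j = j0 5 then D0 s u3 u4 ^ 2 * aa s x1 x2 t * ρ2 else 3 * D0 s u3 u4 ^ 2 * w ⟨j, h⟩

theorem GG_point {s x1 x2 u3 u4 t ρ1 ρ2 : F} {w : JJ → F} (h3 : (3 : F) ≠ 0) (hs : s ≠ 0)
    (hu3 : u3 ≠ 0) (hu4 : u4 ≠ 0) (hA : A3 s u3 ≠ 0) (ha : aa s x1 x2 t ≠ 0)
    (h1 : ρ1 ^ 2 = d1 s u3 u4) (h2 : ρ2 ^ 2 = d2 s x1 x2 u3 u4 t w) :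
    GG (xx s x1 x2 u3 u4 t ρ1) (vv s x1 x2 u3 u4 t ρ2 w) = 0 := by
  have hg := gg_mm h1 h3 hs hu3 hu4 hA
  have hd := dd_mm (x1 := x1) (x2 := x2) h1 h3 hs hu3 hu4 hA
  have hc : ∀ j : BI 5, coef (sl (xx s x1 x2 u3 u4 t ρ1)) j = CC s x1 x2 u3 u4 j := by
    intro j
    rcases j with j | j
    · rfl
    · change gg u3⁻¹ u4⁻¹ (mm s u3 u4 ρ1) * coef [x1, x2, u3⁻¹, u4⁻¹] j =
        (D0 s u3 u4 ^ 2 * ((s - 1) * (s - 3))) * coef [x1, x2, u3⁻¹, u4⁻¹] j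
      rw [hg]
  have hpf : pf (sl (xx s x1 x2 u3 u4 t ρ1)) (vv s x1 x2 u3 u4 t ρ2 w) =
      ∑ j : BI 5, CC s x1 x2 u3 u4 j * vv s x1 x2 u3 u4 t ρ2 w j ^ 2 := by
    refine (pf_eq_sum (sl (xx s x1 x2 u3 u4 t ρ1)) (vv s x1 x2 u3 u4 t ρ2 w)).trans ?_
    exact Finset.sum_congr rfl fun j _ => by rw [← hc j]
  have hsum : ∑ j : BI 5, CC s x1 x2 u3 u4 j * vv s x1 x2 u3 u4 t ρ2 w j ^ 2 =
      (D0 s u3 u4 ^ 2 * aa s x1 x2 t * ρ2) ^ 2 +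
        9 * D0 s u3 u4 ^ 4 * ∑ j : JJ, CC s x1 x2 u3 u4 j.1 * w j ^ 2 := by
    rw [Fintype.sum_eq_add_sum_subtype_ne _ (j0 5)]
    have e0 : CC s x1 x2 u3 u4 (j0 5) = 1 :=
      coef_j0 [D0 s u3 u4 ^ 2 * ((s - 1) * (s - 3)), x1, x2, u3⁻¹, u4⁻¹]
    have e1 : vv s x1 x2 u3 u4 t ρ2 w (j0 5) = D0 s u3 u4 ^ 2 * aa s x1 x2 t * ρ2 := dif_pos rfl
    rw [e0, e1, one_mul, Finset.mul_sum]
    congr 1
    refine Finset.sum_congr rfl fun j _ => ?_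
    have e2 : vv s x1 x2 u3 u4 t ρ2 w j.1 = 3 * D0 s u3 u4 ^ 2 * w j := dif_neg j.2
    rw [e2]
    ring
  have hh' : hh (xx s x1 x2 u3 u4 t ρ1) = D0 s u3 u4 ^ 4 *
      (aa s x1 x2 t * (aa s x1 x2 t - 3 * (leg s x1 * leg s x2))) := by
    change ((D0 s u3 u4 * (x1 * x2 * (1 + t))) ^ 2 - dd x1 x2 u3⁻¹ u4⁻¹ (mm s u3 u4 ρ1)) *
      ((D0 s u3 u4 * (x1 * x2 * (1 + t))) ^ 2 - 4 * dd x1 x2 u3⁻¹ u4⁻¹ (mm s u3 u4 ρ1)) = _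
    rw [hd]
    unfold aa
    ring
  unfold GG
  rw [hpf, hsum, hh', mul_pow, h2]
  have e : aa s x1 x2 t ^ 2 * d2 s x1 x2 u3 u4 t w = aa s x1 x2 t ^ 2 -
      3 * (leg s x1 * leg s x2) * aa s x1 x2 t -
        9 * ∑ j : JJ, CC s x1 x2 u3 u4 j.1 * w j ^ 2 := by
    unfold d2
    field_simp
  linear_combination D0 s u3 u4 ^ 4 * e

end

end Pool.Agent.RR
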