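import Pool.Agent.RR.Defs

/-!
# Project RR (MP_0a3790_ag): immediate extensions of a valuation by square roots of principal units.
-/

set_option autoImplicit false

namespace Pool.Agent.RR

section VaBasic

variable {F Γ : Type} [Field F] [AddCommGroup Γ] [LinearOrder Γ]

private theorem ord_one (V : Va F Γ) : V.ord 1 = 0 := by
  have h := V.mul 1 1 one_ne_zero one_ne_zero
  rw [mul_one] at h
  exact left_eq_add.mp h

variable [IsOrderedAddMonoid Γ]

private theorem ord_neg_one (V : Va F Γ) : V.ord (-1) = 0 := by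
  have h := V.mul (-1) (-1) (neg_ne_zero.2 one_ne_zero) (neg_ne_zero.2 one_ne_zero)
  rw [neg_mul_neg, one_mul, ord_one] at h
  rcases lt_trichotomy (V.ord (-1)) 0 with h1 | h1 | h1
  · exact absurd h.symm (add_neg h1 h1).ne
  · exact h1
  · exact absurd h.symm (add_pos h1 h1).ne'

private theorem ord_neg (V : Va F Γ) (x : F) (hx : x ≠ 0) : V.ord (-x) = V.ord x := by
  have h := V.mul (-1) x (neg_ne_zero.2 one_ne_zero) hx
  rwa [neg_one_mul, ord_neg_one, zero_add] at h

omit [IsOrderedAddMonoid Γ] in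
private theorem ord_inv (V : Va F Γ) (x : F) (hx : x ≠ 0) : V.ord x⁻¹ = -V.ord x := by
  have h := V.mul x x⁻¹ hx (inv_ne_zero hx)
  rw [mul_inv_cancel₀ hx, ord_one] at h
  exact (neg_eq_of_add_eq_zero_right h.symm).symm

/-- The valuation ring. -/
private def OO (V : Va F Γ) : ValuationSubring F where
  carrier := {x | x = 0 ∨ 0 ≤ V.ord x}
  mul_mem' := by
    rintro a b ha hb
    by_cases h1 : a = 0
    · left; rw [h1, zero_mul]
    by_cases h2 : b = 0
    · left; rw [h2, mul_zero]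
    right
    rw [V.mul a b h1 h2]
    exact add_nonneg (ha.resolve_left h1) (hb.resolve_left h2)
  one_mem' := Or.inr (ord_one V).ge
  add_mem' := by
    rintro a b ha hb
    by_cases h1 : a = 0
    · rw [h1, zero_add]; exact hb
    by_cases h2 : b = 0
    · rw [h2, add_zero]; exact ha
    by_cases h3 : a + b = 0
    · left; exact h3
    right
    exact (le_min (ha.resolve_left h1) (hb.resolve_left h2)).trans (V.add a b h1 h2 h3)
  zero_mem' := Or.inl rfl
  neg_mem' := by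
    rintro a ha
    by_cases h1 : a = 0
    · left; rw [h1, neg_zero]
    right
    rw [ord_neg V a h1]
    exact ha.resolve_left h1
  mem_or_inv_mem' := by
    intro a
    by_cases h1 : a = 0
    · left; left; exact h1
    rcases le_total 0 (V.ord a) with h2 | h2
    · left; right; exact h2
    · right; right
      rw [ord_inv V a h1]
      exact neg_nonneg.2 h2

private theorem mem_OO (V : Va F Γ) (x : F) : x ∈ OO V ↔ x = 0 ∨ 0 ≤ V.ord x := Iff.rfl

end VaBasic

section Dom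

variable {F Ω : Type} [Field F] [Field Ω] [Algebra F Ω]

private theorem exists_dom (O : ValuationSubring F) :
    ∃ B : ValuationSubring Ω, ∀ x : F, algebraMap F Ω x ∈ B ↔ x ∈ O := by
  obtain ⟨B, hle, hloc⟩ := (O.toLocalSubring.map (algebraMap F Ω)).exists_le_valuationSubring
  refine ⟨B, fun x => ⟨fun hx => ?_, fun hx => hle ⟨x, hx, rfl⟩⟩⟩
  rcases O.mem_or_inv_mem x with h | h
  · exact h
  by_cases h0 : x = 0
  · rw [h0]; exact O.zero_mem
  have hm : algebraMap F Ω x⁻¹ ∈ (O.toLocalSubring.map (algebraMap F Ω)).toSubring := ⟨x⁻¹, h, rfl⟩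
  have hu : IsUnit (Subring.inclusion hle ⟨algebraMap F Ω x⁻¹, hm⟩) := by
    refine IsUnit.of_mul_eq_one ⟨algebraMap F Ω x, hx⟩ (Subtype.ext ?_)
    change algebraMap F Ω x⁻¹ * algebraMap F Ω x = 1
    rw [← map_mul, inv_mul_cancel₀ h0, map_one]
  have hu2 := hloc.map_nonunit _ hu
  obtain ⟨⟨z, w, hw, hz⟩, hmul⟩ := hu2.exists_right_inv
  have h1 : algebraMap F Ω x⁻¹ * z = 1 := congrArg Subtype.val hmul
  have h2 : algebraMap F Ω (x⁻¹ * w) = algebraMap F Ω 1 := by
    rw [map_mul, map_one, ← h1, ← hz]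
  have h3 : x⁻¹ * w = 1 := (algebraMap F Ω).injective h2
  have h4 : w = x := by
    rw [← mul_one x, ← h3, mul_inv_cancel_left₀ h0]
  rw [← h4]
  exact hw

end Dom

section Step

variable {F Ω : Type} [Field F] [Field Ω] [Algebra F Ω]

/-- The field `K + K r` for `r ^ 2 ∈ F`. -/
private def quad (K : IntermediateField F Ω) (δ : F) (r : Ω) (hr : r ^ 2 = algebraMap F Ω δ) :
    IntermediateField F Ω where
  carrier := {x | ∃ a ∈ K, ∃ b ∈ K, x = a + b * r}
  mul_mem' := by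
    rintro _ _ ⟨a, ha, b, hb, rfl⟩ ⟨c, hc, d, hd, rfl⟩
    refine ⟨a * c + b * d * algebraMap F Ω δ,
      add_mem (mul_mem ha hc) (mul_mem (mul_mem hb hd) (K.algebraMap_mem δ)),
      a * d + b * c, add_mem (mul_mem ha hd) (mul_mem hb hc), ?_⟩
    rw [← hr]; ring
  add_mem' := by
    rintro _ _ ⟨a, ha, b, hb, rfl⟩ ⟨c, hc, d, hd, rfl⟩
    exact ⟨a + c, add_mem ha hc, b + d, add_mem hb hd, by ring⟩
  algebraMap_mem' := by
    intro a
    exact ⟨algebraMap F Ω a, K.algebraMap_mem a, 0, K.zero_mem, by ring⟩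
  inv_mem' := by
    rintro _ ⟨a, ha, b, hb, rfl⟩
    by_cases h1 : a - b * r = 0
    · have h2 : a + b * r = 2 * a := by
        have : b * r = a := (sub_eq_zero.1 h1).symm
        rw [this]; ring
      refine ⟨(2 * a)⁻¹, K.inv_mem ?_, 0, K.zero_mem, by rw [h2]; ring⟩
      rw [two_mul]; exact add_mem ha ha
    by_cases h2 : a + b * r = 0
    · exact ⟨0, K.zero_mem, 0, K.zero_mem, by rw [h2, inv_zero]; ring⟩
    have h3 : (a + b * r) * (a - b * r) = a * a - b * b * algebraMap F Ω δ := by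
      rw [← hr]; ring
    have h4 : a * a - b * b * algebraMap F Ω δ ≠ 0 := by
      rw [← h3]; exact mul_ne_zero h2 h1
    have h5 : (a * a - b * b * algebraMap F Ω δ)⁻¹ ∈ K :=
      K.inv_mem (sub_mem (mul_mem ha ha) (mul_mem (mul_mem hb hb) (K.algebraMap_mem δ)))
    refine ⟨a * (a * a - b * b * algebraMap F Ω δ)⁻¹, mul_mem ha h5,
      -b * (a * a - b * b * algebraMap F Ω δ)⁻¹, mul_mem (neg_mem hb) h5, ?_⟩
    rw [inv_eq_iff_eq_inv]
    have h6 : a * (a * a - b * b * algebraMap F Ω δ)⁻¹ +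
        -b * (a * a - b * b * algebraMap F Ω δ)⁻¹ * r =
        (a - b * r) * (a * a - b * b * algebraMap F Ω δ)⁻¹ := by ring
    rw [h6, mul_inv, inv_inv, ← h3]
    field_simp

private theorem step {Λ : Type} [LinearOrderedCommGroupWithZero Λ] (v : Valuation Ω Λ)
    (K : IntermediateField F Ω)
    (hK : ∀ e ∈ K, e ≠ 0 → ∃ f : F, f ≠ 0 ∧ v e = v (algebraMap F Ω f))
    (h2 : v 2 = 1) (δ : F) (r : Ω) (hr : r ^ 2 = algebraMap F Ω δ)
    (hδ : v (algebraMap F Ω δ - 1) < 1) :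
    ∃ K' : IntermediateField F Ω, K ≤ K' ∧ r ∈ K' ∧
      ∀ e ∈ K', e ≠ 0 → ∃ f : F, f ≠ 0 ∧ v e = v (algebraMap F Ω f) := by
  refine ⟨quad K δ r hr, fun x hx => ⟨x, hx, 0, K.zero_mem, by ring⟩,
    ⟨0, K.zero_mem, 1, K.one_mem, by ring⟩, ?_⟩
  -- sign choice
  have key : ∀ s : Ω, s ^ 2 = algebraMap F Ω δ → v (s - 1) < 1 → ∀ a ∈ K, ∀ b ∈ K,
      a + b * s ≠ 0 → ∃ f : F, f ≠ 0 ∧ v (a + b * s) = v (algebraMap F Ω f) := by
    intro s hs hs1 a ha b hb hne
    by_cases hb0 : b = 0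
    · have h3 : a + b * s = a := by rw [hb0]; ring
      rw [h3] at hne ⊢
      exact hK a ha hne
    have hvs : v s = 1 := by
      have : v (1 + (s - 1)) = v 1 := Valuation.map_add_eq_of_lt_left v (by rwa [v.map_one])
      rwa [add_sub_cancel, v.map_one] at this
    -- t = a / b
    have ht : a / b ∈ K := K.div_mem ha hb
    have hab : a + b * s = b * (a / b + s) := by
      rw [mul_add, mul_div_cancel₀ _ hb0]
    generalize a / b = t at ht hab
    have hts : t + s ≠ 0 := by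
      intro h; rw [hab, h, mul_zero] at hne; exact hne rfl
    suffices h : ∃ k ∈ K, k ≠ 0 ∧ v (t + s) = v k by
      obtain ⟨k, hk, hk0, hvk⟩ := h
      obtain ⟨f, hf, hvf⟩ := hK (b * k) (mul_mem hb hk) (mul_ne_zero hb0 hk0)
      exact ⟨f, hf, by rw [hab, map_mul, hvk, ← map_mul, hvf]⟩
    rcases lt_or_ge 1 (v t) with h | h
    · refine ⟨t, ht, fun h0 => ?_, Valuation.map_add_eq_of_lt_left v (by rwa [hvs])⟩
      rw [h0, map_zero] at h
      exact not_lt_zero h
    have ht1 : v (t + 1) ≤ 1 := (v.map_add t 1).trans (max_le h (by rw [v.map_one]))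
    rcases ht1.lt_or_eq with h1 | h1
    · -- t + 1 in the maximal ideal
      have h3 : v (t - s) = 1 := by
        have e : t - s = -(2 - ((t + 1) - (s - 1))) := by ring
        have h4 : v ((t + 1) - (s - 1)) < 1 :=
          (v.map_sub (t + 1) (s - 1)).trans_lt (max_lt h1 hs1)
        rw [e, Valuation.map_neg, Valuation.map_sub_eq_of_lt_left v (by rwa [h2]), h2]
      have h5 : (t + s) * (t - s) = t * t - algebraMap F Ω δ := by rw [← hs]; ring
      have h6 : t - s ≠ 0 := by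
        intro h0; rw [h0, map_zero] at h3; exact zero_ne_one h3
      refine ⟨t * t - algebraMap F Ω δ, sub_mem (mul_mem ht ht) (K.algebraMap_mem δ), ?_, ?_⟩
      · rw [← h5]; exact mul_ne_zero hts h6
      · rw [← h5, map_mul, h3, mul_one]
    · refine ⟨t + 1, add_mem ht K.one_mem, fun h0 => ?_, ?_⟩
      · rw [h0, map_zero] at h1; exact zero_ne_one h1
      · have e : t + s = (t + 1) + (s - 1) := by ring
        rw [e]
        exact Valuation.map_add_eq_of_lt_left v (by rwa [h1])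
  rintro _ ⟨a, ha, b, hb, rfl⟩ hne
  have h7 : v (r - 1) * v (r + 1) < 1 := by
    rw [← map_mul]
    have : (r - 1) * (r + 1) = algebraMap F Ω δ - 1 := by rw [← hr]; ring
    rwa [this]
  have h8 : v (r - 1) < 1 ∨ v (r + 1) < 1 := by
    by_contra hcon
    push Not at hcon
    exact absurd h7 (not_lt.2 (one_le_mul_of_one_le_of_one_le hcon.1 hcon.2))
  rcases h8 with h8 | h8
  · exact key r hr h8 a ha b hb hne
  · have h9 := key (-r) (by rw [neg_sq, hr])
      (by rw [← Valuation.map_neg]; rwa [show -(-r - 1) = r + 1 by ring]) a ha (-b) (neg_mem hb)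
    rw [neg_mul_neg] at h9
    exact h9 hne

private theorem tower {Λ : Type} [LinearOrderedCommGroupWithZero Λ] (v : Valuation Ω Λ)
    (h2 : v 2 = 1) (n : ℕ) (δ : Fin n → F) (y : Fin n → Ω)
    (hδ : ∀ i, v (algebraMap F Ω (δ i) - 1) < 1)
    (hy : ∀ i, y i ^ 2 = algebraMap F Ω (δ i)) :
    ∃ K : IntermediateField F Ω, (∀ i, y i ∈ K) ∧
      ∀ e ∈ K, e ≠ 0 → ∃ f : F, f ≠ 0 ∧ v e = v (algebraMap F Ω f) := by
  induction n with
  | zero =>
    refine ⟨⊥, fun i => i.elim0, fun e he h0 => ?_⟩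
    obtain ⟨f, rfl⟩ := IntermediateField.mem_bot.1 he
    exact ⟨f, fun hf => h0 (by rw [hf, map_zero]), rfl⟩
  | succ n ih =>
    obtain ⟨K, hK1, hK2⟩ := ih (fun i => δ i.succ) (fun i => y i.succ) (fun i => hδ _)
      (fun i => hy _)
    obtain ⟨K', hle, hr, hK'⟩ := step v K hK2 h2 (δ 0) (y 0) (hy 0) (hδ 0)
    exact ⟨K', fun i => Fin.cases hr (fun j => hle (hK1 j)) i, hK'⟩

end Step

theorem exists_va_ext {F Γ Ω : Type} [Field F] [AddCommGroup Γ] [LinearOrder Γ]
    [IsOrderedAddMonoid Γ] (V : Va F Γ) [Field Ω] [Algebra F Ω] (h2 : (2 : F) ≠ 0)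
    (h2' : V.ord 2 = 0) (n : ℕ) (δ : Fin n → F) (y : Fin n → Ω)
    (hδ : ∀ i, δ i ≠ 1 → 0 < V.ord (δ i - 1)) (hy : ∀ i, y i ^ 2 = algebraMap F Ω (δ i)) :
    ∃ (E : IntermediateField F Ω) (W : Va E Γ), (∀ i, y i ∈ E) ∧
      ∀ a : F, a ≠ 0 → W.ord (algebraMap F E a) = V.ord a := by
  classical
  obtain ⟨B, hB⟩ := exists_dom (Ω := Ω) (OO V)
  have hle : ∀ f g : F, f ≠ 0 → g ≠ 0 →
      (B.valuation (algebraMap F Ω f) ≤ B.valuation (algebraMap F Ω g) ↔ V.ord g ≤ V.ord f) := by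
    intro f g hf hg
    have hg' : algebraMap F Ω g ≠ 0 := (map_ne_zero _).2 hg
    have h1 : B.valuation (algebraMap F Ω f) ≤ B.valuation (algebraMap F Ω g) ↔
        algebraMap F Ω (f * g⁻¹) ∈ B := by
      rw [← B.valuation_le_one_iff, map_mul, map_mul, map_inv₀, map_inv₀]
      rw [← div_eq_mul_inv, div_le_one₀ (zero_lt_iff.2 ((Valuation.ne_zero_iff _).2 hg'))]
    rw [h1, hB, mem_OO, V.mul f g⁻¹ hf (inv_ne_zero hg), ord_inv V g hg, ← sub_eq_add_neg,
      sub_nonneg]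
    exact or_iff_right (mul_ne_zero hf (inv_ne_zero hg))
  have hone : B.valuation (algebraMap F Ω 1) = 1 := by rw [map_one, map_one]
  have h2v : B.valuation (2 : Ω) = 1 := by
    have e : (2 : Ω) = algebraMap F Ω 2 := by rw [map_ofNat]
    rw [e, ← hone]
    apply le_antisymm
    · rw [hle 2 1 h2 one_ne_zero, h2', ord_one]
    · rw [hle 1 2 one_ne_zero h2, h2', ord_one]
  have hδv : ∀ i, B.valuation (algebraMap F Ω (δ i) - 1) < 1 := by
    intro i
    by_cases h : δ i = 1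
    · rw [h, map_one, sub_self, map_zero]; exact zero_lt_one
    · have h1 : δ i - 1 ≠ 0 := sub_ne_zero.2 h
      have e : algebraMap F Ω (δ i) - 1 = algebraMap F Ω (δ i - 1) := by rw [map_sub, map_one]
      rw [e, ← hone, ← not_le, hle 1 _ one_ne_zero h1, ord_one, not_le]
      exact hδ i h
  obtain ⟨E, hE1, hE2⟩ := tower B.valuation h2v n δ y hδv hy
  have hch : ∀ e : E, ∃ f : F, e ≠ 0 → f ≠ 0 ∧ B.valuation (e : Ω) =
      B.valuation (algebraMap F Ω f) := by
    intro e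
    by_cases h : e = 0
    · exact ⟨0, fun h' => absurd h h'⟩
    · obtain ⟨f, hf⟩ := hE2 e e.2 (fun h0 => h (Subtype.ext h0))
      exact ⟨f, fun _ => hf⟩
  choose φ hφ using hch
  refine ⟨E, ⟨fun e => V.ord (φ e), ?_, ?_⟩, hE1, ?_⟩
  · intro x z hx hz
    obtain ⟨a1, a2⟩ := hφ x hx
    obtain ⟨b1, b2⟩ := hφ z hz
    obtain ⟨c1, c2⟩ := hφ (x * z) (mul_ne_zero hx hz)
    have h3 : B.valuation (algebraMap F Ω (φ (x * z))) =
        B.valuation (algebraMap F Ω (φ x * φ z)) := by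
      rw [← c2, map_mul, map_mul, ← a2, ← b2, ← map_mul]
      rfl
    change V.ord (φ (x * z)) = V.ord (φ x) + V.ord (φ z)
    rw [← V.mul _ _ a1 b1]
    exact le_antisymm ((hle _ _ (mul_ne_zero a1 b1) c1).1 h3.ge)
      ((hle _ _ c1 (mul_ne_zero a1 b1)).1 h3.le)
  · intro x z hx hz hxz
    obtain ⟨a1, a2⟩ := hφ x hx
    obtain ⟨b1, b2⟩ := hφ z hz
    obtain ⟨c1, c2⟩ := hφ (x + z) hxz
    have h3 : B.valuation ((x + z : E) : Ω) ≤ max (B.valuation (x : Ω)) (B.valuation (z : Ω)) :=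
      B.valuation.map_add (x : Ω) (z : Ω)
    rw [c2, a2, b2] at h3
    rcases le_max_iff.1 h3 with h4 | h4
    · exact (min_le_left _ _).trans ((hle _ _ c1 a1).1 h4)
    · exact (min_le_right _ _).trans ((hle _ _ c1 b1).1 h4)
  · intro a ha
    have ha' : (algebraMap F E a : E) ≠ 0 := (map_ne_zero _).2 ha
    obtain ⟨a1, a2⟩ := hφ (algebraMap F E a) ha'
    change V.ord (φ (algebraMap F E a)) = V.ord a
    have h3 : B.valuation (algebraMap F Ω a) =
        B.valuation (algebraMap F Ω (φ (algebraMap F E a))) := a2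
    exact le_antisymm ((hle _ _ ha a1).1 h3.le) ((hle _ _ a1 ha).1 h3.ge)

end Pool.Agent.RR
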