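import Pool.Agent.RR.NeTower
import Pool.Agent.RR.NePt
import Pool.Agent.RR.NeGen
import Pool.Agent.RR.VaExt
import Pool.Agent.RR.Cert
import Pool.Agent.RR.Basis
import Pool.Agent.RR.Basic

/-!
# Project RR: the symbol is not zero (RR-31 .. 35, helper24)
-/

set_option autoImplicit false

namespace Pool.Agent.RR

open MvPolynomial

private theorem psi_two {Γ : Type} [AddCommGroup Γ] (ψ : Γ →+ ZMod 2) (γ : Γ) : ψ (2 • γ) = 0 := by
  rw [map_nsmul, two_nsmul]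
  exact CharTwo.add_self_eq_zero _

private theorem psi_neg {Γ : Type} [AddCommGroup Γ] (ψ : Γ →+ ZMod 2) (γ : Γ) : ψ (-γ) = ψ γ := by
  rw [map_neg, ZMod.neg_eq_self_mod_two]

theorem Tw.cal {k : Type} [Field k] [CharZero k] {J : Type} (T : Tw k J 6) :
    Cal T.V T.re (T.X 0) (T.X 1) (T.X 2) (T.X 3) (T.X 4) (T.X 5) := by
  have hk : ∀ m : k, m ≠ 0 → algebraMap k T.K m ≠ 0 := fun m hm => (map_ne_zero _).2 hm
  have h01 := T.Xlt 0 1 (by decide) 2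
  have h02 := T.Xlt 0 2 (by decide) 2
  have h15 := T.Xlt 1 5 (by decide) 1
  have h25 := T.Xlt 2 5 (by decide) 1
  have h35 := T.Xlt 3 5 (by decide) 1
  have h45 := T.Xlt 4 5 (by decide) 1
  have h34 := T.Xlt 3 4 (by decide) 1
  rw [one_nsmul] at h15 h25 h35 h45 h34
  rw [two_nsmul] at h01 h02
  exact
    { mono := T.mono
      h2 := by have h := hk 2 (by norm_num); rwa [map_ofNat] at h
      h3 := by have h := hk 3 (by norm_num); rwa [map_ofNat] at h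
      re3 := T.re3
      s0 := T.X0 0
      x10 := T.X0 1
      x20 := T.X0 2
      u30 := T.X0 3
      u40 := T.X0 4
      t0 := T.X0 5
      sre := T.Xre 0
      x1re := T.Xre 1
      x2re := T.Xre 2
      u3re := T.Xre 3
      u4re := T.Xre 4
      tre := T.Xre 5
      tpos := T.Xpos 5
      x1t := h15
      x2t := h25
      u3t := h35
      u4t := h45
      s1t := (add_lt_add_right h15 _).trans h01
      s2t := (add_lt_add_right h25 _).trans h02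
      u34 := h34 }

/-- the entries of the symbol -/
def cK {F : Type} [Field F] (s x1 x2 u3 u4 t : F) : Fin 6 → F :=
  ![x1, x2, u3⁻¹, u4⁻¹, D0 s u3 u4 ^ 2 * ((s - 1) * (s - 3)), D0 s u3 u4 ^ 2 * aa s x1 x2 t]

theorem Tw.cK_spec {k : Type} [Field k] [CharZero k] {J : Type} (T : Tw k J 6) :
    (∀ j, cK (T.X 0) (T.X 1) (T.X 2) (T.X 3) (T.X 4) (T.X 5) j ≠ 0) ∧
    ∀ i j, (![T.ψ 1, T.ψ 2, T.ψ 3, T.ψ 4, T.ψ 0, T.ψ 5] : Fin 6 → T.Γ →+ ZMod 2) i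
      (T.V.ord (cK (T.X 0) (T.X 1) (T.X 2) (T.X 3) (T.X 4) (T.X 5) j)) =
        if i = j then 1 else 0 := by
  have C := T.cal
  have hD := C.D0_ne
  have hg := C.ord_g
  have ha := C.ord_a
  have hD2 : D0 (T.X 0) (T.X 3) (T.X 4) ^ 2 ≠ 0 := pow_ne_zero 2 hD
  constructor
  · intro j
    fin_cases j
    · exact C.x10
    · exact C.x20
    · exact inv_ne_zero C.u30
    · exact inv_ne_zero C.u40
    · exact mul_ne_zero hD2 hg.1
    · exact mul_ne_zero hD2 ha.1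
  · have key : ∀ ψ : T.Γ →+ ZMod 2, ∀ j, ψ (T.V.ord
        (cK (T.X 0) (T.X 1) (T.X 2) (T.X 3) (T.X 4) (T.X 5) j)) =
        ψ (T.V.ord (T.X ((![1, 2, 3, 4, 0, 5] : Fin 6 → Fin 6) j))) := by
      intro ψ j
      fin_cases j
      · rfl
      · rfl
      · change ψ (T.V.ord (T.X 3)⁻¹) = ψ (T.V.ord (T.X 3))
        rw [T.V.ord_inv C.u30, psi_neg]
      · change ψ (T.V.ord (T.X 4)⁻¹) = ψ (T.V.ord (T.X 4))
        rw [T.V.ord_inv C.u40, psi_neg]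
      · change ψ (T.V.ord (D0 (T.X 0) (T.X 3) (T.X 4) ^ 2 * _)) = ψ (T.V.ord (T.X 0))
        rw [T.V.mul _ _ hD2 hg.1, hg.2, T.V.ord_pow hD, map_add, psi_two, zero_add]
      · change ψ (T.V.ord (D0 (T.X 0) (T.X 3) (T.X 4) ^ 2 * _)) = ψ (T.V.ord (T.X 5))
        rw [T.V.mul _ _ hD2 ha.1, ha.2, T.V.ord_pow hD, map_add, map_add, psi_two, psi_two,
          zero_add, zero_add]
    intro i j
    rw [key]
    have h : ∀ i j : Fin 6, (![T.ψ 1, T.ψ 2, T.ψ 3, T.ψ 4, T.ψ 0, T.ψ 5] : Fin 6 → T.Γ →+ ZMod 2) i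
        (T.V.ord (T.X ((![1, 2, 3, 4, 0, 5] : Fin 6 → Fin 6) j))) =
        if (![1, 2, 3, 4, 0, 5] : Fin 6 → Fin 6) i = (![1, 2, 3, 4, 0, 5] : Fin 6 → Fin 6) j
          then 1 else 0 := by
      intro i j
      rw [← T.Xψ]
      fin_cases i <;> rfl
    rw [h]
    fin_cases i <;> fin_cases j <;> rfl

/-- a field with a valuation and a point of the hypersurface, from the tower -/
theorem exists_point : ∃ (E Γ : Type) (_ : Field E) (_ : Algebra (AlgebraicClosure ℚ) E)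
    (_ : AddCommGroup Γ) (_ : LinearOrder Γ) (_ : IsOrderedAddMonoid Γ) (W : Va E Γ)
    (x : Fin 6 → E) (v : BI 5 → E) (ψ : Fin 6 → (Γ →+ ZMod 2)) (c : Fin 6 → E),
    GG x v = 0 ∧ AlgebraicIndependent (AlgebraicClosure ℚ)
      (Sum.elim x (fun j : {j : BI 5 // j ≠ j0 5} => v j.1)) ∧
    (∀ j, c j ≠ 0) ∧ (∀ i j, ψ i (W.ord (c j)) = if i = j then 1 else 0) ∧
    c 0 = x 0 ∧ c 1 = x 1 ∧ c 2 = x 2 ∧ c 3 = x 3 ∧ c 4 = gg (x 2) (x 3) (x 4) ∧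
    c 5 = x 5 ^ 2 - dd (x 0) (x 1) (x 2) (x 3) (x 4) := by
  obtain ⟨T⟩ := exists_tw JJ 6
  have C := T.cal
  obtain ⟨ρ1, hρ1⟩ := IsAlgClosed.exists_pow_nat_eq
    (algebraMap T.K (AlgebraicClosure T.K) (d1 (T.X 0) (T.X 3) (T.X 4))) (n := 2) (by norm_num)
  obtain ⟨ρ2, hρ2⟩ := IsAlgClosed.exists_pow_nat_eq
    (algebraMap T.K (AlgebraicClosure T.K)
      (d2 (T.X 0) (T.X 1) (T.X 2) (T.X 3) (T.X 4) (T.X 5) T.w)) (n := 2) (by norm_num)
  obtain ⟨E, W, hyE, hW⟩ := exists_va_ext T.V (Ω := AlgebraicClosure T.K) C.h2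
    (Va.ord_two C.h2 C.h3 C.mono C.re3) 2
    ![d1 (T.X 0) (T.X 3) (T.X 4), d2 (T.X 0) (T.X 1) (T.X 2) (T.X 3) (T.X 4) (T.X 5) T.w]
    ![ρ1, ρ2] (by
      intro i hi
      fin_cases i
      · exact C.p1.resolve_left (sub_ne_zero.2 hi)
      · exact (C.p2 T.w T.wre).resolve_left (sub_ne_zero.2 hi)) (by
      intro i
      fin_cases i
      · exact hρ1
      · exact hρ2)
  have hT : ∀ a : AlgebraicClosure ℚ, algebraMap (AlgebraicClosure ℚ) E a =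
      algebraMap T.K E (algebraMap (AlgebraicClosure ℚ) T.K a) := by
    intro a
    apply Subtype.ext
    exact IsScalarTower.algebraMap_apply (AlgebraicClosure ℚ) T.K (AlgebraicClosure T.K) a
  set ι : T.K →+* E := algebraMap T.K E with hι
  have hinj : Function.Injective ι := ι.injective
  have hne : ∀ {a : T.K}, a ≠ 0 → ι a ≠ 0 := fun h => (map_ne_zero ι).2 h
  set r1 : E := ⟨ρ1, hyE 0⟩ with hr1
  set r2 : E := ⟨ρ2, hyE 1⟩ with hr2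
  have e1 : r1 ^ 2 = d1 (ι (T.X 0)) (ι (T.X 3)) (ι (T.X 4)) := by
    rw [← map_d1]
    exact Subtype.ext hρ1
  have e2 : r2 ^ 2 = d2 (ι (T.X 0)) (ι (T.X 1)) (ι (T.X 2)) (ι (T.X 3)) (ι (T.X 4)) (ι (T.X 5))
      (fun j => ι (T.w j)) := by
    rw [← map_d2]
    exact Subtype.ext hρ2
  have h3 : (3 : E) ≠ 0 := by
    have := hne C.h3
    rwa [map_ofNat] at this
  have hs := hne C.s0
  have hu3 := hne C.u30
  have hu4 := hne C.u40
  have hA : A3 (ι (T.X 0)) (ι (T.X 3)) ≠ 0 := by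
    rw [← map_A3]; exact hne C.A3_ne
  have ha : aa (ι (T.X 0)) (ι (T.X 1)) (ι (T.X 2)) (ι (T.X 5)) ≠ 0 := by
    rw [← map_aa]; exact hne C.ord_a.1
  have hD : D0 (ι (T.X 0)) (ι (T.X 3)) (ι (T.X 4)) ≠ 0 := by
    rw [← map_D0]; exact hne C.D0_ne
  have hGG := GG_point h3 hs hu3 hu4 hA ha e1 e2
  have hgg := gg_mm e1 h3 hs hu3 hu4 hA
  have hdd := dd_mm (x1 := ι (T.X 1)) (x2 := ι (T.X 2)) e1 h3 hs hu3 hu4 hA
  have hDD := DD_mm e1 h3 hs hu3 hu4 hA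
  have hSS := SS_mm e1 h3 hs hu3 hu4 hA
  refine ⟨E, T.Γ, inferInstance, inferInstance, inferInstance, inferInstance, inferInstance, W,
    xx (ι (T.X 0)) (ι (T.X 1)) (ι (T.X 2)) (ι (T.X 3)) (ι (T.X 4)) (ι (T.X 5)) r1,
    vv (ι (T.X 0)) (ι (T.X 1)) (ι (T.X 2)) (ι (T.X 3)) (ι (T.X 4)) (ι (T.X 5)) r2
      (fun j => ι (T.w j)),
    ![T.ψ 1, T.ψ 2, T.ψ 3, T.ψ 4, T.ψ 0, T.ψ 5],
    fun j => ι (cK (T.X 0) (T.X 1) (T.X 2) (T.X 3) (T.X 4) (T.X 5) j),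
    hGG, ?_, fun j => hne (T.cK_spec.1 j), fun i j => ?_, rfl, rfl, ?_, ?_, ?_, ?_⟩
  · let fk : T.K →ₐ[AlgebraicClosure ℚ] E := { ι with commutes' := fun r => (hT r).symm }
    have hG0 := T.ind.map' (f := fk) hinj
    have hG : AlgebraicIndependent (AlgebraicClosure ℚ)
        (Sum.elim (fun i => ι (T.X i)) (fun j => ι (T.w j)) : Fin 6 ⊕ JJ → E) := by
      have hfun : (fk : T.K → E) ∘ Sum.elim T.X T.w =
          Sum.elim (fun i => ι (T.X i)) (fun j => ι (T.w j)) := by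
        funext o
        rcases o with i | j <;> rfl
      rwa [hfun] at hG0
    refine algInd_of_gen _ _ hG ?_
    set y : Fin 6 ⊕ JJ → E := Sum.elim
      (xx (ι (T.X 0)) (ι (T.X 1)) (ι (T.X 2)) (ι (T.X 3)) (ι (T.X 4)) (ι (T.X 5)) r1)
      (fun j : JJ => vv (ι (T.X 0)) (ι (T.X 1)) (ι (T.X 2)) (ι (T.X 3)) (ι (T.X 4)) (ι (T.X 5)) r2
      (fun j => ι (T.w j)) j.1) with hy
    set L := IntermediateField.adjoin (AlgebraicClosure ℚ) (Set.range y) with hL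
    have hyL : ∀ o, y o ∈ L := fun o => IntermediateField.subset_adjoin _ _ ⟨o, rfl⟩
    have m1 : ι (T.X 1) ∈ L := hyL (Sum.inl 0)
    have m2 : ι (T.X 2) ∈ L := hyL (Sum.inl 1)
    have m3 : (ι (T.X 3))⁻¹ ∈ L := hyL (Sum.inl 2)
    have m4 : (ι (T.X 4))⁻¹ ∈ L := hyL (Sum.inl 3)
    have mm' : mm (ι (T.X 0)) (ι (T.X 3)) (ι (T.X 4)) r1 ∈ L := hyL (Sum.inl 4)
    have mz : D0 (ι (T.X 0)) (ι (T.X 3)) (ι (T.X 4)) *
      (ι (T.X 1) * ι (T.X 2) * (1 + ι (T.X 5))) ∈ L := hyL (Sum.inl 5)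
    have hnat : ∀ n : ℕ, (n : E) ∈ L := fun n => natCast_mem L n
    have mcc : cc (ι (T.X 3))⁻¹ (ι (T.X 4))⁻¹ ∈ L :=
      L.mul_mem (L.mul_mem m3 (L.sub_mem m3 L.one_mem)) (L.mul_mem m4 (L.sub_mem m4 L.one_mem))
    have mD : D0 (ι (T.X 0)) (ι (T.X 3)) (ι (T.X 4)) ∈ L := by
      rw [← hDD]
      exact L.sub_mem (pow_mem mm' 2) mcc
    have mS : ι (T.X 0) ∈ L := by
      have h : ι (T.X 0) = SS (ι (T.X 3))⁻¹ (ι (T.X 4))⁻¹ (mm (ι (T.X 0)) (ι (T.X 3))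
          (ι (T.X 4)) r1) * (D0 (ι (T.X 0)) (ι (T.X 3)) (ι (T.X 4)))⁻¹ := by
        rw [hSS, mul_assoc, mul_inv_cancel₀ hD, mul_one]
      rw [h]
      refine L.mul_mem (L.mul_mem (by exact_mod_cast hnat 3) (L.sub_mem
        (L.mul_mem (pow_mem mm' 2) m3) (L.mul_mem mcc m4))) (L.inv_mem mD)
    have mt : ι (T.X 5) ∈ L := by
      have h1 := hne C.x10
      have h2 := hne C.x20
      have h : ι (T.X 5) = (D0 (ι (T.X 0)) (ι (T.X 3)) (ι (T.X 4)) *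
          (ι (T.X 1) * ι (T.X 2) * (1 + ι (T.X 5)))) *
          (D0 (ι (T.X 0)) (ι (T.X 3)) (ι (T.X 4)))⁻¹ * (ι (T.X 1))⁻¹ * (ι (T.X 2))⁻¹ - 1 := by
        field_simp
        ring
      rw [h]
      exact L.sub_mem (L.mul_mem (L.mul_mem (L.mul_mem mz (L.inv_mem mD)) (L.inv_mem m1))
        (L.inv_mem m2)) L.one_mem
    have mw : ∀ j : JJ, ι (T.w j) ∈ L := by
      intro j
      have h0 := hyL (Sum.inr j)
      have h1 : y (Sum.inr j) = 3 * D0 (ι (T.X 0)) (ι (T.X 3)) (ι (T.X 4)) ^ 2 * ι (T.w j) :=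
        dif_neg j.2
      rw [h1] at h0
      have h : ι (T.w j) = 3 * D0 (ι (T.X 0)) (ι (T.X 3)) (ι (T.X 4)) ^ 2 * ι (T.w j) *
          (3 * D0 (ι (T.X 0)) (ι (T.X 3)) (ι (T.X 4)) ^ 2)⁻¹ := by
        field_simp
      rw [h]
      exact L.mul_mem h0 (L.inv_mem (L.mul_mem (by exact_mod_cast hnat 3) (pow_mem mD 2)))
    rintro (i | j)
    · change ι (T.X i) ∈ L
      fin_cases i
      · exact mS
      · exact m1
      · exact m2
      · have := L.inv_mem m3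
        rwa [inv_inv] at this
      · have := L.inv_mem m4
        rwa [inv_inv] at this
      · exact mt
    · exact mw j
  · change (![T.ψ 1, T.ψ 2, T.ψ 3, T.ψ 4, T.ψ 0, T.ψ 5] : Fin 6 → T.Γ →+ ZMod 2) i
      (W.ord (ι (cK (T.X 0) (T.X 1) (T.X 2) (T.X 3) (T.X 4) (T.X 5) j))) = _
    rw [hW _ (T.cK_spec.1 j)]
    exact T.cK_spec.2 i j
  · exact map_inv₀ ι _
  · exact map_inv₀ ι _
  · change ι (D0 (T.X 0) (T.X 3) (T.X 4) ^ 2 * ((T.X 0 - 1) * (T.X 0 - 3))) =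
      gg (ι (T.X 3))⁻¹ (ι (T.X 4))⁻¹ (mm (ι (T.X 0)) (ι (T.X 3)) (ι (T.X 4)) r1)
    rw [hgg]
    simp only [map_mul, map_pow, map_sub, map_one, map_ofNat, map_D0]
  · change ι (D0 (T.X 0) (T.X 3) (T.X 4) ^ 2 * aa (T.X 0) (T.X 1) (T.X 2) (T.X 5)) =
      (D0 (ι (T.X 0)) (ι (T.X 3)) (ι (T.X 4)) * (ι (T.X 1) * ι (T.X 2) * (1 + ι (T.X 5)))) ^ 2 -
        dd (ι (T.X 1)) (ι (T.X 2)) (ι (T.X 3))⁻¹ (ι (T.X 4))⁻¹
          (mm (ι (T.X 0)) (ι (T.X 3)) (ι (T.X 4)) r1)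
    rw [hdd, map_mul, map_pow, map_D0, map_aa]
    unfold aa
    ring

/-- The symbol. -/
noncomputable def symA' {T : Type} [Field T] (x : Fin 6 → T) : Sym T :=
  sy (x 0) * sy (x 1) * sy (x 2) * sy (x 3) * sy (gg (x 2) (x 3) (x 4)) *
    sy (x 5 ^ 2 - dd (x 0) (x 1) (x 2) (x 3) (x 4))

/-! ### RR-35 -/

theorem symA_ne' [IsDomain (RX (AlgebraicClosure ℚ))] : symA' (xT (AlgebraicClosure ℚ)) ≠ 0 := by
  obtain ⟨E, Γ, _, _, _, _, _, W, x, v, ψ, c, hGG, hind, hc0, hψ, h0, h1, h2, h3, h4, h5⟩ :=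
    exists_point
  obtain ⟨f, hfx, -⟩ := exists_hom (AlgebraicClosure ℚ) E two_ne_zero three_ne_zero x v hGG hind
  have hcert := cert W 6 ψ c hc0 (fun j => by rw [hψ, if_pos rfl])
    (fun i j hij => by rw [hψ, if_neg hij.ne'])
  intro hz
  apply hcert
  have hm := congrArg (symMap (f : TX (AlgebraicClosure ℚ) →+* E)) hz
  rw [map_zero] at hm
  rw [Fin.prod_univ_six, h0, h1, h2, h3, h4, h5, ← hm]
  have hgg : f (gg (xT (AlgebraicClosure ℚ) 2) (xT (AlgebraicClosure ℚ) 3)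
      (xT (AlgebraicClosure ℚ) 4)) = gg (x 2) (x 3) (x 4) := by
    rw [← hfx, ← hfx, ← hfx]
    unfold gg SS DD cc
    simp only [map_mul, map_sub, map_pow, map_one, map_ofNat]
  have hdd : f (dd (xT (AlgebraicClosure ℚ) 0) (xT (AlgebraicClosure ℚ) 1)
      (xT (AlgebraicClosure ℚ) 2) (xT (AlgebraicClosure ℚ) 3)
      (xT (AlgebraicClosure ℚ) 4)) = dd (x 0) (x 1) (x 2) (x 3) (x 4) := by
    rw [← hfx, ← hfx, ← hfx, ← hfx, ← hfx]
    unfold dd SS DD cc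
    simp only [map_mul, map_sub, map_pow, map_one, map_ofNat]
  unfold symA'
  simp only [map_mul, symMap_sy, RingHom.coe_coe, hfx, hgg, map_sub, map_pow, hdd]

end Pool.Agent.RR
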