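import Pool.Agent.RR.Defs

/-!
# Project RR (MP_0a3790_ag), RR-23: a generating family of the right cardinality is algebraically
independent
-/

set_option autoImplicit false

namespace Pool.Agent.RR

open MvPolynomial

theorem algInd_of_trdeg {k L ι : Type} [Field k] [Field L] [Algebra k L] [Fintype ι] (y : ι → L)
    (hd : Algebra.trdeg k L = Fintype.card ι)
    (hy : Algebra.IsAlgebraic (IntermediateField.adjoin k (Set.range y)) L) :
    AlgebraicIndependent k y := by
  have h1 : Algebra.IsAlgebraic (Algebra.adjoin k (Set.range y)) L :=
    IntermediateField.isAlgebraic_adjoin_iff_top.1 hy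
  have h2 : Cardinal.mk ι ≤ Algebra.trdeg k L := by
    rw [hd, Cardinal.mk_fintype]
  exact (Algebra.IsAlgebraic.isTranscendenceBasis_of_le_trdeg_of_finite k y h2).1

end Pool.Agent.RR
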