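import Pool.Agent.RR.Defs
import Pool.Agent.RR.Shape
import Pool.Agent.RR.Basis
import Pool.Agent.RR.BasisT
import Pool.Agent.RR.Trdeg

/-!
Project RR, row 24: a quadric with a rational point is rational.
-/

set_option autoImplicit false

namespace Pool.Agent.RR

open MvPolynomial

namespace Q24

theorem pf_neg {R : Type} [CommRing R] (l : List R) (v : BI l.length → R) :
    pf l (fun j => - v j) = pf l v := by
  induction l with
  | nil => simp [pf]
  | cons c l ih =>
    simp only [pf]
    rw [ih, ih]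

theorem pf_zero {R : Type} [CommRing R] (l : List R) :
    pf l (fun _ => (0 : R)) = 0 := by
  induction l with
  | nil => simp [pf]
  | cons c l ih =>
    simp only [pf]
    rw [ih]
    ring

theorem pf_smul {R : Type} [CommRing R] (l : List R) (v : BI l.length → R) (a : R) :
    pf l (fun j => a * v j) = a ^ 2 * pf l v := by
  induction l with
  | nil => simp only [pf]; ring
  | cons c l ih =>
    simp only [pf]
    rw [ih, ih]
    ring

theorem pf_quadr {R : Type} [CommRing R] (l : List R) (u t : BI l.length → R) (a : R) :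
    pf l (fun j => u j + a * t j) =
      pf l u + a * (pf l (fun j => u j + t j) - pf l u - pf l t) + a ^ 2 * pf l t := by
  induction l with
  | nil => simp only [pf]; ring
  | cons c l ih =>
    simp only [pf]
    rw [ih, ih]
    ring

theorem pf_mem {R : Type} [CommRing R] {S : Type} [SetLike S R] [SubringClass S R] (N : S)
    (l : List R) (hl : ∀ c ∈ l, c ∈ N) (v : BI l.length → R) (hv : ∀ j, v j ∈ N) :
    pf l v ∈ N := by
  induction l with
  | nil => exact pow_mem (hv ()) 2
  | cons c l ih =>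
    simp only [pf]
    exact add_mem (ih (fun c hc => hl c (List.mem_cons_of_mem _ hc)) _ fun j => hv _)
      (mul_mem (hl c List.mem_cons_self)
        (ih (fun c hc => hl c (List.mem_cons_of_mem _ hc)) _ fun j => hv _))

theorem pf_sl_map {R S : Type} [CommRing R] [CommRing S] (f : R →+* S) (x : Fin 6 → R)
    (v : BI 5 → R) : pf (sl fun i => f (x i)) (fun j => f (v j)) = f (pf (sl x) v) := by
  simp only [sl, pf, gg, SS, DD, cc, map_add, map_mul, map_pow, map_sub, map_one, map_ofNat]

theorem hh_map {R S : Type} [CommRing R] [CommRing S] (f : R →+* S) (x : Fin 6 → R) :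
    hh (fun i => f (x i)) = f (hh x) := by
  simp only [hh, dd, SS, DD, cc, map_mul, map_pow, map_sub, map_one, map_ofNat]

theorem sl_mem {R : Type} [CommRing R] {S : Type} [SetLike S R] [SubringClass S R] (N : S)
    (x : Fin 6 → R) (hx : ∀ i, x i ∈ N) : ∀ c ∈ sl x, c ∈ N := by
  have h3 : (3 : R) ∈ N := ofNat_mem N 3
  have hc : ∀ a b : R, a ∈ N → b ∈ N → cc a b ∈ N := fun a b ha hb =>
    mul_mem (mul_mem ha (sub_mem ha (one_mem _))) (mul_mem hb (sub_mem hb (one_mem _)))
  have hD : ∀ a b m : R, a ∈ N → b ∈ N → m ∈ N → DD a b m ∈ N := fun a b m ha hb hm =>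
    sub_mem (pow_mem hm 2) (hc a b ha hb)
  have hS : ∀ a b m : R, a ∈ N → b ∈ N → m ∈ N → SS a b m ∈ N := fun a b m ha hb hm =>
    mul_mem h3 (sub_mem (mul_mem (pow_mem hm 2) ha) (mul_mem (hc a b ha hb) hb))
  have hg : ∀ a b m : R, a ∈ N → b ∈ N → m ∈ N → gg a b m ∈ N := fun a b m ha hb hm =>
    mul_mem (sub_mem (hS a b m ha hb hm) (hD a b m ha hb hm))
      (sub_mem (hS a b m ha hb hm) (mul_mem h3 (hD a b m ha hb hm)))
  intro c hc
  simp only [sl, List.mem_cons, List.not_mem_nil, or_false] at hc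
  rcases hc with rfl | rfl | rfl | rfl | rfl
  · exact hg _ _ _ (hx _) (hx _) (hx _)
  · exact hx _
  · exact hx _
  · exact hx _
  · exact hx _

/-- the Pfister form of the slots `sl x` -/
def q5 {R : Type} [CommRing R] (x : Fin 6 → R) (v : BI 5 → R) : R := pf (sl x) v

theorem q5_neg {R : Type} [CommRing R] (x : Fin 6 → R) (v : BI 5 → R) :
    q5 x (fun j => - v j) = q5 x v := pf_neg (sl x) v

theorem q5_zero {R : Type} [CommRing R] (x : Fin 6 → R) :
    q5 x (fun _ => (0 : R)) = 0 := pf_zero (sl x)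

theorem q5_smul {R : Type} [CommRing R] (x : Fin 6 → R) (v : BI 5 → R) (a : R) :
    q5 x (fun j => a * v j) = a ^ 2 * q5 x v := pf_smul (sl x) v a

theorem q5_quadr {R : Type} [CommRing R] (x : Fin 6 → R) (u t : BI 5 → R) (a : R) :
    q5 x (fun j => u j + a * t j) =
      q5 x u + a * (q5 x (fun j => u j + t j) - q5 x u - q5 x t) + a ^ 2 * q5 x t :=
  pf_quadr (sl x) u t a

theorem q5_mem {R : Type} [CommRing R] {S : Type} [SetLike S R] [SubringClass S R] (N : S)
    (x : Fin 6 → R) (hx : ∀ i, x i ∈ N) (v : BI 5 → R) (hv : ∀ j, v j ∈ N) :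
    q5 x v ∈ N := pf_mem N (sl x) (sl_mem N x hx) v hv

theorem q5_map {R S : Type} [CommRing R] [CommRing S] (f : R →+* S) (x : Fin 6 → R)
    (v : BI 5 → R) : q5 (fun i => f (x i)) (fun j => f (v j)) = f (q5 x v) := pf_sl_map f x v

section Main

variable (k : Type) [Field k]

/-- the rational function field of the base -/
abbrev K6 : Type := FractionRing (MvPolynomial (Fin 6) k)

/-- the coordinates of the base -/
noncomputable def xi (i : Fin 6) : K6 k := algebraMap (MvPolynomial (Fin 6) k) (K6 k) (X i)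

/-- coordinates in the coordinate ring -/
noncomputable def xR (i : Fin 6) : RX k := Ideal.Quotient.mk _ (X (Sum.inl i))

/-- coordinates in the coordinate ring -/
noncomputable def vR (j : BI 5) : RX k := Ideal.Quotient.mk _ (X (Sum.inr j))

theorem rel_RX : q5 (xR k) (vR k) = hh (xR k) := by
  have h : (Ideal.Quotient.mk (Ideal.span {GP k}) (GP k) : RX k) = 0 :=
    Ideal.Quotient.eq_zero_iff_mem.2 (Ideal.subset_span rfl)
  unfold GP GG at h
  rw [map_sub, ← pf_sl_map, ← hh_map, sub_eq_zero] at h
  exact h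

theorem exists_point (aeval_GP : ∀ (x : Fin 6 → K6 k) (v : BI 5 → K6 k),
      aeval (Sum.elim x v) (GP k) = GG x v)
    (w : BI 5 → K6 k) (hw : q5 (xi k) w = hh (xi k)) :
    ∃ φ : RX k →ₐ[k] K6 k, (∀ i, φ (xR k i) = xi k i) ∧ ∀ j, φ (vR k j) = w j := by
  have h0 : aeval (Sum.elim (xi k) w) (GP k) = 0 := by
    rw [aeval_GP]
    exact sub_eq_zero.2 hw
  refine ⟨Ideal.Quotient.liftₐ (Ideal.span {GP k}) (aeval (Sum.elim (xi k) w)) ?_, ?_, ?_⟩
  · intro a ha
    have : Ideal.span {GP k} ≤ RingHom.ker (aeval (Sum.elim (xi k) w) :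
        MvPolynomial Co k →ₐ[k] K6 k) := by
      rw [Ideal.span_le]
      rintro q rfl
      exact h0
    exact this ha
  · intro i
    unfold xR
    erw [Ideal.Quotient.liftₐ_apply]
    simp
  · intro j
    unfold vR
    erw [Ideal.Quotient.liftₐ_apply]
    simp

/-- The base ring in the coordinate ring. -/
noncomputable def alp : MvPolynomial (Fin 6) k →ₐ[k] RX k := aeval (xR k)

theorem phi_alp (φ : RX k →ₐ[k] K6 k) (hφ : ∀ i, φ (xR k i) = xi k i)
    (a : MvPolynomial (Fin 6) k) : φ (alp k a) = algebraMap _ (K6 k) a := by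
  have : φ.comp (alp k) = IsScalarTower.toAlgHom k (MvPolynomial (Fin 6) k) (K6 k) := by
    apply MvPolynomial.algHom_ext
    intro i
    simp only [AlgHom.comp_apply, alp, aeval_X, hφ, IsScalarTower.coe_toAlgHom']
    rfl
  exact congrArg (fun f => f a) this

end Main

theorem generated (k : Type) [Field k] [hd : IsDomain (RX k)]
    (aeval_GP : ∀ (x : Fin 6 → K6 k) (v : BI 5 → K6 k),
      aeval (Sum.elim x v) (GP k) = GG x v) (h2 : (2 : k) ≠ 0)
    (u : BI 5 → K6 k) (hu : q5 (xi k) u = hh (xi k)) (hne : hh (xi k) ≠ 0) :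
    ∃ (j1 : BI 5) (t : {j : BI 5 // j ≠ j1} → TX k),
      IntermediateField.adjoin k (Set.range (Sum.elim (xT k) t)) = ⊤ := by
  have h2K : (2 : K6 k) ≠ 0 := by
    have := (map_ne_zero (algebraMap k (K6 k))).2 h2
    rwa [map_ofNat] at this
  -- a nonzero coordinate
  obtain ⟨j1, hj1⟩ : ∃ j1, u j1 ≠ 0 := by
    by_contra hcon
    push Not at hcon
    apply hne
    rw [← hu, show u = fun _ => 0 from funext hcon]
    exact q5_zero (xi k)
  -- the opposite point
  obtain ⟨φ, hφx, hφv⟩ := exists_point k aeval_GP (fun j => - u j)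
    (by rw [← hu]; exact q5_neg (xi k) u)
  have hαφ := phi_alp k φ hφx
  -- the embedding of the base field
  have hinj : Function.Injective ((algebraMap (RX k) (TX k)).comp (alp k).toRingHom) := by
    rw [RingHom.coe_comp]
    refine (IsFractionRing.injective (RX k) (TX k)).comp ?_
    intro a b hab
    have h1 : φ (alp k a) = φ (alp k b) := congrArg φ hab
    rw [hαφ, hαφ] at h1
    exact IsFractionRing.injective (MvPolynomial (Fin 6) k) (K6 k) h1
  set ι : K6 k →+* TX k := IsFractionRing.lift hinj with hι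
  have hιa : ∀ a, ι (algebraMap _ (K6 k) a) = algebraMap (RX k) (TX k) (alp k a) := by
    intro a
    rw [hι, IsFractionRing.lift_algebraMap]
    rfl
  have hιx : ∀ i, ι (xi k i) = xT k i := by
    intro i
    unfold xi
    rw [hιa, alp, aeval_X]
    rfl
  -- common denominator
  obtain ⟨b, hb⟩ := IsLocalization.exist_integer_multiples_of_finite
    (nonZeroDivisors (MvPolynomial (Fin 6) k)) u
  have hb0 : (b : MvPolynomial (Fin 6) k) ≠ 0 := nonZeroDivisors.ne_zero b.2
  choose a ha using hb
  have ha' : ∀ j, algebraMap _ (K6 k) (a j) = algebraMap _ (K6 k) (b : MvPolynomial (Fin 6) k) * u j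
    := by
    intro j
    rw [ha j, Algebra.smul_def]
  have hbK : algebraMap _ (K6 k) (b : MvPolynomial (Fin 6) k) ≠ 0 := by
    rw [Ne, FaithfulSMul.algebraMap_eq_zero_iff]
    exact hb0
  -- key: nothing which is not zero at the opposite point vanishes
  set U : BI 5 → TX k := fun j => ι (u j) with hU
  set bT : TX k := ι (algebraMap _ (K6 k) (b : MvPolynomial (Fin 6) k)) with hbT
  have hbT0 : bT ≠ 0 := (map_ne_zero ι).2 hbK
  set w : BI 5 → RX k := fun j => alp k b * vR k j - alp k (a j) with hw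
  have hwT : ∀ j, algebraMap (RX k) (TX k) (w j) = bT * (vT k j - U j) := by
    intro j
    simp only [hw, map_sub, map_mul, mul_sub]
    rw [← hιa, ← hιa, ha', map_mul]
    rfl
  have hwφ : ∀ j, φ (w j) = (-2 * algebraMap _ (K6 k) (b : MvPolynomial (Fin 6) k)) * u j := by
    intro j
    simp only [hw, map_sub, map_mul]
    rw [hαφ, hαφ, hφv, ha']
    ring
  have hΛ : vT k j1 - U j1 ≠ 0 := by
    intro h0
    have h1 := hwT j1
    rw [h0, mul_zero, FaithfulSMul.algebraMap_eq_zero_iff] at h1
    have h3 := hwφ j1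
    rw [h1, map_zero] at h3
    exact mul_ne_zero (mul_ne_zero (neg_ne_zero.2 h2K) hbK) hj1 h3.symm
  have hrelT : q5 (xT k) (vT k) = hh (xT k) := by
    have h := congrArg (algebraMap (RX k) (TX k)) (rel_RX k)
    rw [← q5_map, ← hh_map] at h
    exact h
  have hrelU : q5 (xT k) U = hh (xT k) := by
    have h := congrArg ι hu
    rw [← q5_map, ← hh_map] at h
    rw [show (fun i => ι (xi k i)) = xT k from funext hιx] at h
    exact h
  have hP : q5 (xT k) (fun j => vT k j - U j) ≠ 0 := by
    intro h0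
    have h1 : algebraMap (RX k) (TX k) (q5 (xR k) w) = 0 := by
      rw [← q5_map]
      have : (fun j => algebraMap (RX k) (TX k) (w j)) = fun j => bT * (vT k j - U j) :=
        funext hwT
      rw [this]
      have h3 := q5_smul (xT k) (fun j => vT k j - U j) bT
      rw [h0, mul_zero] at h3
      exact h3
    rw [FaithfulSMul.algebraMap_eq_zero_iff] at h1
    have h3 := congrArg φ h1
    have h4 : φ (q5 (xR k) w) = q5 (xi k) (fun j => φ (w j)) := by
      have := q5_map φ.toRingHom (xR k) w
      simp only [AlgHom.toRingHom_eq_coe, RingHom.coe_coe] at this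
      rw [show (fun i => φ (xR k i)) = xi k from funext hφx] at this
      exact this.symm
    rw [h4, map_zero, show (fun j => φ (w j)) = fun j => _ from funext hwφ] at h3
    have h5 := q5_smul (xi k) u (-2 * algebraMap _ (K6 k) (b : MvPolynomial (Fin 6) k))
    rw [h3, hu] at h5
    exact mul_ne_zero (pow_ne_zero 2 (mul_ne_zero (neg_ne_zero.2 h2K) hbK)) hne h5.symm
  -- the parameters
  set Λ : TX k := vT k j1 - U j1 with hΛd
  set T : BI 5 → TX k := fun j => (vT k j - U j) / Λ with hT
  have hTj1 : T j1 = 1 := div_self hΛ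
  have hvT : ∀ j, vT k j = U j + Λ * T j := by
    intro j
    rw [hT]
    field_simp
    ring
  have hPT : q5 (xT k) T ≠ 0 := by
    intro h0
    apply hP
    have h3 := q5_smul (xT k) T Λ
    rw [h0, mul_zero] at h3
    rw [← h3]
    congr 1
    funext j
    rw [hvT j]
    ring
  refine ⟨j1, fun j => T j.1, ?_⟩
  set N := IntermediateField.adjoin k (Set.range (Sum.elim (xT k)
    (fun j : {j : BI 5 // j ≠ j1} => T j.1))) with hN
  have hxN : ∀ i, xT k i ∈ N := fun i => IntermediateField.subset_adjoin _ _ ⟨Sum.inl i, rfl⟩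
  have hTN : ∀ j, T j ∈ N := by
    intro j
    by_cases hj : j = j1
    · rw [hj, hTj1]
      exact one_mem _
    · exact IntermediateField.subset_adjoin _ _ ⟨Sum.inr ⟨j, hj⟩, rfl⟩
  have hαN : ∀ p : MvPolynomial (Fin 6) k, algebraMap (RX k) (TX k) (alp k p) ∈ N := by
    intro p
    induction p using MvPolynomial.induction_on with
    | C c =>
      have : alp k (C c) = algebraMap k (RX k) c := by
        rw [← MvPolynomial.algebraMap_eq, AlgHom.commutes]
      rw [this, ← IsScalarTower.algebraMap_apply k (RX k) (TX k)]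
      exact N.algebraMap_mem c
    | add p q hp hq =>
      rw [map_add, map_add]
      exact add_mem hp hq
    | mul_X p i hp =>
      rw [map_mul, map_mul]
      refine mul_mem hp ?_
      rw [alp, aeval_X]
      exact hxN i
  have hιN : ∀ z, ι z ∈ N := by
    intro z
    obtain ⟨p, q, hq, rfl⟩ := IsFractionRing.div_surjective (A := MvPolynomial (Fin 6) k) z
    rw [map_div₀, hιa, hιa]
    exact div_mem (hαN p) (hαN q)
  have hUN : ∀ j, U j ∈ N := fun j => hιN _
  have hΛN : Λ ∈ N := by
    have h1 := q5_quadr (xT k) U T Λ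
    rw [show (fun j => U j + Λ * T j) = vT k from (funext fun j => (hvT j).symm), hrelT,
      hrelU] at h1
    set B : TX k := q5 (xT k) (fun j => U j + T j) - hh (xT k) - q5 (xT k) T with hB
    have hBN : B ∈ N := by
      rw [hB, ← hrelU]
      exact sub_mem (sub_mem (q5_mem N _ hxN _ fun j => add_mem (hUN j) (hTN j))
        (q5_mem N _ hxN _ hUN)) (q5_mem N _ hxN _ hTN)
    have h3 : Λ * (B + Λ * q5 (xT k) T) = 0 := by
      linear_combination -h1
    have h4 : B + Λ * q5 (xT k) T = 0 := (mul_eq_zero.1 h3).resolve_left hΛ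
    have h5 : Λ = -B / q5 (xT k) T := by
      rw [eq_div_iff hPT]
      linear_combination h4
    rw [h5]
    exact div_mem (neg_mem hBN) (q5_mem N _ hxN _ hTN)
  have hvN : ∀ j, vT k j ∈ N := by
    intro j
    rw [hvT j]
    exact add_mem (hUN j) (mul_mem hΛN (hTN j))
  rw [eq_top_iff]
  rintro z -
  obtain ⟨p, q, hq, rfl⟩ := IsFractionRing.div_surjective (A := RX k) z
  have hR : ∀ r : RX k, algebraMap (RX k) (TX k) r ∈ N := by
    intro r
    obtain ⟨f, rfl⟩ := Ideal.Quotient.mk_surjective (I := Ideal.span {GP k}) r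
    induction f using MvPolynomial.induction_on with
    | C c =>
      have : (Ideal.Quotient.mk (Ideal.span {GP k}) (C c) : RX k) = algebraMap k (RX k) c := rfl
      rw [this, ← IsScalarTower.algebraMap_apply k (RX k) (TX k)]
      exact N.algebraMap_mem c
    | add p q hp hq =>
      rw [map_add, map_add]
      exact add_mem hp hq
    | mul_X p i hp =>
      rw [map_mul, map_mul]
      refine mul_mem hp ?_
      rcases i with i | j
      · exact hxN i
      · exact hvN j
  exact div_mem (hR p) (hR q)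

theorem hh_xi_ne (k : Type) [Field k] : hh (xi k) ≠ 0 := by
  intro h
  have h1 : algebraMap (MvPolynomial (Fin 6) k) (K6 k) (hh X) = 0 := by
    rw [← hh_map]
    exact h
  rw [FaithfulSMul.algebraMap_eq_zero_iff] at h1
  have h3 := congrArg (MvPolynomial.eval (fun i : Fin 6 => if i = 5 then (1 : k) else 0)) h1
  rw [← hh_map, map_zero] at h3
  simp [hh, dd, eval_X] at h3

end Q24

theorem isRat_of_rep (k : Type) [Field k] (h2 : (2 : k) ≠ 0) (h3 : (3 : k) ≠ 0)
    (h : ∃ u, pf (sl fun i : Fin 6 => algebraMap (MvPolynomial (Fin 6) k) (FractionRing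
      (MvPolynomial (Fin 6) k)) (X i)) u =
      hh fun i : Fin 6 => algebraMap (MvPolynomial (Fin 6) k) (FractionRing
      (MvPolynomial (Fin 6) k)) (X i)) : IsRat k (RX k) := by
  have := isDomain_RX k h2 h3
  obtain ⟨u, hu⟩ := h
  obtain ⟨j1, t, ht⟩ := Q24.generated k (fun x v => aeval_GP x v) h2 u hu (Q24.hh_xi_ne k)
  set e := Fintype.equivFin (Fin 6 ⊕ {j : BI 5 // j ≠ j1}) with he
  set y : Fin (Fintype.card (Fin 6 ⊕ {j : BI 5 // j ≠ j1})) → TX k :=
    Sum.elim (xT k) t ∘ e.symm with hy
  have hr : Set.range y = Set.range (Sum.elim (xT k) t) := by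
    rw [hy, EquivLike.range_comp]
  have hcard : Fintype.card Co' = Fintype.card (Fin 6 ⊕ {j : BI 5 // j ≠ j1}) := by
    rw [Fintype.card_sum, Fintype.card_sum]
    congr 1
    simp [Fintype.card_subtype_compl]
  have hind : AlgebraicIndependent k y := by
    refine algInd_of_trdeg y ?_ ?_
    · rw [trdeg_TX k h2 h3, hcard, Fintype.card_fin]
    · rw [hr, ht]
      exact ⟨fun z => isAlgebraic_algebraMap (⟨z, trivial⟩ : (⊤ : IntermediateField k (TX k)))⟩
  have e1 := hind.aevalEquivField
  rw [hr, ht] at e1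
  exact ⟨_, ⟨(e1.trans IntermediateField.topEquiv).symm⟩⟩

end Pool.Agent.RR
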