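import Pool.Agent.RR.Defs

/-!
# Project RR, row RR-13: multiplicativity of Pfister forms
-/

set_option autoImplicit false

namespace Pool.Agent.RR

section
variable {F : Type} [Field F]

/-- The symmetric bilinear form of the Pfister form with slots `l`. -/
private def bi : (l : List F) → (BI l.length → F) → (BI l.length → F) → F
  | [], v, w => v () * w ()
  | c :: l, v, w => bi l (fun i => v (Sum.inl i)) (fun i => w (Sum.inl i)) +
      c * bi l (fun i => v (Sum.inr i)) (fun i => w (Sum.inr i))

private theorem bi_self (l : List F) (v : BI l.length → F) : bi l v v = pf l v := by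
  induction l with
  | nil => simp only [bi, pf]; ring
  | cons c l ih => simp only [bi, pf, ih]

private theorem bi_add_left (l : List F) (v v' w : BI l.length → F) :
    bi l (v + v') w = bi l v w + bi l v' w := by
  induction l with
  | nil =>
    change (v () + v' ()) * w () = v () * w () + v' () * w ()
    ring
  | cons c l ih =>
    have h1 := ih (fun i => v (Sum.inl i)) (fun i => v' (Sum.inl i)) (fun i => w (Sum.inl i))
    have h2 := ih (fun i => v (Sum.inr i)) (fun i => v' (Sum.inr i)) (fun i => w (Sum.inr i))
    have e1 : (fun i => (v + v') (Sum.inl i)) =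
      (fun i => v (Sum.inl i)) + fun i => v' (Sum.inl i) := rfl
    have e2 : (fun i => (v + v') (Sum.inr i)) =
      (fun i => v (Sum.inr i)) + fun i => v' (Sum.inr i) := rfl
    simp only [bi]
    rw [e1, e2, h1, h2]
    ring

private theorem bi_smul_left (l : List F) (a : F) (v w : BI l.length → F) :
    bi l (a • v) w = a * bi l v w := by
  induction l with
  | nil =>
    change (a * v ()) * w () = a * (v () * w ())
    ring
  | cons c l ih =>
    have h1 := ih (fun i => v (Sum.inl i)) (fun i => w (Sum.inl i))
    have h2 := ih (fun i => v (Sum.inr i)) (fun i => w (Sum.inr i))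
    have e1 : (fun i => (a • v) (Sum.inl i)) = a • fun i => v (Sum.inl i) := rfl
    have e2 : (fun i => (a • v) (Sum.inr i)) = a • fun i => v (Sum.inr i) := rfl
    simp only [bi]
    rw [e1, e2, h1, h2]
    ring

private theorem bi_comm (l : List F) (v w : BI l.length → F) : bi l v w = bi l w v := by
  induction l with
  | nil => simp only [bi]; ring
  | cons c l ih =>
    simp only [bi]
    rw [ih (fun i => v (Sum.inl i)), ih (fun i => v (Sum.inr i))]

private theorem bi_add_right (l : List F) (v w w' : BI l.length → F) :
    bi l v (w + w') = bi l v w + bi l v w' := by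
  rw [bi_comm, bi_add_left, bi_comm l w, bi_comm l w']

private theorem bi_smul_right (l : List F) (a : F) (v w : BI l.length → F) :
    bi l v (a • w) = a * bi l v w := by
  rw [bi_comm, bi_smul_left, bi_comm l w]

private theorem bi_zero_right (l : List F) (v : BI l.length → F) : bi l v 0 = 0 := by
  have h := bi_smul_right l 0 v 0
  rwa [zero_smul, zero_mul] at h

private theorem bi_nondeg (l : List F) (hl : ∀ c ∈ l, c ≠ 0) (v : BI l.length → F)
    (h : ∀ w, bi l v w = 0) : v = 0 := by
  induction l with
  | nil =>
    have h1 := h (fun _ => 1)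
    simp only [bi, mul_one] at h1
    funext i
    exact h1
  | cons c l ih =>
    have hl' : ∀ d ∈ l, d ≠ 0 := fun d hd => hl d (List.mem_cons_of_mem _ hd)
    have hc : c ≠ 0 := hl c List.mem_cons_self
    have h1 : (fun i => v (Sum.inl i)) = 0 := by
      refine ih hl' _ fun w => ?_
      have h2 := h (Sum.elim w 0)
      simp only [bi, Sum.elim_inl, Sum.elim_inr] at h2
      have h3 : bi l (fun i => v (Sum.inr i)) (fun i => (0 : BI l.length → F) i) = 0 :=
        bi_zero_right l _
      rw [h3, mul_zero, add_zero] at h2
      exact h2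
    have h1' : (fun i => v (Sum.inr i)) = 0 := by
      refine ih hl' _ fun w => ?_
      have h2 := h (Sum.elim 0 w)
      simp only [bi, Sum.elim_inl, Sum.elim_inr] at h2
      have h3 : bi l (fun i => v (Sum.inl i)) (fun i => (0 : BI l.length → F) i) = 0 :=
        bi_zero_right l _
      rw [h3, zero_add] at h2
      exact (mul_eq_zero.1 h2).resolve_left hc
    funext i
    rcases i with i | i
    · exact congrFun h1 i
    · exact congrFun h1' i

private theorem equiv_of_sim (l : List F) (hl : ∀ c ∈ l, c ≠ 0) (a : F) (ha : a ≠ 0)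
    (S : (BI l.length → F) →ₗ[F] (BI l.length → F))
    (hS : ∀ x y, bi l (S x) (S y) = a * bi l x y) :
    ∃ T : (BI l.length → F) ≃ₗ[F] (BI l.length → F), ∀ x y, bi l (T x) (T y) = a * bi l x y := by
  have hinj : Function.Injective S := by
    rw [injective_iff_map_eq_zero]
    intro x hx
    refine bi_nondeg l hl x fun w => ?_
    have h1 := hS x w
    rw [hx, bi_comm, bi_zero_right] at h1
    exact (mul_eq_zero.1 h1.symm).resolve_left ha
  exact ⟨LinearEquiv.ofInjectiveEndo S hinj, hS⟩

/-- A linear map of a double. -/
private def dbl {n : ℕ} (A B C D : (BI n → F) →ₗ[F] (BI n → F)) :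
    (BI (n + 1) → F) →ₗ[F] (BI (n + 1) → F) where
  toFun u := Sum.elim (A (fun i => u (Sum.inl i)) + B (fun i => u (Sum.inr i)))
    (C (fun i => u (Sum.inl i)) + D (fun i => u (Sum.inr i)))
  map_add' u v := by
    have e1 : (fun i => (u + v) (Sum.inl i)) =
      (fun i => u (Sum.inl i)) + fun i => v (Sum.inl i) := rfl
    have e2 : (fun i => (u + v) (Sum.inr i)) =
      (fun i => u (Sum.inr i)) + fun i => v (Sum.inr i) := rfl
    rw [e1, e2, map_add, map_add, map_add, map_add]
    funext i
    rcases i with i | i
    · exact add_add_add_comm _ _ _ _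
    · exact add_add_add_comm _ _ _ _
  map_smul' a u := by
    have e1 : (fun i => (a • u) (Sum.inl i)) = a • fun i => u (Sum.inl i) := rfl
    have e2 : (fun i => (a • u) (Sum.inr i)) = a • fun i => u (Sum.inr i) := rfl
    rw [e1, e2, map_smul, map_smul, map_smul, map_smul]
    funext i
    rcases i with i | i
    · exact (mul_add _ _ _).symm
    · exact (mul_add _ _ _).symm

private theorem bi_dbl (c : F) (l : List F)
    (A B C D : (BI l.length → F) →ₗ[F] (BI l.length → F)) (u v : BI (c :: l).length → F) :
    bi (c :: l) (dbl A B C D u) (dbl A B C D v) =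
      bi l (A (fun i => u (Sum.inl i)) + B (fun i => u (Sum.inr i)))
        (A (fun i => v (Sum.inl i)) + B (fun i => v (Sum.inr i))) +
      c * bi l (C (fun i => u (Sum.inl i)) + D (fun i => u (Sum.inr i)))
        (C (fun i => v (Sum.inl i)) + D (fun i => v (Sum.inr i))) := rfl

private theorem sim (l : List F) (hl : ∀ c ∈ l, c ≠ 0) (v : BI l.length → F) (h : pf l v ≠ 0) :
    ∃ T : (BI l.length → F) ≃ₗ[F] (BI l.length → F), ∀ x y,
      bi l (T x) (T y) = pf l v * bi l x y := by
  induction l with
  | nil =>
    refine equiv_of_sim [] hl _ h (v () • LinearMap.id) fun x y => ?_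
    change (v () * x ()) * (v () * y ()) = v () ^ 2 * (x () * y ())
    ring
  | cons c l ih =>
    have hl' : ∀ d ∈ l, d ≠ 0 := fun d hd => hl d (List.mem_cons_of_mem _ hd)
    set a := pf l (fun i => v (Sum.inl i)) with ha
    set b := pf l (fun i => v (Sum.inr i)) with hb
    have he : pf (c :: l) v = a + c * b := rfl
    rw [he] at h ⊢
    by_cases ha0 : a = 0
    · by_cases hb0 : b = 0
      · exact absurd (by rw [ha0, hb0]; ring) h
      · obtain ⟨B, hB⟩ := ih hl' _ hb0
        refine equiv_of_sim (c :: l) hl _ h (dbl 0 (c • B.toLinearMap) B.toLinearMap 0)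
          fun x y => ?_
        rw [bi_dbl]
        simp only [LinearMap.zero_apply, LinearMap.smul_apply, LinearEquiv.coe_coe, zero_add,
          add_zero, bi_smul_left, bi_smul_right, hB]
        rw [ha0]
        simp only [bi]
        ring
    · obtain ⟨A, hA⟩ := ih hl' _ ha0
      by_cases hb0 : b = 0
      · refine equiv_of_sim (c :: l) hl _ h (dbl A.toLinearMap 0 0 A.toLinearMap) fun x y => ?_
        rw [bi_dbl]
        simp only [LinearMap.zero_apply, LinearEquiv.coe_coe, zero_add, add_zero, hA]
        rw [hb0]
        simp only [bi]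
        ring
      · obtain ⟨B, hB⟩ := ih hl' _ hb0
        -- `P = (b / a) A B⁻¹ A`
        set P : (BI l.length → F) →ₗ[F] (BI l.length → F) :=
          (b / a) • (A.toLinearMap ∘ₗ B.symm.toLinearMap ∘ₗ A.toLinearMap) with hP
        have hPa : ∀ x, P x = (b / a) • A (B.symm (A x)) := fun x => rfl
        have hBs : ∀ x y, bi l (B.symm x) (B.symm y) = b⁻¹ * bi l x y := by
          intro x y
          have h1 := hB (B.symm x) (B.symm y)
          rw [B.apply_symm_apply, B.apply_symm_apply] at h1
          rw [h1, ← mul_assoc]
          rw [← hb, inv_mul_cancel₀ hb0, one_mul]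
        have hPP : ∀ x y, bi l (P x) (P y) = b * bi l x y := by
          intro x y
          rw [hPa, hPa, bi_smul_left, bi_smul_right, hA, hBs, hA, ← ha]
          field_simp
        have hAP : ∀ x y, bi l (A x) (P y) = bi l (B x) (A y) := by
          intro x y
          rw [hPa, bi_smul_right, hA, ← ha]
          have h1 := hB x (B.symm (A y))
          rw [B.apply_symm_apply, ← hb] at h1
          rw [h1]
          field_simp
        have hPA : ∀ x y, bi l (P x) (A y) = bi l (A x) (B y) := by
          intro x y
          rw [bi_comm, hAP, bi_comm]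
        refine equiv_of_sim (c :: l) hl _ h
          (dbl A.toLinearMap ((-c) • P) B.toLinearMap A.toLinearMap) fun x y => ?_
        rw [bi_dbl]
        simp only [LinearMap.smul_apply, LinearEquiv.coe_coe, bi_smul_left,
          bi_smul_right, hA, hB, bi_add_left, bi_add_right, hPP, hAP, hPA]
        simp only [bi]
        ring

theorem pf_similar (l : List F) (hl : ∀ c ∈ l, c ≠ 0) (v : BI l.length → F) (h : pf l v ≠ 0) :
    ∃ S : (BI l.length → F) ≃ₗ[F] (BI l.length → F), ∀ u, pf l (S u) = pf l v * pf l u := by
  obtain ⟨T, hT⟩ := sim l hl v h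
  exact ⟨T, fun u => by rw [← bi_self, hT, bi_self]⟩

theorem pf_mul (l : List F) (hl : ∀ c ∈ l, c ≠ 0) (v w : BI l.length → F) :
    ∃ u, pf l u = pf l v * pf l w := by
  by_cases h : pf l v = 0
  · refine ⟨0, ?_⟩
    rw [h, zero_mul, ← bi_self, bi_zero_right]
  · obtain ⟨S, hS⟩ := pf_similar l hl v h
    exact ⟨S w, hS w⟩

end

end Pool.Agent.RR
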