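import Pool.Agent.RR.Defs

/-!
# Project RR, row RR-14a: Pfister forms, universality and tensor products
-/

set_option autoImplicit false

namespace Pool.Agent.RR

section
variable {F : Type} [Field F]

private theorem pfu_smul (l : List F) (t : F) (v : BI l.length → F) :
    pf l (fun j => t * v j) = t ^ 2 * pf l v := by
  induction l with
  | nil => simp only [pf]; ring
  | cons c l ih =>
    have h1 := ih (fun i => v (Sum.inl i))
    have h2 := ih (fun i => v (Sum.inr i))
    simp only [pf]
    rw [h1, h2]
    ring

/-- Adding a coordinate vector to an isotropic vector. -/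
private theorem pfu_add (l : List F) (hl : ∀ c ∈ l, c ≠ 0) (v : BI l.length → F)
    (hv : v ≠ 0) : ∃ (e : BI l.length → F) (a b : F), b ≠ 0 ∧
      ∀ t : F, pf l (fun j => t * v j + e j) = t ^ 2 * pf l v + 2 * t * b + a := by
  induction l with
  | nil =>
    have h0 : v () ≠ 0 := by
      intro h
      apply hv
      funext j
      cases j
      exact h
    refine ⟨fun _ => 1, 1, v (), h0, fun t => ?_⟩
    simp only [pf]
    ring
  | cons c l ih =>
    have hl' : ∀ d ∈ l, d ≠ 0 := fun d hd => hl d (List.mem_cons_of_mem _ hd)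
    have hc : c ≠ 0 := hl c List.mem_cons_self
    have hz : pf l (fun _ => (0 : F)) = 0 := by
      have := pfu_smul l 0 (fun _ => (0 : F))
      simpa using this
    by_cases h1 : (fun i => v (Sum.inl i)) = 0
    · have h2 : (fun i => v (Sum.inr i)) ≠ 0 := by
        intro h2
        apply hv
        funext j
        cases j with
        | inl i => exact congrFun h1 i
        | inr i => exact congrFun h2 i
      obtain ⟨e, a, b, hb, h⟩ := ih hl' (fun i => v (Sum.inr i)) h2
      refine ⟨Sum.elim (fun _ => 0) e, c * a, c * b, mul_ne_zero hc hb, fun t => ?_⟩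
      have h3 := h t
      have h4 := pfu_smul l t (fun i => v (Sum.inl i))
      have h5 : pf l (fun j => t * v (Sum.inl j) + 0) = t ^ 2 * pf l (fun i => v (Sum.inl i)) := by
        rw [← h4]
        congr 1
        funext j
        ring
      simp only [pf, Sum.elim_inl, Sum.elim_inr]
      rw [h3, h5]
      ring
    · obtain ⟨e, a, b, hb, h⟩ := ih hl' (fun i => v (Sum.inl i)) h1
      refine ⟨Sum.elim e (fun _ => 0), a, b, hb, fun t => ?_⟩
      have h3 := h t
      have h4 := pfu_smul l t (fun i => v (Sum.inr i))
      have h5 : pf l (fun j => t * v (Sum.inr j) + 0) = t ^ 2 * pf l (fun i => v (Sum.inr i)) := by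
        rw [← h4]
        congr 1
        funext j
        ring
      simp only [pf, Sum.elim_inl, Sum.elim_inr]
      rw [h3, h5]
      ring

theorem pf_universal (h2 : (2 : F) ≠ 0) (l : List F) (hl : ∀ c ∈ l, c ≠ 0) (v : BI l.length → F)
    (hv : v ≠ 0) (h0 : pf l v = 0) (c : F) : ∃ u, pf l u = c := by
  obtain ⟨e, a, b, hb, h⟩ := pfu_add l hl v hv
  refine ⟨fun j => ((c - a) / (2 * b)) * v j + e j, ?_⟩
  rw [h, h0]
  field_simp
  ring

theorem pf_tensor (a b : List F) (v : BI a.length → F) (w : BI b.length → F) :
    ∃ u, pf (a ++ b) u = pf a v * pf b w := by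
  induction a with
  | nil =>
    refine ⟨fun j => v () * w j, ?_⟩
    exact pfu_smul b (v ()) w
  | cons c a ih =>
    obtain ⟨u1, h1⟩ := ih (fun i => v (Sum.inl i))
    obtain ⟨u2, h2⟩ := ih (fun i => v (Sum.inr i))
    refine ⟨(Sum.elim u1 u2 : BI (a ++ b).length ⊕ BI (a ++ b).length → F), ?_⟩
    change pf (a ++ b) (fun i => u1 i) + c * pf (a ++ b) (fun i => u2 i) =
      (pf a (fun i => v (Sum.inl i)) + c * pf a (fun i => v (Sum.inr i))) * pf b w
    rw [h1, h2]
    ring

end

end Pool.Agent.RR
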