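import Pool.Agent.RR.Defs
import Pool.Agent.RR.Pf
import Pool.Agent.RR.PfU

/-! # Project RR, RR-14b: values of Pfister forms over a quadratic extension -/

set_option autoImplicit false

namespace Pool.Agent.RR

open MvPolynomial

section
variable {F : Type} [Field F]

private theorem pfq_zero {R : Type} [CommRing R] (l : List R) : pf l (fun _ => 0) = 0 := by
  induction l with
  | nil => simp [pf]
  | cons c l ih => simp only [pf, ih]; ring

private theorem pfq_one {R : Type} [CommRing R] (l : List R) :
    ∃ e : BI l.length → R, pf l e = 1 := by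
  induction l with
  | nil => exact ⟨fun _ => 1, by simp [pf]⟩
  | cons c l ih =>
    obtain ⟨e, he⟩ := ih
    refine ⟨Sum.elim e (fun _ => 0), ?_⟩
    show pf l e + c * pf l (fun _ => 0) = 1
    rw [he, pfq_zero, mul_zero, add_zero]

/-- the polarisation formula -/
private theorem pfq_polar {R : Type} [CommRing R] (l : List R) (v w : BI l.length → R) (s t : R) :
    pf l (fun j => s * v j + t * w j) =
      s ^ 2 * pf l v + t ^ 2 * pf l w + s * t * (pf l (v + w) - pf l v - pf l w) := by
  induction l with
  | nil => simp only [pf, Pi.add_apply]; ring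
  | cons c l ih =>
    have h1 := ih (fun i => v (Sum.inl i)) (fun i => w (Sum.inl i))
    have h2 := ih (fun i => v (Sum.inr i)) (fun i => w (Sum.inr i))
    have e1 : pf (c :: l) (fun j => s * v j + t * w j) =
        pf l (fun i => s * v (Sum.inl i) + t * w (Sum.inl i)) +
          c * pf l (fun i => s * v (Sum.inr i) + t * w (Sum.inr i)) := rfl
    have e2 : pf (c :: l) (v + w) = pf l ((fun i => v (Sum.inl i)) + fun i => w (Sum.inl i)) +
        c * pf l ((fun i => v (Sum.inr i)) + fun i => w (Sum.inr i)) := rfl
    have e3 : pf (c :: l) v = pf l (fun i => v (Sum.inl i)) + c * pf l (fun i => v (Sum.inr i)) :=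
      rfl
    have e4 : pf (c :: l) w = pf l (fun i => w (Sum.inl i)) + c * pf l (fun i => w (Sum.inr i)) :=
      rfl
    rw [e1, e2, e3, e4, h1, h2]
    ring

private theorem pfq_smul {R : Type} [CommRing R] (l : List R) (v : BI l.length → R) (t : R) :
    pf l (fun j => t * v j) = t ^ 2 * pf l v := by
  have h := pfq_polar l v v t 0
  simp only [zero_mul, add_zero, mul_zero] at h
  rw [h]
  ring

/-- (uses RR-13) -/
theorem pf_quad (h2 : (2 : F) ≠ 0) (i : F) (hi : i ^ 2 = -1) (l : List F) (hl : ∀ c ∈ l, c ≠ 0)
    (g : F) (hg : g ≠ 0) (v0 v1 : BI l.length → F) (d : F)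
    (hval : pf l v0 + d * pf l v1 = g) (hort : pf l (v0 + v1) = pf l v0 + pf l v1) (z c : F) :
    ∃ u, pf (g :: l) u = z ^ 2 - c ^ 2 * d := by
  have hgl : ∀ c ∈ g :: l, c ≠ 0 := by
    intro c hc
    rcases List.mem_cons.1 hc with rfl | hc
    · exact hg
    · exact hl c hc
  obtain ⟨e, he⟩ := pfq_one l
  have hi0 : i ≠ 0 := by
    rintro rfl
    simp at hi
  have he0 : e ≠ 0 := by
    rintro rfl
    have h := pfq_zero l
    change pf l 0 = 0 at h
    rw [h] at he
    exact zero_ne_one he
  have key : ∀ α β : F, pf (g :: l) (Sum.elim (fun j => α * v0 j + β * v1 j)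
      (fun j => (α * i) * e j)) = pf l v1 * (β ^ 2 - α ^ 2 * d) := by
    intro α β
    show pf l (fun j => α * v0 j + β * v1 j) + g * pf l (fun j => (α * i) * e j) = _
    rw [pfq_polar, pfq_smul, he, hort, mul_pow, hi, ← hval]
    ring
  by_cases h1 : pf l v1 = 0
  · by_cases hv1 : v1 = 0
    · refine pf_universal h2 (g :: l) hgl (Sum.elim (fun j => 1 * v0 j + 0 * v1 j)
        (fun j => (1 * i) * e j)) ?_ ?_ _
      · intro h
        apply he0
        funext j
        have hj := congrFun h (Sum.inr j)
        simp only [Sum.elim_inr, Pi.zero_apply, one_mul] at hj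
        exact (mul_eq_zero.1 hj).resolve_left hi0
      · rw [key, h1, zero_mul]
    · refine pf_universal h2 (g :: l) hgl (Sum.elim v1 (fun _ => 0)) ?_ ?_ _
      · intro h
        apply hv1
        funext j
        exact congrFun h (Sum.inl j)
      · show pf l v1 + g * pf l (fun _ => 0) = 0
        rw [h1, pfq_zero]
        ring
  · obtain ⟨u, hu⟩ := pf_mul (g :: l) hgl (Sum.elim v1 (fun _ => 0))
      (Sum.elim (fun j => c * v0 j + z * v1 j) (fun j => (c * i) * e j))
    rw [key] at hu
    have h3 : pf (g :: l) (Sum.elim v1 (fun _ => 0)) = pf l v1 := by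
      show pf l v1 + g * pf l (fun _ => 0) = _
      rw [pfq_zero, mul_zero, add_zero]
    rw [h3] at hu
    refine ⟨fun j => (pf l v1)⁻¹ * u j, ?_⟩
    rw [pfq_smul, hu]
    field_simp

/-- (uses pf_quad) A value over a quadratic extension. -/
theorem pf_quad_ext (h2 : (2 : F) ≠ 0) (i : F) (hi : i ^ 2 = -1) (a b c e g d : F)
    (ha : a ≠ 0) (hb : b ≠ 0) (hc : c ≠ 0) (he : e ≠ 0) (hg : g ≠ 0)
    (h : ∀ (M : Type) [Field M] [Algebra F M] (y : M), y ^ 2 = algebraMap F M d →
      ∃ v : BI 4 → M, pf [algebraMap F M a, algebraMap F M b, algebraMap F M c, algebraMap F M e] v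
        = algebraMap F M g) (z r : F) :
    ∃ u, pf [g, a, b, c, e] u = z ^ 2 - r ^ 2 * d := by
  have hl : ∀ x ∈ [a, b, c, e], x ≠ 0 := by
    intro x hx
    simp only [List.mem_cons, List.not_mem_nil, or_false] at hx
    rcases hx with rfl | rfl | rfl | rfl <;> assumption
  by_cases hd : IsSquare d
  · obtain ⟨y, hy⟩ := hd
    obtain ⟨v, hv⟩ := h F y (by rw [hy]; simp [sq])
    have hv' : pf [a, b, c, e] v = g := hv
    have hz := pfq_zero [a, b, c, e]
    refine pf_quad h2 i hi [a, b, c, e] hl g hg v (fun _ => 0) d ?_ ?_ z r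
    · rw [hz, hv', mul_zero, add_zero]
    · rw [hz, add_zero]
      congr 1
      funext j
      exact add_zero _
  · have hirr : Irreducible (Polynomial.X ^ 2 - Polynomial.C d : Polynomial F) := by
      refine X_pow_sub_C_irreducible_of_prime Nat.prime_two ?_
      intro x hx
      exact hd ⟨x, by rw [← hx, sq]⟩
    haveI : Fact (Irreducible (Polynomial.X ^ 2 - Polynomial.C d : Polynomial F)) := ⟨hirr⟩
    set M := AdjoinRoot (Polynomial.X ^ 2 - Polynomial.C d : Polynomial F) with hM
    set y : M := AdjoinRoot.root (Polynomial.X ^ 2 - Polynomial.C d : Polynomial F) with hy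
    have hy2 : y ^ 2 = algebraMap F M d := by
      have h1 := AdjoinRoot.eval₂_root (Polynomial.X ^ 2 - Polynomial.C d : Polynomial F)
      simp only [Polynomial.eval₂_sub, Polynomial.eval₂_pow, Polynomial.eval₂_X,
        Polynomial.eval₂_C] at h1
      exact sub_eq_zero.1 h1
    obtain ⟨v, hv⟩ := h M y hy2
    have hne : (Polynomial.X ^ 2 - Polynomial.C d : Polynomial F) ≠ 0 := hirr.ne_zero
    have hdeg : (Polynomial.X ^ 2 - Polynomial.C d : Polynomial F).natDegree = 2 :=
      Polynomial.natDegree_X_pow_sub_C
    have hdec : ∀ m : M, ∃ s t : F, m = algebraMap F M s + y * algebraMap F M t := by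
      intro m
      obtain ⟨p, rfl⟩ := AdjoinRoot.mk_surjective m
      set q : Polynomial F := Polynomial.X ^ 2 - Polynomial.C d with hq
      have hmon : q.Monic := Polynomial.monic_X_pow_sub_C d two_ne_zero
      have h1 : AdjoinRoot.mk q p = AdjoinRoot.mk q (p %ₘ q) := by
        rw [AdjoinRoot.mk_eq_mk]
        exact ⟨p /ₘ q, by
          nth_rewrite 1 [← Polynomial.modByMonic_add_div p q]
          ring⟩
      have h3 : (p %ₘ q).natDegree ≤ 1 := by
        have := Polynomial.natDegree_modByMonic_lt p hmon (by
          intro h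
          have := congrArg Polynomial.natDegree h
          rw [hdeg] at this
          simp at this)
        omega
      obtain ⟨s, t, hst⟩ := Polynomial.exists_eq_X_add_C_of_natDegree_le_one h3
      refine ⟨t, s, ?_⟩
      rw [h1, hst]
      simp only [map_add, map_mul, AdjoinRoot.mk_C, AdjoinRoot.mk_X]
      rw [add_comm, mul_comm]
      rfl
    choose s t hst using fun j => hdec (v j)
    have hlin : ∀ m n : F, algebraMap F M m + y * algebraMap F M n = 0 → m = 0 ∧ n = 0 := by
      intro m n hmn
      by_cases hn : n = 0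
      · subst hn
        rw [map_zero, mul_zero, add_zero] at hmn
        exact ⟨(map_eq_zero _).1 hmn, rfl⟩
      · exfalso
        apply hd
        have hn' : algebraMap F M n ≠ 0 := (map_ne_zero _).2 hn
        have h1 : y = algebraMap F M (-m / n) := by
          rw [map_div₀, map_neg, eq_div_iff hn']
          linear_combination hmn
        refine ⟨-m / n, ?_⟩
        apply (algebraMap F M).injective
        rw [← hy2, h1, map_mul, sq]
    have hexp : pf [algebraMap F M a, algebraMap F M b, algebraMap F M c, algebraMap F M e] v =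
        algebraMap F M (pf [a, b, c, e] s + d * pf [a, b, c, e] t) +
          y * algebraMap F M (pf [a, b, c, e] (s + t) - pf [a, b, c, e] s - pf [a, b, c, e] t) := by
      simp only [pf, Pi.add_apply, hst, map_add, map_mul, map_sub, map_pow]
      rw [← hy2]
      ring
    rw [hexp] at hv
    have hfin := hlin (pf [a, b, c, e] s + d * pf [a, b, c, e] t - g)
      (pf [a, b, c, e] (s + t) - pf [a, b, c, e] s - pf [a, b, c, e] t) (by
        rw [map_sub]
        linear_combination hv)
    refine pf_quad h2 i hi [a, b, c, e] hl g hg s t d ?_ ?_ z r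
    · exact sub_eq_zero.1 hfin.1
    · linear_combination hfin.2

end

end Pool.Agent.RR
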