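import Pool.Agent.RR.Defs

/-!
# Project RR, row RR-15: the common parameter (helper37, helper33)

`m ∈ F_{p^2}` with `1 - m ^ 2` and `3 - m ^ 2` non-squares; `s = m ^ 2`.
-/

set_option autoImplicit false

namespace Pool.Agent.RR

open Finset

/-- In a finite field with `-1` a square, at most `(q+1)/2` elements `m` have `1 - m^2` square. -/
private theorem card_sq_le (K : Type*) [Field K] [Fintype K] [DecidableEq K] (h2 : (2 : K) ≠ 0)
    (io : K) (hio : io ^ 2 = -1) (S : Finset K) (hS : ∀ m ∈ S, IsSquare (1 - m ^ 2)) :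
    2 * #S ≤ Fintype.card K + 1 := by
  let s : Finset K := (univ \ {0, 1, -1})
  let φ : K → K := fun t => (t + t⁻¹) / 2
  have h11 : (1 : K) ≠ -1 := by
    intro h
    apply h2
    linear_combination h
  have hs : #s + 3 = Fintype.card K := by
    have h3 : #({0, 1, -1} : Finset K) = 3 := by
      rw [card_insert_of_notMem, card_insert_of_notMem, card_singleton]
      · simp [h11]
      · simp
    have := card_sdiff_add_card_eq_card (subset_univ ({0, 1, -1} : Finset K))
    rw [h3, card_univ] at this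
    exact this
  have him : 2 * #(s.image φ) ≤ #s := by
    apply mul_card_image_le_card
    intro a ha
    obtain ⟨t, ht, rfl⟩ := mem_image.1 ha
    have ht' : t ≠ 0 ∧ t ≠ 1 ∧ t ≠ -1 := by
      simp only [s, mem_sdiff, mem_univ, true_and, mem_insert, mem_singleton, not_or] at ht
      exact ht
    obtain ⟨t0, t1, t2⟩ := ht'
    have hne : t ≠ t⁻¹ := by
      intro h
      have : t * t = 1 := by
        nth_rw 2 [h]
        exact mul_inv_cancel₀ t0
      rcases mul_self_eq_one_iff.1 this with h | h
      · exact t1 h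
      · exact t2 h
    have hsub : ({t, t⁻¹} : Finset K) ⊆ filter (fun x => φ x = φ t) s := by
      intro x hx
      rw [mem_insert, mem_singleton] at hx
      rcases hx with rfl | rfl
      · exact mem_filter.2 ⟨ht, rfl⟩
      · refine mem_filter.2 ⟨?_, ?_⟩
        · simp only [s, mem_sdiff, mem_univ, true_and, mem_insert, mem_singleton, not_or]
          refine ⟨inv_ne_zero t0, ?_, ?_⟩
          · intro h; exact t1 (inv_eq_one.1 h)
          · intro h
            apply t2
            rw [← inv_inv t, h]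
            norm_num
        · simp only [φ, inv_inv]
          ring
    calc 2 = #({t, t⁻¹} : Finset K) := by rw [card_pair hne]
      _ ≤ _ := card_le_card hsub
  have hSs : S ⊆ s.image φ ∪ {1, -1} := by
    intro m hm
    obtain ⟨n, hn⟩ := hS m hm
    by_cases hn0 : n = 0
    · rw [hn0, mul_zero] at hn
      have : m * m = 1 := by linear_combination -hn
      rcases mul_self_eq_one_iff.1 this with h | h
      · simp [h]
      · simp [h]
    · apply mem_union_left
      have hprod : (m + io * n) * (m - io * n) = 1 := by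
        linear_combination -hn - n ^ 2 * hio
      have hinv : (m + io * n)⁻¹ = m - io * n := inv_eq_of_mul_eq_one_right hprod
      have hio0 : io ≠ 0 := by
        intro h
        rw [h] at hio
        norm_num at hio
      have hne : io * n ≠ 0 := mul_ne_zero hio0 hn0
      refine mem_image.2 ⟨m + io * n, ?_, ?_⟩
      · simp only [s, mem_sdiff, mem_univ, true_and, mem_insert, mem_singleton, not_or]
        refine ⟨left_ne_zero_of_mul_eq_one hprod, ?_, ?_⟩
        · intro h
          rw [h] at hprod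
          have h5 : io * n = -(io * n) := by linear_combination h - hprod
          have h6 : (2 : K) * (io * n) = 0 := by linear_combination h5
          rcases mul_eq_zero.1 h6 with h7 | h7
          · exact h2 h7
          · exact hne h7
        · intro h
          rw [h] at hprod
          have h6 : (2 : K) * (io * n) = 0 := by linear_combination h + hprod
          rcases mul_eq_zero.1 h6 with h7 | h7
          · exact h2 h7
          · exact hne h7
      · simp only [φ, hinv]
        field_simp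
        ring
  have h1 : #S ≤ #(s.image φ) + 2 := by
    calc #S ≤ #(s.image φ ∪ {1, -1}) := card_le_card hSs
      _ ≤ #(s.image φ) + #({1, -1} : Finset K) := card_union_le _ _
      _ ≤ _ := by
        have : #({1, -1} : Finset K) ≤ 2 := card_le_two
        omega
  omega

/-- The parameter `s* = m^2`: in characteristic `p ≥ 5` there is `m ∈ F_{p^2}` with
`1 - m^2` and `3 - m^2` non-squares of `F_{p^2}`. -/
private theorem exists_m (p : ℕ) [Fact p.Prime] (hp : 5 ≤ p) (K : Type*) [Field K] [Fintype K]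
    [CharP K p] (hK : Fintype.card K = p ^ 2) :
    ∃ m : K, m ≠ 0 ∧ ¬ IsSquare (m ^ 2 - 1) ∧ ¬ IsSquare (m ^ 2 - 3) := by
  classical
  have hpp : p.Prime := Fact.out
  have hne : ∀ c : ℕ, 0 < c → c < p → (c : K) ≠ 0 := by
    intro c hc hcp h
    rw [CharP.cast_eq_zero_iff K p] at h
    exact absurd (Nat.le_of_dvd hc h) (by omega)
  have hchar : ringChar K ≠ 2 := by
    rw [ringChar.eq K p]
    omega
  obtain ⟨l, hl⟩ : ∃ l, p = 2 * l + 1 := by
    rcases hpp.eq_two_or_odd' with h | h
    · omega
    · exact h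
  have hcard : Fintype.card K / 2 = (p - 1) * (l + 1) := by
    rw [hK, hl]
    have : (2 * l + 1) ^ 2 = 2 * ((2 * l + 1 - 1) * (l + 1)) + 1 := by
      simp only [Nat.add_sub_cancel]
      ring
    omega
  have hsqnat : ∀ c : ℕ, 0 < c → c < p → IsSquare (c : K) := by
    intro c hc hcp
    rw [FiniteField.isSquare_iff hchar (hne c hc hcp), hcard, pow_mul]
    have : ((c : K)) ^ (p - 1) = 1 := by
      have h0 : ((c : ZMod p)) ≠ 0 := by
        intro h
        rw [ZMod.natCast_eq_zero_iff] at h
        exact absurd (Nat.le_of_dvd hc h) (by omega)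
      have h1 := ZMod.pow_card_sub_one_eq_one h0
      have h2 := congrArg (ZMod.castHom (dvd_refl p) K) h1
      simpa using h2
    rw [this, one_pow]
  have hm1 : IsSquare (-1 : K) := by
    rw [FiniteField.isSquare_neg_one_iff, hK, hl]
    have : (2 * l + 1) ^ 2 = 4 * (l * (l + 1)) + 1 := by ring
    rw [this]
    omega
  obtain ⟨io, hio⟩ := hm1
  have hio' : io ^ 2 = -1 := by rw [hio]; ring
  have h2 : (2 : K) ≠ 0 := by
    have := hne 2 (by omega) (by omega)
    simpa using this
  have h3 : (3 : K) ≠ 0 := by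
    have := hne 3 (by omega) (by omega)
    simpa using this
  obtain ⟨ρ, hρ⟩ := hsqnat 3 (by omega) (by omega)
  have hρ' : (3 : K) = ρ * ρ := by simpa using hρ
  have hρ0 : ρ ≠ 0 := by
    intro h
    rw [h, mul_zero] at hρ'
    exact h3 hρ'
  let S : Finset K := univ.filter fun m => IsSquare (1 - m ^ 2)
  let S' : Finset K := univ.filter fun m => IsSquare (3 - m ^ 2)
  have hS : 2 * #S ≤ Fintype.card K + 1 :=
    card_sq_le K h2 io hio' S fun m hm => (mem_filter.1 hm).2
  have hS' : #S' ≤ #S := by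
    apply card_le_card_of_injOn (fun m => ρ⁻¹ * m)
    · intro m hm
      have hm' := (mem_filter.1 (mem_coe.1 hm)).2
      obtain ⟨n, hn⟩ := hm'
      apply mem_coe.2
      refine mem_filter.2 ⟨mem_univ _, ρ⁻¹ * n, ?_⟩
      have : (1 : K) = ρ⁻¹ * ρ⁻¹ * 3 := by
        rw [hρ']; field_simp
      rw [this]
      linear_combination (ρ⁻¹ * ρ⁻¹) * hn
    · intro a _ b _ h
      exact mul_left_cancel₀ (inv_ne_zero hρ0) h
  have h11 : (1 : K) ≠ -1 := by
    intro h
    apply h2
    linear_combination h
  have hint : 3 ≤ #(S ∩ S') := by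
    have h3 : #({0, 1, -1} : Finset K) = 3 := by
      rw [card_insert_of_notMem, card_insert_of_notMem, card_singleton]
      · simp [h11]
      · simp
    rw [← h3]
    apply card_le_card
    have hsq2 : IsSquare (2 : K) := by
      have := hsqnat 2 (by omega) (by omega)
      simpa using this
    intro x hx
    simp only [mem_insert, mem_singleton] at hx
    rcases hx with rfl | rfl | rfl
    · refine mem_inter.2 ⟨mem_filter.2 ⟨mem_univ _, ?_⟩, mem_filter.2 ⟨mem_univ _, ?_⟩⟩
      · exact ⟨1, by ring⟩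
      · exact ⟨ρ, by rw [← hρ']; ring⟩
    · refine mem_inter.2 ⟨mem_filter.2 ⟨mem_univ _, ?_⟩, mem_filter.2 ⟨mem_univ _, ?_⟩⟩
      · exact ⟨0, by ring⟩
      · have : (3 : K) - 1 ^ 2 = 2 := by norm_num
        rw [this]; exact hsq2
    · refine mem_inter.2 ⟨mem_filter.2 ⟨mem_univ _, ?_⟩, mem_filter.2 ⟨mem_univ _, ?_⟩⟩
      · exact ⟨0, by ring⟩
      · have : (3 : K) - (-1) ^ 2 = 2 := by norm_num
        rw [this]; exact hsq2
  have hun : #(S ∪ S') < Fintype.card K := by
    have := card_union_add_card_inter S S'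
    omega
  obtain ⟨m, hm⟩ : ∃ m, m ∉ S ∪ S' := by
    by_contra hcon
    push Not at hcon
    have : S ∪ S' = univ := eq_univ_iff_forall.2 hcon
    rw [this, card_univ] at hun
    exact lt_irrefl _ hun
  rw [mem_union, not_or] at hm
  have hmS : ¬ IsSquare (1 - m ^ 2) := fun h => hm.1 (mem_filter.2 ⟨mem_univ _, h⟩)
  have hmS' : ¬ IsSquare (3 - m ^ 2) := fun h => hm.2 (mem_filter.2 ⟨mem_univ _, h⟩)
  refine ⟨m, ?_, ?_, ?_⟩
  · rintro rfl
    exact hmS ⟨1, by ring⟩
  · rintro ⟨n, hn⟩
    exact hmS ⟨io * n, by linear_combination (-1 : K) * hn - n ^ 2 * hio'⟩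
  · rintro ⟨n, hn⟩
    exact hmS' ⟨io * n, by linear_combination (-1 : K) * hn - n ^ 2 * hio'⟩

/-- The same in an algebraically closed field of characteristic `p`, with powers. -/
private theorem exists_sstar_aux (p : ℕ) [Fact p.Prime] (hp : 5 ≤ p) (k : Type*) [Field k] [IsAlgClosed k]
    [CharP k p] :
    ∃ (n : ℕ) (m : k), p ^ 2 = 4 * n + 1 ∧ m ^ (p ^ 2) = m ∧ (m ^ 2) ^ (2 * n) = 1 ∧
      (m ^ 2 - 1) ^ (2 * n) = -1 ∧ (m ^ 2 - 3) ^ (2 * n) = -1 ∧ (3 : k) ^ (2 * n) = 1 := by
  classical
  have hpp : p.Prime := Fact.out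
  let K := GaloisField p 2
  have : Fintype K := Fintype.ofFinite K
  have hK : Fintype.card K = p ^ 2 := by
    rw [← Nat.card_eq_fintype_card]
    exact GaloisField.card p 2 (by norm_num)
  obtain ⟨m, hm0, h1, h3⟩ := exists_m p hp K hK
  obtain ⟨l, hl⟩ : ∃ l, p = 2 * l + 1 := by
    rcases hpp.eq_two_or_odd' with h | h
    · omega
    · exact h
  obtain ⟨n, hn⟩ : ∃ n, p ^ 2 = 4 * n + 1 := ⟨l * (l + 1), by rw [hl]; ring⟩
  have hchar : ringChar K ≠ 2 := by
    rw [ringChar.eq K p]
    omega
  have hc2 : Fintype.card K / 2 = 2 * n := by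
    rw [hK, hn]; omega
  have hne : ∀ c : ℕ, 0 < c → c < p → (c : K) ≠ 0 := by
    intro c hc hcp h
    rw [CharP.cast_eq_zero_iff K p] at h
    exact absurd (Nat.le_of_dvd hc h) (by omega)
  algebraize [ZMod.castHom (dvd_refl p) k]
  let f : K →ₐ[ZMod p] k := IsAlgClosed.lift
  have hneg : ∀ a : K, ¬ IsSquare a → a ^ (2 * n) = -1 := by
    intro a ha
    have ha0 : a ≠ 0 := by
      rintro rfl
      exact ha ⟨0, by ring⟩
    rcases FiniteField.pow_dichotomy hchar ha0 with h | h
    · exact absurd ((FiniteField.isSquare_iff hchar ha0).2 h) ha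
    · rw [← hc2]; exact h
  refine ⟨n, f m, hn, ?_, ?_, ?_, ?_, ?_⟩
  · rw [← map_pow, ← hK, FiniteField.pow_card]
  · rw [← map_pow, ← map_pow, ← hc2,
      (FiniteField.isSquare_iff hchar (pow_ne_zero 2 hm0)).1 ⟨m, by ring⟩, map_one]
  · have := congrArg f (hneg _ h1)
    rwa [map_pow, map_sub, map_pow, map_one, map_neg, map_one] at this
  · have := congrArg f (hneg _ h3)
    rwa [map_pow, map_sub, map_pow, map_ofNat, map_neg, map_one] at this
  · have h30 : (3 : K) ≠ 0 := by
      have := hne 3 (by omega) (by omega)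
      simpa using this
    have h0 : ((3 : ℕ) : ZMod p) ≠ 0 := by
      intro h
      rw [ZMod.natCast_eq_zero_iff] at h
      exact absurd (Nat.le_of_dvd (by norm_num) h) (by omega)
    have h4 := ZMod.pow_card_sub_one_eq_one h0
    have h5 := congrArg (ZMod.castHom (dvd_refl p) k) h4
    have h6 : (3 : k) ^ (p - 1) = 1 := by
      rw [map_pow, map_natCast, map_one] at h5
      exact_mod_cast h5
    have h7 : 2 * n = (p - 1) * (l + 1) := by
      have : 2 * (2 * n) = 2 * ((p - 1) * (l + 1)) := by
        have h8 : (2 * l + 1) ^ 2 = 2 * ((2 * l + 1 - 1) * (l + 1)) + 1 := by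
          simp only [Nat.add_sub_cancel]
          ring
        rw [hl] at hn ⊢
        omega
      omega
    rw [h7, pow_mul, h6, one_pow]

theorem exists_sstar (p : ℕ) [Fact p.Prime] (hp : 5 ≤ p) (M : Type) [Field M] [IsAlgClosed M]
    [CharP M p] :
    ∃ s : M, s ^ ((p ^ 2 - 1) / 2) = 1 ∧ (s - 1) ^ ((p ^ 2 - 1) / 2) = -1 ∧
      (s - 3) ^ ((p ^ 2 - 1) / 2) = -1 := by
  obtain ⟨n, m, hn, -, h1, h2, h3, -⟩ := exists_sstar_aux p hp M
  have h : (p ^ 2 - 1) / 2 = 2 * n := by omega
  rw [h]
  exact ⟨m ^ 2, h1, h2, h3⟩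

end Pool.Agent.RR
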