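import Pool.Agent.RR.Defs

/-!
# Project RR, row 16: the explicit points in characteristic `p`
-/

set_option autoImplicit false

namespace Pool.Agent.RR

/-- the algebraic identity -/
private theorem uww_alg {F : Type} [Field F] {x s P Q R r a b c : F} (h2 : (2 : F) ≠ 0)
    (e1 : x * (P ^ 2 - 1) = (x - 1) * (Q ^ 2 - 1)) (e2 : x * (P ^ 2 - 1) = (x - s) * (R ^ 2 - 1))
    (hr : r ^ 2 = s) (ha : 2 * a ^ 2 = 1 + x * P - (x - 1) * Q)
    (hb : 2 * s * b ^ 2 = s + x * P - (x - s) * R)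
    (hc : 2 * (s - 1) * c ^ 2 = (s - 1) - (x - 1) * Q + (x - s) * R)
    (hP1 : 1 + P ≠ 0) (hP2 : 1 - P ≠ 0) (hQ1 : 1 + Q ≠ 0) (hQ2 : 1 - Q ≠ 0) (hR1 : 1 + R ≠ 0)
    (hR2 : 1 - R ≠ 0) (hc0 : c ≠ 0) (hs1 : s - 1 ≠ 0) :
    ∃ U W1 W2 : F, U ^ 2 - x * W1 ^ 2 = leg s x ∧ U ^ 2 - x * W2 ^ 2 = s * leg s x := by
  have hu : P ^ 2 - Q ^ 2 ≠ 0 := by
    intro h
    have h1 : (1 + P) * (1 - P) = 0 := by linear_combination (x - 1) * h - e1
    rcases mul_eq_zero.1 h1 with h3 | h3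
    · exact hP1 h3
    · exact hP2 h3
  have hPQ : P + Q ≠ 0 := fun h => hu (by linear_combination (P - Q) * h)
  have hPQ' : P - Q ≠ 0 := fun h => hu (by linear_combination (P + Q) * h)
  have hx : x = (1 - Q ^ 2) / (P ^ 2 - Q ^ 2) := by
    rw [eq_div_iff hu]
    linear_combination e1
  have hR12 : 1 - R ^ 2 ≠ 0 := by
    intro h
    have h1 : (1 + R) * (1 - R) = 0 := by linear_combination h
    rcases mul_eq_zero.1 h1 with h3 | h3
    · exact hR1 h3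
    · exact hR2 h3
  have hxs : x - s = (1 - P ^ 2) * (1 - Q ^ 2) / ((P ^ 2 - Q ^ 2) * (1 - R ^ 2)) := by
    rw [eq_div_iff (mul_ne_zero hu hR12)]
    have h3 : x * (P ^ 2 - Q ^ 2) = 1 - Q ^ 2 := by linear_combination e1
    linear_combination (P ^ 2 - Q ^ 2) * e2 + (1 - P ^ 2) * h3
  have hs : s = (1 - Q ^ 2) * (P ^ 2 - R ^ 2) / ((P ^ 2 - Q ^ 2) * (1 - R ^ 2)) := by
    have h3 : s = x - (x - s) := by ring
    rw [h3, hxs, hx]
    field_simp
    ring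
  have hPP : 2 * a ^ 2 = (1 + P) * (1 + Q) / (P + Q) := by
    rw [ha, hx]
    field_simp
    ring
  have hQQ : 2 * s * b ^ 2 = (1 - Q ^ 2) * (1 + P) * (P - R) / ((P ^ 2 - Q ^ 2) * (1 - R)) := by
    have h3 : s + x * P - (x - s) * R = x * (1 + P) - (x - s) * (1 + R) := by ring
    rw [hb, h3, hxs, hx]
    have h4 : 1 - R ^ 2 = (1 - R) * (1 + R) := by ring
    rw [h4]
    field_simp
    ring
  have hRR : 2 * (s - 1) * c ^ 2 =
      (1 - P ^ 2) * (1 - Q) * (R - Q) / ((P ^ 2 - Q ^ 2) * (1 + R)) := by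
    have h3 : (s - 1) - (x - 1) * Q + (x - s) * R = (x - 1) * (1 - Q) - (x - s) * (1 - R) := by
      ring
    rw [hc, h3, hxs, hx]
    have h4 : 1 - R ^ 2 = (1 - R) * (1 + R) := by ring
    rw [h4]
    field_simp
    ring
  have hRR0 : R - Q ≠ 0 := by
    intro h
    rw [h] at hRR
    have h5 : 2 * (s - 1) * c ^ 2 ≠ 0 := mul_ne_zero (mul_ne_zero h2 hs1) (pow_ne_zero 2 hc0)
    exact h5 (by rw [hRR]; ring)
  have hC0 : 2 * (s - 1) * c ^ 2 ≠ 0 := mul_ne_zero (mul_ne_zero h2 hs1) (pow_ne_zero 2 hc0)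
  have hx1 : x - 1 = (1 - P ^ 2) / (P ^ 2 - Q ^ 2) := by
    rw [hx]
    field_simp
    ring
  have hs1' : s - 1 = (1 - P ^ 2) * (Q ^ 2 - R ^ 2) / ((P ^ 2 - Q ^ 2) * (1 - R ^ 2)) := by
    rw [hs]
    field_simp
    ring
  have hR4 : 1 - R ^ 2 = (1 - R) * (1 + R) := by ring
  have hu4 : P ^ 2 - Q ^ 2 = (P - Q) * (P + Q) := by ring
  have hP4 : 1 - P ^ 2 = (1 - P) * (1 + P) := by ring
  have hQ4 : 1 - Q ^ 2 = (1 - Q) * (1 + Q) := by ring
  have hQR4 : Q ^ 2 - R ^ 2 = - ((R - Q) * (Q + R)) := by ring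
  have hH : x * (P ^ 2 - 1) = - ((1 - Q ^ 2) * (1 - P ^ 2) / (P ^ 2 - Q ^ 2)) := by
    rw [hx]
    field_simp
    ring
  refine ⟨2 * r * (x * (P ^ 2 - 1)) * a * b / ((1 + P) * (1 + Q) * (1 + R)),
    x * (P ^ 2 - 1) * a / (c * (1 + Q) * (1 + R)),
    r * (x * (P ^ 2 - 1)) * b / (c * (1 + Q) * (1 + R)), ?_, ?_⟩
  · have hU : (2 * r * (x * (P ^ 2 - 1)) * a * b / ((1 + P) * (1 + Q) * (1 + R))) ^ 2 =
        (x * (P ^ 2 - 1)) ^ 2 * (2 * a ^ 2) * (2 * s * b ^ 2) /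
          ((1 + P) * (1 + Q) * (1 + R)) ^ 2 := by
      rw [div_pow, ← hr]
      ring
    have hW : (x * (P ^ 2 - 1) * a / (c * (1 + Q) * (1 + R))) ^ 2 =
        (x * (P ^ 2 - 1)) ^ 2 * (2 * a ^ 2) * (s - 1) /
          ((2 * (s - 1) * c ^ 2) * ((1 + Q) * (1 + R)) ^ 2) := by
      rw [div_pow, div_eq_div_iff (pow_ne_zero 2 (mul_ne_zero (mul_ne_zero hc0 hQ1) hR1)) (mul_ne_zero hC0 (pow_ne_zero 2 (mul_ne_zero hQ1 hR1)))]
      ring
    rw [hU, hW, hPP, hQQ, hRR, hH]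
    unfold leg
    rw [hxs, hx1, hs1', hx, hQR4, hR4, hu4, hP4, hQ4]
    field_simp
    ring
  · have hU : (2 * r * (x * (P ^ 2 - 1)) * a * b / ((1 + P) * (1 + Q) * (1 + R))) ^ 2 =
        (x * (P ^ 2 - 1)) ^ 2 * (2 * a ^ 2) * (2 * s * b ^ 2) /
          ((1 + P) * (1 + Q) * (1 + R)) ^ 2 := by
      rw [div_pow, ← hr]
      ring
    have hW : (r * (x * (P ^ 2 - 1)) * b / (c * (1 + Q) * (1 + R))) ^ 2 =
        (x * (P ^ 2 - 1)) ^ 2 * (2 * s * b ^ 2) * (s - 1) /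
          ((2 * (s - 1) * c ^ 2) * ((1 + Q) * (1 + R)) ^ 2) := by
      rw [div_pow, div_eq_div_iff (pow_ne_zero 2 (mul_ne_zero (mul_ne_zero hc0 hQ1) hR1)) (mul_ne_zero hC0 (pow_ne_zero 2 (mul_ne_zero hQ1 hR1))), ← hr]
      ring
    rw [hU, hW, hPP, hQQ, hRR, hH]
    unfold leg
    rw [hxs, hx1, hs1', hs, hx, hQR4, hR4, hu4, hP4, hQ4]
    field_simp
    ring

open Polynomial in
/-- half of a value of the Dickson polynomial of degree `n` -/
private noncomputable def uwwA {M : Type} [Field M] (n : ℕ) (w : M) : M :=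
  (dickson 1 (1 : M) n).eval (4 * w - 2) / 2

open Polynomial in
/-- its square -/
private theorem uwwA_sq (p : ℕ) [Fact p.Prime] {M : Type} [Field M] [CharP M p]
    (h2 : (2 : M) ≠ 0) {n : ℕ} (hn : 4 * n + 1 = p ^ 2) (w : M) :
    2 * uwwA n w ^ 2 = 1 + w * w ^ (2 * n) - (w - 1) * (w - 1) ^ (2 * n) := by
  let L := AlgebraicClosure M
  let f : M →+* L := algebraMap M L
  have hf : Function.Injective f := f.injective
  have : CharP L p := charP_of_injective_ringHom hf p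
  obtain ⟨a, ha⟩ := IsAlgClosed.exists_pow_nat_eq (f w) (n := 2) (by norm_num)
  obtain ⟨b, hb⟩ := IsAlgClosed.exists_pow_nat_eq (f (w - 1)) (n := 2) (by norm_num)
  have hab : (a + b) * (a - b) = 1 := by
    have : (a + b) * (a - b) = a ^ 2 - b ^ 2 := by ring
    rw [this, ha, hb, ← map_sub, sub_sub_cancel, map_one]
  have hyy : (a + b) ^ 2 * (a - b) ^ 2 = 1 := by rw [← mul_pow, hab, one_pow]
  have hz : (a + b) ^ 2 + (a - b) ^ 2 = f (4 * w - 2) := by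
    have h1 : (a + b) ^ 2 + (a - b) ^ 2 = 2 * a ^ 2 + 2 * b ^ 2 := by ring
    rw [h1, ha, hb]
    simp only [map_sub, map_mul, map_one, map_ofNat]
    ring
  have hD : f ((dickson 1 (1 : M) n).eval (4 * w - 2)) =
      ((a + b) ^ 2) ^ n + ((a - b) ^ 2) ^ n := by
    rw [← dickson_one_one_eval_add_inv _ _ hyy, hz, ← f.map_one, ← map_dickson, eval_map,
      eval₂_at_apply]
  have hq1 : (a + b) ^ (4 * n) = (a + b) ^ p ^ 2 * (a - b) := by
    rw [← hn, pow_succ, mul_assoc, hab, mul_one]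
  have hq2 : (a - b) ^ (4 * n) = (a - b) ^ p ^ 2 * (a + b) := by
    rw [← hn, pow_succ, mul_assoc, mul_comm (a - b) (a + b), hab, mul_one]
  apply hf
  have e1 : f (2 * uwwA n w ^ 2) * 2 =
      (((a + b) ^ 2) ^ n + ((a - b) ^ 2) ^ n) ^ 2 := by
    have h22 : (2 : L) = f 2 := by rw [map_ofNat]
    rw [← hD, h22, ← map_pow, ← map_mul]
    congr 1
    unfold uwwA
    field_simp
  have hL2 : (2 : L) ≠ 0 := by
    intro h
    exact h2 (hf (by rw [map_ofNat, map_zero, h]))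
  have e2 : (((a + b) ^ 2) ^ n + ((a - b) ^ 2) ^ n) ^ 2 =
      (a + b) ^ (4 * n) + 2 + (a - b) ^ (4 * n) := by
    have h1 : ((a + b) ^ 2) ^ n * ((a - b) ^ 2) ^ n = 1 := by rw [← mul_pow, hyy, one_pow]
    have h3 : ((a + b) ^ 2) ^ n * ((a + b) ^ 2) ^ n = (a + b) ^ (4 * n) := by
      rw [← pow_mul, ← pow_add]
      congr 1
      ring
    have h4 : ((a - b) ^ 2) ^ n * ((a - b) ^ 2) ^ n = (a - b) ^ (4 * n) := by
      rw [← pow_mul, ← pow_add]
      congr 1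
      ring
    linear_combination h3 + h4 + 2 * h1
  have e3 : (a + b) ^ (4 * n) + (a - b) ^ (4 * n) =
      2 * (f w * f w ^ (2 * n)) - 2 * (f (w - 1) * f (w - 1) ^ (2 * n)) := by
    have h1 : f w * f w ^ (2 * n) = a ^ p ^ 2 * a := by
      rw [← ha, ← hn, ← pow_succ', ← pow_mul, ← pow_succ]
      congr 1
      ring
    have h3 : f (w - 1) * f (w - 1) ^ (2 * n) = b ^ p ^ 2 * b := by
      rw [← hb, ← hn, ← pow_succ', ← pow_mul, ← pow_succ]
      congr 1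
      ring
    rw [hq1, hq2, add_pow_char_pow, sub_pow_char_pow, h1, h3]
    ring
  apply mul_right_cancel₀ hL2
  rw [e1, e2]
  simp only [map_sub, map_add, map_mul, map_pow, map_one] at e3 ⊢
  linear_combination e3

open Polynomial in
/-- it does not vanish at transcendental elements -/
private theorem uwwA_ne (p : ℕ) [Fact p.Prime] {M : Type} [Field M] [Algebra (ZMod p) M]
    (h2 : (2 : M) ≠ 0) (n : ℕ) {w : M} (hw : ¬ IsAlgebraic (ZMod p) w) : uwwA n w ≠ 0 := by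
  intro h
  unfold uwwA at h
  rw [div_eq_zero_iff, or_iff_left h2] at h
  apply hw
  refine ⟨(dickson 1 (1 : ZMod p) n).comp (4 * X - 2), ?_, ?_⟩
  · intro h0
    have h3 := congrArg (Polynomial.eval (1 : ZMod p)) h0
    rw [eval_comp, eval_zero] at h3
    have h4 : (4 * X - 2 : (ZMod p)[X]).eval 1 = 1 + 1 := by
      simp only [eval_sub, eval_mul, eval_X, eval_ofNat]
      norm_num
    rw [h4, dickson_one_one_eval_add_inv _ _ (one_mul 1), one_pow] at h3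
    apply h2
    have h5 := congrArg (algebraMap (ZMod p) M) h3
    rw [map_add, map_one, map_zero] at h5
    rw [← h5]
    norm_num
  · rw [aeval_comp, ← h]
    have h3 : (aeval w) (4 * X - 2 : (ZMod p)[X]) = 4 * w - 2 := by
      simp only [map_sub, map_mul, aeval_X, map_ofNat]
    rw [h3, ← eval_map_algebraMap, map_dickson, map_one]

theorem exists_UWW (p : ℕ) [Fact p.Prime] (hp : 3 ≤ p) (M : Type) [Field M] [CharP M p]
    [Algebra (ZMod p) M] (s r x : M) (hr : r ^ 2 = s) (hs : s ^ ((p ^ 2 - 1) / 2) = 1)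
    (hs1 : (s - 1) ^ ((p ^ 2 - 1) / 2) = -1) (hx : Transcendental (ZMod p) x) :
    ∃ U W1 W2 : M, U ^ 2 - x * W1 ^ 2 = leg s x ∧ U ^ 2 - x * W2 ^ 2 = s * leg s x := by
  -- numbers
  have hodd : Odd p := (Fact.out : p.Prime).odd_of_ne_two (by omega)
  obtain ⟨n, hn, hn0⟩ : ∃ n, 4 * n + 1 = p ^ 2 ∧ 0 < n := by
    obtain ⟨m, hm⟩ := hodd
    have hm1 : 1 ≤ m := by omega
    refine ⟨m * (m + 1), ?_, by positivity⟩
    rw [hm]
    ring
  have hN : (p ^ 2 - 1) / 2 = 2 * n := by omega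
  rw [hN] at hs hs1
  have h2 : (2 : M) ≠ 0 := by
    have h := (CharP.cast_eq_zero_iff M p 2).not.2 fun h => by
      have := Nat.le_of_dvd (by norm_num) h
      omega
    exact_mod_cast h
  have hnn : 2 * n ≠ 0 := by omega
  -- algebraic elements
  have alg1 : ∀ t : M, t ^ (2 * n) = 1 → IsAlgebraic (ZMod p) t := fun t ht =>
    IsAlgebraic.of_pow (Nat.pos_of_ne_zero hnn) (by rw [ht]; exact isAlgebraic_one)
  have alg2 : ∀ t : M, t ^ (2 * n) = -1 → IsAlgebraic (ZMod p) t := fun t ht =>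
    IsAlgebraic.of_pow (Nat.pos_of_ne_zero hnn) (by rw [ht]; exact isAlgebraic_one.neg)
  have hsa := alg1 s hs
  have hx0 : ¬ IsAlgebraic (ZMod p) x := hx
  have hx1 : ¬ IsAlgebraic (ZMod p) (x - 1) := fun h => hx0 (by
    have := h.add isAlgebraic_one
    rwa [sub_add_cancel] at this)
  have hxs : ¬ IsAlgebraic (ZMod p) (x - s) := fun h => hx0 (by
    have := h.add hsa
    rwa [sub_add_cancel] at this)
  have hs10 : s - 1 ≠ 0 := by
    intro h
    rw [h, zero_pow hnn] at hs1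
    have : (1 : M) = 0 := by linear_combination hs1
    exact one_ne_zero this
  have hs0 : s ≠ 0 := by
    rintro rfl
    rw [zero_pow hnn] at hs
    exact zero_ne_one hs
  have ne1 : ∀ t : M, ¬ IsAlgebraic (ZMod p) t → 1 + t ^ (2 * n) ≠ 0 := fun t ht h =>
    ht (alg2 t (by linear_combination h))
  have ne2 : ∀ t : M, ¬ IsAlgebraic (ZMod p) t → 1 - t ^ (2 * n) ≠ 0 := fun t ht h =>
    ht (alg1 t (by linear_combination -h))
  have hw : ¬ IsAlgebraic (ZMod p) ((x - 1) / (s - 1)) := fun h => hx1 (by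
    have := h.mul (hsa.sub isAlgebraic_one)
    rwa [div_mul_cancel₀ _ hs10] at this)
  have hq : ∀ t : M, t * ((t ^ (2 * n)) ^ 2 - 1) = t ^ p ^ 2 - t := fun t => by
    rw [← hn, ← pow_mul, pow_succ]
    have : 2 * n * 2 = 4 * n := by ring
    rw [this]
    ring
  have hsq : s ^ p ^ 2 = s := by
    have := hq s
    rw [hs] at this
    linear_combination -this
  refine uww_alg (P := x ^ (2 * n)) (Q := (x - 1) ^ (2 * n)) (R := (x - s) ^ (2 * n))
    (a := uwwA n x) (b := uwwA n (x / s)) (c := uwwA n ((x - 1) / (s - 1))) h2 ?_ ?_ hr ?_ ?_ ?_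
    (ne1 _ hx0) (ne2 _ hx0) (ne1 _ hx1) (ne2 _ hx1) (ne1 _ hxs) (ne2 _ hxs)
    (uwwA_ne p h2 n hw) hs10
  · rw [hq, hq, sub_pow_char_pow, one_pow]
    ring
  · rw [hq, hq, sub_pow_char_pow, hsq]
    ring
  · exact uwwA_sq p h2 hn x
  · have h := uwwA_sq p h2 hn (x / s)
    have h3 : x / s - 1 = (x - s) / s := by field_simp
    rw [h3, div_pow, div_pow, hs, div_one, div_one] at h
    have h4 : 2 * s * uwwA n (x / s) ^ 2 = s * (2 * uwwA n (x / s) ^ 2) := by ring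
    rw [h4, h]
    field_simp
  · have h := uwwA_sq p h2 hn ((x - 1) / (s - 1))
    have h3 : (x - 1) / (s - 1) - 1 = (x - s) / (s - 1) := by
      field_simp
      ring
    rw [h3, div_pow, div_pow, hs1] at h
    have h4 : 2 * (s - 1) * uwwA n ((x - 1) / (s - 1)) ^ 2 =
      (s - 1) * (2 * uwwA n ((x - 1) / (s - 1)) ^ 2) := by ring
    rw [h4, h]
    field_simp
    ring

end Pool.Agent.RR
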