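import Pool.Agent.RR.Defs

/-!
# Project RR: values of the two-fold form on the Legendre family (RR-17)
-/

set_option autoImplicit false

namespace Pool.Agent.RR

variable {M : Type} [Field M]

private theorem val_iff (x x' t : M) : (∃ u, pf [x, x'] u = t) ↔
    ∃ a b c d : M, a ^ 2 + x' * b ^ 2 + x * (c ^ 2 + x' * d ^ 2) = t := by
  constructor
  · rintro ⟨u, hu⟩
    exact ⟨u (Sum.inl (Sum.inl ())), u (Sum.inl (Sum.inr ())), u (Sum.inr (Sum.inl ())),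
      u (Sum.inr (Sum.inr ())), hu⟩
  · rintro ⟨a, b, c, d, h⟩
    exact ⟨(Sum.elim (Sum.elim (fun _ : Unit => a) (fun _ : Unit => b))
      (Sum.elim (fun _ : Unit => c) (fun _ : Unit => d)) : (Unit ⊕ Unit) ⊕ (Unit ⊕ Unit) → M), h⟩

private theorem val_mul {x x' s t : M} (hs : ∃ u, pf [x, x'] u = s) (ht : ∃ u, pf [x, x'] u = t) :
    ∃ u, pf [x, x'] u = s * t := by
  rw [val_iff] at *
  obtain ⟨a1, b1, c1, d1, h1⟩ := hs
  obtain ⟨a2, b2, c2, d2, h2⟩ := ht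
  refine ⟨a1 * a2 - x * (c1 * c2) - x' * (b1 * b2) - x * x' * (d1 * d2),
    a1 * b2 + b1 * a2 + x * (d1 * c2 - c1 * d2), a1 * c2 + c1 * a2 + x' * (b1 * d2 - d1 * b2),
    a1 * d2 + d1 * a2 + c1 * b2 - b1 * c2, ?_⟩
  rw [← h1, ← h2]
  ring

private theorem val_div {x x' t : M} (w : M) (hw : w ≠ 0)
    (ht : ∃ u, pf [x, x'] u = t * w ^ 2) : ∃ u, pf [x, x'] u = t := by
  rw [val_iff] at *
  obtain ⟨a, b, c, d, h⟩ := ht
  refine ⟨a / w, b / w, c / w, d / w, ?_⟩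
  rw [← mul_div_cancel_right₀ t (pow_ne_zero 2 hw), ← h]
  field_simp

theorem val_pure (i : M) (hi : i ^ 2 = -1) (s x x' U W1 W2 : M)
    (h1 : U ^ 2 - x * W1 ^ 2 = leg s x) (h2 : U ^ 2 - x * W2 ^ 2 = s * leg s x) (r : M) :
    ∃ u, pf [x, x'] u = r ^ 2 - leg s x * leg s x' := by
  rw [val_iff]
  refine ⟨r, i * (U * (x' - 1)), i * (x' * (W1 - W2)), W1 * x' - W2, ?_⟩
  have h3 : leg s x * leg s x' = x' * ((U ^ 2 - x * W1 ^ 2) * (x' ^ 2 - x') -
      (U ^ 2 - x * W2 ^ 2) * (x' - 1)) := by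
    rw [h1, h2]
    simp only [leg]
    ring
  linear_combination (x' * (U * (x' - 1)) ^ 2 + x * (x' * (W1 - W2)) ^ 2) * hi + h3

/-- (uses RR-13) -/
theorem val_ss (i : M) (hi : i ^ 2 = -1) (s s' r x x' y : M) (hr : r ^ 2 = s')
    (hx : x ≠ 0) (hx' : x' ≠ 0) (hx1 : x ≠ 1) (hx1' : x' ≠ 1) (hxs : x ≠ s) (hxx : x ≠ x')
    (hxs' : x ≠ s')
    (hy : y ^ 2 = leg s x * leg s x')
    (h : ∀ r : M, ∃ u, pf [x, x'] u = r ^ 2 - leg s' x * leg s' x') :
    ∃ u, pf [x, x'] u = (s - 1) * (s - s') := by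
  have e1 : x - s ≠ 0 := sub_ne_zero.2 hxs
  have e2 : x - s' ≠ 0 := sub_ne_zero.2 hxs'
  have e3 : x - 1 ≠ 0 := sub_ne_zero.2 hx1
  have e4 : x' - 1 ≠ 0 := sub_ne_zero.2 hx1'
  have e5 : x' - x ≠ 0 := sub_ne_zero.2 hxx.symm
  set m : M := y / (x - s) with hm
  set c : M := x * (x - 1) * (x' * (x' - 1)) with hc
  -- the relation for m
  have hm2 : m ^ 2 * (x - s) = c * (x' - s) := by
    have h1 : m ^ 2 * (x - s) ^ 2 = y ^ 2 := by
      rw [hm, div_pow, div_mul_cancel₀ _ (pow_ne_zero 2 e1)]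
    have h2 : (m ^ 2 * (x - s)) * (x - s) = (c * (x' - s)) * (x - s) := by
      calc (m ^ 2 * (x - s)) * (x - s) = m ^ 2 * (x - s) ^ 2 := by ring
        _ = leg s x * leg s x' := by rw [h1, hy]
        _ = (c * (x' - s)) * (x - s) := by simp only [leg, hc]; ring
    exact mul_right_cancel₀ e1 h2
  have hmc : (m ^ 2 - c) * (x - s) = c * (x' - x) := by
    linear_combination hm2
  have hc0 : c ≠ 0 := mul_ne_zero (mul_ne_zero hx e3) (mul_ne_zero hx' e4)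
  have hmc0 : m ^ 2 - c ≠ 0 := by
    intro h0
    rw [h0, zero_mul] at hmc
    exact mul_ne_zero hc0 e5 hmc.symm
  -- the values
  have v1 : ∃ u, pf [x, x'] u = x - 1 := by
    rw [val_iff]
    exact ⟨i, 0, 1, 0, by rw [hi]; ring⟩
  have v2 : ∃ u, pf [x, x'] u = m ^ 2 - x * x' * (x' - 1) ^ 2 := by
    rw [val_iff]
    exact ⟨m, 0, 0, i * (x' - 1), by rw [mul_pow, hi]; ring⟩
  have v3 : ∃ u, pf [x, x'] u = x - s' := by
    rw [val_iff]
    exact ⟨i * r, 0, 1, 0, by rw [mul_pow, hi, hr]; ring⟩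
  have v4 := h (m * (x - s'))
  have v5 := val_mul (val_mul v1 v2) (val_mul v3 v4)
  refine val_div ((m ^ 2 - c) * (x - s')) (mul_ne_zero hmc0 e2) ?_
  have h5 : (s - 1) * (m ^ 2 - c) = (x - 1) * (m ^ 2 - x * x' * (x' - 1) ^ 2) := by
    simp only [hc] at hm2 ⊢
    linear_combination -hm2
  have h6 : (s - s') * (m ^ 2 - c) * (x - s') =
      (m * (x - s')) ^ 2 - leg s' x * leg s' x' := by
    simp only [hc, leg] at hm2 ⊢
    linear_combination (-(x - s')) * hm2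
  have h7 : (s - 1) * (s - s') * ((m ^ 2 - c) * (x - s')) ^ 2 =
      (x - 1) * (m ^ 2 - x * x' * (x' - 1) ^ 2) *
        ((x - s') * ((m * (x - s')) ^ 2 - leg s' x * leg s' x')) := by
    rw [← h5, ← h6]
    ring
  rw [h7]
  exact v5

end Pool.Agent.RR
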