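import Pool.Agent.RR.Defs
import Pool.Agent.RR.PfU
import Pool.Agent.RR.Sstar
import Pool.Agent.RR.UWW
import Pool.Agent.RR.Val

/-!
# Project RR, module ValG: the key fact in characteristic `p`
-/

set_option autoImplicit false

namespace Pool.Agent.RR

open MvPolynomial

private theorem pf_smul' {M : Type} [Field M] (c : M) : ∀ (l : List M) (v : BI l.length → M),
    pf l (fun i => c * v i) = c ^ 2 * pf l v
  | [], v => by
    show (c * v ()) ^ 2 = c ^ 2 * v () ^ 2
    ring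
  | a :: l, v => by
    have h1 := pf_smul' c l (fun i => v (Sum.inl i))
    have h2 := pf_smul' c l (fun i => v (Sum.inr i))
    show pf l (fun i => c * v (Sum.inl i)) + a * pf l (fun i => c * v (Sum.inr i)) =
      c ^ 2 * (pf l (fun i => v (Sum.inl i)) + a * pf l (fun i => v (Sum.inr i)))
    rw [h1, h2]
    ring

private theorem three_pow (p : ℕ) [hp' : Fact p.Prime] (hp : 5 ≤ p) (M : Type) [Field M]
    [CharP M p] : (3 : M) ^ ((p ^ 2 - 1) / 2) = 1 := by
  have hodd : p % 2 = 1 := by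
    rcases hp'.out.eq_two_or_odd with h | h
    · omega
    · exact h
  obtain ⟨m, hm⟩ : ∃ m, p = 2 * m + 1 := ⟨p / 2, by omega⟩
  have hN : (p ^ 2 - 1) / 2 = (p - 1) * (m + 1) := by
    have h1 : p ^ 2 - 1 = 2 * ((p - 1) * (m + 1)) := by
      subst hm
      have : (2 * m + 1) ^ 2 = 2 * ((2 * m + 1 - 1) * (m + 1)) + 1 := by
        rw [Nat.add_sub_cancel]
        ring
      omega
    rw [h1]
    exact Nat.mul_div_cancel_left _ (by norm_num)
  have h3 : ((3 : ZMod p)) ≠ 0 := by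
    intro h
    have h4 : ((3 : ℕ) : ZMod p) = 0 := by exact_mod_cast h
    rw [ZMod.natCast_eq_zero_iff] at h4
    exact absurd (Nat.le_of_dvd (by norm_num) h4) (by omega)
  have h4 : (3 : ZMod p) ^ (p - 1) = 1 := ZMod.pow_card_sub_one_eq_one h3
  have h5 : (3 : M) ^ (p - 1) = 1 := by
    have h6 := congrArg (ZMod.castHom (dvd_refl p) M) h4
    rw [map_pow, map_one, map_ofNat] at h6
    exact h6
  rw [hN, pow_mul, h5, one_pow]

private theorem transc_zmod (p : ℕ) [Fact p.Prime] (M : Type) [Field M] [CharP M p]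
    [Algebra (ZMod p) M] (k : Type) [Field k] [CharP k p] [Algebra k M] (x : M)
    (hx : Transcendental k x) : Transcendental (ZMod p) x := by
  letI : Algebra (ZMod p) k := ZMod.algebra k p
  haveI : IsScalarTower (ZMod p) k M := IsScalarTower.of_algebraMap_eq' (Subsingleton.elim _ _)
  intro h
  exact hx (h.tower_top k)

/-- The two-fold Pfister form of `x, x'` represents `(s - 1) (s - s')`. -/
private theorem half (p : ℕ) [Fact p.Prime] (hp : 5 ≤ p) (M : Type) [Field M] [CharP M p]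
    [Algebra (ZMod p) M]
    (k : Type) [Field k] [IsAlgClosed k] [CharP k p] [Algebra k M] (s x x' y : M) (s0 : k)
    (hx : Transcendental k x) (hx' : Transcendental k x') (hxx : x ≠ x') (hxs : x ≠ s)
    (h1 : s0 ^ ((p ^ 2 - 1) / 2) = 1) (h2 : (s0 - 1) ^ ((p ^ 2 - 1) / 2) = -1)
    (hy : y ^ 2 = leg s x * leg s x') :
    ∃ u, pf [x, x'] u = (s - 1) * (s - algebraMap k M s0) := by
  obtain ⟨i0, hi0⟩ := IsAlgClosed.exists_pow_nat_eq (-1 : k) (n := 2) (by norm_num)
  obtain ⟨r0, hr0⟩ := IsAlgClosed.exists_pow_nat_eq s0 (n := 2) (by norm_num)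
  have hi : (algebraMap k M i0) ^ 2 = -1 := by
    rw [← map_pow, hi0, map_neg, map_one]
  have hr : (algebraMap k M r0) ^ 2 = algebraMap k M s0 := by
    rw [← map_pow, hr0]
  have hs : (algebraMap k M s0) ^ ((p ^ 2 - 1) / 2) = 1 := by
    rw [← map_pow, h1, map_one]
  have hs1 : (algebraMap k M s0 - 1) ^ ((p ^ 2 - 1) / 2) = -1 := by
    have : algebraMap k M s0 - 1 = algebraMap k M (s0 - 1) := by rw [map_sub, map_one]
    rw [this, ← map_pow, h2, map_neg, map_one]
  have hne : ∀ (z : M), Transcendental k z → ∀ c : k, z ≠ algebraMap k M c := by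
    intro z hz c h
    exact hz (h ▸ isAlgebraic_algebraMap c)
  obtain ⟨U, W1, W2, hU1, hU2⟩ := exists_UWW p (by omega) M (algebraMap k M s0)
    (algebraMap k M r0) x hr hs hs1 (transc_zmod p M k x hx)
  have h0 : ∀ z : M, Transcendental k z → z ≠ 0 := fun z hz => by
    have := hne z hz 0
    rwa [map_zero] at this
  have h1' : ∀ z : M, Transcendental k z → z ≠ 1 := fun z hz => by
    have := hne z hz 1
    rwa [map_one] at this
  exact val_ss (algebraMap k M i0) hi s (algebraMap k M s0) (algebraMap k M r0) x x' y hr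
    (h0 x hx) (h0 x' hx') (h1' x hx) (h1' x' hx') hxs hxx (hne x hx s0) hy
    (fun r => val_pure (algebraMap k M i0) hi (algebraMap k M s0) x x' U W1 W2 hU1 hU2 r)

theorem val_g (p : ℕ) [Fact p.Prime] (hp : 5 ≤ p) (M : Type) [Field M] [CharP M p]
    (k : Type) [Field k] [IsAlgClosed k] [Algebra k M] (s x1 x2 x3 x4 y y' : M)
    (hx1 : Transcendental k x1) (hx2 : Transcendental k x2) (hx3 : Transcendental k x3)
    (hx4 : Transcendental k x4) (hs : Transcendental k s) (h12 : x1 ≠ x2) (h34 : x3 ≠ x4)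
    (h1s : x1 ≠ s) (h3s : x3 ≠ s / 3)
    (hy : y ^ 2 = leg s x1 * leg s x2) (hy' : y' ^ 2 = leg (s / 3) x3 * leg (s / 3) x4) :
    ∃ u, pf [x1, x2, x3, x4] u = (s - 1) * (s - 3) := by
  haveI hk : CharP k p := (RingHom.charP_iff (algebraMap k M) (algebraMap k M).injective p).2
    inferInstance
  letI : Algebra (ZMod p) M := ZMod.algebra M p
  obtain ⟨s0, a1, a2, a3⟩ := exists_sstar p hp k
  have hnum : ∀ m : ℕ, 0 < m → m < p → ((m : ℕ) : M) ≠ 0 := by
    intro m h1 h2 h3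
    exact absurd (Nat.le_of_dvd h1 ((CharP.cast_eq_zero_iff M p m).1 h3)) (by omega)
  have hnumk : ∀ m : ℕ, 0 < m → m < p → ((m : ℕ) : k) ≠ 0 := by
    intro m h1 h2 h3
    exact absurd (Nat.le_of_dvd h1 ((CharP.cast_eq_zero_iff k p m).1 h3)) (by omega)
  have h3M : (3 : M) ≠ 0 := by exact_mod_cast hnum 3 (by norm_num) (by omega)
  have h3k : (3 : k) ≠ 0 := by exact_mod_cast hnumk 3 (by norm_num) (by omega)
  have h3N : (3 : k) ^ ((p ^ 2 - 1) / 2) = 1 := three_pow p hp k
  have b1 : (s0 / 3) ^ ((p ^ 2 - 1) / 2) = 1 := by rw [div_pow, a1, h3N, div_one]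
  have b2 : (s0 / 3 - 1) ^ ((p ^ 2 - 1) / 2) = -1 := by
    have : s0 / 3 - 1 = (s0 - 3) / 3 := by field_simp
    rw [this, div_pow, a3, h3N, div_one]
  obtain ⟨v, hv⟩ := half p hp M k s x1 x2 y s0 hx1 hx2 h12 h1s a1 a2 hy
  obtain ⟨w, hw⟩ := half p hp M k (s / 3) x3 x4 y' (s0 / 3) hx3 hx4 h34 h3s b1 b2 hy'
  obtain ⟨u, hu⟩ := pf_tensor [x1, x2] [x3, x4] v w
  have hss : s ≠ algebraMap k M s0 := fun h => hs (h ▸ isAlgebraic_algebraMap s0)
  have he : (s - algebraMap k M s0) / 3 ≠ 0 := div_ne_zero (sub_ne_zero.2 hss) h3M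
  refine ⟨fun i => ((s - algebraMap k M s0) / 3)⁻¹ * u i, ?_⟩
  have h5 := pf_smul' ((s - algebraMap k M s0) / 3)⁻¹ [x1, x2, x3, x4] u
  have h6 : pf [x1, x2, x3, x4] u =
      (s - 1) * (s - algebraMap k M s0) * ((s / 3 - 1) * (s / 3 - algebraMap k M (s0 / 3))) := by
    rw [← hv, ← hw]
    exact hu
  have h7 : algebraMap k M (s0 / 3) = algebraMap k M s0 / 3 := by
    rw [map_div₀]
    congr 1
    exact map_ofNat _ 3
  have h8 : s - algebraMap k M s0 ≠ 0 := sub_ne_zero.2 hss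
  rw [h5, h6, h7]
  field_simp

end Pool.Agent.RR
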