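import Pool.Agent.RR.Pf
import Pool.Agent.RR.PfQ
import Pool.Agent.RR.ValG

set_option autoImplicit false

namespace Pool.Agent.RR

open MvPolynomial


/-- scaling of a value by a square -/
private theorem rep_smul {R : Type} [CommRing R] (l : List R) (v : BI l.length → R) (c : R) :
    pf l (fun j => c * v j) = c ^ 2 * pf l v := by
  induction l with
  | nil => simp only [pf]; ring
  | cons a l ih =>
    have h1 := ih (fun i => v (Sum.inl i))
    have h2 := ih (fun i => v (Sum.inr i))
    simp only [pf]
    rw [h1, h2]; ring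

section maps
variable {R S : Type} [CommRing R] [CommRing S] (f : R →+* S)

private theorem rep_three : f 3 = 3 := map_ofNat f 3
private theorem rep_cc (a b : R) : f (cc a b) = cc (f a) (f b) := by simp [cc]
private theorem rep_DD (a b c : R) : f (DD a b c) = DD (f a) (f b) (f c) := by
  simp [DD, rep_cc]
private theorem rep_SS (a b c : R) : f (SS a b c) = SS (f a) (f b) (f c) := by
  simp only [SS, map_mul, map_sub, map_pow, rep_cc, rep_three]
private theorem rep_gg (a b c : R) : f (gg a b c) = gg (f a) (f b) (f c) := by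
  simp only [gg, map_mul, map_sub, rep_DD, rep_SS, rep_three]
private theorem rep_dd (a b c d e : R) : f (dd a b c d e) = dd (f a) (f b) (f c) (f d) (f e) := by
  simp only [dd, map_mul, map_sub, map_one, rep_DD, rep_SS]

end maps

/-- evaluation criterion for non-vanishing in the fraction field -/
private theorem rep_ne {k : Type} [Field k] (f : MvPolynomial (Fin 6) k) (e : Fin 6 → k)
    (h : aeval e f ≠ 0) :
    algebraMap (MvPolynomial (Fin 6) k) (FractionRing (MvPolynomial (Fin 6) k)) f ≠ 0 := by
  intro h0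
  apply h
  have : f = 0 := by
    apply IsFractionRing.injective (MvPolynomial (Fin 6) k)
      (FractionRing (MvPolynomial (Fin 6) k))
    rw [h0, map_zero]
  rw [this, map_zero]

theorem exists_rep (p : ℕ) [Fact p.Prime] (hp : 5 ≤ p) (k : Type) [Field k] [IsAlgClosed k]
    [CharP k p] :
    ∃ u, pf (sl fun i : Fin 6 => algebraMap (MvPolynomial (Fin 6) k) (FractionRing
      (MvPolynomial (Fin 6) k)) (X i)) u =
      hh fun i : Fin 6 => algebraMap (MvPolynomial (Fin 6) k) (FractionRing
      (MvPolynomial (Fin 6) k)) (X i) := by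
  classical
  have kne : ∀ m : ℕ, 0 < m → m < p → ((m : ℕ) : k) ≠ 0 := by
    intro m h1 h2 h3
    exact absurd (Nat.le_of_dvd h1 ((CharP.cast_eq_zero_iff _ p m).1 h3)) (by omega)
  have k2 : (2 : k) ≠ 0 := by exact_mod_cast kne 2 (by omega) (by omega)
  have k3 : (3 : k) ≠ 0 := by exact_mod_cast kne 3 (by omega) (by omega)
  have k12 : (12 : k) ≠ 0 := by
    have : (12 : k) = 2 * 2 * 3 := by norm_num
    rw [this]; exact mul_ne_zero (mul_ne_zero k2 k2) k3
  set K := FractionRing (MvPolynomial (Fin 6) k) with hK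
  set φ : MvPolynomial (Fin 6) k →+* K := algebraMap (MvPolynomial (Fin 6) k) K with hφ
  set x : Fin 6 → K := fun i => φ (X i) with hx
  have K2 : (2 : K) ≠ 0 := by
    have := (map_ne_zero (algebraMap k K)).2 k2
    rwa [map_ofNat] at this
  have K3 : (3 : K) ≠ 0 := by
    have := (map_ne_zero (algebraMap k K)).2 k3
    rwa [map_ofNat] at this
  obtain ⟨i0, hi0⟩ := IsAlgClosed.exists_pow_nat_eq (-1 : k) (n := 2) (by norm_num)
  set ii : K := algebraMap k K i0 with hii
  have hi : ii ^ 2 = -1 := by rw [hii, ← map_pow, hi0, map_neg, map_one]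
  -- non-vanishing
  have hx0 : ∀ i, x i ≠ 0 := fun i => rep_ne (X i) (fun _ => 1) (by simp)
  have hDD : DD (x 2) (x 3) (x 4) ≠ 0 := by
    have h := rep_ne (k := k) (DD (X 2) (X 3) (X 4)) (fun i => if i = 4 then 1 else 0)
      (by simp [DD, cc])
    rwa [rep_DD] at h
  have hgg : gg (x 2) (x 3) (x 4) ≠ 0 := by
    have h := rep_ne (k := k) (gg (X 2) (X 3) (X 4)) (fun i => if i = 4 then 1 else 0)
      (by simp [gg, SS, DD, cc]; exact k3)
    rwa [rep_gg] at h
  set D : K := DD (x 2) (x 3) (x 4) with hDdef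
  set S : K := SS (x 2) (x 3) (x 4) with hSdef
  have hS : ∀ c : k, S ≠ algebraMap k K c * D := by
    intro c hc
    have e1 : algebraMap k K c = φ (C c) := by
      rw [hφ, ← MvPolynomial.algebraMap_eq, ← IsScalarTower.algebraMap_apply]
    have hs' : φ (SS (X 2) (X 3) (X 4) - C c * DD (X 2) (X 3) (X 4)) = 0 := by
      rw [map_sub, map_mul, ← e1]
      have h1 : φ (SS (X 2) (X 3) (X 4)) = S := rep_SS φ _ _ _
      have h2 : φ (DD (X 2) (X 3) (X 4)) = D := rep_DD φ _ _ _
      rw [h1, h2, hc, sub_self]
    by_cases hc0 : c = 0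
    · refine rep_ne (k := k) _ (fun i => if i = 2 ∨ i = 4 then 1 else 0) ?_ hs'
      simp [SS, DD, cc, hc0, k3]
    · refine rep_ne (k := k) _ (fun i => if i = 4 then 1 else 0) ?_ hs'
      simp [SS, DD, cc, hc0]
  have hxtr : ∀ i, Transcendental k (x i) := by
    intro i
    have h := MvPolynomial.transcendental_X k i
    exact (transcendental_algebraMap_iff (R := k) (S := MvPolynomial (Fin 6) k) (A := K)
      (IsFractionRing.injective _ _)).2 h
  have hstr : Transcendental k (S / D) := by
    intro halg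
    obtain ⟨c, hc⟩ : ∃ c : k, algebraMap k K c = S / D := by
      have hd := IsAlgClosed.degree_eq_one_of_irreducible k (minpoly.irreducible halg.isIntegral)
      exact minpoly.mem_range_of_degree_eq_one k (S / D) hd
    exact hS c (by rw [hc, div_mul_cancel₀ _ hDD])
  have h12 : x 0 ≠ x 1 := by
    intro h
    refine rep_ne (k := k) (X 0 - X 1) (fun i => if i = 0 then 1 else 0) (by simp) ?_
    rw [map_sub]; exact sub_eq_zero.2 h
  have h34 : x 2 ≠ x 3 := by
    intro h
    refine rep_ne (k := k) (X 2 - X 3) (fun i => if i = 2 then 1 else 0) (by simp) ?_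
    rw [map_sub]; exact sub_eq_zero.2 h
  have h1s : x 0 ≠ S / D := by
    intro h
    rw [eq_div_iff hDD] at h
    refine rep_ne (k := k) (X 0 * DD (X 2) (X 3) (X 4) - SS (X 2) (X 3) (X 4))
      (fun i => if i = 0 ∨ i = 4 then 1 else 0) (by simp [DD, SS, cc]) ?_
    have h1 : φ (SS (X 2) (X 3) (X 4)) = S := rep_SS φ _ _ _
    have h2 : φ (DD (X 2) (X 3) (X 4)) = D := rep_DD φ _ _ _
    change φ _ = 0
    rw [map_sub, map_mul, h1, h2]; exact sub_eq_zero.2 h
  have h3s : x 2 ≠ S / D / 3 := by
    intro h
    rw [eq_div_iff K3, eq_div_iff hDD] at h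
    have hcc : cc (x 2) (x 3) * (x 3 - x 2) = 0 := by
      have : x 2 * 3 * D - S = 3 * (cc (x 2) (x 3) * (x 3 - x 2)) := by
        simp only [hDdef, hSdef, DD, SS, cc]; ring
      rw [h, sub_self] at this
      rcases mul_eq_zero.1 this.symm with h' | h'
      · exact absurd h' K3
      · exact h'
    have h' : cc (x 2) (x 3) * (x 3 - x 2) = φ (cc (X 2) (X 3) * (X 3 - X 2)) := by
      rw [map_mul, map_sub, rep_cc]
    rw [h'] at hcc
    refine rep_ne (k := k) _ (fun i => if i = 2 then 2 else 3) ?_ hcc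
    have e : (aeval (fun i : Fin 6 => if i = 2 then (2 : k) else 3))
        (cc (X 2) (X 3) * (X 3 - X 2) : MvPolynomial (Fin 6) k) = 12 := by
      simp [cc]; norm_num
    rw [e]; exact k12
  -- the values over the quadratic extension
  have key : ∀ z r : K, ∃ u, pf [gg (x 2) (x 3) (x 4), x 0, x 1, x 2, x 3] u =
      z ^ 2 - r ^ 2 * dd (x 0) (x 1) (x 2) (x 3) (x 4) := by
    intro z r
    refine pf_quad_ext K2 ii hi _ _ _ _ _ _ (hx0 0) (hx0 1) (hx0 2) (hx0 3) hgg ?_ z r
    intro M _ _ y hy
    let : Algebra k M := ((algebraMap K M).comp (algebraMap k K)).toAlgebra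
    have : IsScalarTower k K M := IsScalarTower.of_algebraMap_eq (fun _ => rfl)
    have : CharP M p := charP_of_injective_algebraMap (algebraMap k M).injective p
    have inj : Function.Injective (algebraMap K M) := (algebraMap K M).injective
    have tr : ∀ a : K, Transcendental k a → Transcendental k (algebraMap K M a) :=
      fun a ha => (transcendental_algebraMap_iff inj).2 ha
    set a : K →+* M := algebraMap K M with ha
    have aD : a D ≠ 0 := (map_ne_zero a).2 hDD
    have a3 : (3 : M) ≠ 0 := by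
      have := (map_ne_zero a).2 K3
      rwa [map_ofNat] at this
    obtain ⟨u, hu⟩ := val_g p hp M k (a (S / D)) (a (x 0)) (a (x 1)) (a (x 2)) (a (x 3))
      (y / a D) (a (x 4) * (a (x 2) - a (S / D) / 3)) (tr _ (hxtr 0)) (tr _ (hxtr 1))
      (tr _ (hxtr 2)) (tr _ (hxtr 3)) (tr _ hstr) (fun h => h12 (inj h)) (fun h => h34 (inj h))
      (fun h => h1s (inj h)) (fun h => h3s (inj (by rw [h, map_div₀ a (S / D) 3, map_ofNat])))
      (by
        rw [div_pow, hy, map_div₀]
        have e : a (dd (x 0) (x 1) (x 2) (x 3) (x 4)) =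
            a (x 0) * (a (x 0) - 1) * (a (x 1) * (a (x 1) - 1)) *
            ((a D * a (x 0) - a S) * (a D * a (x 1) - a S)) := by
          rw [rep_dd]; simp only [dd, hDdef, hSdef, rep_DD, rep_SS]
        rw [e]
        simp only [leg]
        field_simp)
      (by
        rw [map_div₀]
        have eD : a D = a (x 4) ^ 2 - cc (a (x 2)) (a (x 3)) := by
          rw [hDdef, rep_DD]; rfl
        have eS : a S = 3 * (a (x 4) ^ 2 * a (x 2) - cc (a (x 2)) (a (x 3)) * a (x 3)) := by
          rw [hSdef, rep_SS]; rfl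
        have f1 : a (x 2) - a S / a D / 3 =
            cc (a (x 2)) (a (x 3)) * (a (x 3) - a (x 2)) / a D := by
          rw [eq_div_iff aD]
          have : a S / a D / 3 * a D = a S / 3 := by field_simp
          rw [sub_mul, this, eS, eD]
          field_simp
          ring
        have f2 : a (x 3) - a S / a D / 3 =
            a (x 4) ^ 2 * (a (x 3) - a (x 2)) / a D := by
          rw [eq_div_iff aD]
          have : a S / a D / 3 * a D = a S / 3 := by field_simp
          rw [sub_mul, this, eS, eD]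
          field_simp
          ring
        simp only [leg]
        rw [f1, f2]
        simp only [cc]
        ring)
    refine ⟨fun j => a D * u j, ?_⟩
    have e := rep_smul [a (x 0), a (x 1), a (x 2), a (x 3)] u (a D)
    refine e.trans ?_
    rw [hu, map_div₀]
    have e2 : a (gg (x 2) (x 3) (x 4)) = (a S - a D) * (a S - 3 * a D) := by
      rw [rep_gg]; simp only [gg, hDdef, hSdef, rep_DD, rep_SS]
    rw [e2]
    field_simp
  obtain ⟨u1, hu1⟩ := key (x 5) 1
  obtain ⟨u2, hu2⟩ := key (x 5) 2
  have hl : ∀ c ∈ [gg (x 2) (x 3) (x 4), x 0, x 1, x 2, x 3], c ≠ 0 := by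
    intro c hc
    simp only [List.mem_cons, List.not_mem_nil, or_false] at hc
    rcases hc with h | h | h | h | h
    · rw [h]; exact hgg
    all_goals rw [h]; exact hx0 _
  obtain ⟨u, hu⟩ := pf_mul _ hl u1 u2
  refine ⟨u, ?_⟩
  change pf [gg (x 2) (x 3) (x 4), x 0, x 1, x 2, x 3] u = hh x
  rw [hu, hu1, hu2]
  simp only [hh]
  ring

end Pool.Agent.RR
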