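import Pool.Agent.RR.Basic

/-! # Project RR: the symbol of a value of a Pfister form -/

set_option autoImplicit false

namespace Pool.Agent.RR

open MvPolynomial

theorem pf_sym {F : Type} [Field F] (l : List F) (hl : ∀ c ∈ l, c ≠ 0) (v : BI l.length → F)
    (h : pf l v ≠ 0) : (l.map sy).prod * sy (pf l v) = 0 := by
  induction l with
  | nil =>
    show (List.map sy ([] : List F)).prod * sy (v () ^ 2) = 0
    rw [sy_sq, mul_zero]
  | cons c l ih =>
    have hc : c ≠ 0 := hl c (by simp)
    have hl' : ∀ c ∈ l, c ≠ 0 := fun x hx => hl x (by simp [hx])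
    have key : ∀ w : BI l.length → F, (l.map sy).prod * sy (pf l w) = 0 := by
      intro w
      by_cases hw : pf l w = 0
      · rw [hw, sy_zero, mul_zero]
      · exact ih hl' w hw
    have h' : pf l (fun i => v (Sum.inl i)) + c * pf l (fun i => v (Sum.inr i)) ≠ 0 := h
    show (List.map sy (c :: l)).prod *
      sy (pf l (fun i => v (Sum.inl i)) + c * pf l (fun i => v (Sum.inr i))) = 0
    have ha := key (fun i => v (Sum.inl i))
    have hb := key (fun i => v (Sum.inr i))
    generalize pf l (fun i => v (Sum.inl i)) = a at *
    generalize pf l (fun i => v (Sum.inr i)) = b at *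
    rw [List.map_cons, List.prod_cons]
    generalize (l.map sy).prod = G at *
    by_cases hb0 : b = 0
    · subst hb0
      rw [mul_zero, add_zero]
      linear_combination (sy c) * ha
    · have hcb : sy (c * b) = sy c + sy b := sy_mul hc hb0
      by_cases ha0 : a = 0
      · subst ha0
        rw [zero_add, hcb]
        linear_combination G * sy_mul_self c + sy c * hb
      · have h3 := sy_st3 (a := a) (b := c * b) (c := a + c * b) rfl
        rw [hcb] at h3
        have h4 := sy_mul_self (a + c * b)
        generalize sy (a + c * b) = H at *
        linear_combination G * h3 - (sy c + sy b + H) * ha - H * hb - G * h4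

end Pool.Agent.RR
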