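import Pool.Agent.RR.Basic
import Pool.Agent.RR.PfSym
import Pool.Agent.RR.Local
import Pool.Agent.RR.Shape
import Pool.Agent.RR.Basis

/-!
# RR-25: the symbol on the function field is unramified
-/

set_option autoImplicit false

namespace Pool.Agent.RR

open MvPolynomial

/-- The symbol. -/
noncomputable def symA {T : Type} [Field T] (x : Fin 6 → T) : Sym T :=
  sy (x 0) * sy (x 1) * sy (x 2) * sy (x 3) * sy (gg (x 2) (x 3) (x 4)) *
    sy (x 5 ^ 2 - dd (x 0) (x 1) (x 2) (x 3) (x 4))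

/-- Multiplying with a square does not change the symbol. -/
private theorem sy_sq_mul {F : Type} [Field F] {a b c : F} (hb : b ≠ 0) (hc : c ≠ 0)
    (h : a = b ^ 2 * c) : sy a = sy c := by
  rw [h, sy_mul (pow_ne_zero 2 hb) hc, sy_sq, zero_add]

/-- The equation holds in the function field. -/
private theorem GG_T (k : Type) [Field k] : GG (xT k) (vT k) = 0 := by
  have h := aeval_GP (k := k) (xT k) (vT k)
  rw [← h]
  have e : (aeval (R := k) (Sum.elim (xT k) (vT k)) : MvPolynomial Co k →ₐ[k] TX k) =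
      (IsScalarTower.toAlgHom k (RX k) (TX k)).comp (Ideal.Quotient.mkₐ k (Ideal.span {GP k})) := by
    refine MvPolynomial.algHom_ext ?_
    rintro (i | j)
    · rw [aeval_X]; rfl
    · rw [aeval_X]; rfl
  rw [e, AlgHom.comp_apply, Ideal.Quotient.mkₐ_eq_mk]
  have h0 : Ideal.Quotient.mk (Ideal.span {GP k}) (GP k) = 0 :=
    Ideal.Quotient.eq_zero_iff_mem.2 (Ideal.subset_span rfl)
  rw [h0, map_zero]

/-- Specialisation of the coordinates. -/
private theorem spec (k : Type) [Field k] (h2 : (2 : k) ≠ 0) (h3 : (3 : k) ≠ 0)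
    [IsDomain (RX k)] (P : MvPolynomial (Fin 6) k) (f : Fin 6 → k) (h : eval f P ≠ 0) :
    aeval (xT k) P ≠ 0 := by
  have hi : AlgebraicIndependent k (xT k) := by
    have h := (cT_algInd k h2 h3).comp (Sum.inl : Fin 6 → Co') Sum.inl_injective
    exact h
  intro h0
  apply h
  have : P = 0 := hi (by rw [h0, map_zero])
  rw [this, map_zero]

theorem symA_unram (k : Type) [Field k] [IsAlgClosed k] (h2 : (2 : k) ≠ 0) (h3 : (3 : k) ≠ 0)
    [IsDomain (RX k)] (κ : Type) [Field κ] (A : AC (TX k) κ) (hA : A.Triv k) :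
    A.Unram (symA (xT k)) := by
  have S := spec k h2 h3
  obtain ⟨x, hx⟩ : ∃ x, x = xT k := ⟨_, rfl⟩
  obtain ⟨v, hv⟩ : ∃ v, v = vT k := ⟨_, rfl⟩
  have hG : GG x v = 0 := by rw [hx, hv]; exact GG_T k
  rw [← hx] at S
  rw [← hx]
  clear hx hv
  -- nondegeneracy
  have h3T : (3 : TX k) ≠ 0 := by
    have := (map_ne_zero (algebraMap k (TX k))).2 h3
    rwa [map_ofNat] at this
  have n0 : ∀ i, x i ≠ 0 := by
    intro i
    have := S (X i) (fun _ => 1) (by simp)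
    rwa [aeval_X] at this
  have n1 : ∀ i, x i ≠ 1 := by
    intro i
    have := S (X i - 1) (fun _ => 0) (by simp)
    rw [map_sub, aeval_X, map_one] at this
    exact fun h => this (sub_eq_zero.2 h)
  have n34 : x 3 - x 2 ≠ 0 := by
    have := S (X 3 - X 2) ![0, 0, 0, 1, 0, 0] (by simp)
    rwa [map_sub, aeval_X, aeval_X] at this
  have hD : DD (x 2) (x 3) (x 4) ≠ 0 := by
    have := S (DD (X 2) (X 3) (X 4)) ![0, 0, 0, 0, 1, 0] (by simp [DD, cc])
    simpa [DD, cc] using this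
  have hsc : ∀ c : k, SS (x 2) (x 3) (x 4) - algebraMap k (TX k) c * DD (x 2) (x 3) (x 4) ≠ 0 := by
    intro c
    by_cases hc : c = 0
    · have := S (SS (X 2) (X 3) (X 4) - C c * DD (X 2) (X 3) (X 4)) ![0, 0, 1, 0, 1, 0]
        (by simp [DD, SS, cc, hc, h3])
      simpa [DD, SS, cc] using this
    · have := S (SS (X 2) (X 3) (X 4) - C c * DD (X 2) (X 3) (X 4)) ![0, 0, 0, 0, 1, 0]
        (by simp [DD, SS, cc, hc])
      simpa [DD, SS, cc] using this
  have h1s : DD (x 2) (x 3) (x 4) * x 0 - SS (x 2) (x 3) (x 4) ≠ 0 := by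
    have := S (DD (X 2) (X 3) (X 4) * X 0 - SS (X 2) (X 3) (X 4)) ![1, 0, 0, 0, 1, 0]
      (by simp [DD, SS, cc])
    simpa [DD, SS, cc] using this
  have h2s : DD (x 2) (x 3) (x 4) * x 1 - SS (x 2) (x 3) (x 4) ≠ 0 := by
    have := S (DD (X 2) (X 3) (X 4) * X 1 - SS (X 2) (X 3) (X 4)) ![0, 1, 0, 0, 1, 0]
      (by simp [DD, SS, cc])
    simpa [DD, SS, cc] using this
  have ha : x 5 ^ 2 - dd (x 0) (x 1) (x 2) (x 3) (x 4) ≠ 0 := by
    have := S (X 5 ^ 2 - dd (X 0) (X 1) (X 2) (X 3) (X 4)) ![0, 0, 0, 0, 0, 1]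
      (by simp [dd, DD, SS, cc])
    simpa [dd, DD, SS, cc] using this
  have ha' : x 5 ^ 2 - 4 * dd (x 0) (x 1) (x 2) (x 3) (x 4) ≠ 0 := by
    have := S (X 5 ^ 2 - 4 * dd (X 0) (X 1) (X 2) (X 3) (X 4)) ![0, 0, 0, 0, 0, 1]
      (by simp [dd, DD, SS, cc])
    simpa [dd, DD, SS, cc] using this
  have hg : gg (x 2) (x 3) (x 4) ≠ 0 := by
    have := S (gg (X 2) (X 3) (X 4)) ![0, 0, 0, 0, 1, 0]
      (by simp [gg, DD, SS, cc, h3])
    simpa [gg, DD, SS, cc] using this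
  clear S
  -- the relation
  have hp : (sy (gg (x 2) (x 3) (x 4)) * (sy (x 0) * (sy (x 1) * (sy (x 2) * (sy (x 3) * 1))))) *
      sy (hh x) = 0 := by
    have e : pf (sl x) v = hh x := sub_eq_zero.1 hG
    have hh0 : hh x ≠ 0 := mul_ne_zero ha ha'
    have := pf_sym (sl x) (by
      intro c hc
      simp only [sl, List.mem_cons, List.not_mem_nil, or_false] at hc
      rcases hc with rfl | rfl | rfl | rfl | rfl
      · exact hg
      · exact n0 _
      · exact n0 _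
      · exact n0 _
      · exact n0 _) v (by rw [e]; exact hh0)
    rw [e] at this
    exact this
  have hh0 : sy (hh x) = sy (x 5 ^ 2 - dd (x 0) (x 1) (x 2) (x 3) (x 4)) +
      sy (x 5 ^ 2 - 4 * dd (x 0) (x 1) (x 2) (x 3) (x 4)) := sy_mul ha ha'
  rw [hh0] at hp
  clear hh0 hG
  -- the parameters
  obtain ⟨s, hs⟩ : ∃ s, s = SS (x 2) (x 3) (x 4) / DD (x 2) (x 3) (x 4) := ⟨_, rfl⟩
  have hsD : DD (x 2) (x 3) (x 4) * s = SS (x 2) (x 3) (x 4) := by
    rw [hs, mul_div_cancel₀ _ hD]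
  have eg : gg (x 2) (x 3) (x 4) = DD (x 2) (x 3) (x 4) ^ 2 * ((s - 1) * (s - 3)) := by
    unfold gg
    rw [← hsD]
    ring
  have ed : dd (x 0) (x 1) (x 2) (x 3) (x 4) =
      DD (x 2) (x 3) (x 4) ^ 2 * (leg s (x 0) * leg s (x 1)) := by
    unfold dd leg
    rw [← hsD]
    ring
  have ea : x 5 ^ 2 - dd (x 0) (x 1) (x 2) (x 3) (x 4) = DD (x 2) (x 3) (x 4) ^ 2 *
      ((x 5 / DD (x 2) (x 3) (x 4)) ^ 2 - leg s (x 0) * leg s (x 1)) := by
    rw [ed]
    field_simp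
  have ea' : x 5 ^ 2 - 4 * dd (x 0) (x 1) (x 2) (x 3) (x 4) = DD (x 2) (x 3) (x 4) ^ 2 *
      ((x 5 / DD (x 2) (x 3) (x 4)) ^ 2 - 4 * (leg s (x 0) * leg s (x 1))) := by
    rw [ed]
    field_simp
  have hg' : (s - 1) * (s - 3) ≠ 0 := fun h => hg (by rw [eg, h, mul_zero])
  have hb : (x 5 / DD (x 2) (x 3) (x 4)) ^ 2 - leg s (x 0) * leg s (x 1) ≠ 0 :=
    fun h => ha (by rw [ea, h, mul_zero])
  have hb' : (x 5 / DD (x 2) (x 3) (x 4)) ^ 2 - 4 * (leg s (x 0) * leg s (x 1)) ≠ 0 :=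
    fun h => ha' (by rw [ea', h, mul_zero])
  have sg := sy_sq_mul hD hg' eg
  have sa := sy_sq_mul hD hb ea
  have sa' := sy_sq_mul hD hb' ea'
  have hc : DD (x 2) (x 3) (x 4) * (x 2 - s / 3) = cc (x 2) (x 3) * (x 3 - x 2) := by
    have : DD (x 2) (x 3) (x 4) * (x 2 - s / 3) =
      DD (x 2) (x 3) (x 4) * x 2 - DD (x 2) (x 3) (x 4) * s / 3 := by ring
    rw [this, hsD]
    unfold DD SS
    field_simp
    ring
  have hd : DD (x 2) (x 3) (x 4) * (x 3 - s / 3) = x 4 ^ 2 * (x 3 - x 2) := by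
    have : DD (x 2) (x 3) (x 4) * (x 3 - s / 3) =
      DD (x 2) (x 3) (x 4) * x 3 - DD (x 2) (x 3) (x 4) * s / 3 := by ring
    rw [this, hsD]
    unfold DD SS
    field_simp
    ring
  have hcc : cc (x 2) (x 3) ≠ 0 := by
    unfold cc
    exact mul_ne_zero (mul_ne_zero (n0 _) (sub_ne_zero.2 (n1 _)))
      (mul_ne_zero (n0 _) (sub_ne_zero.2 (n1 _)))
  rw [sg, sa, sa'] at hp
  have key := local_unram h3 A hA s (x 0) (x 1) (x 2) (x 3) (x 4 * (x 2 - s / 3))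
    (x 5 / DD (x 2) (x 3) (x 4)) (fun c h => hsc c (by rw [← hsD, h]; ring)) (n0 _) (n1 _)
    (fun h => h1s (by rw [← hsD, h]; ring)) (n0 _) (n1 _)
    (fun h => h2s (by rw [← hsD, h]; ring)) (n0 _) (n1 _)
    (fun h => mul_ne_zero hcc n34 (by rw [← hc, ← h]; ring)) (n0 _) (n1 _)
    (fun h => mul_ne_zero (pow_ne_zero 2 (n0 4)) n34 (by rw [← hd, ← h]; ring))
    (div_ne_zero (n0 _) hD) (by
      have e : (DD (x 2) (x 3) (x 4)) ^ 2 * (x 4 * (x 2 - s / 3)) ^ 2 =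
        (DD (x 2) (x 3) (x 4)) ^ 2 * (leg (s / 3) (x 2) * leg (s / 3) (x 3)) := by
        calc _ = x 4 ^ 2 * (DD (x 2) (x 3) (x 4) * (x 2 - s / 3)) ^ 2 := by ring
          _ = cc (x 2) (x 3) * (DD (x 2) (x 3) (x 4) * (x 2 - s / 3)) *
            (DD (x 2) (x 3) (x 4) * (x 3 - s / 3)) := by rw [hc, hd]; ring
          _ = _ := by unfold cc leg; ring
      exact mul_left_cancel₀ (pow_ne_zero 2 hD) e) hb hb' (by
      rw [← sub_eq_zero, sub_eq_add_neg]
      have hneg : ∀ w : Sym (TX k), -w = w := fun w =>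
        (eq_neg_of_add_eq_zero_left (sy_add_self w)).symm
      rw [hneg, ← hp]
      ring)
  unfold symA
  rw [sg, sa]
  exact key

end Pool.Agent.RR
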