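import Pool.Agent.RR.Basic
import Pool.Agent.RR.Theta
import Pool.Agent.RR.Padic

/-!
# Project RR (MP_0a3790_ag), row RR-4: Milnor's exact sequence

A symbol of `F(X)` which is unramified at all places over `F` comes from `F`.
-/

set_option autoImplicit false

namespace Pool.Agent.RR

namespace Mil

variable {F : Type} [Field F]

/-- the symbol of a polynomial -/
noncomputable def ps (f : Polynomial F) : Sym (RatFunc F) :=
  sy (algebraMap (Polynomial F) (RatFunc F) f)

theorem em_ne {f : Polynomial F} (h : f ≠ 0) : algebraMap (Polynomial F) (RatFunc F) f ≠ 0 := by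
  intro h0
  exact h (RatFunc.algebraMap_injective F (by rw [h0, map_zero]))

theorem ps_zero : ps (0 : Polynomial F) = 0 := by
  unfold ps; rw [map_zero, sy_zero]

theorem ps_mul {f g : Polynomial F} (hf : f ≠ 0) (hg : g ≠ 0) : ps (f * g) = ps f + ps g := by
  unfold ps; rw [map_mul, sy_mul (em_ne hf) (em_ne hg)]

theorem ps_st3 {f g h : Polynomial F} (e : f + g = h) : (ps f + ps h) * (ps g + ps h) = 0 := by
  unfold ps
  exact sy_st3 (by rw [← e, map_add])

theorem ps_st {f g : Polynomial F} (e : f + g = 1) : ps f * ps g = 0 := by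
  unfold ps
  exact sy_st (by rw [← map_add, e, map_one])

theorem ps_self (f : Polynomial F) : ps f * ps f = 0 := sy_mul_self _

theorem ps_neg_one : ps (-1 : Polynomial F) = 0 := by
  unfold ps; rw [map_neg, map_one, sy_neg, sy_one]

/-- the subring generated by the symbols of the polynomials of degree `< d` -/
noncomputable def L (F : Type) [Field F] (d : ℕ) : Subalgebra (ZMod 2) (Sym (RatFunc F)) :=
  Algebra.adjoin (ZMod 2) {x | ∃ f : Polynomial F, f.degree < (d : WithBot ℕ) ∧ x = ps f}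

theorem ps_mem {d : ℕ} {f : Polynomial F} (h : f.degree < (d : WithBot ℕ)) : ps f ∈ L F d :=
  Algebra.subset_adjoin ⟨f, h, rfl⟩

theorem L_mono {d e : ℕ} (h : d ≤ e) : L F d ≤ L F e := by
  apply Algebra.adjoin_mono
  rintro x ⟨f, hf, rfl⟩
  exact ⟨f, lt_of_lt_of_le hf (by exact_mod_cast h), rfl⟩

theorem deg_lt (f : Polynomial F) {d : ℕ} (h : f.natDegree < d) : f.degree < (d : WithBot ℕ) :=
  lt_of_le_of_lt Polynomial.degree_le_natDegree (by exact_mod_cast h)

theorem exists_level (ξ : Sym (RatFunc F)) : ∃ d : ℕ, ξ ∈ L F (d + 1) := by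
  induction ξ using sy_induction with
  | h0 => exact ⟨0, zero_mem _⟩
  | h1 => exact ⟨0, one_mem _⟩
  | hs a ha =>
    have h1 : a = algebraMap (Polynomial F) (RatFunc F) a.num /
        algebraMap (Polynomial F) (RatFunc F) a.denom := (RatFunc.num_div_denom a).symm
    have h2 : sy a = ps a.num + ps a.denom := by
      conv_lhs => rw [h1]
      exact sy_div (em_ne (RatFunc.num_ne_zero ha)) (em_ne (RatFunc.denom_ne_zero a))
    refine ⟨max a.num.natDegree a.denom.natDegree, ?_⟩
    rw [h2]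
    exact add_mem (ps_mem (deg_lt _ (by omega))) (ps_mem (deg_lt _ (by omega)))
  | ha x y hx hy =>
    obtain ⟨d, hd⟩ := hx
    obtain ⟨e, he⟩ := hy
    exact ⟨max d e, add_mem (L_mono (by omega) hd) (L_mono (by omega) he)⟩
  | hm x y hx hy =>
    obtain ⟨d, hd⟩ := hx
    obtain ⟨e, he⟩ := hy
    exact ⟨max d e, mul_mem (L_mono (by omega) hd) (L_mono (by omega) he)⟩

theorem base_level (ξ : Sym (RatFunc F)) (h : ξ ∈ L F 1) :
    ∃ η : Sym F, symMap (algebraMap F (RatFunc F)) η = ξ := by
  induction h using Algebra.adjoin_induction with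
  | mem x hx =>
    obtain ⟨f, hf, rfl⟩ := hx
    have h1 : f = Polynomial.C (f.coeff 0) := by
      apply Polynomial.eq_C_of_degree_le_zero
      have h2 : f.degree < ((1 : ℕ) : WithBot ℕ) := hf
      exact Nat.WithBot.lt_one_iff_le_zero.1 (by simpa using h2)
    refine ⟨sy (f.coeff 0), ?_⟩
    rw [symMap_sy, IsScalarTower.algebraMap_apply F (Polynomial F) (RatFunc F),
      Polynomial.algebraMap_eq, ← h1]
    rfl
  | algebraMap r =>
    refine ⟨algebraMap (ZMod 2) _ r, ?_⟩
    exact RingHom.congr_fun (Subsingleton.elim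
      ((symMap (algebraMap F (RatFunc F))).comp (algebraMap (ZMod 2) (Sym F)))
      (algebraMap (ZMod 2) (Sym (RatFunc F)))) r
  | add x y _ _ hx hy =>
    obtain ⟨a, rfl⟩ := hx
    obtain ⟨b, rfl⟩ := hy
    exact ⟨a + b, map_add _ _ _⟩
  | mul x y _ _ hx hy =>
    obtain ⟨a, rfl⟩ := hx
    obtain ⟨b, rfl⟩ := hy
    exact ⟨a * b, map_mul _ _ _⟩

/-- monic irreducible polynomials of degree `d` -/
def Irr (F : Type) [Field F] (d : ℕ) : Set (Polynomial F) :=
  {P | Irreducible P ∧ P.Monic ∧ P.natDegree = d}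

/-- the generators of the module -/
def S (F : Type) [Field F] (d : ℕ) : Set (Sym (RatFunc F)) := insert 1 (ps '' Irr F d)

theorem coe_mem_span {d : ℕ} {x : Sym (RatFunc F)} (hx : x ∈ L F d) :
    x ∈ Submodule.span (L F d) (S F d) := by
  have h := Submodule.smul_mem (Submodule.span (L F d) (S F d)) (⟨x, hx⟩ : L F d)
    (Submodule.subset_span (Set.mem_insert 1 _))
  have e : (⟨x, hx⟩ : L F d) • (1 : Sym (RatFunc F)) = x := by
    change x * 1 = x
    rw [mul_one]
  rwa [e] at h

theorem smul_mem_span {d : ℕ} {x y : Sym (RatFunc F)} (hx : x ∈ L F d)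
    (hy : y ∈ Submodule.span (L F d) (S F d)) : x * y ∈ Submodule.span (L F d) (S F d) :=
  Submodule.smul_mem (Submodule.span (L F d) (S F d)) (⟨x, hx⟩ : L F d) hy

theorem ps_mem_span {d : ℕ} {P : Polynomial F} (h : P ∈ Irr F d) :
    ps P ∈ Submodule.span (L F d) (S F d) :=
  Submodule.subset_span (Set.mem_insert_of_mem _ ⟨P, h, rfl⟩)

theorem mul_sub (d : ℕ) : Submodule.span (L F d) (S F d) * Submodule.span (L F d) (S F d) ≤
    Submodule.span (L F d) (S F d) := by
  rw [Submodule.span_mul_span, Submodule.span_le]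
  rintro x ⟨a, ha, b, hb, rfl⟩
  change a * b ∈ Submodule.span (L F d) (S F d)
  rcases ha with rfl | ⟨P, hP, rfl⟩
  · rw [one_mul]; exact Submodule.subset_span hb
  rcases hb with rfl | ⟨Q, hQ, rfl⟩
  · rw [mul_one]; exact ps_mem_span hP
  by_cases hr : P = Q
  · rw [hr, ps_self]; exact zero_mem _
  have h1 : (P - Q).degree < (d : WithBot ℕ) := by
    have h2 : P.degree = Q.degree := by
      rw [Polynomial.degree_eq_natDegree hP.1.ne_zero, Polynomial.degree_eq_natDegree hQ.1.ne_zero,
        hP.2.2, hQ.2.2]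
    have h3 := Polynomial.degree_sub_lt_left h2 hP.1.ne_zero (by
      rw [hP.2.1.leadingCoeff, hQ.2.1.leadingCoeff])
    rwa [Polynomial.degree_eq_natDegree hP.1.ne_zero, hP.2.2] at h3
  have h4 := ps_st3 (f := Q) (g := P - Q) (h := P) (by ring)
  have h5 : ps P * ps Q = ps (P - Q) * ps Q + ps (P - Q) * ps P := by
    have h6 := ps_self P
    linear_combination h4 - h6 - sy_add_self (ps (P - Q) * ps P + ps (P - Q) * ps Q)
  rw [h5]
  exact add_mem (smul_mem_span (ps_mem h1) (ps_mem_span hQ))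
    (smul_mem_span (ps_mem h1) (ps_mem_span hP))

theorem level_le (d : ℕ) (hd : 1 ≤ d) (ξ : Sym (RatFunc F)) (h : ξ ∈ L F (d + 1)) :
    ξ ∈ Submodule.span (L F d) (S F d) := by
  induction h using Algebra.adjoin_induction with
  | mem x hx =>
    obtain ⟨f, hf, rfl⟩ := hx
    by_cases h0 : f = 0
    · rw [h0, ps_zero]; exact zero_mem _
    have h1 : f.natDegree ≤ d := by
      have := (Polynomial.natDegree_lt_iff_degree_lt h0).2 hf
      omega
    by_cases h2 : f.natDegree < d
    · exact coe_mem_span (ps_mem (deg_lt _ h2))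
    have h3 : f.natDegree = d := by omega
    have hc : f.leadingCoeff ≠ 0 := Polynomial.leadingCoeff_ne_zero.2 h0
    set c : F := f.leadingCoeff with hcdef
    set P : Polynomial F := f * Polynomial.C c⁻¹ with hP
    have hPm : P.Monic := Polynomial.monic_mul_leadingCoeff_inv h0
    have hfP : f = Polynomial.C c * P := by
      rw [hP, mul_left_comm, ← Polynomial.C_mul, mul_inv_cancel₀ hc, Polynomial.C_1, mul_one]
    have hPn : P.natDegree = d := by
      rw [hP, Polynomial.natDegree_mul_C (inv_ne_zero hc), h3]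
    have h4 : ps f = ps (Polynomial.C c) + ps P := by
      rw [hfP]
      exact ps_mul (Polynomial.C_ne_zero.2 hc) hPm.ne_zero
    rw [h4]
    refine add_mem (coe_mem_span (ps_mem (deg_lt _ ?_))) ?_
    · rw [Polynomial.natDegree_C]; omega
    by_cases hi : Irreducible P
    · exact ps_mem_span ⟨hi, hPm, hPn⟩
    have h5 : ∃ a b : Polynomial F, P = a * b ∧ ¬ IsUnit a ∧ ¬ IsUnit b := by
      have hnu : ¬ IsUnit P := by
        intro hu
        have := Polynomial.natDegree_eq_zero_of_isUnit hu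
        omega
      by_contra hcon
      push Not at hcon
      exact hi ⟨hnu, fun {a b} hab => by
        by_contra hab'
        push Not at hab'
        exact hab'.2 (hcon a b hab hab'.1)⟩
    obtain ⟨a, b, hab, ha, hb⟩ := h5
    have ha0 : a ≠ 0 := by rintro rfl; exact hPm.ne_zero (by rw [hab, zero_mul])
    have hb0 : b ≠ 0 := by rintro rfl; exact hPm.ne_zero (by rw [hab, mul_zero])
    have h6 : a.natDegree + b.natDegree = d := by
      rw [← Polynomial.natDegree_mul ha0 hb0, ← hab, hPn]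
    have h7 : 0 < a.natDegree := by
      rcases Nat.eq_zero_or_pos a.natDegree with h | h
      · exact absurd (Polynomial.isUnit_iff_degree_eq_zero.2 (by
          rw [Polynomial.degree_eq_natDegree ha0, h]; rfl)) ha
      · exact h
    have h8 : 0 < b.natDegree := by
      rcases Nat.eq_zero_or_pos b.natDegree with h | h
      · exact absurd (Polynomial.isUnit_iff_degree_eq_zero.2 (by
          rw [Polynomial.degree_eq_natDegree hb0, h]; rfl)) hb
      · exact h
    rw [hab, ps_mul ha0 hb0]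
    exact add_mem (coe_mem_span (ps_mem (deg_lt _ (by omega))))
      (coe_mem_span (ps_mem (deg_lt _ (by omega))))
  | algebraMap r => exact coe_mem_span (Subalgebra.algebraMap_mem _ r)
  | add x y _ _ hx hy => exact add_mem hx hy
  | mul x y _ _ hx hy => exact mul_sub d (Submodule.mul_mem_mul hx hy)

/-- the ideal of the symbols whose product with `[P]` is of level `d` -/
noncomputable def J (d : ℕ) (P : Polynomial F) : Ideal (L F d) where
  carrier := {ν | ps P * (ν : Sym (RatFunc F)) ∈ L F d}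
  add_mem' := by
    intro a b ha hb
    change ps P * ((a : Sym (RatFunc F)) + b) ∈ L F d
    rw [mul_add]
    exact add_mem ha hb
  zero_mem' := by
    change ps P * (0 : Sym (RatFunc F)) ∈ L F d
    rw [mul_zero]
    exact zero_mem _
  smul_mem' := by
    intro c x hx
    change ps P * ((c : Sym (RatFunc F)) * x) ∈ L F d
    rw [mul_left_comm]
    exact mul_mem c.2 hx

theorem mem_J {d : ℕ} {P : Polynomial F} {ν : L F d} :
    ν ∈ J d P ↔ ps P * (ν : Sym (RatFunc F)) ∈ L F d := Iff.rfl

theorem exists_psi (d : ℕ) (hd : 1 ≤ d) (P : Polynomial F) [hP : Fact (Irreducible P)]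
    (hm : P.Monic) (hdeg : P.natDegree = d) :
    ∃ Ψ : Sym (AdjoinRoot P) →+* (L F d ⧸ J d P), ∀ (g : Polynomial F)
      (hg : g.degree < (d : WithBot ℕ)),
      Ψ (sy (AdjoinRoot.mk P g)) = Ideal.Quotient.mk _ ⟨ps g, ps_mem hg⟩ := by
  have hPd : P.degree = d := by rw [Polynomial.degree_eq_natDegree hm.ne_zero, hdeg]
  let rep : AdjoinRoot P → Polynomial F := AdjoinRoot.modByMonicHom hm
  have rep_mk : ∀ f, rep (AdjoinRoot.mk P f) = f %ₘ P := AdjoinRoot.modByMonicHom_mk hm
  have mk_rep : ∀ u, AdjoinRoot.mk P (rep u) = u := AdjoinRoot.mk_leftInverse hm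
  have rep_deg : ∀ u, (rep u).degree < (d : WithBot ℕ) := by
    intro u
    obtain ⟨f, rfl⟩ := AdjoinRoot.mk_surjective u
    rw [rep_mk, ← hPd]
    exact Polynomial.degree_modByMonic_lt f hm
  have rep_of : ∀ g : Polynomial F, g.degree < (d : WithBot ℕ) →
      rep (AdjoinRoot.mk P g) = g := by
    intro g hg
    rw [rep_mk]
    exact (Polynomial.modByMonic_eq_self_iff hm).2 (by rw [hPd]; exact hg)
  have rep_add : ∀ u v, rep (u + v) = rep u + rep v := map_add (AdjoinRoot.modByMonicHom hm)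
  have rep_one : rep 1 = 1 := by
    rw [← map_one (AdjoinRoot.mk P)]
    exact rep_of 1 (deg_lt _ (by rw [Polynomial.natDegree_one]; omega))
  have rep_neg_one : rep (-1) = -1 := by
    have := map_neg (AdjoinRoot.modByMonicHom hm) 1
    change rep (-1) = - rep 1 at this
    rw [this, rep_one]
  have rep_ne : ∀ u : AdjoinRoot P, u ≠ 0 → rep u ≠ 0 := by
    intro u hu h0
    apply hu
    rw [← mk_rep u, h0, map_zero]
  let g : (AdjoinRoot P)ˣ → (L F d ⧸ J d P) := fun u =>
    Ideal.Quotient.mk _ ⟨ps (rep u), ps_mem (rep_deg u)⟩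
  have h1 : ∀ a b, g (a * b) = g a + g b := by
    intro a b
    have ha := rep_ne a a.ne_zero
    have hb := rep_ne b b.ne_zero
    have hab := rep_ne _ (a * b).ne_zero
    set p := rep (a : AdjoinRoot P) with hp
    set q := rep (b : AdjoinRoot P) with hq
    set r := rep ((a * b : (AdjoinRoot P)ˣ) : AdjoinRoot P) with hr
    have hr' : r = (p * q) %ₘ P := by
      rw [hr, ← rep_mk, map_mul, mk_rep, mk_rep, Units.val_mul]
    set f := (p * q) /ₘ P with hf
    have hpq : r + P * f = p * q := by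
      rw [hr', hf]
      exact Polynomial.modByMonic_add_div (p * q) P
    have key : ps P * (ps r + ps p + ps q) ∈ L F d := by
      by_cases hf0 : f = 0
      · have h2 : r = p * q := by rw [← hpq, hf0, mul_zero, add_zero]
        have h3 : ps r + ps p + ps q = 0 := by
          rw [h2, ps_mul ha hb, add_assoc]
          exact sy_add_self _
        rw [h3, mul_zero]
        exact zero_mem _
      · have h2 := ps_st3 (f := P * f) (g := r) (h := p * q) (by rw [add_comm]; exact hpq)
        rw [ps_mul hm.ne_zero hf0, ps_mul ha hb] at h2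
        have hfd : f.degree < (d : WithBot ℕ) := by
          apply deg_lt
          have h3 : f.natDegree = (p * q).natDegree - P.natDegree :=
            Polynomial.natDegree_divByMonic _ hm
          rw [h3, Polynomial.natDegree_mul ha hb, hdeg]
          have h4 := (Polynomial.natDegree_lt_iff_degree_lt ha).2 (rep_deg a)
          have h5 := (Polynomial.natDegree_lt_iff_degree_lt hb).2 (rep_deg b)
          omega
        have h6 : ps P * (ps r + ps p + ps q) = (ps f + ps p + ps q) * (ps r + ps p + ps q) := by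
          linear_combination h2 - sy_add_self ((ps f + ps p + ps q) * (ps r + ps p + ps q))
        rw [h6]
        have hpL : ps p ∈ L F d := ps_mem (rep_deg a)
        have hqL : ps q ∈ L F d := ps_mem (rep_deg b)
        have hrL : ps r ∈ L F d := ps_mem (rep_deg _)
        exact mul_mem (add_mem (add_mem (ps_mem hfd) hpL) hqL) (add_mem (add_mem hrL hpL) hqL)
    change Ideal.Quotient.mk (J d P) _ = Ideal.Quotient.mk (J d P) _ + Ideal.Quotient.mk (J d P) _
    rw [← map_add, Ideal.Quotient.eq, mem_J]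
    change ps P * (ps r - (ps p + ps q)) ∈ L F d
    have h7 : ps r - (ps p + ps q) = ps r + ps p + ps q := by
      linear_combination - sy_add_self (ps p + ps q)
    rw [h7]
    exact key
  have h2 : ∀ a b : (AdjoinRoot P)ˣ, (a : AdjoinRoot P) + b = 1 → g a * g b = 0 := by
    intro a b hab
    have h3 : rep (a : AdjoinRoot P) + rep (b : AdjoinRoot P) = 1 := by
      rw [← rep_add, hab, rep_one]
    change Ideal.Quotient.mk (J d P) _ * Ideal.Quotient.mk (J d P) _ = 0
    rw [← map_mul]
    have h4 : (⟨ps (rep (a : AdjoinRoot P)), ps_mem (rep_deg a)⟩ : L F d) *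
        ⟨ps (rep (b : AdjoinRoot P)), ps_mem (rep_deg b)⟩ = 0 := Subtype.ext (ps_st h3)
    rw [h4, map_zero]
  have h3 : g (-1) = 0 := by
    change Ideal.Quotient.mk (J d P) _ = 0
    have h4 : (⟨ps (rep ((-1 : (AdjoinRoot P)ˣ) : AdjoinRoot P)), ps_mem (rep_deg _)⟩ : L F d) = 0 := by
      apply Subtype.ext
      change ps (rep ((-1 : (AdjoinRoot P)ˣ) : AdjoinRoot P)) = 0
      rw [Units.val_neg, Units.val_one, rep_neg_one, ps_neg_one]
    rw [h4, map_zero]
  refine ⟨Sym.lift g h1 h2 h3, ?_⟩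
  intro f hf
  by_cases hf0 : f = 0
  · subst hf0
    rw [map_zero, sy_zero, map_zero]
    have h4 : (⟨ps (0 : Polynomial F), ps_mem hf⟩ : L F d) = 0 := Subtype.ext ps_zero
    rw [h4, map_zero]
  · have hmk : AdjoinRoot.mk P f ≠ 0 := by
      intro h0
      have h5 := rep_of f hf
      have h6 := rep_of 0 (by rw [Polynomial.degree_zero]; exact WithBot.bot_lt_coe _)
      rw [map_zero] at h6
      rw [h0, h6] at h5
      exact hf0 h5.symm
    rw [Sym.lift_sy g h1 h2 h3 _ hmk]
    change Ideal.Quotient.mk (J d P) _ = Ideal.Quotient.mk (J d P) _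
    congr 1
    apply Subtype.ext
    change ps (rep (AdjoinRoot.mk P f)) = ps f
    rw [rep_of f hf]

theorem theta_level (d : ℕ) (P : Polynomial F) [hP : Fact (Irreducible P)]
    (hdeg : P.degree = d)
    (Ψ : Sym (AdjoinRoot P) →+* (L F d ⧸ J d P))
    (hΨ : ∀ (g : Polynomial F) (hg : g.degree < (d : WithBot ℕ)),
      Ψ (sy (AdjoinRoot.mk P g)) = Ideal.Quotient.mk _ ⟨ps g, ps_mem hg⟩)
    (A : AC (RatFunc F) (AdjoinRoot P))
    (hA : ∀ f : Polynomial F, ¬ P ∣ f → A.ord (algebraMap _ (RatFunc F) f) = 0 ∧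
        A.ac (algebraMap _ (RatFunc F) f) = AdjoinRoot.mk P f)
    (θ : Sym (RatFunc F) →+* DualNumber (Sym (AdjoinRoot P))) (hθ : A.IsTheta θ)
    (ν : Sym (RatFunc F)) (hν : ν ∈ L F d) :
    ∃ w : Sym (AdjoinRoot P), θ ν = TrivSqZeroExt.inl w ∧
      Ψ w = Ideal.Quotient.mk _ ⟨ν, hν⟩ := by
  induction hν using Algebra.adjoin_induction with
  | mem x hx =>
    obtain ⟨f, hf, rfl⟩ := hx
    refine ⟨sy (AdjoinRoot.mk P f), ?_, hΨ f hf⟩
    by_cases hf0 : f = 0
    · rw [hf0, ps_zero, map_zero, map_zero, sy_zero, TrivSqZeroExt.inl_zero]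
    have h1 : ¬ P ∣ f := Polynomial.not_dvd_of_degree_lt hf0 (by rw [hdeg]; exact hf)
    obtain ⟨h2, h3⟩ := hA f h1
    have h4 := hθ _ (em_ne hf0)
    rw [h2, h3] at h4
    unfold ps
    rw [h4, Int.cast_zero, TrivSqZeroExt.inr_zero, add_zero]
  | algebraMap r =>
    refine ⟨algebraMap (ZMod 2) _ r, ?_, ?_⟩
    · exact RingHom.congr_fun (Subsingleton.elim
        (θ.comp (algebraMap (ZMod 2) (Sym (RatFunc F))))
        ((TrivSqZeroExt.inlHom (Sym (AdjoinRoot P)) (Sym (AdjoinRoot P))).comp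
          (algebraMap (ZMod 2) (Sym (AdjoinRoot P))))) r
    · exact RingHom.congr_fun (Subsingleton.elim
        (Ψ.comp (algebraMap (ZMod 2) (Sym (AdjoinRoot P))))
        ((Ideal.Quotient.mk (J d P)).comp (algebraMap (ZMod 2) (L F d)))) r
  | add x y hx' hy' hx hy =>
    obtain ⟨a, ha, ha'⟩ := hx
    obtain ⟨b, hb, hb'⟩ := hy
    refine ⟨a + b, by rw [map_add, ha, hb, TrivSqZeroExt.inl_add], ?_⟩
    rw [map_add, ha', hb', ← map_add]
    rfl
  | mul x y hx' hy' hx hy =>
    obtain ⟨a, ha, ha'⟩ := hx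
    obtain ⟨b, hb, hb'⟩ := hy
    refine ⟨a * b, by rw [map_mul, ha, hb, TrivSqZeroExt.inl_mul], ?_⟩
    rw [map_mul, ha', hb', ← map_mul]
    rfl

theorem descend (d : ℕ) (hd : 1 ≤ d) (ξ : Sym (RatFunc F)) (hξ : ξ ∈ L F (d + 1))
    (h : ∀ (κ : Type) [Field κ] (A : AC (RatFunc F) κ), A.Triv F → A.Unram ξ) : ξ ∈ L F d := by
  have h1 := level_le d hd ξ hξ
  unfold S at h1
  obtain ⟨a, z, hz, hξa⟩ := Submodule.mem_span_insert.1 h1
  obtain ⟨l, hl, hlz⟩ := (Finsupp.mem_span_image_iff_linearCombination (L F d)).1 hz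
  rw [Finsupp.mem_supported] at hl
  have hsum : ξ = (a : Sym (RatFunc F)) + ∑ Q ∈ l.support, (l Q : Sym (RatFunc F)) * ps Q := by
    rw [hξa, ← hlz, Finsupp.linearCombination_apply, Finsupp.sum]
    congr 1
    change (a : Sym (RatFunc F)) * 1 = a
    rw [mul_one]
  have key : ∀ P ∈ l.support, (l P : Sym (RatFunc F)) * ps P ∈ L F d := by
    intro P hPs
    obtain ⟨hPi, hPm, hPn⟩ := hl hPs
    have : Fact (Irreducible P) := ⟨hPi⟩
    have hPd : P.degree = d := by rw [Polynomial.degree_eq_natDegree hPm.ne_zero, hPn]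
    obtain ⟨A, hT, hA, hAP, hAP'⟩ := exists_padic F P
    obtain ⟨θ, hθ⟩ := exists_theta A
    obtain ⟨Ψ, hΨ⟩ := exists_psi d hd P hPm hPn
    have hsnd := h _ A hT θ hθ
    have hlev := theta_level d P hPd Ψ hΨ A hA θ hθ
    obtain ⟨w, hw, hwΨ⟩ := hlev (l P) (l P).2
    have hθP : θ (ps P) = TrivSqZeroExt.inr 1 := by
      have h4 := hθ _ (em_ne hPi.ne_zero)
      rw [hAP, hAP', sy_one] at h4
      unfold ps
      rw [h4]
      simp
    have hθQ : ∀ Q ∈ l.support, Q ≠ P → (θ ((l Q : Sym (RatFunc F)) * ps Q)).snd = 0 := by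
      intro Q hQs hQP
      obtain ⟨hQi, hQm, hQn⟩ := hl hQs
      obtain ⟨w', hw', -⟩ := hlev (l Q) (l Q).2
      have h5 : ¬ P ∣ Q := by
        intro hdiv
        exact hQP (Polynomial.eq_of_monic_of_dvd_of_natDegree_le hPm hQm hdiv (by rw [hPn, hQn]))
      obtain ⟨h6, h7⟩ := hA Q h5
      have h8 := hθ _ (em_ne hQi.ne_zero)
      rw [h6, h7] at h8
      rw [map_mul, hw']
      unfold ps
      rw [h8]
      simp
    have hcalc : (θ ξ).snd = w := by
      obtain ⟨wa, hwa, -⟩ := hlev a a.2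
      rw [hsum, map_add, TrivSqZeroExt.snd_add, hwa, TrivSqZeroExt.snd_inl, zero_add, map_sum,
        TrivSqZeroExt.snd_sum, Finset.sum_eq_single P hθQ (fun hn => absurd hPs hn), map_mul, hw,
        hθP]
      simp
    rw [hcalc] at hsnd
    rw [hsnd, map_zero] at hwΨ
    have h9 : (⟨(l P : Sym (RatFunc F)), (l P).2⟩ : L F d) ∈ J d P :=
      Ideal.Quotient.eq_zero_iff_mem.1 hwΨ.symm
    rw [mem_J] at h9
    rw [mul_comm]
    exact h9
  rw [hsum]
  exact add_mem a.2 (sum_mem key)

end Mil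

open Mil in
theorem milnor {F : Type} [Field F] (ξ : Sym (RatFunc F))
    (h : ∀ (κ : Type) [Field κ] (A : AC (RatFunc F) κ), A.Triv F → A.Unram ξ) :
    ∃ η : Sym F, symMap (algebraMap F (RatFunc F)) η = ξ := by
  obtain ⟨d, hd⟩ := exists_level ξ
  apply base_level
  induction d with
  | zero => exact hd
  | succ n ih => exact ih (descend (n + 1) (by omega) ξ hd h)

end Pool.Agent.RR
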