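import Pool.Agent.RR.Basic
import Pool.Agent.RR.Theta
import Pool.Agent.RR.Milnor
import Pool.Agent.RR.Gauss
import Pool.Agent.RR.Inj

/-!
# Project RR: unramified symbols on a purely transcendental field are constant
-/

set_option autoImplicit false

namespace Pool.Agent.RR

open MvPolynomial

namespace UZ

/-- Transport of a discrete valuation along a ring isomorphism. -/
private noncomputable def comapAC {T T' κ : Type} [Field T] [Field T'] [Field κ] (e : T ≃+* T')
    (A : AC T' κ) : AC T κ where
  ord x := A.ord (e x)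
  ac x := A.ac (e x)
  ac_zero := by rw [map_zero]; exact A.ac_zero
  ac_ne x hx := A.ac_ne _ ((map_ne_zero_iff e e.injective).2 hx)
  ac_mul x y := by rw [map_mul]; exact A.ac_mul _ _
  ord_mul x y hx hy := by
    rw [map_mul]
    exact A.ord_mul _ _ ((map_ne_zero_iff e e.injective).2 hx)
      ((map_ne_zero_iff e e.injective).2 hy)
  add_lt x y hx hy h := by
    rw [map_add]
    exact A.add_lt _ _ ((map_ne_zero_iff e e.injective).2 hx)
      ((map_ne_zero_iff e e.injective).2 hy) h
  add_eq x y hx hy h h' := by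
    rw [map_add]
    exact A.add_eq _ _ ((map_ne_zero_iff e e.injective).2 hx)
      ((map_ne_zero_iff e e.injective).2 hy) h h'
  add_gt x y hx hy h h' h'' := by
    rw [map_add]
    refine A.add_gt _ _ ((map_ne_zero_iff e e.injective).2 hx)
      ((map_ne_zero_iff e e.injective).2 hy) h h' ?_
    rw [← map_add]
    exact (map_ne_zero_iff e e.injective).2 h''

private theorem symMap_symm {T T' : Type} [Field T] [Field T'] (e : T ≃+* T') (ξ : Sym T) :
    symMap (e.symm : T' →+* T) (symMap (e : T →+* T') ξ) = ξ := by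
  have h : (symMap (e.symm : T' →+* T)).comp (symMap (e : T →+* T')) = RingHom.id (Sym T) := by
    apply sy_hom_ext
    intro a _
    rw [RingHom.comp_apply, symMap_sy, symMap_sy]
    simp
  exact congrArg (fun f : Sym T →+* Sym T => f ξ) h

private theorem transport {k T T' : Type} [Field k] [Field T] [Field T'] [Algebra k T]
    [Algebra k T'] (e : T ≃ₐ[k] T')
    (hT' : ∀ ξ' : Sym T', (∀ (κ : Type) [Field κ] (A : AC T' κ), A.Triv k → A.Unram ξ') →
      ξ' = 0 ∨ ξ' = 1) (ξ : Sym T)
    (h : ∀ (κ : Type) [Field κ] (A : AC T κ), A.Triv k → A.Unram ξ) : ξ = 0 ∨ ξ = 1 := by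
  have h1 : ∀ (κ : Type) [Field κ] (A : AC T' κ), A.Triv k →
      A.Unram (symMap ((e.toRingEquiv : T ≃+* T') : T →+* T') ξ) := by
    intro κ _ A hA θ hθ
    have hA' : (comapAC e.toRingEquiv A).Triv k := by
      intro c hc
      change A.ord (e (algebraMap k T c)) = 0
      rw [e.commutes]
      exact hA c hc
    have h2 := h κ (comapAC e.toRingEquiv A) hA'
      (θ.comp (symMap ((e.toRingEquiv : T ≃+* T') : T →+* T'))) (by
        intro a ha
        rw [RingHom.comp_apply, symMap_sy]
        exact hθ _ ((map_ne_zero_iff e e.injective).2 ha))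
    exact h2
  have h3 := hT' _ h1
  have h4 := symMap_symm (e.toRingEquiv : T ≃+* T') ξ
  rcases h3 with h3 | h3
  · left
    rw [← h4, h3, map_zero]
  · right
    rw [← h4, h3, map_one]

private theorem theta_map {F κ : Type} [Field F] [Field κ] (A : AC F κ)
    (B : AC (RatFunc F) (RatFunc κ))
    (hB : ∀ a : F, a ≠ 0 →
      B.ord (algebraMap F (RatFunc F) a) = A.ord a ∧
      B.ac (algebraMap F (RatFunc F) a) = algebraMap κ (RatFunc κ) (A.ac a))
    (θ : Sym F →+* DualNumber (Sym κ)) (hθ : A.IsTheta θ)
    (θB : Sym (RatFunc F) →+* DualNumber (Sym (RatFunc κ))) (hθB : B.IsTheta θB) (η : Sym F) :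
    (θB (symMap (algebraMap F (RatFunc F)) η)).fst = symMap (algebraMap κ (RatFunc κ)) (θ η).fst ∧
    (θB (symMap (algebraMap F (RatFunc F)) η)).snd = symMap (algebraMap κ (RatFunc κ)) (θ η).snd := by
  induction η using sy_induction with
  | h0 => simp
  | h1 => simp
  | hs a ha =>
    have ha' : algebraMap F (RatFunc F) a ≠ 0 :=
      (map_ne_zero_iff _ (algebraMap F (RatFunc F)).injective).2 ha
    rw [symMap_sy, hθB _ ha', hθ _ ha, (hB a ha).1, (hB a ha).2]
    refine ⟨?_, ?_⟩
    · simp [symMap_sy]
    · simp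
  | ha x y hx hy =>
    refine ⟨?_, ?_⟩
    · rw [map_add, map_add, map_add, TrivSqZeroExt.fst_add, TrivSqZeroExt.fst_add, map_add, hx.1,
        hy.1]
    · rw [map_add, map_add, map_add, TrivSqZeroExt.snd_add, TrivSqZeroExt.snd_add, map_add, hx.2,
        hy.2]
  | hm x y hx hy =>
    refine ⟨?_, ?_⟩
    · rw [map_mul, map_mul, map_mul, TrivSqZeroExt.fst_mul, TrivSqZeroExt.fst_mul, map_mul, hx.1,
        hy.1]
    · rw [map_mul, map_mul, map_mul, TrivSqZeroExt.snd_mul, TrivSqZeroExt.snd_mul, map_add, hx.1,
        hy.1, hx.2, hy.2]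
      simp [map_mul, mul_comm]

private theorem step {k F : Type} [Field k] [Field F] [Algebra k F]
    (hF : ∀ ξ' : Sym F, (∀ (κ : Type) [Field κ] (A : AC F κ), A.Triv k → A.Unram ξ') →
      ξ' = 0 ∨ ξ' = 1) (ξ : Sym (RatFunc F))
    (h : ∀ (κ : Type) [Field κ] (A : AC (RatFunc F) κ), A.Triv k → A.Unram ξ) :
    ξ = 0 ∨ ξ = 1 := by
  have hk : ∀ c : k, algebraMap k (RatFunc F) c = algebraMap F (RatFunc F) (algebraMap k F c) :=
    fun c => IsScalarTower.algebraMap_apply k F (RatFunc F) c
  obtain ⟨η, hη⟩ := milnor ξ (by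
    intro κ _ A hA
    apply h κ A
    intro c hc
    rw [hk c]
    exact hA _ ((map_ne_zero_iff _ (algebraMap k F).injective).2 hc))
  have h1 : ∀ (κ : Type) [Field κ] (A : AC F κ), A.Triv k → A.Unram η := by
    intro κ _ A hA θ hθ
    obtain ⟨B, hB⟩ := exists_gauss A
    obtain ⟨θB, hθB⟩ := exists_theta B
    have hBk : B.Triv k := by
      intro c hc
      have hc' : algebraMap k F c ≠ 0 := (map_ne_zero_iff _ (algebraMap k F).injective).2 hc
      rw [hk c, (hB _ hc').1]
      exact hA c hc
    have h2 := h _ B hBk θB hθB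
    rw [← hη, (theta_map A B hB θ hθ θB hθB η).2] at h2
    apply symMap_inj κ
    rw [h2, map_zero]
  rcases hF η h1 with h2 | h2
  · left
    rw [← hη, h2, map_zero]
  · right
    rw [← hη, h2, map_one]

private theorem exists_equiv (k : Type) [Field k] (n : ℕ) :
    Nonempty (FractionRing (MvPolynomial (Fin (n + 1)) k) ≃ₐ[k]
      RatFunc (FractionRing (MvPolynomial (Fin n) k))) := by
  set R := MvPolynomial (Fin n) k with hR
  set F := FractionRing R with hF
  let f : MvPolynomial (Fin (n + 1)) k →ₐ[k] RatFunc F :=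
    ((Algebra.algHom k (Polynomial F) (RatFunc F)).comp
      (Polynomial.mapAlgHom (Algebra.algHom k R F))).comp
      (MvPolynomial.finSuccEquiv k n).toAlgHom
  have hf : ∀ p, f p = algebraMap (Polynomial F) (RatFunc F)
      (Polynomial.map (algebraMap R F) (MvPolynomial.finSuccEquiv k n p)) := by
    intro p
    rfl
  have hinj : Function.Injective f := by
    intro p q hpq
    rw [hf, hf] at hpq
    have h1 := (IsFractionRing.injective (Polynomial F) (RatFunc F)) hpq
    have h2 := Polynomial.map_injective _ (IsFractionRing.injective R F) h1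
    exact (MvPolynomial.finSuccEquiv k n).injective h2
  let φ : FractionRing (MvPolynomial (Fin (n + 1)) k) →ₐ[k] RatFunc F :=
    IsFractionRing.liftAlgHom (K := FractionRing (MvPolynomial (Fin (n + 1)) k)) (g := f) hinj
  have hφ : ∀ p : MvPolynomial (Fin (n + 1)) k,
      φ (algebraMap _ (FractionRing (MvPolynomial (Fin (n + 1)) k)) p) = f p := by
    intro p
    exact IsFractionRing.lift_algebraMap hinj p
  have hsurj : Function.Surjective φ := by
    have hmem : ∀ r : RatFunc F, r ∈ (φ : FractionRing (MvPolynomial (Fin (n + 1)) k) →+*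
        RatFunc F).fieldRange := by
      set S := (φ : FractionRing (MvPolynomial (Fin (n + 1)) k) →+* RatFunc F).fieldRange with hS
      have hfS : ∀ p, f p ∈ S := by
        intro p
        rw [hS, RingHom.mem_fieldRange]
        exact ⟨_, hφ p⟩
      have hR' : ∀ a : R, algebraMap (Polynomial F) (RatFunc F)
          (Polynomial.C (algebraMap R F a)) ∈ S := by
        intro a
        have h1 := hfS ((MvPolynomial.finSuccEquiv k n).symm (Polynomial.C a))
        rw [hf, AlgEquiv.apply_symm_apply, Polynomial.map_C] at h1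
        exact h1
      have hC : ∀ a : F, algebraMap (Polynomial F) (RatFunc F) (Polynomial.C a) ∈ S := by
        intro a
        obtain ⟨x, y, hy, rfl⟩ := IsFractionRing.div_surjective (A := R) a
        have h1 : algebraMap (Polynomial F) (RatFunc F)
            (Polynomial.C (algebraMap R F x / algebraMap R F y))
            = algebraMap (Polynomial F) (RatFunc F) (Polynomial.C (algebraMap R F x)) /
              algebraMap (Polynomial F) (RatFunc F) (Polynomial.C (algebraMap R F y)) := by
          have := map_div₀ ((algebraMap (Polynomial F) (RatFunc F)).comp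
            (Polynomial.C : F →+* Polynomial F)) (algebraMap R F x) (algebraMap R F y)
          exact this
        rw [h1]
        exact S.div_mem (hR' x) (hR' y)
      have hX : algebraMap (Polynomial F) (RatFunc F) Polynomial.X ∈ S := by
        have h1 := hfS ((MvPolynomial.finSuccEquiv k n).symm Polynomial.X)
        rw [hf, AlgEquiv.apply_symm_apply, Polynomial.map_X] at h1
        exact h1
      have hP : ∀ p : Polynomial F, algebraMap (Polynomial F) (RatFunc F) p ∈ S := by
        intro p
        induction p using Polynomial.induction_on' with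
        | add p q hp hq =>
          rw [map_add]
          exact S.add_mem hp hq
        | monomial m a =>
          rw [← Polynomial.C_mul_X_pow_eq_monomial, map_mul, map_pow]
          exact S.mul_mem (hC a) (S.pow_mem hX m)
      intro r
      obtain ⟨x, y, hy, rfl⟩ := IsFractionRing.div_surjective (A := Polynomial F) r
      exact S.div_mem (hP x) (hP y)
    intro r
    obtain ⟨x, hx⟩ := (RingHom.mem_fieldRange).1 (hmem r)
    exact ⟨x, hx⟩
  exact ⟨AlgEquiv.ofBijective φ ⟨φ.toRingHom.injective, hsurj⟩⟩

private theorem base (k : Type) [Field k] [IsAlgClosed k]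
    (ξ : Sym (FractionRing (MvPolynomial (Fin 0) k))) : ξ = 0 ∨ ξ = 1 := by
  apply sym_closed
  have hsq : ∀ p : MvPolynomial (Fin 0) k, ∃ q : MvPolynomial (Fin 0) k, p = q * q := by
    intro p
    obtain ⟨c, hc⟩ : ∃ c : k, p = MvPolynomial.C c := by
      refine ⟨MvPolynomial.isEmptyAlgEquiv k (Fin 0) p, ?_⟩
      apply (MvPolynomial.isEmptyAlgEquiv k (Fin 0)).injective
      rw [← MvPolynomial.algebraMap_eq, AlgEquiv.commutes]
      rfl
    obtain ⟨z, hz⟩ := IsAlgClosed.exists_pow_nat_eq c (n := 2) (by norm_num)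
    refine ⟨MvPolynomial.C z, ?_⟩
    rw [hc, ← hz, sq, MvPolynomial.C_mul]
  intro a
  obtain ⟨x, y, hy, rfl⟩ := IsFractionRing.div_surjective (A := MvPolynomial (Fin 0) k) a
  obtain ⟨p, hp⟩ := hsq x
  obtain ⟨q, hq⟩ := hsq y
  refine ⟨algebraMap _ _ p / algebraMap _ _ q, ?_⟩
  rw [hp, hq, map_mul, map_mul, div_mul_div_comm]

private theorem main (k : Type) [Field k] [IsAlgClosed k] (n : ℕ) :
    ∀ ξ : Sym (FractionRing (MvPolynomial (Fin n) k)),
    (∀ (κ : Type) [Field κ] (A : AC (FractionRing (MvPolynomial (Fin n) k)) κ),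
      A.Triv k → A.Unram ξ) → ξ = 0 ∨ ξ = 1 := by
  induction n with
  | zero =>
    intro ξ _
    exact base k ξ
  | succ n ih =>
    obtain ⟨e⟩ := exists_equiv k n
    exact transport e (step ih)

end UZ

theorem unram_zero {k : Type} [Field k] [IsAlgClosed k] (n : ℕ) (T : Type) [Field T] [Algebra k T]
    (e : T ≃ₐ[k] FractionRing (MvPolynomial (Fin n) k)) (ξ : Sym T)
    (h : ∀ (κ : Type) [Field κ] (A : AC T κ), A.Triv k → A.Unram ξ) : ξ = 0 ∨ ξ = 1 :=
  UZ.transport e (UZ.main k n) ξ h

end Pool.Agent.RR
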