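import Pool.Agent.RR.Basic
import Pool.Agent.RR.UnramZero
import Pool.Agent.RR.Prime
import Pool.Agent.RR.Shape
import Pool.Agent.RR.Basis
import Pool.Agent.RR.Quadric
import Pool.Agent.RR.Rep
import Pool.Agent.RR.Unr
import Pool.Agent.RR.Ne

/-!
# Project RR (MP_0a3790_ag): the hypersurface is rational modulo every prime `p ≥ 5` and not rational
over the algebraic numbers.
-/

set_option autoImplicit false

namespace Pool.Agent.RR

open MvPolynomial

theorem symA_ne [IsDomain (RX (AlgebraicClosure ℚ))] : symA (xT (AlgebraicClosure ℚ)) ≠ 0 := symA_ne'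

theorem symA_sq {T : Type} [Field T] (x : Fin 6 → T) : symA x * symA x = 0 := by
  unfold symA
  have h := sy_mul_self (x 0)
  calc _ = sy (x 0) * sy (x 0) * ((sy (x 1) * sy (x 2) * sy (x 3) * sy (gg (x 2) (x 3) (x 4)) *
    sy (x 5 ^ 2 - dd (x 0) (x 1) (x 2) (x 3) (x 4))) ^ 2) := by ring
    _ = 0 := by rw [h, zero_mul]

theorem not_rat : ¬ IsRat (AlgebraicClosure ℚ) (RX (AlgebraicClosure ℚ)) := by
  rintro ⟨n, ⟨e⟩⟩
  haveI : IsDomain (RX (AlgebraicClosure ℚ)) := isDomain_RX _ two_ne_zero three_ne_zero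
  have h := unram_zero n (TX (AlgebraicClosure ℚ)) e (symA (xT (AlgebraicClosure ℚ)))
    (fun κ _ A hA => symA_unram _ two_ne_zero three_ne_zero κ A hA)
  rcases h with h | h
  · exact symA_ne h
  · have h' := symA_sq (xT (AlgebraicClosure ℚ))
    rw [h, one_mul] at h'
    exact sym_one_ne_zero h'

theorem rat_p (p : ℕ) [hp : Fact p.Prime] (h5 : 5 ≤ p) :
    IsRat (AlgebraicClosure (ZMod p)) (RX (AlgebraicClosure (ZMod p))) := by
  haveI : CharP (AlgebraicClosure (ZMod p)) p := charP_of_injective_algebraMap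
    (algebraMap (ZMod p) _).injective p
  have key : ∀ m : ℕ, 0 < m → m < p → ((m : ℕ) : AlgebraicClosure (ZMod p)) ≠ 0 := by
    intro m h1 h2 h3
    exact absurd (Nat.le_of_dvd h1 ((CharP.cast_eq_zero_iff _ p m).1 h3)) (by omega)
  exact isRat_of_rep _ (by exact_mod_cast key 2 (by omega) (by omega))
    (by exact_mod_cast key 3 (by omega) (by omega)) (exists_rep p h5 _)

end Pool.Agent.RR
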