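import Pool.Agent.RR.NeVa

/-!
# Project RR: the calculations with the monomial valuation (for RR-31 .. 35, helper24)
-/

set_option autoImplicit false

namespace Pool.Agent.RR

/-! ### the elements, over any field -/

section Elem

variable {F : Type} [Field F]

/-- `δ₁` -/
def d1 (s u3 u4 : F) : F :=
  (1 - u3) * (1 - u4) * ((1 - 3 * (s⁻¹ * u3⁻¹)) * (1 - 3 * (s⁻¹ * u4⁻¹)))

/-- `x₃ - s/3` -/
def A3 (s u3 : F) : F := u3⁻¹ - s / 3

/-- the value of `DD` -/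
def D0 (s u3 u4 : F) : F := cc u3⁻¹ u4⁻¹ * (u4⁻¹ - u3⁻¹) / A3 s u3

/-- the unit part of `d` -/
def D1 (s x1 x2 : F) : F := (1 - x1) * (1 - x2) * ((1 - s * x1⁻¹) * (1 - s * x2⁻¹))

/-- `z² - d` for `z = x₁ x₂ (1 + t)` -/
def aa (s x1 x2 t : F) : F := (x1 * x2 * (1 + t)) ^ 2 - leg s x1 * leg s x2

/-- the coefficients of the Pfister form -/
def CC (s x1 x2 u3 u4 : F) : BI 5 → F :=
  coef [D0 s u3 u4 ^ 2 * ((s - 1) * (s - 3)), x1, x2, u3⁻¹, u4⁻¹]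

/-- all coordinates but the first -/
abbrev JJ : Type := {j : BI 5 // j ≠ j0 5}

/-- `δ₂` -/
noncomputable def d2 (s x1 x2 u3 u4 t : F) (w : JJ → F) : F :=
  1 - 3 * (leg s x1 * leg s x2 / aa s x1 x2 t) -
    9 * (∑ j : JJ, CC s x1 x2 u3 u4 j.1 * w j ^ 2) / aa s x1 x2 t ^ 2

end Elem

section

variable {K Γ : Type} [Field K] [AddCommGroup Γ] [LinearOrder Γ] [IsOrderedAddMonoid Γ]

namespace Va

/-- `x` is zero or of nonnegative coarse value -/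
def Rn (V : Va K Γ) (re : Γ →+ ℝ) (x : K) : Prop := x = 0 ∨ 0 ≤ re (V.ord x)

variable {V : Va K Γ} {re : Γ →+ ℝ}

theorem pos_of_re (mono : ∀ γ, 0 ≤ γ → 0 ≤ re γ) {γ : Γ} (h : 0 < re γ) : 0 < γ := by
  by_contra hn
  push Not at hn
  have h1 := mono (-γ) (by simpa using hn)
  rw [map_neg] at h1
  linarith

theorem re_mono (mono : ∀ γ, 0 ≤ γ → 0 ≤ re γ) {a b : Γ} (h : a ≤ b) : re a ≤ re b := by
  have h1 := mono (b - a) (sub_nonneg.2 h)
  rw [map_sub] at h1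
  linarith

theorem Rn.one : V.Rn re 1 := Or.inr (by rw [V.ord_one, map_zero])

theorem Rn.add (mono : ∀ γ, 0 ≤ γ → 0 ≤ re γ) {x y : K} (hx : V.Rn re x) (hy : V.Rn re y) :
    V.Rn re (x + y) := by
  by_cases hx0 : x = 0
  · rw [hx0, zero_add]; exact hy
  by_cases hy0 : y = 0
  · rw [hy0, add_zero]; exact hx
  by_cases h0 : x + y = 0
  · exact Or.inl h0
  right
  have h1 := re_mono mono (V.add x y hx0 hy0 h0)
  refine le_trans ?_ h1
  rcases min_choice (V.ord x) (V.ord y) with h | h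
  · rw [h]; exact hx.resolve_left hx0
  · rw [h]; exact hy.resolve_left hy0

theorem Rn.mul {x y : K} (hx : V.Rn re x) (hy : V.Rn re y) : V.Rn re (x * y) := by
  by_cases hx0 : x = 0
  · rw [hx0, zero_mul]; exact Or.inl rfl
  by_cases hy0 : y = 0
  · rw [hy0, mul_zero]; exact Or.inl rfl
  right
  rw [V.mul _ _ hx0 hy0, map_add]
  exact add_nonneg (hx.resolve_left hx0) (hy.resolve_left hy0)

theorem Rn.neg {x : K} (hx : V.Rn re x) : V.Rn re (-x) := by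
  by_cases hx0 : x = 0
  · rw [hx0, neg_zero]; exact Or.inl rfl
  · right; rw [V.ord_neg hx0]; exact hx.resolve_left hx0

theorem Rn.sub (mono : ∀ γ, 0 ≤ γ → 0 ≤ re γ) {x y : K} (hx : V.Rn re x) (hy : V.Rn re y) :
    V.Rn re (x - y) := by
  rw [sub_eq_add_neg]
  exact hx.add mono hy.neg

theorem Rn.pow {x : K} (hx : V.Rn re x) (n : ℕ) : V.Rn re (x ^ n) := by
  induction n with
  | zero => rw [pow_zero]; exact Rn.one
  | succ n ih => rw [pow_succ]; exact ih.mul hx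

theorem Rn.sum (mono : ∀ γ, 0 ≤ γ → 0 ≤ re γ) {ι : Type} (s : Finset ι) (f : ι → K)
    (h : ∀ i ∈ s, V.Rn re (f i)) : V.Rn re (∑ i ∈ s, f i) := by
  classical
  induction s using Finset.induction_on with
  | empty => rw [Finset.sum_empty]; exact Or.inl rfl
  | insert a s ha ih =>
    rw [Finset.sum_insert ha]
    exact (h a (Finset.mem_insert_self _ _)).add mono
      (ih fun i hi => h i (Finset.mem_insert_of_mem hi))

theorem Rn.inv {x : K} (hx : x ≠ 0) (h : re (V.ord x) = 0) : V.Rn re x⁻¹ := by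
  right
  rw [V.ord_inv hx, map_neg, h, neg_zero]

theorem Rn.three {x : K} (mono : ∀ γ, 0 ≤ γ → 0 ≤ re γ) (h3 : (3 : K) ≠ 0)
    (re3 : 0 < re (V.ord 3)) (hx : V.Rn re x) : V.Po (3 * x) := by
  by_cases hx0 : x = 0
  · rw [hx0, mul_zero]; exact Po.zero
  · right
    apply pos_of_re mono
    rw [V.mul _ _ h3 hx0, map_add]
    have := hx.resolve_left hx0
    linarith

theorem Rn.coef (l : List K) (hl : ∀ c ∈ l, V.Rn re c) (j : BI l.length) :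
    V.Rn re (coef l j) := by
  induction l with
  | nil => exact Rn.one
  | cons c l ih =>
    rcases j with j | j
    · exact ih (fun d hd => hl d (List.mem_cons_of_mem _ hd)) j
    · exact (hl c List.mem_cons_self).mul (ih (fun d hd => hl d (List.mem_cons_of_mem _ hd)) j)

theorem ord_two (h2 : (2 : K) ≠ 0) (h3 : (3 : K) ≠ 0) (mono : ∀ γ, 0 ≤ γ → 0 ≤ re γ)
    (re3 : 0 < re (V.ord 3)) : V.ord 2 = 0 := by
  have hp := pos_of_re mono re3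
  have h1 : (0 : Γ) ≤ V.ord 2 := by
    have h := V.add 1 1 one_ne_zero one_ne_zero (by rwa [one_add_one_eq_two])
    rwa [min_self, V.ord_one, one_add_one_eq_two] at h
  by_contra hne
  have hpos : 0 < V.ord 2 := lt_of_le_of_ne h1 (Ne.symm hne)
  have h := V.ord_add_lt (x := 1) (y := 2) one_ne_zero h2 (by rwa [V.ord_one])
  rw [show (1 : K) + 2 = 3 by norm_num, V.ord_one] at h
  rw [h] at hp
  exact lt_irrefl _ hp

/-- the class of `t`-small elements is closed under the composition of principal units -/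
theorem Po.div_mul {t x y : K} (hx : V.Po (x / t)) (hy : V.Po (y / t)) (hy' : V.Po y) :
    V.Po (((1 + x) * (1 + y) - 1) / t) := by
  have : ((1 + x) * (1 + y) - 1) / t = x / t + y / t + x / t * y := by ring
  rw [this]
  exact (hx.add hy).add (hx.mul hy'.inn)

theorem Po.of_lt {t x : K} (ht : t ≠ 0) (hx : x ≠ 0) (h : V.ord t < V.ord x) : V.Po (x / t) := by
  right
  rw [V.ord_div hx ht]
  exact sub_pos.2 h

theorem Po.of_div {t x : K} (ht : t ≠ 0) (h : V.Po (x / t)) (h' : V.Po t) : V.Po x := by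
  have : x = t * (x / t) := by field_simp
  rw [this]
  exact h'.mul h.inn

theorem Po.neg_div {t x : K} (h : V.Po (x / t)) : V.Po (-x / t) := by
  rw [_root_.neg_div]
  exact h.neg

end Va

/-- all the data of the calculation -/
structure Cal (V : Va K Γ) (re : Γ →+ ℝ) (s x1 x2 u3 u4 t : K) : Prop where
  mono : ∀ γ, 0 ≤ γ → 0 ≤ re γ
  h2 : (2 : K) ≠ 0
  h3 : (3 : K) ≠ 0
  re3 : 0 < re (V.ord 3)
  s0 : s ≠ 0
  x10 : x1 ≠ 0
  x20 : x2 ≠ 0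
  u30 : u3 ≠ 0
  u40 : u4 ≠ 0
  t0 : t ≠ 0
  sre : re (V.ord s) = 0
  x1re : re (V.ord x1) = 0
  x2re : re (V.ord x2) = 0
  u3re : re (V.ord u3) = 0
  u4re : re (V.ord u4) = 0
  tre : re (V.ord t) = 0
  tpos : 0 < V.ord t
  x1t : V.ord t < V.ord x1
  x2t : V.ord t < V.ord x2
  u3t : V.ord t < V.ord u3
  u4t : V.ord t < V.ord u4
  s1t : V.ord x1 + V.ord t < V.ord s
  s2t : V.ord x2 + V.ord t < V.ord s
  u34 : V.ord u4 < V.ord u3

namespace Cal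

variable {V : Va K Γ} {re : Γ →+ ℝ} {s x1 x2 u3 u4 t : K} (C : Cal V re s x1 x2 u3 u4 t)

include C

theorem rs : V.Rn re s := Or.inr C.sre.ge
theorem rx1 : V.Rn re x1 := Or.inr C.x1re.ge
theorem rx2 : V.Rn re x2 := Or.inr C.x2re.ge
theorem ru3 : V.Rn re u3 := Or.inr C.u3re.ge
theorem ru4 : V.Rn re u4 := Or.inr C.u4re.ge
theorem rt : V.Rn re t := Or.inr C.tre.ge
theorem r3 : V.Rn re 3 := Or.inr C.re3.le

theorem po3 {x : K} (hx : V.Rn re x) : V.Po (3 * x) := hx.three C.mono C.h3 C.re3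

theorem pu3 : V.Po u3 := Or.inr (C.tpos.trans C.u3t)
theorem pu4 : V.Po u4 := Or.inr (C.tpos.trans C.u4t)
theorem pt : V.Po t := Or.inr C.tpos

/-- `3 / (s u₃)` -/
theorem pe3 : V.Po (3 * (s⁻¹ * u3⁻¹)) :=
  C.po3 ((Va.Rn.inv C.s0 C.sre).mul (Va.Rn.inv C.u30 C.u3re))

theorem pe4 : V.Po (3 * (s⁻¹ * u4⁻¹)) :=
  C.po3 ((Va.Rn.inv C.s0 C.sre).mul (Va.Rn.inv C.u40 C.u4re))

/-- the first unit -/
theorem p1 : V.Po (d1 s u3 u4 - 1) := by
  have h1 := C.pu3.neg.one_mul_one C.pu4.neg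
  have h2 := C.pe3.neg.one_mul_one C.pe4.neg
  have h3 := h1.one_mul_one h2
  have e : d1 s u3 u4 - 1 = (1 + ((1 + -u3) * (1 + -u4) - 1)) * (1 + ((1 + -(3 * (s⁻¹ * u3⁻¹))) *
      (1 + -(3 * (s⁻¹ * u4⁻¹))) - 1)) - 1 := by
    unfold d1; ring
  rw [e]
  exact h3

theorem px1 : V.Po (x1 / t) := Va.Po.of_lt C.t0 C.x10 C.x1t
theorem px2 : V.Po (x2 / t) := Va.Po.of_lt C.t0 C.x20 C.x2t
theorem ps1 : V.Po (s * x1⁻¹ / t) := by
  refine Va.Po.of_lt C.t0 (mul_ne_zero C.s0 (inv_ne_zero C.x10)) ?_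
  rw [V.mul _ _ C.s0 (inv_ne_zero C.x10), V.ord_inv C.x10, ← sub_eq_add_neg, lt_sub_iff_add_lt,
    add_comm]
  exact C.s1t
theorem ps2 : V.Po (s * x2⁻¹ / t) := by
  refine Va.Po.of_lt C.t0 (mul_ne_zero C.s0 (inv_ne_zero C.x20)) ?_
  rw [V.mul _ _ C.s0 (inv_ne_zero C.x20), V.ord_inv C.x20, ← sub_eq_add_neg, lt_sub_iff_add_lt,
    add_comm]
  exact C.s2t

theorem pD1 : V.Po ((D1 s x1 x2 - 1) / t) := by
  have h1 := C.px1.neg_div.div_mul C.px2.neg_div ((C.px2.of_div C.t0 C.pt).neg)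
  have h2 := C.ps1.neg_div.div_mul C.ps2.neg_div ((C.ps2.of_div C.t0 C.pt).neg)
  have h3 := h1.div_mul h2 (h2.of_div C.t0 C.pt)
  have e : D1 s x1 x2 - 1 = (1 + ((1 + -x1) * (1 + -x2) - 1)) * (1 + ((1 + -(s * x1⁻¹)) *
      (1 + -(s * x2⁻¹)) - 1)) - 1 := by
    unfold D1; ring
  rw [e]
  exact h3

omit C in
theorem d_eq (h1 : x1 ≠ 0) (h2 : x2 ≠ 0) :
    leg s x1 * leg s x2 = (x1 * x2) ^ 2 * D1 s x1 x2 := by
  unfold leg D1
  field_simp
  ring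

/-- the small part of `a` -/
theorem exists_pi : ∃ π : K, V.Po π ∧ aa s x1 x2 t = (x1 * x2) ^ 2 * (t * (2 * (1 + π))) := by
  refine ⟨(t + -((D1 s x1 x2 - 1) / t)) * 2⁻¹, ?_, ?_⟩
  · refine (C.pt.add C.pD1.neg).mul (Or.inr ?_)
    rw [V.ord_inv C.h2, Va.ord_two C.h2 C.h3 C.mono C.re3, neg_zero]
  · unfold aa
    rw [d_eq C.x10 C.x20]
    have ht := C.t0
    have h2 := C.h2
    field_simp
    ring

theorem ord_a : aa s x1 x2 t ≠ 0 ∧ V.ord (aa s x1 x2 t) = 2 • (V.ord x1 + V.ord x2) + V.ord t := by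
  obtain ⟨π, hπ, e⟩ := C.exists_pi
  have h0 : (x1 * x2) ≠ 0 := mul_ne_zero C.x10 C.x20
  have h1 : 1 + π ≠ 0 := hπ.one_add_ne
  have h2 : 2 * (1 + π) ≠ 0 := mul_ne_zero C.h2 h1
  have h3 : t * (2 * (1 + π)) ≠ 0 := mul_ne_zero C.t0 h2
  constructor
  · rw [e]
    exact mul_ne_zero (pow_ne_zero 2 h0) h3
  · rw [e, V.mul _ _ (pow_ne_zero 2 h0) h3, V.ord_pow h0, V.mul _ _ C.x10 C.x20,
      V.mul _ _ C.t0 h2, V.mul _ _ C.h2 h1, hπ.ord_one_add, Va.ord_two C.h2 C.h3 C.mono C.re3,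
      add_zero, add_zero]

theorem ra : V.Rn re (aa s x1 x2 t)⁻¹ := by
  obtain ⟨h0, h1⟩ := C.ord_a
  apply Va.Rn.inv h0
  rw [h1, map_add, map_nsmul, map_add, C.x1re, C.x2re, C.tre]
  simp

theorem ps : V.Po s := by
  have h := C.ps1.of_div C.t0 C.pt
  have e : s = s * x1⁻¹ * x1 := by
    have := C.x10
    field_simp
  rw [e]
  exact h.mul (C.px1.of_div C.t0 C.pt).inn

theorem ord_g : (s - 1) * (s - 3) ≠ 0 ∧ V.ord ((s - 1) * (s - 3)) = V.ord s := by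
  have h1 := C.ps.neg
  have h2 : V.Po (-(3 * s⁻¹)) := (C.po3 (Va.Rn.inv C.s0 C.sre)).neg
  have h3 := h1.one_add_ne
  have h4 := h2.one_add_ne
  have e : (s - 1) * (s - 3) = -(s * ((1 + -s) * (1 + -(3 * s⁻¹)))) := by
    have := C.s0
    field_simp
    ring
  have h5 := mul_ne_zero h3 h4
  have h6 := mul_ne_zero C.s0 h5
  constructor
  · rw [e]; exact neg_ne_zero.2 h6
  · rw [e, V.ord_neg h6, V.mul _ _ C.s0 h5, V.mul _ _ h3 h4, h1.ord_one_add, h2.ord_one_add,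
      add_zero, add_zero]

theorem hA3 : A3 s u3 = -(s * 3⁻¹ * (1 + -(3 * (s⁻¹ * u3⁻¹)))) := by
  unfold A3
  have h1 := C.s0
  have h2 := C.u30
  have h3 := C.h3
  field_simp
  ring

theorem A3_ne : A3 s u3 ≠ 0 := by
  rw [C.hA3]
  exact neg_ne_zero.2 (mul_ne_zero (mul_ne_zero C.s0 (inv_ne_zero C.h3)) C.pe3.neg.one_add_ne)

theorem rA3 : V.Rn re (A3 s u3)⁻¹ := by
  have e : (A3 s u3)⁻¹ = -(3 * s⁻¹ * (1 + -(3 * (s⁻¹ * u3⁻¹)))⁻¹) := by
    rw [C.hA3, inv_neg, mul_inv, mul_inv, inv_inv, mul_comm s⁻¹ 3]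
  rw [e]
  refine (((C.r3).mul (Va.Rn.inv C.s0 C.sre)).mul (Va.Rn.inv C.pe3.neg.one_add_ne ?_)).neg
  rw [C.pe3.neg.ord_one_add, map_zero]

theorem rcc : V.Rn re (cc u3⁻¹ u4⁻¹) := by
  have h1 := Va.Rn.inv C.u30 C.u3re
  have h2 := Va.Rn.inv C.u40 C.u4re
  exact (h1.mul (h1.sub C.mono Va.Rn.one)).mul (h2.mul (h2.sub C.mono Va.Rn.one))

theorem cc_ne : cc u3⁻¹ u4⁻¹ ≠ 0 := by
  have h : ∀ u : K, u ≠ 0 → V.Po u → u⁻¹ * (u⁻¹ - 1) ≠ 0 := by
    intro u hu hp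
    refine mul_ne_zero (inv_ne_zero hu) ?_
    have e : u⁻¹ - 1 = u⁻¹ * (1 + -u) := by field_simp; ring
    rw [e]
    exact mul_ne_zero (inv_ne_zero hu) hp.neg.one_add_ne
  exact mul_ne_zero (h u3 C.u30 C.pu3) (h u4 C.u40 C.pu4)

theorem u_ne : u4⁻¹ - u3⁻¹ ≠ 0 := by
  intro h
  have h1 : u4 = u3 := inv_injective (sub_eq_zero.1 h)
  have h2 := C.u34
  rw [h1] at h2
  exact lt_irrefl _ h2

theorem D0_ne : D0 s u3 u4 ≠ 0 := div_ne_zero (mul_ne_zero C.cc_ne C.u_ne) C.A3_ne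

theorem rD0 : V.Rn re (D0 s u3 u4) := by
  unfold D0
  rw [div_eq_mul_inv]
  exact (C.rcc.mul ((Va.Rn.inv C.u40 C.u4re).sub C.mono (Va.Rn.inv C.u30 C.u3re))).mul C.rA3

theorem rCC (j : BI 5) : V.Rn re (CC s x1 x2 u3 u4 j) := by
  refine Va.Rn.coef [D0 s u3 u4 ^ 2 * ((s - 1) * (s - 3)), x1, x2, u3⁻¹, u4⁻¹] ?_ j
  intro c hc
  simp only [List.mem_cons, List.not_mem_nil, or_false] at hc
  rcases hc with rfl | rfl | rfl | rfl | rfl
  · exact (C.rD0.pow 2).mul ((C.rs.sub C.mono Va.Rn.one).mul (C.rs.sub C.mono C.r3))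
  · exact C.rx1
  · exact C.rx2
  · exact Va.Rn.inv C.u30 C.u3re
  · exact Va.Rn.inv C.u40 C.u4re

theorem rleg {x : K} (hx : V.Rn re x) : V.Rn re (leg s x) :=
  (hx.mul (hx.sub C.mono Va.Rn.one)).mul (hx.sub C.mono C.rs)

/-- the second unit -/
theorem p2 (w : JJ → K) (hw : ∀ j, re (V.ord (w j)) = 0) :
    V.Po (d2 s x1 x2 u3 u4 t w - 1) := by
  have e : d2 s x1 x2 u3 u4 t w - 1 = -(3 * (leg s x1 * leg s x2 * (aa s x1 x2 t)⁻¹)) +
      -(3 * (3 * (∑ j : JJ, CC s x1 x2 u3 u4 j.1 * w j ^ 2) * ((aa s x1 x2 t)⁻¹) ^ 2)) := by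
    unfold d2
    ring
  rw [e]
  refine (C.po3 ?_).neg.add (C.po3 ?_).neg
  · exact ((C.rleg C.rx1).mul (C.rleg C.rx2)).mul C.ra
  · refine ((C.r3).mul (Va.Rn.sum C.mono _ _ fun j _ => ?_)).mul (C.ra.pow 2)
    exact (C.rCC j.1).mul (Va.Rn.pow (Or.inr (hw j).ge) 2)

end Cal

end

end Pool.Agent.RR
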