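import Pool.Agent.RR.NeCalc

/-!
# Project RR: the point of the hypersurface (for RR-31 .. 35, helper24)
-/

set_option autoImplicit false

namespace Pool.Agent.RR

section

variable {F L : Type} [Field F] [Field L]

private theorem coef0_map (f : F →+* L) (j : BI 0) :
    coef ([] : List L) j = f (coef ([] : List F) j) := (map_one f).symm

private theorem coef1_map (f : F →+* L) (a : F) (j : BI 1) :
    coef [f a] j = f (coef [a] j) := by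
  rcases j with j | j
  · exact coef0_map f j
  · exact (congrArg (f a * ·) (coef0_map f j)).trans (map_mul f _ _).symm

private theorem coef2_map (f : F →+* L) (a b : F) (j : BI 2) :
    coef [f a, f b] j = f (coef [a, b] j) := by
  rcases j with j | j
  · exact coef1_map f b j
  · exact (congrArg (f a * ·) (coef1_map f b j)).trans (map_mul f _ _).symm

private theorem coef3_map (f : F →+* L) (a b c : F) (j : BI 3) :
    coef [f a, f b, f c] j = f (coef [a, b, c] j) := by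
  rcases j with j | j
  · exact coef2_map f b c j
  · exact (congrArg (f a * ·) (coef2_map f b c j)).trans (map_mul f _ _).symm

private theorem coef4_map (f : F →+* L) (a b c d : F) (j : BI 4) :
    coef [f a, f b, f c, f d] j = f (coef [a, b, c, d] j) := by
  rcases j with j | j
  · exact coef3_map f b c d j
  · exact (congrArg (f a * ·) (coef3_map f b c d j)).trans (map_mul f _ _).symm

theorem coef5_map (f : F →+* L) (a b c d e : F) (j : BI 5) :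
    coef [f a, f b, f c, f d, f e] j = f (coef [a, b, c, d, e] j) := by
  rcases j with j | j
  · exact coef4_map f b c d e j
  · exact (congrArg (f a * ·) (coef4_map f b c d e j)).trans (map_mul f _ _).symm

theorem map_cc (f : F →+* L) (a b : F) : f (cc a b) = cc (f a) (f b) := by
  unfold cc
  simp only [map_mul, map_sub, map_one]

theorem map_leg (f : F →+* L) (a b : F) : f (leg a b) = leg (f a) (f b) := by
  unfold leg
  simp only [map_mul, map_sub, map_one]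

theorem map_d1 (f : F →+* L) (s u3 u4 : F) : f (d1 s u3 u4) = d1 (f s) (f u3) (f u4) := by
  unfold d1
  simp only [map_mul, map_sub, map_one, map_inv₀, map_ofNat]

theorem map_A3 (f : F →+* L) (s u3 : F) : f (A3 s u3) = A3 (f s) (f u3) := by
  unfold A3
  simp only [map_sub, map_inv₀, map_ofNat, map_div₀]

theorem map_D0 (f : F →+* L) (s u3 u4 : F) : f (D0 s u3 u4) = D0 (f s) (f u3) (f u4) := by
  unfold D0
  rw [map_div₀, map_mul, map_cc, map_A3]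
  simp only [map_sub, map_inv₀]

theorem map_aa (f : F →+* L) (s x1 x2 t : F) :
    f (aa s x1 x2 t) = aa (f s) (f x1) (f x2) (f t) := by
  unfold aa
  simp only [map_sub, map_mul, map_pow, map_add, map_one, map_leg]

theorem map_CC (f : F →+* L) (s x1 x2 u3 u4 : F) (j : BI 5) :
    f (CC s x1 x2 u3 u4 j) = CC (f s) (f x1) (f x2) (f u3) (f u4) j := by
  have h := coef5_map f (D0 s u3 u4 ^ 2 * ((s - 1) * (s - 3))) x1 x2 u3⁻¹ u4⁻¹ j
  rw [map_inv₀, map_inv₀, map_mul, map_mul, map_pow, map_D0, map_sub, map_sub, map_one,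
    map_ofNat] at h
  exact h.symm

theorem map_d2 (f : F →+* L) (s x1 x2 u3 u4 t : F) (w : JJ → F) :
    f (d2 s x1 x2 u3 u4 t w) = d2 (f s) (f x1) (f x2) (f u3) (f u4) (f t) (fun j => f (w j)) := by
  unfold d2
  simp only [map_sub, map_mul, map_one, map_ofNat, map_div₀, map_sum, map_pow, map_leg, map_aa,
    map_CC]

/-- the coordinate `m` -/
def mm (s u3 u4 ρ : F) : F := u3⁻¹ * u4⁻¹ * (s / 3) * ρ / A3 s u3

theorem mm_sq {s u3 u4 ρ : F} (hρ : ρ ^ 2 = d1 s u3 u4) (h3 : (3 : F) ≠ 0) (hs : s ≠ 0)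
    (hu3 : u3 ≠ 0) (hu4 : u4 ≠ 0) (hA : A3 s u3 ≠ 0) :
    mm s u3 u4 ρ ^ 2 = cc u3⁻¹ u4⁻¹ * (u4⁻¹ - s / 3) / A3 s u3 := by
  unfold mm
  rw [div_pow, mul_pow, hρ, div_eq_div_iff (pow_ne_zero 2 hA) hA]
  have e : (u3⁻¹ * u4⁻¹ * (s / 3)) ^ 2 * d1 s u3 u4 = cc u3⁻¹ u4⁻¹ * (u4⁻¹ - s / 3) * A3 s u3 := by
    unfold d1 cc A3
    field_simp
    ring
  rw [e]
  ring

theorem DD_mm {s u3 u4 ρ : F} (hρ : ρ ^ 2 = d1 s u3 u4) (h3 : (3 : F) ≠ 0) (hs : s ≠ 0)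
    (hu3 : u3 ≠ 0) (hu4 : u4 ≠ 0) (hA : A3 s u3 ≠ 0) :
    DD u3⁻¹ u4⁻¹ (mm s u3 u4 ρ) = D0 s u3 u4 := by
  unfold DD D0
  rw [mm_sq hρ h3 hs hu3 hu4 hA, eq_div_iff hA, sub_mul, div_mul_cancel₀ _ hA]
  unfold A3
  ring

theorem SS_mm {s u3 u4 ρ : F} (hρ : ρ ^ 2 = d1 s u3 u4) (h3 : (3 : F) ≠ 0) (hs : s ≠ 0)
    (hu3 : u3 ≠ 0) (hu4 : u4 ≠ 0) (hA : A3 s u3 ≠ 0) :
    SS u3⁻¹ u4⁻¹ (mm s u3 u4 ρ) = s * D0 s u3 u4 := by
  unfold SS D0
  rw [mm_sq hρ h3 hs hu3 hu4 hA, mul_div_assoc', eq_div_iff hA]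
  have e : 3 * (cc u3⁻¹ u4⁻¹ * (u4⁻¹ - s / 3) / A3 s u3 * u3⁻¹ - cc u3⁻¹ u4⁻¹ * u4⁻¹) * A3 s u3 =
      3 * (cc u3⁻¹ u4⁻¹ * (u4⁻¹ - s / 3) * u3⁻¹ - cc u3⁻¹ u4⁻¹ * u4⁻¹ * A3 s u3) := by
    field_simp
  rw [e]
  have e2 : (3 : F) * (s / 3) = s := by field_simp
  unfold A3
  linear_combination (cc u3⁻¹ u4⁻¹ * (u4⁻¹ - u3⁻¹)) * e2

theorem gg_mm {s u3 u4 ρ : F} (hρ : ρ ^ 2 = d1 s u3 u4) (h3 : (3 : F) ≠ 0) (hs : s ≠ 0)
    (hu3 : u3 ≠ 0) (hu4 : u4 ≠ 0) (hA : A3 s u3 ≠ 0) :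
    gg u3⁻¹ u4⁻¹ (mm s u3 u4 ρ) = D0 s u3 u4 ^ 2 * ((s - 1) * (s - 3)) := by
  unfold gg
  rw [DD_mm hρ h3 hs hu3 hu4 hA, SS_mm hρ h3 hs hu3 hu4 hA]
  ring

theorem dd_mm {s x1 x2 u3 u4 ρ : F} (hρ : ρ ^ 2 = d1 s u3 u4) (h3 : (3 : F) ≠ 0) (hs : s ≠ 0)
    (hu3 : u3 ≠ 0) (hu4 : u4 ≠ 0) (hA : A3 s u3 ≠ 0) :
    dd x1 x2 u3⁻¹ u4⁻¹ (mm s u3 u4 ρ) = D0 s u3 u4 ^ 2 * (leg s x1 * leg s x2) := by
  unfold dd
  rw [DD_mm hρ h3 hs hu3 hu4 hA, SS_mm hρ h3 hs hu3 hu4 hA]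
  unfold leg
  ring

end

end Pool.Agent.RR
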