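import Pool.Agent.RR.Defs

/-!
# Project RR: the Gauss valuation on the rational functions in several variables
-/

set_option autoImplicit false

namespace Pool.Agent.RR

open MvPolynomial

namespace VaG

section Basic

variable {F Γ : Type} [Field F] [AddCommGroup Γ] [LinearOrder Γ] [IsOrderedAddMonoid Γ]

omit [IsOrderedAddMonoid Γ] in
theorem ord_one (V : Va F Γ) : V.ord 1 = 0 := by
  have h := V.mul 1 1 one_ne_zero one_ne_zero
  rw [mul_one] at h
  exact left_eq_add.1 h

theorem ord_neg_one (V : Va F Γ) : V.ord (-1) = 0 := by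
  have h := V.mul (-1) (-1) (neg_ne_zero.2 one_ne_zero) (neg_ne_zero.2 one_ne_zero)
  rw [neg_mul_neg, one_mul, ord_one] at h
  rcases lt_trichotomy (V.ord (-1)) 0 with h1 | h1 | h1
  · have := add_neg h1 h1
    rw [← h] at this
    exact absurd this (lt_irrefl _)
  · exact h1
  · have := add_pos h1 h1
    rw [← h] at this
    exact absurd this (lt_irrefl _)

theorem ord_neg (V : Va F Γ) (x : F) (hx : x ≠ 0) : V.ord (-x) = V.ord x := by
  have h := V.mul (-1) x (neg_ne_zero.2 one_ne_zero) hx
  rw [ord_neg_one, zero_add, neg_one_mul] at h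
  exact h

/-- The term of smallest order dominates. -/
theorem ord_dom (V : Va F Γ) (x y : F) (hx : x ≠ 0) (hy : y ≠ 0 → V.ord x < V.ord y) :
    x + y ≠ 0 ∧ V.ord (x + y) ≤ V.ord x := by
  by_cases h0 : y = 0
  · subst h0
    rw [add_zero]
    exact ⟨hx, le_refl _⟩
  · have h1 := hy h0
    have h2 : x + y ≠ 0 := by
      intro h
      have h3 : x = -y := eq_neg_of_add_eq_zero_left h
      rw [h3, ord_neg V y h0] at h1
      exact lt_irrefl _ h1
    refine ⟨h2, ?_⟩
    have h4 : (x + y) + (-y) = x := by ring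
    have h5 := V.add (x + y) (-y) h2 (neg_ne_zero.2 h0) (by rw [h4]; exact hx)
    rw [h4, ord_neg V y h0] at h5
    rcases min_le_iff.1 h5 with h6 | h6
    · exact h6
    · exact absurd h1 (not_lt.2 h6)

omit [IsOrderedAddMonoid Γ] in
theorem sum_ge (V : Va F Γ) {ι : Type} (s : Finset ι) (a : ι → F) (c : Γ)
    (h : ∀ i ∈ s, a i ≠ 0 → c ≤ V.ord (a i)) : ∑ i ∈ s, a i ≠ 0 → c ≤ V.ord (∑ i ∈ s, a i) := by
  classical
  induction s using Finset.induction_on with
  | empty => intro h0; simp at h0
  | insert i s hi ih =>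
    intro h0
    rw [Finset.sum_insert hi] at h0 ⊢
    have ih' := ih fun j hj => h j (Finset.mem_insert_of_mem hj)
    by_cases h1 : a i = 0
    · rw [h1, zero_add] at h0 ⊢
      exact ih' h0
    · by_cases h2 : ∑ j ∈ s, a j = 0
      · rw [h2, add_zero]
        exact h i (Finset.mem_insert_self i s) h1
      · exact le_trans (le_min (h i (Finset.mem_insert_self i s) h1) (ih' h2))
          (V.add _ _ h1 h2 h0)

omit [IsOrderedAddMonoid Γ] in
theorem sum_gt (V : Va F Γ) {ι : Type} (s : Finset ι) (a : ι → F) (c : Γ)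
    (h : ∀ i ∈ s, a i ≠ 0 → c < V.ord (a i)) : ∑ i ∈ s, a i ≠ 0 → c < V.ord (∑ i ∈ s, a i) := by
  classical
  induction s using Finset.induction_on with
  | empty => intro h0; simp at h0
  | insert i s hi ih =>
    intro h0
    rw [Finset.sum_insert hi] at h0 ⊢
    have ih' := ih fun j hj => h j (Finset.mem_insert_of_mem hj)
    by_cases h1 : a i = 0
    · rw [h1, zero_add] at h0 ⊢
      exact ih' h0
    · by_cases h2 : ∑ j ∈ s, a j = 0
      · rw [h2, add_zero]
        exact h i (Finset.mem_insert_self i s) h1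
      · exact lt_of_lt_of_le (lt_min (h i (Finset.mem_insert_self i s) h1) (ih' h2))
          (V.add _ _ h1 h2 h0)

end Basic

/-- Extension of a valuation of a domain to its field of fractions. -/
theorem exists_frac {R K Γ : Type} [CommRing R] [IsDomain R] [Field K] [Algebra R K]
    [IsFractionRing R K] [AddCommGroup Γ] [LinearOrder Γ] [IsOrderedAddMonoid Γ] (w : R → Γ)
    (hm : ∀ a b, a ≠ 0 → b ≠ 0 → w (a * b) = w a + w b)
    (ha : ∀ a b, a ≠ 0 → b ≠ 0 → a + b ≠ 0 → min (w a) (w b) ≤ w (a + b)) :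
    ∃ W : Va K Γ, ∀ a, a ≠ 0 → W.ord (algebraMap R K a) = w a := by
  have hinj : Function.Injective (algebraMap R K) := IsFractionRing.injective R K
  have hne : ∀ a : R, a ≠ 0 → algebraMap R K a ≠ 0 := fun a h0 h => h0 (by
    rw [← map_zero (algebraMap R K)] at h
    exact hinj h)
  have hs : ∀ z : K, ∃ a b : R, b ≠ 0 ∧ algebraMap R K a / algebraMap R K b = z := by
    intro z
    obtain ⟨a, b, hb, h⟩ := IsFractionRing.div_surjective (A := R) z
    exact ⟨a, b, nonZeroDivisors.ne_zero hb, h⟩
  choose N D hD hz using hs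
  have hN : ∀ z : K, z ≠ 0 → N z ≠ 0 := by
    intro z h0 h
    apply h0
    rw [← hz z, h, map_zero, zero_div]
  have key : ∀ (z : K) (a b : R), a ≠ 0 → b ≠ 0 →
      algebraMap R K a / algebraMap R K b = z → w (N z) - w (D z) = w a - w b := by
    intro z a b h0 h1 h
    have h2 : z ≠ 0 := by
      rw [← h]
      exact div_ne_zero (hne a h0) (hne b h1)
    have h3 : algebraMap R K (N z) / algebraMap R K (D z) =
        algebraMap R K a / algebraMap R K b := by rw [hz z, h]
    rw [div_eq_div_iff (hne _ (hD z)) (hne b h1), ← map_mul, ← map_mul] at h3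
    have h4 := congrArg w (hinj h3)
    rw [hm _ _ (hN z h2) h1, hm _ _ h0 (hD z)] at h4
    rw [sub_eq_sub_iff_add_eq_add]
    exact h4
  refine ⟨⟨fun z => w (N z) - w (D z), ?_, ?_⟩, ?_⟩
  · intro x y hx hy
    show w (N (x * y)) - w (D (x * y)) = (w (N x) - w (D x)) + (w (N y) - w (D y))
    have h : algebraMap R K (N x * N y) / algebraMap R K (D x * D y) = x * y := by
      rw [map_mul, map_mul, mul_div_mul_comm, hz x, hz y]
    rw [key (x * y) (N x * N y) (D x * D y) (mul_ne_zero (hN x hx) (hN y hy))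
      (mul_ne_zero (hD x) (hD y)) h, hm _ _ (hN x hx) (hN y hy), hm _ _ (hD x) (hD y)]
    abel
  · intro x y hx hy hxy
    show min (w (N x) - w (D x)) (w (N y) - w (D y)) ≤ w (N (x + y)) - w (D (x + y))
    have h : algebraMap R K (N x * D y + N y * D x) / algebraMap R K (D x * D y) = x + y := by
      rw [map_add, map_mul, map_mul, map_mul]
      conv_rhs => rw [← hz x, ← hz y]
      have h1 := hne _ (hD x)
      have h2 := hne _ (hD y)
      field_simp
    have h0 : N x * D y + N y * D x ≠ 0 := by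
      intro h0
      apply hxy
      rw [← h, h0, map_zero, zero_div]
    rw [key (x + y) _ _ h0 (mul_ne_zero (hD x) (hD y)) h]
    have h3 := ha (N x * D y) (N y * D x) (mul_ne_zero (hN x hx) (hD y))
      (mul_ne_zero (hN y hy) (hD x)) h0
    rw [hm _ _ (hN x hx) (hD y), hm _ _ (hN y hy) (hD x)] at h3
    rw [hm _ _ (hD x) (hD y)]
    refine le_trans ?_ (sub_le_sub_right h3 _)
    rw [← min_sub_sub_right]
    refine le_of_eq ?_
    congr 1 <;> abel
  · intro a h0
    show w (N (algebraMap R K a)) - w (D (algebraMap R K a)) = w a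
    have h1 : w (1 : R) = 0 := by
      have h := hm 1 1 one_ne_zero one_ne_zero
      rw [mul_one] at h
      exact left_eq_add.1 h
    rw [key (algebraMap R K a) a 1 h0 one_ne_zero (by rw [map_one, div_one]), h1, sub_zero]

section Gauss

variable {F Γ τ : Type} [Field F] [AddCommGroup Γ] [LinearOrder Γ]

open Classical in
/-- The smallest order of a coefficient. -/
noncomputable def go (V : Va F Γ) (f : MvPolynomial τ F) : Γ :=
  if h : f.support.Nonempty then f.support.inf' h (fun m => V.ord (f.coeff m)) else 0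

theorem go_le (V : Va F Γ) (f : MvPolynomial τ F) (m : τ →₀ ℕ) (hm : f.coeff m ≠ 0) :
    go V f ≤ V.ord (f.coeff m) := by
  have h1 : m ∈ f.support := mem_support_iff.2 hm
  unfold go
  rw [dif_pos ⟨m, h1⟩]
  exact Finset.inf'_le (fun m => V.ord (f.coeff m)) h1

theorem go_ex (V : Va F Γ) (f : MvPolynomial τ F) (hf : f ≠ 0) :
    ∃ m, f.coeff m ≠ 0 ∧ V.ord (f.coeff m) = go V f := by
  have h : f.support.Nonempty := by
    rw [Finset.nonempty_iff_ne_empty]
    intro h
    exact hf (support_eq_empty.1 h)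
  obtain ⟨m, hm, he⟩ := Finset.exists_mem_eq_inf' h (fun m => V.ord (f.coeff m))
  refine ⟨m, mem_support_iff.1 hm, ?_⟩
  unfold go
  rw [dif_pos h, he]

theorem le_go (V : Va F Γ) (f : MvPolynomial τ F) (hf : f ≠ 0) (c : Γ)
    (h : ∀ m, f.coeff m ≠ 0 → c ≤ V.ord (f.coeff m)) : c ≤ go V f := by
  obtain ⟨m, h1, h2⟩ := go_ex V f hf
  rw [← h2]
  exact h m h1

theorem go_add (V : Va F Γ) (f g : MvPolynomial τ F) (hfg : f + g ≠ 0) :
    min (go V f) (go V g) ≤ go V (f + g) := by
  refine le_go V _ hfg _ fun m hm => ?_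
  rw [coeff_add] at hm ⊢
  by_cases h1 : f.coeff m = 0
  · rw [h1, zero_add] at hm ⊢
    exact (min_le_right _ _).trans (go_le V g m hm)
  · by_cases h2 : g.coeff m = 0
    · rw [h2, add_zero]
      exact (min_le_left _ _).trans (go_le V f m h1)
    · exact (min_le_min (go_le V f m h1) (go_le V g m h2)).trans (V.add _ _ h1 h2 hm)

theorem go_C (V : Va F Γ) (a : F) (ha : a ≠ 0) : go V (C a : MvPolynomial τ F) = V.ord a := by
  classical
  obtain ⟨m, h1, h2⟩ := go_ex V (C a : MvPolynomial τ F) (by
    intro h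
    exact ha (C_injective τ F (by rw [h, C_0])))
  rw [← h2, coeff_C]
  rw [coeff_C] at h1
  by_cases h : (0 : τ →₀ ℕ) = m
  · rw [if_pos h]
  · rw [if_neg h] at h1
    exact absurd rfl h1

theorem go_X (V : Va F Γ) (i : τ) : go V (X i : MvPolynomial τ F) = 0 := by
  classical
  obtain ⟨m, h1, h2⟩ := go_ex V (X i : MvPolynomial τ F) (X_ne_zero i)
  rw [← h2, coeff_X]
  rw [coeff_X] at h1
  by_cases h : Finsupp.single i 1 = m
  · rw [if_pos h, ord_one]
  · rw [if_neg h] at h1
    exact absurd rfl h1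

variable [IsOrderedAddMonoid Γ]

theorem go_mul (V : Va F Γ) (f g : MvPolynomial τ F) (hf : f ≠ 0) (hg : g ≠ 0) :
    go V (f * g) = go V f + go V g := by
  classical
  refine le_antisymm ?_ ?_
  · letI : LinearOrder τ := linearOrderOfSTO (WellOrderingRel (α := τ))
    have hS : ∀ f : MvPolynomial τ F, f ≠ 0 → ∃ m, f.coeff m ≠ 0 ∧ V.ord (f.coeff m) = go V f ∧
        ∀ m', f.coeff m' ≠ 0 → toLex m' < toLex m → go V f < V.ord (f.coeff m') := by
      intro f hf
      have hne : (f.support.filter fun m => V.ord (f.coeff m) = go V f).Nonempty := by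
        obtain ⟨m, h1, h2⟩ := go_ex V f hf
        exact ⟨m, Finset.mem_filter.2 ⟨mem_support_iff.2 h1, h2⟩⟩
      obtain ⟨m, h1, h2⟩ := Finset.exists_min_image _ (fun m => toLex m) hne
      rw [Finset.mem_filter] at h1
      refine ⟨m, mem_support_iff.1 h1.1, h1.2, fun m' h3 h4 => ?_⟩
      refine lt_of_le_of_ne (go_le V f m' h3) fun h5 => ?_
      exact absurd h4 (not_lt.2 (h2 m' (Finset.mem_filter.2 ⟨mem_support_iff.2 h3, h5.symm⟩)))
    obtain ⟨m, m1, m2, m3⟩ := hS f hf
    obtain ⟨n, n1, n2, n3⟩ := hS g hg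
    have hc := coeff_mul f g (m + n)
    have hmem : (m, n) ∈ Finset.HasAntidiagonal.antidiagonal (m + n) := Finset.HasAntidiagonal.mem_antidiagonal.2 rfl
    rw [← Finset.add_sum_erase _ _ hmem] at hc
    have h1 : f.coeff m * g.coeff n ≠ 0 := mul_ne_zero m1 n1
    have h2 := sum_gt V ((Finset.HasAntidiagonal.antidiagonal (m + n)).erase (m, n))
      (fun x => f.coeff x.1 * g.coeff x.2) (go V f + go V g) (by
        rintro ⟨m', n'⟩ h3 h4
        rw [Finset.mem_erase, Finset.HasAntidiagonal.mem_antidiagonal] at h3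
        obtain ⟨h5, h6⟩ := h3
        have h4' : f.coeff m' ≠ 0 := left_ne_zero_of_mul h4
        have h4'' : g.coeff n' ≠ 0 := right_ne_zero_of_mul h4
        show go V f + go V g < V.ord (f.coeff m' * g.coeff n')
        rw [V.mul _ _ h4' h4'']
        have h6' : m' + n' = m + n := h6
        rcases lt_trichotomy (toLex m') (toLex m) with h7 | h7 | h7
        · exact add_lt_add_of_lt_of_le (m3 m' h4' h7) (go_le V g n' h4'')
        · exfalso
          have h8 : m' = m := toLex.injective h7
          subst h8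
          exact h5 (by rw [add_left_cancel h6'])
        · have h8 : toLex n' < toLex n := by
            by_contra h9
            have h10 : toLex m + toLex n < toLex m' + toLex n' :=
              add_lt_add_of_lt_of_le h7 (not_lt.1 h9)
            have h11 : toLex m' + toLex n' = toLex m + toLex n := by
              have := congrArg toLex h6'
              exact this
            rw [h11] at h10
            exact lt_irrefl _ h10
          exact add_lt_add_of_le_of_lt (go_le V f m' h4') (n3 n' h4'' h8))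
    have h3 := ord_dom V (f.coeff m * g.coeff n)
      (∑ x ∈ (Finset.HasAntidiagonal.antidiagonal (m + n)).erase (m, n), f.coeff x.1 * g.coeff x.2) h1 (by
        intro h
        rw [V.mul _ _ m1 n1, m2, n2]
        exact h2 h)
    rw [← hc, V.mul _ _ m1 n1, m2, n2] at h3
    exact (go_le V (f * g) (m + n) h3.1).trans h3.2
  · refine le_go V _ (mul_ne_zero hf hg) _ fun m hm => ?_
    rw [coeff_mul] at hm ⊢
    refine sum_ge V _ _ _ ?_ hm
    intro x _ hx
    rw [V.mul _ _ (left_ne_zero_of_mul hx) (right_ne_zero_of_mul hx)]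
    exact add_le_add (go_le V f _ (left_ne_zero_of_mul hx)) (go_le V g _ (right_ne_zero_of_mul hx))

end Gauss

end VaG

theorem exists_va_gauss {F Γ τ : Type} [Field F] [AddCommGroup Γ] [LinearOrder Γ]
    [IsOrderedAddMonoid Γ] [Finite τ] (V : Va F Γ) :
    ∃ W : Va (FractionRing (MvPolynomial τ F)) Γ, (∀ a : F, a ≠ 0 → W.ord (algebraMap F _ a) =
      V.ord a) ∧ ∀ i, W.ord (algebraMap (MvPolynomial τ F) _ (X i)) = 0 := by
  obtain ⟨W, hW⟩ := VaG.exists_frac (R := MvPolynomial τ F)
    (K := FractionRing (MvPolynomial τ F)) (VaG.go V) (VaG.go_mul V)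
    (fun a b _ _ h => VaG.go_add V a b h)
  refine ⟨W, fun a ha => ?_, fun i => ?_⟩
  · rw [IsScalarTower.algebraMap_apply F (MvPolynomial τ F) (FractionRing (MvPolynomial τ F)),
      algebraMap_eq, hW _ (fun h => ha (C_injective τ F (by rw [h, C_0]))), VaG.go_C V a ha]
  · rw [hW _ (X_ne_zero i), VaG.go_X]

end Pool.Agent.RR
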