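import Pool.Agent.RR.Defs

/-!
# RR-28: a valuation of `F(X)` with values in the lexicographic product `Γ ×ₗ ℤ`
-/

set_option autoImplicit false

namespace Pool.Agent.RR

namespace VaLexAux

section basic

variable {F Γ : Type} [Field F] [AddCommGroup Γ] [LinearOrder Γ] [IsOrderedAddMonoid Γ]
  (V : Va F Γ)

theorem ord_one : V.ord 1 = 0 := by
  have h := V.mul 1 1 one_ne_zero one_ne_zero
  rw [mul_one] at h
  exact (left_eq_add.1 h)

theorem ord_neg_one : V.ord (-1) = 0 := by
  have h := V.mul (-1) (-1) (neg_ne_zero.2 one_ne_zero) (neg_ne_zero.2 one_ne_zero)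
  rw [neg_mul_neg, mul_one, ord_one V] at h
  rcases lt_trichotomy (V.ord (-1)) 0 with h1 | h1 | h1
  · have := add_neg h1 h1
    rw [← h] at this
    exact absurd this (lt_irrefl _)
  · exact h1
  · have := add_pos h1 h1
    rw [← h] at this
    exact absurd this (lt_irrefl _)

theorem ord_neg {x : F} (hx : x ≠ 0) : V.ord (-x) = V.ord x := by
  have h := V.mul (-1) x (neg_ne_zero.2 one_ne_zero) hx
  rw [ord_neg_one, zero_add, neg_one_mul] at h
  exact h

/-- the strict ultrametric case -/
theorem ord_add_lt {x y : F} (hx : x ≠ 0) (h : y ≠ 0 → V.ord x < V.ord y) :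
    x + y ≠ 0 ∧ V.ord (x + y) = V.ord x := by
  by_cases hy : y = 0
  · rw [hy, add_zero]
    exact ⟨hx, rfl⟩
  have hlt := h hy
  have hne : x + y ≠ 0 := by
    intro h0
    have : y = -x := by linear_combination h0
    rw [this, ord_neg V hx] at hlt
    exact lt_irrefl _ hlt
  refine ⟨hne, ?_⟩
  have h1 := V.add x y hx hy hne
  rw [min_eq_left hlt.le] at h1
  refine le_antisymm ?_ h1
  by_contra h2
  push Not at h2
  have h3 := V.add (x + y) (-y) hne (neg_ne_zero.2 hy) (by rw [add_neg_cancel_right]; exact hx)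
  rw [add_neg_cancel_right, ord_neg V hy] at h3
  exact absurd (lt_min h2 hlt) (not_lt.2 h3)

omit [IsOrderedAddMonoid Γ] in
theorem ord_sum_le {ι : Type} (s : Finset ι) (f : ι → F) (c : Γ)
    (h : ∀ i ∈ s, f i ≠ 0 → c ≤ V.ord (f i)) (hs : ∑ i ∈ s, f i ≠ 0) :
    c ≤ V.ord (∑ i ∈ s, f i) := by
  classical
  induction s using Finset.induction_on with
  | empty => exact absurd Finset.sum_empty hs
  | insert a s ha ih =>
    rw [Finset.sum_insert ha] at hs ⊢
    have h' : ∀ i ∈ s, f i ≠ 0 → c ≤ V.ord (f i) :=
      fun i hi => h i (Finset.mem_insert_of_mem hi)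
    by_cases h1 : f a = 0
    · rw [h1, zero_add] at hs ⊢
      exact ih h' hs
    · by_cases h2 : ∑ i ∈ s, f i = 0
      · rw [h2, add_zero]
        exact h a (Finset.mem_insert_self _ _) h1
      · exact le_trans (le_min (h a (Finset.mem_insert_self _ _) h1) (ih h' h2))
          (V.add _ _ h1 h2 hs)

omit [IsOrderedAddMonoid Γ] in
theorem ord_sum_lt {ι : Type} (s : Finset ι) (f : ι → F) (c : Γ)
    (h : ∀ i ∈ s, f i ≠ 0 → c < V.ord (f i)) (hs : ∑ i ∈ s, f i ≠ 0) :
    c < V.ord (∑ i ∈ s, f i) := by
  classical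
  induction s using Finset.induction_on with
  | empty => exact absurd Finset.sum_empty hs
  | insert a s ha ih =>
    rw [Finset.sum_insert ha] at hs ⊢
    have h' : ∀ i ∈ s, f i ≠ 0 → c < V.ord (f i) :=
      fun i hi => h i (Finset.mem_insert_of_mem hi)
    by_cases h1 : f a = 0
    · rw [h1, zero_add] at hs ⊢
      exact ih h' hs
    · by_cases h2 : ∑ i ∈ s, f i = 0
      · rw [h2, add_zero]
        exact h a (Finset.mem_insert_self _ _) h1
      · exact lt_of_lt_of_le (lt_min (h a (Finset.mem_insert_self _ _) h1) (ih h' h2))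
          (V.add _ _ h1 h2 hs)

end basic

/-- A valuation of a domain extends to the fraction field. -/
theorem exists_va_frac {A K Γ : Type} [CommRing A] [IsDomain A] [Field K] [Algebra A K]
    [IsFractionRing A K] [AddCommGroup Γ] [LinearOrder Γ] [IsOrderedAddMonoid Γ] (o : A → Γ)
    (hmul : ∀ x y, x ≠ 0 → y ≠ 0 → o (x * y) = o x + o y)
    (hadd : ∀ x y, x ≠ 0 → y ≠ 0 → x + y ≠ 0 → min (o x) (o y) ≤ o (x + y)) :
    ∃ W : Va K Γ, ∀ a : A, a ≠ 0 → W.ord (algebraMap A K a) = o a := by
  classical
  have hinj : Function.Injective (algebraMap A K) := IsFractionRing.injective A K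
  have h0 : ∀ a : A, a ≠ 0 → algebraMap A K a ≠ 0 := fun a ha h =>
    ha (hinj (by rw [h, map_zero]))
  have hex : ∀ x : K, x ≠ 0 → ∃ a b : A, a ≠ 0 ∧ b ≠ 0 ∧ algebraMap A K a / algebraMap A K b = x := by
    intro x hx
    obtain ⟨a, b, hb, rfl⟩ := IsFractionRing.div_surjective (A := A) x
    have hb0 : b ≠ 0 := nonZeroDivisors.ne_zero hb
    refine ⟨a, b, ?_, hb0, rfl⟩
    rintro rfl
    exact hx (by rw [map_zero, zero_div])
  choose! num den hn hd hq using hex
  let w : K → Γ := fun x => o (num x) - o (den x)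
  have hw : ∀ a b : A, a ≠ 0 → b ≠ 0 → w (algebraMap A K a / algebraMap A K b) = o a - o b := by
    intro a b ha hb
    have hx : algebraMap A K a / algebraMap A K b ≠ 0 := div_ne_zero (h0 a ha) (h0 b hb)
    set x := algebraMap A K a / algebraMap A K b with hxdef
    have h1 := hq x hx
    rw [hxdef, ← hxdef, hxdef] at h1
    have h2 : algebraMap A K (num x) * algebraMap A K b =
        algebraMap A K a * algebraMap A K (den x) := by
      rw [div_eq_div_iff (h0 _ (hd x hx)) (h0 b hb)] at h1
      exact h1
    rw [← map_mul, ← map_mul] at h2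
    have h3 := congrArg o (hinj h2)
    rw [hmul _ _ (hn x hx) hb, hmul _ _ ha (hd x hx)] at h3
    change o (num x) - o (den x) = o a - o b
    rw [sub_eq_sub_iff_add_eq_add]
    exact h3
  have ho1 : o 1 = 0 := by
    have h := hmul 1 1 one_ne_zero one_ne_zero
    rw [mul_one] at h
    exact (left_eq_add.1 h)
  refine ⟨⟨w, ?_, ?_⟩, ?_⟩
  · intro x y hx hy
    have hmulq : x * y = algebraMap A K (num x * num y) / algebraMap A K (den x * den y) := by
      rw [map_mul, map_mul, ← div_mul_div_comm, hq x hx, hq y hy]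
    rw [hmulq, hw _ _ (mul_ne_zero (hn x hx) (hn y hy)) (mul_ne_zero (hd x hx) (hd y hy)),
      hmul _ _ (hn x hx) (hn y hy), hmul _ _ (hd x hx) (hd y hy)]
    change _ = (o (num x) - o (den x)) + (o (num y) - o (den y))
    abel
  · intro x y hx hy hxy
    have haddq : x + y = algebraMap A K (num x * den y + num y * den x) /
        algebraMap A K (den x * den y) := by
      have e1 := h0 _ (hd x hx)
      have e2 := h0 _ (hd y hy)
      rw [map_mul, map_add, map_mul, map_mul]
      nth_rw 1 [← hq x hx, ← hq y hy]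
      field_simp
    have hne : num x * den y + num y * den x ≠ 0 := by
      intro h
      rw [h, map_zero, zero_div] at haddq
      exact hxy haddq
    have h1 := hadd (num x * den y) (num y * den x) (mul_ne_zero (hn x hx) (hd y hy))
      (mul_ne_zero (hn y hy) (hd x hx)) hne
    rw [haddq, hw _ _ hne (mul_ne_zero (hd x hx) (hd y hy)), hmul _ _ (hd x hx) (hd y hy)]
    rw [hmul _ _ (hn x hx) (hd y hy), hmul _ _ (hn y hy) (hd x hx)] at h1
    change min (o (num x) - o (den x)) (o (num y) - o (den y)) ≤ _
    have h2 : min (o (num x) - o (den x)) (o (num y) - o (den y)) + (o (den x) + o (den y)) =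
        min (o (num x) + o (den y)) (o (num y) + o (den x)) := by
      rw [← min_add_add_right]
      congr 1 <;> abel
    rw [le_sub_iff_add_le, h2]
    exact h1
  · intro a ha
    have h1 := hw a 1 ha one_ne_zero
    rw [map_one, div_one, ho1, sub_zero] at h1
    exact h1

end VaLexAux

open VaLexAux in
theorem exists_va_lex {F Γ : Type} [Field F] [AddCommGroup Γ] [LinearOrder Γ]
    [IsOrderedAddMonoid Γ] (V : Va F Γ) :
    ∃ W : Va (RatFunc F) (Γ ×ₗ ℤ), (∀ a : F, a ≠ 0 → W.ord (algebraMap F _ a) =
      toLex (V.ord a, 0)) ∧ W.ord RatFunc.X = toLex (0, 1) := by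
  classical
  let t : Polynomial F → ℕ → Γ ×ₗ ℤ := fun f i => toLex (V.ord (f.coeff i), (i : ℤ))
  let o : Polynomial F → Γ ×ₗ ℤ := fun f =>
    if h : f.support.Nonempty then f.support.inf' h (t f) else 0
  have hsupp : ∀ f : Polynomial F, f ≠ 0 → f.support.Nonempty := fun f hf =>
    Polynomial.support_nonempty.2 hf
  have ho : ∀ f (hf : f ≠ 0), o f = f.support.inf' (hsupp f hf) (t f) := by
    intro f hf
    simp only [o]
    rw [dif_pos (hsupp f hf)]
  have ho_le : ∀ f i, f.coeff i ≠ 0 → o f ≤ t f i := by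
    intro f i hi
    have hf : f ≠ 0 := by rintro rfl; exact hi (Polynomial.coeff_zero i)
    rw [ho f hf]
    exact Finset.inf'_le _ (Polynomial.mem_support_iff.2 hi)
  have ho_ex : ∀ f, f ≠ 0 → ∃ i, f.coeff i ≠ 0 ∧ o f = t f i := by
    intro f hf
    rw [ho f hf]
    obtain ⟨i, hi, h⟩ := Finset.exists_mem_eq_inf' (hsupp f hf) (t f)
    exact ⟨i, Polynomial.mem_support_iff.1 hi, h⟩
  have ho_ge : ∀ f c, f ≠ 0 → (∀ i, f.coeff i ≠ 0 → c ≤ t f i) → c ≤ o f := by
    intro f c hf h
    obtain ⟨i, hi, he⟩ := ho_ex f hf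
    rw [he]
    exact h i hi
  have hmul : ∀ f g : Polynomial F, f ≠ 0 → g ≠ 0 → o (f * g) = o f + o g := by
    intro f g hf hg
    obtain ⟨i0, hi0, hfi⟩ := ho_ex f hf
    obtain ⟨j0, hj0, hgj⟩ := ho_ex g hg
    have hfg : f * g ≠ 0 := mul_ne_zero hf hg
    have hval : (f * g).coeff (i0 + j0) ≠ 0 ∧ V.ord ((f * g).coeff (i0 + j0)) =
        V.ord (f.coeff i0) + V.ord (g.coeff j0) := by
      have hmem : (i0, j0) ∈ Finset.HasAntidiagonal.antidiagonal (i0 + j0) := Finset.HasAntidiagonal.mem_antidiagonal.2 rfl
      rw [Polynomial.coeff_mul, ← Finset.add_sum_erase _ _ hmem]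
      have hm := V.mul _ _ hi0 hj0
      rw [← hm]
      apply ord_add_lt V (mul_ne_zero hi0 hj0)
      intro hs
      apply ord_sum_lt V _ _ _ _ hs
      rintro ⟨i, j⟩ hij hne
      rw [Finset.mem_erase, Finset.HasAntidiagonal.mem_antidiagonal] at hij
      obtain ⟨hij1, hij2⟩ := hij
      have hi : f.coeff i ≠ 0 := left_ne_zero_of_mul hne
      have hj : g.coeff j ≠ 0 := right_ne_zero_of_mul hne
      have h1 := ho_le f i hi
      have h2 := ho_le g j hj
      rw [hfi] at h1
      rw [hgj] at h2
      have hii : i ≠ i0 := by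
        rintro rfl
        apply hij1
        have : j = j0 := by
          have := hij2
          simp only at this
          omega
        rw [this]
      have h1' : t f i0 < t f i := by
        refine lt_of_le_of_ne h1 ?_
        intro h
        have := congrArg (fun z => (ofLex z).2) h
        simp only [t, ofLex_toLex] at this
        exact hii (by exact_mod_cast this.symm)
      have h3 : t f i0 + t g j0 < t f i + t g j := add_lt_add_of_lt_of_le h1' h2
      have e1 : t f i0 + t g j0 =
          toLex (V.ord (f.coeff i0) + V.ord (g.coeff j0), ((i0 : ℤ) + j0)) := rfl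
      have e2 : t f i + t g j =
          toLex (V.ord (f.coeff i) + V.ord (g.coeff j), ((i : ℤ) + j)) := rfl
      rw [e1, e2, Prod.Lex.toLex_lt_toLex] at h3
      rw [V.mul _ _ hi0 hj0, V.mul _ _ hi hj]
      rcases h3 with h3 | ⟨_, h4⟩
      · exact h3
      · exfalso
        simp only at h4 hij2
        have : ((i + j : ℕ) : ℤ) = ((i0 + j0 : ℕ) : ℤ) := by rw [hij2]
        push_cast at this
        omega
    apply le_antisymm
    · have h1 := ho_le (f * g) (i0 + j0) hval.1
      refine h1.trans (le_of_eq ?_)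
      rw [hfi, hgj]
      simp only [t]
      rw [hval.2]
      push_cast
      rfl
    · apply ho_ge _ _ hfg
      intro n hn
      have hc := hn
      rw [Polynomial.coeff_mul] at hc
      -- bound by the least term
      by_contra hcon
      push Not at hcon
      have key : V.ord ((f * g).coeff n) < V.ord ((f * g).coeff n) := by
        nth_rw 2 [Polynomial.coeff_mul]
        apply ord_sum_lt V _ _ _ _ hc
        rintro ⟨i, j⟩ hij hne
        rw [Finset.HasAntidiagonal.mem_antidiagonal] at hij
        have hi : f.coeff i ≠ 0 := left_ne_zero_of_mul hne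
        have hj : g.coeff j ≠ 0 := right_ne_zero_of_mul hne
        have h3 : t (f * g) n < t f i + t g j :=
          lt_of_lt_of_le hcon (add_le_add (ho_le f i hi) (ho_le g j hj))
        have e2 : t f i + t g j =
          toLex (V.ord (f.coeff i) + V.ord (g.coeff j), ((i : ℤ) + j)) := rfl
        rw [e2] at h3
        simp only [t] at h3
        rw [Prod.Lex.toLex_lt_toLex] at h3
        rw [V.mul _ _ hi hj]
        rcases h3 with h3 | ⟨_, h4⟩
        · exact h3
        · exfalso
          simp only at h4 hij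
          have : ((i + j : ℕ) : ℤ) = (n : ℤ) := by rw [hij]
          push_cast at this
          omega
      exact lt_irrefl _ key
  have hadd : ∀ f g : Polynomial F, f ≠ 0 → g ≠ 0 → f + g ≠ 0 → min (o f) (o g) ≤ o (f + g) := by
    intro f g hf hg hfg
    apply ho_ge _ _ hfg
    intro n hn
    rw [Polynomial.coeff_add] at hn
    by_cases h1 : f.coeff n = 0
    · have h2 : g.coeff n ≠ 0 := by
        intro h; rw [h1, h, add_zero] at hn; exact hn rfl
      refine (min_le_right _ _).trans ((ho_le g n h2).trans (le_of_eq ?_))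
      simp only [t]
      rw [Polynomial.coeff_add, h1, zero_add]
    · by_cases h2 : g.coeff n = 0
      · refine (min_le_left _ _).trans ((ho_le f n h1).trans (le_of_eq ?_))
        simp only [t]
        rw [Polynomial.coeff_add, h2, add_zero]
      · have h3 := V.add _ _ h1 h2 hn
        have h4 : min (t f n) (t g n) ≤ t (f + g) n := by
          simp only [t]
          rw [Polynomial.coeff_add]
          rcases min_le_iff.1 h3 with h5 | h5
          · refine (min_le_left _ _).trans ?_
            rw [Prod.Lex.toLex_le_toLex]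
            rcases lt_or_eq_of_le h5 with h6 | h6
            · exact Or.inl h6
            · exact Or.inr ⟨h6, le_refl _⟩
          · refine (min_le_right _ _).trans ?_
            rw [Prod.Lex.toLex_le_toLex]
            rcases lt_or_eq_of_le h5 with h6 | h6
            · exact Or.inl h6
            · exact Or.inr ⟨h6, le_refl _⟩
        exact (min_le_min (ho_le f n h1) (ho_le g n h2)).trans h4
  obtain ⟨W, hW⟩ := exists_va_frac (A := Polynomial F) (K := RatFunc F) o hmul hadd
  refine ⟨W, ?_, ?_⟩
  · intro a ha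
    have hC : (Polynomial.C a : Polynomial F) ≠ 0 := Polynomial.C_ne_zero.2 ha
    have h1 := hW (Polynomial.C a) hC
    have e : algebraMap F (RatFunc F) a = algebraMap (Polynomial F) (RatFunc F) (Polynomial.C a) := by
      rw [RatFunc.algebraMap_C, RatFunc.algebraMap_eq_C]
    rw [e, h1]
    obtain ⟨i, hi, he⟩ := ho_ex (Polynomial.C a) hC
    rw [Polynomial.coeff_C] at hi
    have hi0 : i = 0 := by
      by_contra h
      rw [if_neg h] at hi
      exact hi rfl
    rw [he, hi0]
    simp only [t]
    rw [Polynomial.coeff_C_zero]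
    rfl
  · have hX : (Polynomial.X : Polynomial F) ≠ 0 := Polynomial.X_ne_zero
    have h1 := hW Polynomial.X hX
    rw [RatFunc.algebraMap_X] at h1
    rw [h1]
    obtain ⟨i, hi, he⟩ := ho_ex Polynomial.X hX
    rw [Polynomial.coeff_X] at hi
    have hi0 : i = 1 := by
      by_contra h
      rw [if_neg (fun h' => h h'.symm)] at hi
      exact hi rfl
    rw [he, hi0]
    simp only [t]
    rw [Polynomial.coeff_X_one, ord_one V]
    rfl

end Pool.Agent.RR
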