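import Pool.Agent.RR.Defs

/-!
Project RR (MP_0a3790_ag), row RR-26: a 3-adic valuation of the algebraic numbers.
-/

set_option autoImplicit false

namespace Pool.Agent.RR

private instance fact3 : Fact (Nat.Prime 3) := ⟨Nat.prime_three⟩

private theorem alg_Qbar : Algebra.IsAlgebraic ℚ (AlgebraicClosure ℚ) := by
  have e : (DivisionRing.toRatAlgebra : Algebra ℚ (AlgebraicClosure ℚ)) =
      AlgebraicClosure.instAlgebra ℚ := Subsingleton.elim _ _
  rw [e]
  exact AlgebraicClosure.isAlgebraic ℚ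

theorem exists_va_Qbar : ∃ V : Va (AlgebraicClosure ℚ) ℝ, 0 < V.ord 3 := by
  have := alg_Qbar
  let f : AlgebraicClosure ℚ →ₐ[ℚ] PadicAlgCl 3 := IsAlgClosed.lift
  have hf : ∀ x, x ≠ 0 → 0 < ‖f x‖ := fun x hx =>
    norm_pos_iff.2 fun h => hx ((map_eq_zero_iff f (RingHom.injective f.toRingHom)).1 h)
  refine ⟨⟨fun x => -Real.log ‖f x‖, fun x y hx hy => ?_, fun x y hx hy hxy => ?_⟩, ?_⟩
  · rw [map_mul, norm_mul, Real.log_mul (hf x hx).ne' (hf y hy).ne']
    ring
  · have h1 : ‖f (x + y)‖ ≤ max ‖f x‖ ‖f y‖ := by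
      rw [map_add]
      exact PadicAlgCl.isNonarchimedean 3 (f x) (f y)
    rcases le_max_iff.1 h1 with h | h
    · refine (min_le_left _ _).trans (neg_le_neg ?_)
      exact Real.log_le_log (hf _ hxy) h
    · refine (min_le_right _ _).trans (neg_le_neg ?_)
      exact Real.log_le_log (hf _ hxy) h
  · change 0 < -Real.log ‖f 3‖
    have h3 : f 3 = algebraMap ℚ_[3] (PadicAlgCl 3) 3 := by
      rw [map_ofNat, map_ofNat]
    have h4 : ‖f 3‖ = 3⁻¹ := by
      rw [h3]
      refine (PadicAlgCl.norm_extends 3 3).trans ?_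
      have := Padic.norm_p (p := 3)
      simpa using this
    rw [h4, Real.log_inv, neg_neg]
    exact Real.log_pos (by norm_num)

end Pool.Agent.RR
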