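import Pool.Agent.RR.NeVa
import Pool.Agent.RR.VaQ
import Pool.Agent.RR.VaGauss
import Pool.Agent.RR.VaLex

/-!
# Project RR: the tower of monomial valuations (for RR-31 .. 35, helper24)
-/

set_option autoImplicit false

namespace Pool.Agent.RR

/-- A field with a valuation of mixed type: `re` is the coarse part (which sees `3`), the elements
`X i` are infinitesimal for the coarse part, `X 0` is the smallest; the `w j` are units for the
coarse part. -/
structure Tw (k : Type) [Field k] (J : Type) (n : ℕ) : Type 1 where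
  K : Type
  Γ : Type
  fK : Field K
  aK : Algebra k K
  gΓ : AddCommGroup Γ
  lΓ : LinearOrder Γ
  oΓ : IsOrderedAddMonoid Γ
  V : Va K Γ
  re : Γ →+ ℝ
  X : Fin n → K
  w : J → K
  ψ : Fin n → (Γ →+ ZMod 2)
  mono : ∀ γ, 0 ≤ γ → 0 ≤ re γ
  re3 : 0 < re (V.ord 3)
  X0 : ∀ i, X i ≠ 0
  Xre : ∀ i, re (V.ord (X i)) = 0
  Xpos : ∀ i, 0 < V.ord (X i)
  Xψ : ∀ i j, ψ i (V.ord (X j)) = if i = j then 1 else 0
  Xlt : ∀ i j, i < j → ∀ m : ℕ, m • V.ord (X j) < V.ord (X i)
  w0 : ∀ j, w j ≠ 0
  wre : ∀ j, re (V.ord (w j)) = 0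
  ind : AlgebraicIndependent k (Sum.elim X w)

attribute [instance] Tw.fK Tw.aK Tw.gΓ Tw.lΓ Tw.oΓ

/-- extension by one variable -/
theorem algInd_ratFunc {k K ι : Type} [Field k] [Field K] [Algebra k K] (x : ι → K)
    (hx : AlgebraicIndependent k x) :
    AlgebraicIndependent k (fun o : Option ι => o.elim (RatFunc.X : RatFunc K)
      (fun i => algebraMap K (RatFunc K) (x i))) := by
  have h1 : AlgebraicIndependent k (fun i => algebraMap K (RatFunc K) (x i)) :=
    hx.map' (f := IsScalarTower.toAlgHom k K (RatFunc K)) (algebraMap K (RatFunc K)).injective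
  rw [h1.option_iff_transcendental]
  have h2 : Transcendental K (RatFunc.X : RatFunc K) := RatFunc.transcendental_X
  intro h3
  apply h2
  have h4 : ∀ z ∈ Algebra.adjoin k (Set.range fun i => algebraMap K (RatFunc K) (x i)),
      z ∈ (algebraMap K (RatFunc K)).range := by
    intro z hz
    have h5 : Algebra.adjoin k (Set.range fun i => algebraMap K (RatFunc K) (x i)) ≤
        (IsScalarTower.toAlgHom k K (RatFunc K)).range := by
      apply Algebra.adjoin_le
      rintro _ ⟨i, rfl⟩
      exact ⟨x i, rfl⟩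
    obtain ⟨a, ha⟩ := h5 hz
    exact ⟨a, ha⟩
  obtain ⟨p, hp0, hp⟩ := h3
  classical
  have h6 : ∀ z : Algebra.adjoin k (Set.range fun i => algebraMap K (RatFunc K) (x i)),
      ∃ a : K, algebraMap K (RatFunc K) a = z := fun z => h4 z z.2
  choose g hg using h6
  have hinj : Function.Injective (algebraMap K (RatFunc K)) := (algebraMap K (RatFunc K)).injective
  let G : Algebra.adjoin k (Set.range fun i => algebraMap K (RatFunc K) (x i)) →+* K :=
    { toFun := g
      map_one' := hinj (by rw [hg, map_one]; rfl)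
      map_mul' := fun a b => hinj (by rw [hg, map_mul, hg, hg]; rfl)
      map_zero' := hinj (by rw [hg, map_zero]; rfl)
      map_add' := fun a b => hinj (by rw [hg, map_add, hg, hg]; rfl) }
  have hG : (algebraMap K (RatFunc K)).comp G = algebraMap _ (RatFunc K) :=
    RingHom.ext fun a => hg a
  refine ⟨p.map G, ?_, ?_⟩
  · rw [Ne, Polynomial.map_eq_zero_iff]
    · exact hp0
    · intro a b hab
      apply Subtype.ext
      rw [← hg a, ← hg b]
      exact congrArg _ hab
  · rw [Polynomial.aeval_def, Polynomial.eval₂_map, hG]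
    exact hp

/-- the first component of the value -/
def lexFst {Γ R : Type} [AddCommGroup Γ] [AddCommGroup R] (f : Γ →+ R) : (Γ ×ₗ ℤ) →+ R where
  toFun x := f (ofLex x).1
  map_zero' := by rw [ofLex_zero]; exact map_zero f
  map_add' x y := by rw [ofLex_add]; exact map_add f _ _

/-- the second component of the value -/
def lexSnd {Γ R : Type} [AddCommGroup Γ] [AddCommGroup R] (f : ℤ →+ R) : (Γ ×ₗ ℤ) →+ R where
  toFun x := f (ofLex x).2
  map_zero' := by rw [ofLex_zero]; exact map_zero f
  map_add' x y := by rw [ofLex_add]; exact map_add f _ _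

theorem lex_nonneg {Γ : Type} [AddCommGroup Γ] [LinearOrder Γ] {x : Γ ×ₗ ℤ} (h : 0 ≤ x) :
    0 ≤ (ofLex x).1 := by
  rw [Prod.Lex.le_iff] at h
  rcases h with h | h
  · exact h.le
  · exact h.1.le

theorem lex_pos_left {Γ : Type} [AddCommGroup Γ] [LinearOrder Γ] {a : Γ} (h : 0 < a) (m : ℤ) :
    (0 : Γ ×ₗ ℤ) < toLex (a, m) := by
  rw [Prod.Lex.lt_iff]
  exact Or.inl h

theorem Tw.step {k : Type} [Field k] [CharZero k] {J : Type} {n : ℕ} (T : Tw k J n) :
    Nonempty (Tw k J (n + 1)) := by
  obtain ⟨W, hW, hX⟩ := exists_va_lex T.V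
  let e : T.K →+* RatFunc T.K := algebraMap T.K (RatFunc T.K)
  have he : ∀ a : T.K, a ≠ 0 → e a ≠ 0 := fun a ha => (map_ne_zero e).2 ha
  have hWe : ∀ a : T.K, a ≠ 0 → W.ord (e a) = toLex (T.V.ord a, 0) := hW
  have h3 : (3 : T.K) ≠ 0 := by
    have h : algebraMap k T.K 3 ≠ 0 := (map_ne_zero _).2 (by norm_num)
    rwa [map_ofNat] at h
  refine ⟨{
    K := RatFunc T.K
    Γ := T.Γ ×ₗ ℤ
    fK := inferInstance
    aK := inferInstance
    gΓ := inferInstance
    lΓ := inferInstance
    oΓ := inferInstance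
    V := W
    re := lexFst T.re
    X := Fin.snoc (fun i => e (T.X i)) RatFunc.X
    w := fun j => e (T.w j)
    ψ := Fin.snoc (fun i => lexFst (T.ψ i)) (lexSnd (Int.castAddHom (ZMod 2)))
    mono := ?_
    re3 := ?_
    X0 := ?_
    Xre := ?_
    Xpos := ?_
    Xψ := ?_
    Xlt := ?_
    w0 := ?_
    wre := ?_
    ind := ?_ }⟩
  · intro γ hγ
    exact T.mono _ (lex_nonneg hγ)
  · have h : W.ord (3 : RatFunc T.K) = toLex (T.V.ord 3, 0) := by
      rw [← hW 3 h3, map_ofNat]
    rw [h]
    exact T.re3
  · intro i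
    refine Fin.lastCases ?_ (fun i => ?_) i
    · rw [Fin.snoc_last]; exact RatFunc.X_ne_zero
    · rw [Fin.snoc_castSucc]; exact he _ (T.X0 i)
  · intro i
    refine Fin.lastCases ?_ (fun i => ?_) i
    · rw [Fin.snoc_last, hX]
      exact map_zero T.re
    · rw [Fin.snoc_castSucc, hW _ (T.X0 i)]
      exact T.Xre i
  · intro i
    refine Fin.lastCases ?_ (fun i => ?_) i
    · rw [Fin.snoc_last, hX, Prod.Lex.lt_iff]
      exact Or.inr ⟨rfl, Int.one_pos⟩
    · rw [Fin.snoc_castSucc, hW _ (T.X0 i)]
      exact lex_pos_left (T.Xpos i) 0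
  · intro i j
    refine Fin.lastCases ?_ (fun i => ?_) i <;> refine Fin.lastCases ?_ (fun j => ?_) j
    · simp only [Fin.snoc_last, hX, if_true]
      change ((1 : ℤ) : ZMod 2) = 1
      simp
    · simp only [Fin.snoc_last, Fin.snoc_castSucc, hWe _ (T.X0 j)]
      rw [if_neg (Fin.castSucc_lt_last j).ne']
      change ((0 : ℤ) : ZMod 2) = 0
      simp
    · simp only [Fin.snoc_last, Fin.snoc_castSucc, hX]
      rw [if_neg (Fin.castSucc_lt_last i).ne]
      exact map_zero (T.ψ i)
    · simp only [Fin.snoc_castSucc, hWe _ (T.X0 j), Fin.castSucc_inj]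
      exact T.Xψ i j
  · intro i j hij m
    have hlast : ∀ i : Fin (n + 1), i = Fin.last n ∨ ∃ i', i = Fin.castSucc i' := by
      intro i
      refine Fin.lastCases (Or.inl rfl) (fun i => Or.inr ⟨i, rfl⟩) i
    rcases hlast i with rfl | ⟨i, rfl⟩
    · exact absurd hij (not_lt.2 (Fin.le_last j))
    · rcases hlast j with rfl | ⟨j, rfl⟩
      · rw [Fin.snoc_castSucc, Fin.snoc_last, hWe _ (T.X0 i), hX, Prod.Lex.lt_iff]
        left
        change (m • (0 : T.Γ)) < T.V.ord (T.X i)
        rw [smul_zero]
        exact T.Xpos i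
      · rw [Fin.snoc_castSucc, Fin.snoc_castSucc, hWe _ (T.X0 i), hWe _ (T.X0 j),
          Prod.Lex.lt_iff]
        left
        change m • T.V.ord (T.X j) < T.V.ord (T.X i)
        exact T.Xlt i j (by simpa using hij) m
  · intro j
    exact he _ (T.w0 j)
  · intro j
    change lexFst T.re (W.ord (e (T.w j))) = 0
    rw [hW _ (T.w0 j)]
    exact T.wre j
  · have h := algInd_ratFunc (Sum.elim T.X T.w) T.ind
    let g : Fin (n + 1) ⊕ J → Option (Fin n ⊕ J) := Sum.elim
      (Fin.snoc (fun i => some (Sum.inl i)) none) (fun j => some (Sum.inr j))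
    have hg : Function.Injective g := by
      rintro (a | a) (b | b) hab
      · congr 1
        revert hab
        refine Fin.lastCases ?_ (fun a => ?_) a <;> refine Fin.lastCases ?_ (fun b => ?_) b <;>
          simp [g]
      · exfalso
        revert hab
        refine Fin.lastCases ?_ (fun a => ?_) a <;> simp [g]
      · exfalso
        revert hab
        refine Fin.lastCases ?_ (fun b => ?_) b <;> simp [g]
      · simpa [g] using hab
    have h' := h.comp g hg
    have hfun : (fun o : Option (Fin n ⊕ J) => o.elim (RatFunc.X : RatFunc T.K)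
        (fun i => algebraMap T.K (RatFunc T.K) (Sum.elim T.X T.w i))) ∘ g =
        Sum.elim (Fin.snoc (fun i => e (T.X i)) RatFunc.X) (fun j => e (T.w j)) := by
      funext o
      rcases o with a | a
      · refine Fin.lastCases ?_ (fun a => ?_) a
        · simp [g]
        · simp [g, e]
      · simp [g, e]
    rw [hfun] at h'
    exact h'

theorem exists_tw_zero (J : Type) [Finite J] : Nonempty (Tw (AlgebraicClosure ℚ) J 0) := by
  obtain ⟨V0, h3⟩ := exists_va_Qbar
  obtain ⟨W, hW, hX⟩ := exists_va_gauss (τ := J) V0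
  refine ⟨{
    K := FractionRing (MvPolynomial J (AlgebraicClosure ℚ))
    Γ := ℝ
    fK := inferInstance
    aK := inferInstance
    gΓ := inferInstance
    lΓ := inferInstance
    oΓ := inferInstance
    V := W
    re := AddMonoidHom.id ℝ
    X := Fin.elim0
    w := fun j => algebraMap (MvPolynomial J (AlgebraicClosure ℚ))
      (FractionRing (MvPolynomial J (AlgebraicClosure ℚ))) (MvPolynomial.X j)
    ψ := Fin.elim0
    mono := fun γ h => h
    re3 := ?_
    X0 := fun i => i.elim0
    Xre := fun i => i.elim0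
    Xpos := fun i => i.elim0
    Xψ := fun i => i.elim0
    Xlt := fun i => i.elim0
    w0 := ?_
    wre := ?_
    ind := ?_ }⟩
  · have h := hW 3 (by norm_num)
    rw [map_ofNat] at h
    change 0 < W.ord 3
    rw [h]
    exact h3
  · intro j h
    have h1 : (MvPolynomial.X j : MvPolynomial J (AlgebraicClosure ℚ)) = 0 := by
      apply IsFractionRing.injective (MvPolynomial J (AlgebraicClosure ℚ))
        (FractionRing (MvPolynomial J (AlgebraicClosure ℚ)))
      rw [h, map_zero]
    exact MvPolynomial.X_ne_zero j h1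
  · intro j
    exact hX j
  · have h := (MvPolynomial.algebraicIndependent_X J (AlgebraicClosure ℚ)).map'
      (f := IsScalarTower.toAlgHom (AlgebraicClosure ℚ) (MvPolynomial J (AlgebraicClosure ℚ))
        (FractionRing (MvPolynomial J (AlgebraicClosure ℚ))))
      (IsFractionRing.injective _ _)
    have h' := h.comp (Sum.elim Fin.elim0 id : Fin 0 ⊕ J → J) (by
      rintro (a | a) (b | b) hab
      · exact a.elim0
      · exact a.elim0
      · exact b.elim0
      · simpa using hab)
    have hfun : ((IsScalarTower.toAlgHom (AlgebraicClosure ℚ)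
        (MvPolynomial J (AlgebraicClosure ℚ))
        (FractionRing (MvPolynomial J (AlgebraicClosure ℚ)))) ∘ MvPolynomial.X) ∘
        Sum.elim Fin.elim0 id = Sum.elim Fin.elim0 (fun j : J =>
        algebraMap (MvPolynomial J (AlgebraicClosure ℚ))
        (FractionRing (MvPolynomial J (AlgebraicClosure ℚ))) (MvPolynomial.X j)) := by
      funext o
      rcases o with a | a
      · exact a.elim0
      · rfl
    rw [hfun] at h'
    exact h'

theorem exists_tw (J : Type) [Finite J] (n : ℕ) : Nonempty (Tw (AlgebraicClosure ℚ) J n) := by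
  induction n with
  | zero => exact exists_tw_zero J
  | succ n ih =>
    obtain ⟨T⟩ := ih
    exact T.step

end Pool.Agent.RR
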