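import Pool.Agent.RR.Defs

/-!
# Project RR: elementary facts on valuations `Va` (for RR-31 .. 35, helper24)
-/

set_option autoImplicit false

namespace Pool.Agent.RR

section Va

variable {F Γ : Type} [Field F] [AddCommGroup Γ] [LinearOrder Γ] [IsOrderedAddMonoid Γ]
variable (V : Va F Γ)

namespace Va

theorem ord_one : V.ord 1 = 0 := by
  have h := V.mul 1 1 one_ne_zero one_ne_zero
  rw [mul_one] at h
  simpa using h

theorem ord_neg_one : V.ord (-1) = 0 := by
  have h := V.mul (-1) (-1) (neg_ne_zero.2 one_ne_zero) (neg_ne_zero.2 one_ne_zero)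
  rw [neg_mul_neg, one_mul, V.ord_one] at h
  rcases lt_trichotomy (V.ord (-1)) 0 with h1 | h1 | h1
  · have := add_neg h1 h1
    rw [← h] at this
    exact absurd this (lt_irrefl _)
  · exact h1
  · have := add_pos h1 h1
    rw [← h] at this
    exact absurd this (lt_irrefl _)

theorem ord_neg {x : F} (hx : x ≠ 0) : V.ord (-x) = V.ord x := by
  rw [← neg_one_mul, V.mul _ _ (neg_ne_zero.2 one_ne_zero) hx, V.ord_neg_one, zero_add]

theorem ord_inv {x : F} (hx : x ≠ 0) : V.ord x⁻¹ = -V.ord x := by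
  have h := V.mul x x⁻¹ hx (inv_ne_zero hx)
  rw [mul_inv_cancel₀ hx, V.ord_one] at h
  exact (neg_eq_of_add_eq_zero_right h.symm).symm

theorem ord_div {x y : F} (hx : x ≠ 0) (hy : y ≠ 0) : V.ord (x / y) = V.ord x - V.ord y := by
  rw [div_eq_mul_inv, V.mul _ _ hx (inv_ne_zero hy), V.ord_inv hy, sub_eq_add_neg]

theorem ord_pow {x : F} (hx : x ≠ 0) (n : ℕ) : V.ord (x ^ n) = n • V.ord x := by
  induction n with
  | zero => rw [pow_zero, V.ord_one, zero_smul]
  | succ n ih => rw [pow_succ, V.mul _ _ (pow_ne_zero _ hx) hx, ih, succ_nsmul]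

theorem ne_of_lt {x y : F} (hx : x ≠ 0) (h : V.ord x < V.ord y) : x + y ≠ 0 := by
  intro h0
  have : y = -x := by rw [eq_neg_iff_add_eq_zero, add_comm]; exact h0
  rw [this, V.ord_neg hx] at h
  exact absurd h (lt_irrefl _)

theorem ord_add_lt {x y : F} (hx : x ≠ 0) (hy : y ≠ 0) (h : V.ord x < V.ord y) :
    V.ord (x + y) = V.ord x := by
  have h0 := V.ne_of_lt hx h
  apply le_antisymm
  · by_contra hlt
    push Not at hlt
    have h1 := V.add (x + y) (-y) h0 (neg_ne_zero.2 hy) (by rwa [add_neg_cancel_right])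
    rw [add_neg_cancel_right, V.ord_neg hy] at h1
    exact absurd h1 (not_le.2 (lt_min hlt h))
  · have h1 := V.add x y hx hy h0
    rwa [min_eq_left h.le] at h1

/-- `x` is zero or of positive value -/
def Po (x : F) : Prop := x = 0 ∨ 0 < V.ord x

/-- `x` is zero or of nonnegative value -/
def In (x : F) : Prop := x = 0 ∨ 0 ≤ V.ord x

variable {V}

theorem Po.inn {x : F} (h : V.Po x) : V.In x := h.imp id le_of_lt

theorem Po.zero : V.Po 0 := Or.inl rfl

theorem In.one : V.In 1 := Or.inr V.ord_one.ge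

theorem Po.neg {x : F} (h : V.Po x) : V.Po (-x) := by
  by_cases hx : x = 0
  · rw [hx, neg_zero]; exact Po.zero
  · rcases h with h | h
    · exact absurd h hx
    · right; rwa [V.ord_neg hx]

theorem Po.add {x y : F} (hx : V.Po x) (hy : V.Po y) : V.Po (x + y) := by
  rcases hx with hx | hx
  · rw [hx, zero_add]; exact hy
  rcases hy with hy | hy
  · rw [hy, add_zero]; exact Or.inr hx
  by_cases h0 : x + y = 0
  · exact Or.inl h0
  by_cases hx0 : x = 0
  · rw [hx0, zero_add]; exact Or.inr hy
  by_cases hy0 : y = 0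
  · rw [hy0, add_zero]; exact Or.inr hx
  exact Or.inr (lt_of_lt_of_le (lt_min hx hy) (V.add x y hx0 hy0 h0))

theorem In.add {x y : F} (hx : V.In x) (hy : V.In y) : V.In (x + y) := by
  rcases hx with hx | hx
  · rw [hx, zero_add]; exact hy
  rcases hy with hy | hy
  · rw [hy, add_zero]; exact Or.inr hx
  by_cases h0 : x + y = 0
  · exact Or.inl h0
  by_cases hx0 : x = 0
  · rw [hx0, zero_add]; exact Or.inr hy
  by_cases hy0 : y = 0
  · rw [hy0, add_zero]; exact Or.inr hx
  exact Or.inr (le_trans (le_min hx hy) (V.add x y hx0 hy0 h0))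

theorem Po.mul {x y : F} (hx : V.Po x) (hy : V.In y) : V.Po (x * y) := by
  by_cases hx0 : x = 0
  · rw [hx0, zero_mul]; exact Po.zero
  by_cases hy0 : y = 0
  · rw [hy0, mul_zero]; exact Po.zero
  right
  rw [V.mul _ _ hx0 hy0]
  exact add_pos_of_pos_of_nonneg (hx.resolve_left hx0) (hy.resolve_left hy0)

theorem Po.sum {ι : Type} (s : Finset ι) (f : ι → F) (h : ∀ i ∈ s, V.Po (f i)) :
    V.Po (∑ i ∈ s, f i) := by
  classical
  induction s using Finset.induction_on with
  | empty => rw [Finset.sum_empty]; exact Po.zero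
  | insert a s ha ih =>
    rw [Finset.sum_insert ha]
    exact (h a (Finset.mem_insert_self _ _)).add
      (ih fun i hi => h i (Finset.mem_insert_of_mem hi))

/-- an element of positive value is not `-1` -/
theorem Po.one_add_ne {x : F} (hx : V.Po x) : 1 + x ≠ 0 := by
  rcases hx with hx | hx
  · rw [hx, add_zero]; exact one_ne_zero
  · exact V.ne_of_lt one_ne_zero (by rwa [V.ord_one])

theorem Po.ord_one_add {x : F} (hx : V.Po x) : V.ord (1 + x) = 0 := by
  by_cases hx0 : x = 0
  · rw [hx0, add_zero, V.ord_one]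
  · rw [V.ord_add_lt one_ne_zero hx0 (by rw [V.ord_one]; exact hx.resolve_left hx0), V.ord_one]

/-- principal units are closed under multiplication -/
theorem Po.one_mul_one {x y : F} (hx : V.Po x) (hy : V.Po y) :
    V.Po ((1 + x) * (1 + y) - 1) := by
  have : (1 + x) * (1 + y) - 1 = x + y + x * y := by ring
  rw [this]
  exact (hx.add hy).add (hx.mul hy.inn)

end Va

end Va

end Pool.Agent.RR
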