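import Pool.Agent.RR.SchDefs

/-!
# Project RR, scheme layer S2: birational affine schemes have isomorphic function fields
-/

set_option autoImplicit false

open AlgebraicGeometry CategoryTheory CategoryTheory.Limits

namespace Pool.Agent.RR.Sch

/-- The scalars as rational functions. -/
noncomputable def kfs {k : Type} [Field k] {X : Scheme.{0}} [IrreducibleSpace X]
    (s : X ⟶ Spec (.of k)) : CommRingCat.of k ⟶ X.functionField :=
  (Scheme.ΓSpecIso (.of k)).inv ≫ s.appTop ≫ X.presheaf.germ ⊤ (genericPoint X) trivial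

/-- An open immersion of integral schemes induces an isomorphism of function fields. -/
theorem exists_iso {k : Type} [Field k] {U X : Scheme.{0}} [IsIntegral U] [IsIntegral X]
    (f : U ⟶ X) [IsOpenImmersion f] (s : X ⟶ Spec (.of k)) :
    ∃ e : X.functionField ≅ U.functionField, kfs s ≫ e.hom = kfs (f ≫ s) := by
  have h : f (genericPoint U) = genericPoint X := genericPoint_eq_of_isOpenImmersion f
  refine ⟨X.presheaf.stalkCongr (.of_eq h.symm) ≪≫ asIso (f.stalkMap (genericPoint U)), ?_⟩
  simp only [kfs, Iso.trans_hom, TopCat.Presheaf.stalkCongr_hom, asIso_hom, Category.assoc,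
    TopCat.Presheaf.germ_stalkSpecializes_assoc, Scheme.Hom.comp_appTop]
  rw [Scheme.Hom.germ_stalkMap]
  rfl

/-- Birational integral schemes over a field have isomorphic function fields. -/
theorem exists_equiv {k : Type} [Field k] {X Y : Scheme.{0}} [IsIntegral X] [IsIntegral Y]
    {sX : X ⟶ Spec (.of k)} {sY : Y ⟶ Spec (.of k)} (h : Scheme.BirationalOver sX sY) :
    ∃ e : X.functionField ≅ Y.functionField, kfs sX ≫ e.hom = kfs sY := by
  obtain ⟨f, hf⟩ := h
  have hne : Nonempty f.source := by
    obtain ⟨x, hx⟩ := f.dense_source.nonempty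
    exact ⟨⟨x, hx⟩⟩
  obtain ⟨e1, h1⟩ := exists_iso f.source.ι sX
  obtain ⟨e2, h2⟩ := exists_iso (f.iso.hom ≫ f.target.ι) sY
  refine ⟨e1 ≪≫ e2.symm, ?_⟩
  rw [Iso.trans_hom, Iso.symm_hom, reassoc_of% h1, Iso.comp_inv_eq, h2, Category.assoc, hf]

/-- The function field of the spectrum of a domain is its field of fractions. -/
theorem exists_frac0 (R : CommRingCat.{0}) [IsDomain R] :
    ∃ e : FractionRing R ≃+* (Spec R).functionField,
      ∀ a : R, e (algebraMap R _ a) = ((Scheme.ΓSpecIso R).inv ≫
        (Spec R).presheaf.germ ⊤ (genericPoint _) trivial).hom a := by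
  let e := IsLocalization.algEquiv (nonZeroDivisors R) (FractionRing R) (Spec R).functionField
  exact ⟨e.toRingEquiv, fun a => e.commutes a⟩

/-- The function field of the spectrum of a domain is its field of fractions. -/
theorem exists_frac {k : Type} [Field k] (B : Type) [CommRing B] [IsDomain B] [Algebra k B] :
    ∃ e : FractionRing B ≃+* (Spec (.of B)).functionField,
      ∀ a : k, e (algebraMap k _ a) = (kfs (str k B)).hom a := by
  obtain ⟨e, he⟩ := exists_frac0 (.of B)
  refine ⟨e, fun a => ?_⟩
  have h1 : algebraMap k (FractionRing B) a = algebraMap B (FractionRing B) (algebraMap k B a) :=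
    IsScalarTower.algebraMap_apply k B _ a
  rw [h1]
  refine (he (algebraMap k B a)).trans ?_
  have h2 : kfs (str k B) =
      CommRingCat.ofHom (algebraMap k B) ≫ (Scheme.ΓSpecIso (.of B)).inv ≫
        (Spec (.of B)).presheaf.germ ⊤ (genericPoint _) trivial := by
    rw [kfs, ← Category.assoc, ← Category.assoc]
    congr 1
    exact (Scheme.ΓSpecIso_inv_naturality (CommRingCat.ofHom (algebraMap k B))).symm
  rw [h2]
  rfl

/-- The affine space over a field is birational to the spectrum of the polynomial ring. -/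
theorem affine_spec (k : Type) [Field k] (n : Type) :
    Scheme.BirationalOver (𝔸(n; Spec (.of k)) ↘ Spec (.of k)) (str k (MvPolynomial n k)) := by
  have h : (AffineSpace.SpecIso n (.of k)).hom ≫ str k (MvPolynomial n k) =
      𝔸(n; Spec (.of k)) ↘ Spec (.of k) := by
    rw [← Iso.eq_inv_comp, AffineSpace.SpecIso_inv_over]
    rfl
  refine ⟨.ofIso (AffineSpace.SpecIso n (.of k)), ?_⟩
  rw [Scheme.PartialIso.IsOver, ← h]
  simp [Scheme.PartialIso.ofIso]

theorem equiv_of_birationalOver {k : Type} [Field k] {B : Type} [CommRing B] [IsDomain B]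
    [Algebra k B] (n : Type)
    (h : Scheme.BirationalOver (str k B) (𝔸(n; Spec (.of k)) ↘ Spec (.of k))) :
    Nonempty (FractionRing B ≃ₐ[k] FractionRing (MvPolynomial n k)) := by
  obtain ⟨σ, hσ⟩ := exists_equiv (h.trans (affine_spec k n))
  obtain ⟨e1, h1⟩ := exists_frac (k := k) B
  obtain ⟨e2, h2⟩ := exists_frac (k := k) (MvPolynomial n k)
  refine ⟨AlgEquiv.ofRingEquiv
    (f := (e1.trans σ.commRingCatIsoToRingEquiv).trans e2.symm) fun a => ?_⟩
  change e2.symm (σ.hom.hom (e1 (algebraMap k _ a))) = _
  rw [h1, RingEquiv.symm_apply_eq, h2, ← hσ]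
  rfl

theorem finite_of_equiv {k : Type} [Field k] {B : Type} [CommRing B] [IsDomain B]
    [Algebra k B] [Algebra.FiniteType k B] (n : Type)
    (e : FractionRing B ≃ₐ[k] FractionRing (MvPolynomial n k)) : Finite n := by
  have h1 : Algebra.trdeg k B < Cardinal.aleph0 := trdeg_lt_aleph0_of_finiteType
  have h2 : Algebra.trdeg k (FractionRing B) = Algebra.trdeg k B := by
    have h0 : Algebra.IsAlgebraic B (FractionRing B) :=
      IsLocalization.isAlgebraic (FractionRing B) (nonZeroDivisors B)
    have h := trdeg_add_eq k B (A := FractionRing B)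
    rw [trdeg_eq_zero (R := B), add_zero] at h
    exact h.symm
  have h3 : Algebra.trdeg k (FractionRing (MvPolynomial n k)) =
      Algebra.trdeg k (MvPolynomial n k) := by
    have h0 : Algebra.IsAlgebraic (MvPolynomial n k) (FractionRing (MvPolynomial n k)) :=
      IsLocalization.isAlgebraic _ (nonZeroDivisors (MvPolynomial n k))
    have h := trdeg_add_eq k (MvPolynomial n k) (A := FractionRing (MvPolynomial n k))
    rw [trdeg_eq_zero (R := MvPolynomial n k), add_zero] at h
    exact h.symm
  have h4 : Algebra.trdeg k (MvPolynomial n k) = Cardinal.mk n := by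
    rw [MvPolynomial.trdeg_of_isDomain, Cardinal.lift_id]
  rw [← Cardinal.mk_lt_aleph0_iff, ← h4, ← h3, ← e.trdeg_eq, h2]
  exact h1

end Pool.Agent.RR.Sch
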