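import Pool.Agent.RR.SchDefs
import Pool.Agent.RR.SchFun

/-!
# Project RR, scheme layer S1: affine schemes with isomorphic function fields are birational
-/

set_option autoImplicit false

open AlgebraicGeometry CategoryTheory

namespace Pool.Agent.RR.Sch

/-- A common denominator for all elements of a finitely generated algebra. -/
theorem common_den {k A B K : Type} [Field k] [CommRing A] [Algebra k A] [Algebra.FiniteType k A]
    [CommRing B] [Algebra k B] [Field K] [Algebra k K] (α : A →ₐ[k] K) (β : B →ₐ[k] K)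
    (h : ∀ z : K, ∃ b s : B, β s ≠ 0 ∧ z * β s = β b) :
    ∃ g : B, β g ≠ 0 ∧ ∀ a : A, ∃ n : ℕ, ∃ b : B, α a * β g ^ n = β b := by
  classical
  obtain ⟨S, hS⟩ := (‹Algebra.FiniteType k A›).out
  choose num den hden hnum using h
  refine ⟨∏ a ∈ S, den (α a), ?_, ?_⟩
  · rw [map_prod]
    exact Finset.prod_ne_zero_iff.2 fun a _ => hden _
  set g := ∏ a ∈ S, den (α a) with hg
  let T : Subalgebra k A :=
    { carrier := {a | ∃ n : ℕ, ∃ b : B, α a * β g ^ n = β b}
      mul_mem' := by
        rintro a a' ⟨n, b, hb⟩ ⟨n', b', hb'⟩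
        refine ⟨n + n', b * b', ?_⟩
        rw [map_mul, map_mul, ← hb, ← hb', pow_add]
        ring
      one_mem' := ⟨0, 1, by simp⟩
      add_mem' := by
        rintro a a' ⟨n, b, hb⟩ ⟨n', b', hb'⟩
        refine ⟨n + n', b * g ^ n' + b' * g ^ n, ?_⟩
        rw [map_add, map_add, map_mul, map_mul, map_pow, map_pow, ← hb, ← hb', pow_add]
        ring
      zero_mem' := ⟨0, 0, by simp⟩
      algebraMap_mem' := fun c => ⟨0, algebraMap k B c, by simp⟩ }
  have hT : T = ⊤ := by
    rw [eq_top_iff, ← hS]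
    apply Algebra.adjoin_le
    intro a ha
    refine ⟨1, num (α a) * ∏ a' ∈ S.erase a, den (α a'), ?_⟩
    rw [pow_one, map_mul, ← hnum, hg, ← Finset.mul_prod_erase S _ ha, map_mul]
    ring
  intro a
  have : a ∈ T := by rw [hT]; trivial
  exact this

/-- A subring of the common field of fractions is a localization. -/
theorem isLoc {k B K : Type} [Field k] [CommRing B] [Algebra k B] [Field K] [Algebra k K]
    (β : B →ₐ[k] K) (hβ : Function.Injective β) (D : Subalgebra k K) (f : B →+* D)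
    (hf : ∀ b, (f b : K) = β b) (x : B) (hx : (β x)⁻¹ ∈ D) (hx0 : β x ≠ 0)
    (hD : ∀ z ∈ D, ∃ n : ℕ, ∃ b : B, z * β x ^ n = β b) :
    @IsLocalization.Away B _ x D _ f.toAlgebra := by
  let _ := f.toAlgebra
  have halg : ∀ b : B, ((algebraMap B D b : D) : K) = β b := hf
  rw [IsLocalization.Away, isLocalization_iff]
  refine ⟨?_, ?_, ?_⟩
  · rintro ⟨_, n, rfl⟩
    change IsUnit (algebraMap B D (x ^ n))
    rw [map_pow]
    apply IsUnit.pow
    refine IsUnit.of_mul_eq_one (⟨(β x)⁻¹, hx⟩ : D) (Subtype.ext ?_)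
    change ((algebraMap B D x : D) : K) * (β x)⁻¹ = 1
    rw [halg, mul_inv_cancel₀ hx0]
  · intro z
    obtain ⟨n, b, hb⟩ := hD z z.2
    refine ⟨(b, ⟨x ^ n, n, rfl⟩), Subtype.ext ?_⟩
    change (z : K) * ((algebraMap B D (x ^ n) : D) : K) = ((algebraMap B D b : D) : K)
    rw [halg, halg, map_pow, hb]
  · intro a b hab
    refine ⟨1, ?_⟩
    have h1 := congrArg (Subtype.val : D → K) hab
    rw [halg, halg] at h1
    rw [hβ h1]

/-- The spectrum of such a subring is birational to the spectrum of the ring. -/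
theorem bir_of_isLoc {k B K : Type} [Field k] [CommRing B] [IsDomain B] [Algebra k B] [Field K]
    [Algebra k K]
    (β : B →ₐ[k] K) (hβ : Function.Injective β) (D : Subalgebra k K) (f : B →+* D)
    (hf : ∀ b, (f b : K) = β b) (x : B) (hx : (β x)⁻¹ ∈ D) (hx0 : β x ≠ 0)
    (hD : ∀ z ∈ D, ∃ n : ℕ, ∃ b : B, z * β x ^ n = β b) :
    Scheme.BirationalOver (str k D) (str k B) := by
  let _ := f.toAlgebra
  have _ : IsLocalization.Away x D := isLoc β hβ D f hf x hx hx0 hD
  have h1 : IsOpenImmersion (Spec.map (CommRingCat.ofHom (algebraMap B D))) :=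
    IsOpenImmersion.of_isLocalization x
  have h2 : IsDominant (Spec.map (CommRingCat.ofHom (algebraMap B D))) := by
    refine ⟨?_⟩
    have h3 : IsOpen (Set.range (Spec.map (CommRingCat.ofHom (algebraMap B D)))) :=
      (Spec.map (CommRingCat.ofHom (algebraMap B D))).isOpenEmbedding.isOpen_range
    have h4 : IrreducibleSpace (Spec (.of B)) := inferInstance
    have h5 : Nonempty (Spec (.of D)) := inferInstance
    exact h3.dense (Set.range_nonempty _)
  refine Scheme.Hom.birationalOver (Spec.map (CommRingCat.ofHom (algebraMap B D))) (str k B)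
    (str k D) ?_
  rw [← Spec.map_comp, ← CommRingCat.ofHom_comp]
  congr 2
  ext a
  change (f (algebraMap k B a) : K) = algebraMap k K a
  rw [hf, AlgHom.commutes]

/-- one half of the statement on common localizations -/
theorem half {k B C K : Type} [Field k] [CommRing B] [Algebra k B] [CommRing C] [Algebra k C]
    [Field K] [Algebra k K] (β : B →ₐ[k] K) (γ : C →ₐ[k] K) (f : B) (g : C) (hf : β f ≠ 0)
    (hg : γ g ≠ 0) (h : ∀ c : C, ∃ n : ℕ, ∃ b : B, γ c * β f ^ n = β b) :
    ∃ x : B, β x ≠ 0 ∧ (β x)⁻¹ ∈ Algebra.adjoin k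
      (Set.range β ∪ Set.range γ ∪ {(β f)⁻¹, (γ g)⁻¹}) ∧
      ∀ z ∈ Algebra.adjoin k (Set.range β ∪ Set.range γ ∪ {(β f)⁻¹, (γ g)⁻¹}),
        ∃ n : ℕ, ∃ b : B, z * β x ^ n = β b := by
  obtain ⟨n0, b0, hb0⟩ := h g
  have hx : β (b0 * f) = γ g * β f ^ (n0 + 1) := by
    rw [map_mul, ← hb0]; ring
  refine ⟨b0 * f, ?_, ?_, ?_⟩
  · rw [hx]
    exact mul_ne_zero hg (pow_ne_zero _ hf)
  · rw [hx, mul_inv, ← inv_pow]
    refine Subalgebra.mul_mem _ (Algebra.subset_adjoin ?_)
      (Subalgebra.pow_mem _ (Algebra.subset_adjoin ?_) _)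
    · right; right; rfl
    · right; left; rfl
  · intro z hz
    let T : Subalgebra k K :=
      { carrier := {z | ∃ n : ℕ, ∃ b : B, z * β (b0 * f) ^ n = β b}
        mul_mem' := by
          rintro a a' ⟨n, b, hb⟩ ⟨n', b', hb'⟩
          refine ⟨n + n', b * b', ?_⟩
          rw [map_mul β b b', ← hb, ← hb', pow_add]
          ring
        one_mem' := ⟨0, 1, by simp⟩
        add_mem' := by
          rintro a a' ⟨n, b, hb⟩ ⟨n', b', hb'⟩
          refine ⟨n + n', b * (b0 * f) ^ n' + b' * (b0 * f) ^ n, ?_⟩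
          rw [map_add, map_mul β b, map_mul β b', map_pow, map_pow, ← hb, ← hb', pow_add]
          ring
        zero_mem' := ⟨0, 0, by simp⟩
        algebraMap_mem' := fun c => ⟨0, algebraMap k B c, by simp⟩ }
    have hT : Algebra.adjoin k (Set.range β ∪ Set.range γ ∪ {(β f)⁻¹, (γ g)⁻¹}) ≤ T := by
      apply Algebra.adjoin_le
      rintro z ((⟨b, rfl⟩ | ⟨c, rfl⟩) | (rfl | rfl))
      · exact ⟨0, b, by simp⟩
      · obtain ⟨n, b, hb⟩ := h c
        refine ⟨n, b * b0 ^ n, ?_⟩
        rw [map_mul, map_mul, map_pow, ← hb, mul_pow]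
        ring
      · refine ⟨1, b0, ?_⟩
        rw [pow_one, map_mul]
        field_simp
      · refine ⟨1, f ^ (n0 + 1), ?_⟩
        rw [pow_one, hx, map_pow]
        field_simp
    exact hT hz

theorem birationalOver_of_equiv {k : Type} [Field k] {B C : Type} [CommRing B] [IsDomain B]
    [Algebra k B] [Algebra.FiniteType k B] [CommRing C] [IsDomain C] [Algebra k C]
    [Algebra.FiniteType k C] (e : FractionRing B ≃ₐ[k] FractionRing C) :
    Scheme.BirationalOver (str k B) (str k C) := by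
  let β : B →ₐ[k] FractionRing C :=
    (e : FractionRing B →ₐ[k] FractionRing C).comp (IsScalarTower.toAlgHom k B (FractionRing B))
  let γ : C →ₐ[k] FractionRing C := IsScalarTower.toAlgHom k C (FractionRing C)
  have hβ : Function.Injective β :=
    e.injective.comp (IsFractionRing.injective B (FractionRing B))
  have hγ : Function.Injective γ := IsFractionRing.injective C (FractionRing C)
  have h1 : ∀ z : FractionRing C, ∃ b s : B, β s ≠ 0 ∧ z * β s = β b := by
    intro z
    obtain ⟨b, s, hs, hz⟩ := IsFractionRing.div_surjective (A := B) (e.symm z)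
    have hs' : algebraMap B (FractionRing B) s ≠ 0 := by
      rw [Ne, FaithfulSMul.algebraMap_eq_zero_iff]
      exact nonZeroDivisors.ne_zero hs
    refine ⟨b, s, ?_, ?_⟩
    · rw [Ne, map_eq_zero_iff β hβ]
      exact nonZeroDivisors.ne_zero hs
    · change z * e (algebraMap B (FractionRing B) s) = e (algebraMap B (FractionRing B) b)
      have h2 : z = e (e.symm z) := (e.apply_symm_apply z).symm
      rw [h2, ← map_mul, ← hz, div_mul_cancel₀ _ hs']
  have h2 : ∀ z : FractionRing C, ∃ c s : C, γ s ≠ 0 ∧ z * γ s = γ c := by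
    intro z
    obtain ⟨b, s, hs, hz⟩ := IsFractionRing.div_surjective (A := C) z
    have hs' : algebraMap C (FractionRing C) s ≠ 0 := by
      rw [Ne, FaithfulSMul.algebraMap_eq_zero_iff]
      exact nonZeroDivisors.ne_zero hs
    refine ⟨b, s, hs', ?_⟩
    change z * algebraMap C (FractionRing C) s = algebraMap C (FractionRing C) b
    rw [← hz, div_mul_cancel₀ _ hs']
  obtain ⟨f, hf0, hf⟩ := common_den γ β h1
  obtain ⟨g, hg0, hg⟩ := common_den β γ h2
  obtain ⟨x, hx0, hx, hxD⟩ := half β γ f g hf0 hg0 hf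
  obtain ⟨y, hy0, hy, hyD⟩ := half γ β g f hg0 hf0 hg
  have hset : (Set.range γ ∪ Set.range β ∪ {(γ g)⁻¹, (β f)⁻¹} : Set (FractionRing C)) =
      Set.range β ∪ Set.range γ ∪ {(β f)⁻¹, (γ g)⁻¹} := by
    rw [Set.union_comm (Set.range γ), Set.pair_comm]
  rw [hset] at hy hyD
  set D := Algebra.adjoin k (Set.range β ∪ Set.range γ ∪ {(β f)⁻¹, (γ g)⁻¹}) with hD
  have hβD : ∀ b, β b ∈ D := fun b => Algebra.subset_adjoin (Or.inl (Or.inl ⟨b, rfl⟩))
  have hγD : ∀ c, γ c ∈ D := fun c => Algebra.subset_adjoin (Or.inl (Or.inr ⟨c, rfl⟩))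
  have b1 := bir_of_isLoc β hβ D ((β : B →+* FractionRing C).codRestrict D.toSubring hβD)
    (fun _ => rfl) x hx hx0 hxD
  have b2 := bir_of_isLoc γ hγ D ((γ : C →+* FractionRing C).codRestrict D.toSubring hγD)
    (fun _ => rfl) y hy hy0 hyD
  exact b1.symm.trans b2

theorem birationalOver_affine {k : Type} [Field k] {B : Type} [CommRing B] [IsDomain B]
    [Algebra k B] [Algebra.FiniteType k B] (n : Type) [Finite n]
    (e : FractionRing B ≃ₐ[k] FractionRing (MvPolynomial n k)) :
    Scheme.BirationalOver (str k B) (𝔸(n; Spec (.of k)) ↘ Spec (.of k)) :=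
  (birationalOver_of_equiv e).trans (affine_spec k n).symm

end Pool.Agent.RR.Sch
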