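import Mathlib.AlgebraicGeometry.Birational.Birational
import Mathlib.AlgebraicGeometry.Geometrically.Integral
import Mathlib

/-!
# Project RR, scheme layer: structure morphisms of affine schemes
-/

set_option autoImplicit false

open AlgebraicGeometry CategoryTheory

namespace Pool.Agent.RR.Sch

/-- the structure morphism of an affine scheme -/
noncomputable abbrev str (R B : Type) [CommRing R] [CommRing B] [Algebra R B] :
    Spec (.of B) ⟶ Spec (.of R) := Spec.map (CommRingCat.ofHom (algebraMap R B))

end Pool.Agent.RR.Sch
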