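import Pool.Agent.RR.SchDefs

/-!
# Project RR, scheme layer (S3): the fibres of an affine hypersurface over `Spec R`.
-/

set_option autoImplicit false

namespace Pool.Agent.RR.Sch

open AlgebraicGeometry CategoryTheory CategoryTheory.Limits MvPolynomial

section

variable {R S σ : Type} [CommRing R] [CommRing S]

/-- The coordinate ring of the affine hypersurface `G = 0`. -/
abbrev HypR {R σ : Type} [CommRing R] (G : MvPolynomial σ R) : Type :=
  MvPolynomial σ R ⧸ Ideal.span {G}

/-- The map of coordinate rings under a change of rings. -/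
noncomputable def hypMap (f : R →+* S) (G : MvPolynomial σ R) :
    HypR G →+* HypR (MvPolynomial.map f G) :=
  Ideal.quotientMap (Ideal.span {MvPolynomial.map f G}) (MvPolynomial.map f) (by
    rw [Ideal.span_le, Set.singleton_subset_iff]
    exact Ideal.subset_span rfl)

theorem hypMap_mk (f : R →+* S) (G : MvPolynomial σ R) (P : MvPolynomial σ R) :
    hypMap f G (Ideal.Quotient.mk _ P) = Ideal.Quotient.mk _ (MvPolynomial.map f P) := rfl

/-- The square of rings of a change of rings is a pushout square. -/
theorem isPushout_hyp (f : R →+* S) (G : MvPolynomial σ R) :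
    IsPushout (CommRingCat.ofHom (algebraMap R (HypR G))) (CommRingCat.ofHom f)
      (CommRingCat.ofHom (hypMap f G))
      (CommRingCat.ofHom (algebraMap S (HypR (MvPolynomial.map f G)))) := by
  refine ⟨⟨?_⟩, ⟨Limits.PushoutCocone.IsColimit.mk _ (fun s => ?_) ?_ ?_ ?_⟩⟩
  · ext r
    change hypMap f G (Ideal.Quotient.mk _ (C r)) = Ideal.Quotient.mk _ (C (f r))
    rw [hypMap_mk, map_C]
  · refine CommRingCat.ofHom (Ideal.Quotient.lift _ (MvPolynomial.eval₂Hom s.inr.hom
      (fun i => s.inl.hom (Ideal.Quotient.mk _ (X i)))) ?_)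
    have hc : s.inr.hom.comp f = s.inl.hom.comp (algebraMap R (HypR G)) := by
      have := s.condition
      exact (congrArg CommRingCat.Hom.hom this).symm
    have key : (MvPolynomial.eval₂Hom s.inr.hom
        (fun i => s.inl.hom (Ideal.Quotient.mk _ (X i)))).comp (MvPolynomial.map f) =
        s.inl.hom.comp (Ideal.Quotient.mk (Ideal.span {G})) := by
      apply MvPolynomial.ringHom_ext
      · intro r
        simp only [RingHom.comp_apply, map_C, MvPolynomial.eval₂Hom_C]
        exact congrArg (fun h => h r) hc
      · intro i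
        simp
    intro a ha
    rw [Ideal.mem_span_singleton] at ha
    obtain ⟨b, rfl⟩ := ha
    rw [map_mul]
    have : (MvPolynomial.eval₂Hom s.inr.hom
        (fun i => s.inl.hom (Ideal.Quotient.mk _ (X i)))) (MvPolynomial.map f G) = 0 := by
      have h1 := congrArg (fun h => h G) key
      simp only [RingHom.comp_apply] at h1
      rw [h1]
      have : Ideal.Quotient.mk (Ideal.span {G}) G = 0 :=
        Ideal.Quotient.eq_zero_iff_mem.2 (Ideal.subset_span rfl)
      rw [this, map_zero]
    rw [this, zero_mul]
  · intro s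
    have hc : s.inr.hom.comp f = s.inl.hom.comp (algebraMap R (HypR G)) := by
      have := s.condition
      exact (congrArg CommRingCat.Hom.hom this).symm
    ext1
    apply Ideal.Quotient.ringHom_ext
    apply MvPolynomial.ringHom_ext
    · intro r
      have := congrArg (fun h => h r) hc
      simp only [RingHom.comp_apply] at this
      simp only [CommRingCat.hom_comp, CommRingCat.hom_ofHom, RingHom.comp_apply, hypMap_mk,
        map_C, Ideal.Quotient.lift_mk, MvPolynomial.eval₂Hom_C]
      exact this
    · intro i
      simp [hypMap_mk]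
  · intro s
    ext1
    apply RingHom.ext
    intro r
    have h0 : algebraMap S (HypR (MvPolynomial.map f G)) r =
        Ideal.Quotient.mk (Ideal.span {MvPolynomial.map f G}) (C r) := rfl
    simp only [CommRingCat.hom_comp, CommRingCat.hom_ofHom, RingHom.comp_apply, h0]
    rw [Ideal.Quotient.lift_mk, MvPolynomial.eval₂Hom_C]
  · intro s m h1 h2
    ext1
    apply Ideal.Quotient.ringHom_ext
    apply MvPolynomial.ringHom_ext
    · intro r
      have := congrArg (fun h => h.hom r) h2
      simp only [CommRingCat.hom_comp, CommRingCat.hom_ofHom, RingHom.comp_apply] at this ⊢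
      rw [Ideal.Quotient.lift_mk, MvPolynomial.eval₂Hom_C]
      exact this
    · intro i
      have := congrArg (fun h => h.hom (Ideal.Quotient.mk (Ideal.span {G}) (X i))) h1
      simp only [CommRingCat.hom_comp, CommRingCat.hom_ofHom, RingHom.comp_apply, hypMap_mk,
        map_X] at this ⊢
      rw [Ideal.Quotient.lift_mk, MvPolynomial.eval₂Hom_X']
      exact this

/-- The base change of an affine hypersurface is the hypersurface of the same equation. -/
theorem isPullback_hyp (f : R →+* S) (G : MvPolynomial σ R) :
    IsPullback (Spec.map (CommRingCat.ofHom (hypMap f G))) (str S (HypR (MvPolynomial.map f G)))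
      (str R (HypR G)) (Spec.map (CommRingCat.ofHom f)) :=
  isPullback_SpecMap_of_isPushout _ _ _ _ (isPushout_hyp f G)

end

theorem exists_fibre_iso {σ : Type} (G : MvPolynomial σ ℤ) (k : Type) [Field k] :
    ∃ e : pullback (str ℤ (MvPolynomial σ ℤ ⧸ Ideal.span {G})) (str ℤ k) ≅
      Spec (.of (MvPolynomial σ k ⧸ Ideal.span {MvPolynomial.map (algebraMap ℤ k) G})),
      e.hom ≫ str k _ = pullback.snd _ _ := by
  have h := isPullback_hyp (algebraMap ℤ k) G
  exact ⟨h.isoPullback.symm, h.isoPullback_inv_snd⟩

theorem geometricallyIntegral_fibre {σ : Type} (G : MvPolynomial σ ℤ)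
    (h : ∀ (K : Type) [Field K] [CharZero K],
      (Ideal.span {MvPolynomial.map (algebraMap ℤ K) G}).IsPrime) :
    GeometricallyIntegral (pullback.snd (str ℤ (MvPolynomial σ ℤ ⧸ Ideal.span {G}))
      (str ℤ ℚ)) := by
  refine ⟨?_⟩
  intro K _ y Z fst snd hZ
  obtain ⟨φ, rfl⟩ := Spec.map_surjective y
  have : CharZero K := charZero_of_injective_ringHom φ.hom.injective
  have h1 := hZ.flip.paste_vert (IsPullback.of_hasPullback
    (str ℤ (MvPolynomial σ ℤ ⧸ Ideal.span {G})) (str ℤ ℚ)).flip
  have h2 : Spec.map φ ≫ str ℤ ℚ = Spec.map (CommRingCat.ofHom (algebraMap ℤ K)) := by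
    unfold str
    rw [← Spec.map_comp]
    congr 1
    ext1
    exact RingHom.ext_int _ _
  rw [h2] at h1
  have h3 := (isPullback_hyp (algebraMap ℤ K) G).flip
  let e := h1.isoIsPullback _ _ h3
  have : (Ideal.span {MvPolynomial.map (algebraMap ℤ K) G}).IsPrime := h K
  have : IsIntegral (Spec (CommRingCat.of (HypR (MvPolynomial.map (algebraMap ℤ K) G)))) :=
    inferInstance
  have : Nonempty Z := ⟨e.inv (Classical.arbitrary _)⟩
  exact isIntegral_of_isOpenImmersion e.hom

end Pool.Agent.RR.Sch
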