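import Pool.Agent.RR.SchBir
import Pool.Agent.RR.SchFib
import Pool.Agent.RR.Prime
import Pool.Agent.RR.Basis
import Pool.Agent.RR.BasisT0

/-!
# Project RR, scheme layer: the scheme form of the main theorem
-/

set_option autoImplicit false

open AlgebraicGeometry CategoryTheory CategoryTheory.Limits

namespace Pool.Agent.RR.Sch

/-- iterated fibre: over `ℚ` and then over `Q̄`, or directly (helper62) -/
theorem birationalOver_iter {X : Scheme.{0}} (π : X ⟶ Spec (.of ℤ)) :
    Scheme.BirationalOver (pullback.snd (pullback.snd π (str ℤ ℚ)) (str ℚ (AlgebraicClosure ℚ)))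
      (pullback.snd π (str ℤ (AlgebraicClosure ℚ))) := by
  have h : str ℚ (AlgebraicClosure ℚ) ≫ str ℤ ℚ = str ℤ (AlgebraicClosure ℚ) := by
    rw [← Spec.map_comp]
    congr 1
  rw [← h]
  refine ⟨.ofIso (pullbackLeftPullbackSndIso π (str ℤ ℚ) (str ℚ (AlgebraicClosure ℚ))), ?_⟩
  simp [Scheme.PartialIso.IsOver, Scheme.PartialIso.ofIso, pullbackLeftPullbackSndIso_hom_snd]

/-- the model -/
noncomputable abbrev piX : Spec (.of (MvPolynomial Co ℤ ⧸ Ideal.span {GP ℤ})) ⟶ Spec (.of ℤ) :=
  str ℤ (MvPolynomial Co ℤ ⧸ Ideal.span {GP ℤ})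

theorem fibre_iso (k : Type) [Field k] :
    ∃ e : pullback piX (str ℤ k) ≅ Spec (.of (RX k)), e.hom ≫ str k (RX k) = pullback.snd _ _ := by
  have h := exists_fibre_iso (GP ℤ) k
  rwa [GP_map] at h

theorem fibre_bir (k : Type) [Field k] :
    Scheme.BirationalOver (pullback.snd piX (str ℤ k)) (str k (RX k)) := by
  obtain ⟨e, he⟩ := fibre_iso k
  refine ⟨.ofIso e, ?_⟩
  rw [Scheme.PartialIso.IsOver, ← he]
  simp [Scheme.PartialIso.ofIso]

theorem fibre_integral (k : Type) [Field k] [IsDomain (RX k)] :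
    IsIntegral (pullback piX (str ℤ k)) := by
  obtain ⟨e, he⟩ := fibre_iso k
  have : IsIntegral (Spec (CommRingCat.of (RX k))) := inferInstance
  have : Nonempty (pullback piX (str ℤ k) : Scheme) := ⟨e.inv (Classical.arbitrary _)⟩
  exact isIntegral_of_isOpenImmersion e.hom

theorem isRat_of_equiv (k : Type) [Field k] (B : Type) [CommRing B] [IsDomain B] [Algebra k B]
    [Algebra.FiniteType k B] (n : Type)
    (e : FractionRing B ≃ₐ[k] FractionRing (MvPolynomial n k)) : IsRat k B := by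
  have := finite_of_equiv n e
  obtain ⟨m, ⟨f⟩⟩ := Finite.exists_equiv_fin n
  refine ⟨m, ⟨e.trans ?_⟩⟩
  exact IsFractionRing.algEquivOfAlgEquiv (MvPolynomial.renameEquiv k f)

theorem trdeg_frac (k : Type) [Field k] (n : ℕ) :
    Algebra.trdeg k (FractionRing (MvPolynomial (Fin n) k)) = n := by
  have h0 : Algebra.IsAlgebraic (MvPolynomial (Fin n) k) (FractionRing (MvPolynomial (Fin n) k)) :=
    IsLocalization.isAlgebraic _ (nonZeroDivisors (MvPolynomial (Fin n) k))
  have h := trdeg_add_eq k (MvPolynomial (Fin n) k)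
    (A := FractionRing (MvPolynomial (Fin n) k))
  rw [trdeg_eq_zero (R := MvPolynomial (Fin n) k), add_zero] at h
  rw [← h, MvPolynomial.trdeg_of_isDomain]
  simp

theorem card_Co' : Fintype.card Co' = 37 := by
  have h : Fintype.card (BI 5) = 32 := by decide
  rw [Fintype.card_sum, Fintype.card_fin, Fintype.card_subtype_compl, h]
  simp

/-- The scheme form of the main theorem. -/
theorem scheme_form (hnot : ¬ IsRat (AlgebraicClosure ℚ) (RX (AlgebraicClosure ℚ)))
    (hrat : ∀ (p : ℕ) [Fact p.Prime], 5 ≤ p →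
      IsRat (AlgebraicClosure (ZMod p)) (RX (AlgebraicClosure (ZMod p)))) :
    ∃ (X : Scheme.{0}) (π : X ⟶ Spec (.of ℤ)), IsAffine X ∧ IsSeparated π ∧
    LocallyOfFiniteType π ∧ QuasiCompact π ∧
    GeometricallyIntegral (pullback.snd π (str ℤ ℚ)) ∧
    ¬ Scheme.IsRationalOver
      (pullback.snd (pullback.snd π (str ℤ ℚ)) (str ℚ (AlgebraicClosure ℚ))) ∧
    ∀ (p : ℕ) [Fact p.Prime], 5 ≤ p →
      IsIntegral (pullback π (str ℤ (AlgebraicClosure (ZMod p)))) ∧
      Scheme.BirationalOver (pullback.snd π (str ℤ (AlgebraicClosure (ZMod p))))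
        (𝔸(Fin 37; Spec (.of (AlgebraicClosure (ZMod p)))) ↘
          Spec (.of (AlgebraicClosure (ZMod p)))) := by
  have hfin : Algebra.FiniteType ℤ (MvPolynomial Co ℤ ⧸ Ideal.span {GP ℤ}) := inferInstance
  refine ⟨Spec (.of (MvPolynomial Co ℤ ⧸ Ideal.span {GP ℤ})), piX, inferInstance, inferInstance,
    ?_, inferInstance, ?_, ?_, ?_⟩
  · rw [HasRingHomProperty.Spec_iff (P := @LocallyOfFiniteType)]
    exact RingHom.finiteType_algebraMap.2 hfin
  · refine geometricallyIntegral_fibre (GP ℤ) fun K _ _ => ?_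
    rw [GP_map]
    exact GP_prime K two_ne_zero three_ne_zero
  · rintro ⟨n, hn⟩
    have hdom : IsDomain (RX (AlgebraicClosure ℚ)) := isDomain_RX _ two_ne_zero three_ne_zero
    have h1 := (birationalOver_iter piX).symm.trans hn
    have h2 := (fibre_bir (AlgebraicClosure ℚ)).symm.trans h1
    obtain ⟨e⟩ := equiv_of_birationalOver n h2
    exact hnot (isRat_of_equiv _ _ n e)
  · intro p hp h5
    have hchar : CharP (AlgebraicClosure (ZMod p)) p := charP_of_injective_algebraMap
      (algebraMap (ZMod p) _).injective p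
    have key : ∀ m : ℕ, 0 < m → m < p → ((m : ℕ) : AlgebraicClosure (ZMod p)) ≠ 0 := by
      intro m h1 h2 h3
      exact absurd (Nat.le_of_dvd h1 ((CharP.cast_eq_zero_iff _ p m).1 h3)) (by omega)
    have h2 : (2 : AlgebraicClosure (ZMod p)) ≠ 0 := by
      exact_mod_cast key 2 (by omega) (by omega)
    have h3 : (3 : AlgebraicClosure (ZMod p)) ≠ 0 := by
      exact_mod_cast key 3 (by omega) (by omega)
    have hdom : IsDomain (RX (AlgebraicClosure (ZMod p))) := isDomain_RX _ h2 h3
    refine ⟨fibre_integral _, ?_⟩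
    obtain ⟨n, ⟨e⟩⟩ := hrat p h5
    have h4 : Algebra.trdeg (AlgebraicClosure (ZMod p)) (TX (AlgebraicClosure (ZMod p))) =
        Fintype.card Co' := trdeg_TX_of _ (cT_algInd _ h2 h3)
    rw [e.trdeg_eq, trdeg_frac, card_Co'] at h4
    have hn : n = 37 := by exact_mod_cast h4
    subst hn
    exact (fibre_bir _).trans (birationalOver_affine (Fin 37) e)

end Pool.Agent.RR.Sch
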